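import Pool.Agent.H.MP_e23cd6_ag.SG.Inv

/-!
# Existence of invariants, a lower bound for invariants, and separation of orbits
-/

set_option autoImplicit false

namespace Pool.Agent.SG

open Matrix Topology Set MeasureTheory Filter

namespace Rep

variable {n : ℕ} {ι : Type} [Fintype ι] [DecidableEq ι] {R : Rep n ι}

omit [DecidableEq ι] in
theorem isCompact_ns_le (c : ℝ) : IsCompact {x : ι → ℂ | ns x ≤ c} := by
  refine Metric.isCompact_of_isClosed_isBounded (isClosed_le continuous_ns continuous_const) ?_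
  refine (Metric.isBounded_closedBall (x := (0 : ι → ℂ)) (r := Real.sqrt c)).subset fun x hx => ?_
  rw [mem_closedBall_zero_iff, pi_norm_le_iff_of_nonneg (Real.sqrt_nonneg _)]
  intro i
  refine Real.le_sqrt_of_sq_le (le_trans ?_ hx)
  exact Finset.single_le_sum (f := fun i => ‖x i‖ ^ 2) (fun i _ => sq_nonneg _)
    (Finset.mem_univ i)

theorem continuous_act_right (R : Rep n ι) (g : Gp n) : Continuous fun v : ι → ℂ => R.act g v :=
  R.continuous_act.comp (continuous_const.prodMk continuous_id)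

omit [DecidableEq ι] in
theorem nm_smul_inv {w : ι → ℂ} (hw : 0 < ns w) : ns (((nm w)⁻¹ : ℂ) • w) = 1 := by
  rw [ns_smul, norm_inv, Complex.norm_real, Real.norm_eq_abs, abs_of_nonneg (nm_nonneg w),
    inv_pow, nm_sq, inv_mul_cancel₀ hw.ne']

/-- The minimal vector in the closure of an orbit whose norms are bounded below. -/
theorem exists_min (R : Rep n ι) {v : ι → ℂ} {m : ℝ} (hm : 0 < m)
    (h : ∀ g, m ≤ nm (R.act g v)) : ∃ w : ι → ℂ, R.Min w ∧ ∃ c : ℝ, m ≤ c ∧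
      (c : ℂ) • w ∈ closure (range fun g => R.act g v) := by
  obtain ⟨O, hO⟩ : ∃ O : Set (ι → ℂ), O = closure (range fun g => R.act g v) := ⟨_, rfl⟩
  have hvO : v ∈ O := by
    rw [hO]
    exact subset_closure ⟨1, R.act_one v⟩
  have hgO : ∀ g, ∀ x ∈ O, R.act g x ∈ O := by
    intro g x hx
    rw [hO] at hx ⊢
    refine map_mem_closure (R.continuous_act_right g) hx ?_
    rintro _ ⟨g', rfl⟩
    exact ⟨g * g', R.act_mul _ _ _⟩
  have hmO : ∀ x ∈ O, m ≤ nm x := by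
    intro x hx
    rw [hO] at hx
    refine closure_minimal (t := {x | m ≤ nm x}) ?_
      (isClosed_le continuous_const continuous_nm) hx
    rintro _ ⟨g, rfl⟩
    exact h g
  have hK : IsCompact (O ∩ {x | ns x ≤ ns v}) := by
    refine (isCompact_ns_le (ns v)).inter_left ?_
    rw [hO]
    exact isClosed_closure
  obtain ⟨w₀, hw₀, hmin⟩ := hK.exists_isMinOn
    ⟨v, hvO, (le_refl (ns v) : ns v ≤ ns v)⟩ continuous_ns.continuousOn
  have hmin' : ∀ x ∈ O, ns w₀ ≤ ns x := by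
    intro x hx
    rcases le_or_gt (ns x) (ns v) with h1 | h1
    · exact hmin ⟨hx, h1⟩
    · exact hw₀.2.trans h1.le
  have hnm : m ≤ nm w₀ := hmO w₀ hw₀.1
  have hnm0 : 0 < nm w₀ := hm.trans_le hnm
  have hns0 : 0 < ns w₀ := by
    rw [← nm_sq]
    positivity
  refine ⟨((nm w₀)⁻¹ : ℂ) • w₀, ⟨nm_smul_inv hns0, fun g => ?_⟩, nm w₀, hnm, ?_⟩
  · rw [R.act_smul, ns_smul, norm_inv, Complex.norm_real, Real.norm_eq_abs,
      abs_of_nonneg (nm_nonneg w₀), inv_pow, nm_sq, ← div_eq_inv_mul, one_le_div hns0]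
    exact hmin' _ (hgO g w₀ hw₀.1)
  · rw [smul_smul, mul_inv_cancel₀ (by exact_mod_cast hnm0.ne'), one_smul, ← hO]
    exact hw₀.1

omit [DecidableEq ι] [Fintype ι] in
theorem continuous_evalP (P : MvPolynomial ι ℂ) :
    Continuous fun v : ι → ℂ => MvPolynomial.eval v P := MvPolynomial.continuous_eval P

/-- Invariants are constant on orbit closures. -/
theorem Inv.closure {N : ℕ} {P : MvPolynomial ι ℂ} (hP : R.Inv N P) {v x : ι → ℂ}
    (hx : x ∈ closure (range fun g => R.act g v)) :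
    MvPolynomial.eval x P = MvPolynomial.eval v P := by
  refine closure_minimal (t := {x | MvPolynomial.eval x P = MvPolynomial.eval v P}) ?_
    (isClosed_eq (continuous_evalP P) continuous_const) hx
  rintro _ ⟨g, rfl⟩
  exact hP.inv g v

omit [DecidableEq ι] [Fintype ι] in
theorem eval_smul {N : ℕ} {P : MvPolynomial ι ℂ} (hP : P.IsHomogeneous N) (c : ℂ) (v : ι → ℂ) :
    MvPolynomial.eval (c • v) P = c ^ N * MvPolynomial.eval v P := by
  rw [MvPolynomial.eval_eq, MvPolynomial.eval_eq, Finset.mul_sum]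
  refine Finset.sum_congr rfl fun s hs => ?_
  have h1 : ∑ i ∈ s.support, s i = N := by
    have := hP (MvPolynomial.mem_support_iff.1 hs)
    rw [← this, Finsupp.weight_apply, Finsupp.sum]
    simp
  have h2 : ∏ i ∈ s.support, (c • v) i ^ s i = c ^ N * ∏ i ∈ s.support, v i ^ s i := by
    rw [← h1, ← Finset.prod_pow_eq_pow_sum, ← Finset.prod_mul_distrib]
    refine Finset.prod_congr rfl fun i _ => ?_
    rw [Pi.smul_apply, smul_eq_mul, mul_pow]
  rw [h2]
  ring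

theorem Inv.pow {N : ℕ} {P : MvPolynomial ι ℂ} (hP : R.Inv N P) (a : ℕ) :
    R.Inv (N * a) (P ^ a) :=
  ⟨hP.hom.pow a, fun g v => by rw [map_pow, map_pow, hP.inv]⟩

theorem Inv.smul {N : ℕ} {P : MvPolynomial ι ℂ} (hP : R.Inv N P) (c : ℂ) :
    R.Inv N (MvPolynomial.C c * P) := by
  refine ⟨?_, fun g v => by rw [map_mul, map_mul, MvPolynomial.eval_C, MvPolynomial.eval_C,
    hP.inv]⟩
  have h := (MvPolynomial.isHomogeneous_C ι c).mul hP.hom
  rwa [zero_add] at h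

theorem Inv.sub {N : ℕ} {P Q : MvPolynomial ι ℂ} (hP : R.Inv N P) (hQ : R.Inv N Q) :
    R.Inv N (P - Q) :=
  ⟨hP.hom.sub hQ.hom, fun g v => by rw [map_sub, map_sub, hP.inv, hQ.inv]⟩

/-- A minimal vector has an invariant of positive degree which does not vanish there. -/
theorem Min.exists_inv {w : ι → ℂ} (hw : R.Min w) : ∃ N > 0, ∃ P, R.Inv N P ∧
    MvPolynomial.eval w P ≠ 0 := by
  obtain ⟨N, hN, h⟩ := hw.lim (q := 1 / 2) (by norm_num) (by norm_num) 1
  refine ⟨N, hN, R.PN w N, R.inv_PN w N, ?_⟩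
  rw [R.eval_PN]
  intro h0
  rw [h0, norm_zero] at h
  have : (0 : ℝ) < (1 / 2) ^ N := by positivity
  linarith

/-- If the norms on the orbit of `v` are bounded below by a positive number, then some invariant
of positive degree does not vanish at `v`. -/
theorem inv_of_pos (R : Rep n ι) {v : ι → ℂ} {m : ℝ} (hm : 0 < m)
    (h : ∀ g, m ≤ nm (R.act g v)) :
    ∃ N > 0, ∃ P, R.Inv N P ∧ MvPolynomial.eval v P ≠ 0 := by
  obtain ⟨w, hw, c, hc, hcl⟩ := R.exists_min hm h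
  obtain ⟨N, hN, P, hP, h0⟩ := hw.exists_inv
  refine ⟨N, hN, P, hP, ?_⟩
  rw [← hP.closure hcl, eval_smul hP.hom]
  refine mul_ne_zero (pow_ne_zero _ ?_) h0
  have : 0 < c := hm.trans_le hc
  exact_mod_cast this.ne'

theorem isCompact_Min (R : Rep n ι) : IsCompact {w | R.Min w} := by
  have e : {w | R.Min w} = {w : ι → ℂ | ns w ≤ 1} ∩ ({w | ns w = 1} ∩
      ⋂ g, {w | 1 ≤ ns (R.act g w)}) := by
    ext w
    constructor
    · intro h
      exact ⟨h.1.le, h.1, mem_iInter.2 h.2⟩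
    · rintro ⟨_, h1, h2⟩
      exact ⟨h1, mem_iInter.1 h2⟩
  rw [e]
  refine (isCompact_ns_le 1).inter_right ((isClosed_eq continuous_ns continuous_const).inter ?_)
  exact isClosed_iInter fun g => isClosed_le continuous_const
    (continuous_ns.comp (R.continuous_act_right g))

/-- Finitely many invariants of the same degree bounding all minimal vectors. -/
theorem inv_bound_aux (R : Rep n ι) : ∃ N > 0, ∃ l : List (MvPolynomial ι ℂ),
    (∀ P ∈ l, R.Inv N P) ∧ ∃ c > 0, ∀ w ∈ {w | R.Min w}, ∃ P ∈ l,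
      c ≤ ‖MvPolynomial.eval w P‖ := by
  refine R.isCompact_Min.induction_on (p := fun s => ∃ N > 0, ∃ l : List (MvPolynomial ι ℂ),
    (∀ P ∈ l, R.Inv N P) ∧ ∃ c > 0, ∀ w ∈ s, ∃ P ∈ l, c ≤ ‖MvPolynomial.eval w P‖) ?_ ?_ ?_ ?_
  · exact ⟨1, one_pos, [], by simp, 1, one_pos, fun w hw => absurd hw (notMem_empty w)⟩
  · rintro s t hst ⟨N, hN, l, hl, c, hc, h⟩
    exact ⟨N, hN, l, hl, c, hc, fun w hw => h w (hst hw)⟩
  · rintro s t ⟨N₁, hN₁, l₁, hl₁, c₁, hc₁, h₁⟩ ⟨N₂, hN₂, l₂, hl₂, c₂, hc₂, h₂⟩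
    refine ⟨N₁ * N₂, Nat.mul_pos hN₁ hN₂, l₁.map (fun P => P ^ N₂) ++ l₂.map (fun P => P ^ N₁),
      ?_, min (c₁ ^ N₂) (c₂ ^ N₁), lt_min (pow_pos hc₁ _) (pow_pos hc₂ _), ?_⟩
    · intro P hP
      rcases List.mem_append.1 hP with hP | hP
      · obtain ⟨Q, hQ, rfl⟩ := List.mem_map.1 hP
        exact (hl₁ Q hQ).pow N₂
      · obtain ⟨Q, hQ, rfl⟩ := List.mem_map.1 hP
        rw [mul_comm]
        exact (hl₂ Q hQ).pow N₁
    · rintro w (hw | hw)
      · obtain ⟨P, hP, h⟩ := h₁ w hw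
        refine ⟨P ^ N₂, List.mem_append.2 (Or.inl (List.mem_map.2 ⟨P, hP, rfl⟩)), ?_⟩
        rw [map_pow, norm_pow]
        exact (min_le_left _ _).trans (pow_le_pow_left₀ hc₁.le h _)
      · obtain ⟨P, hP, h⟩ := h₂ w hw
        refine ⟨P ^ N₁, List.mem_append.2 (Or.inr (List.mem_map.2 ⟨P, hP, rfl⟩)), ?_⟩
        rw [map_pow, norm_pow]
        exact (min_le_right _ _).trans (pow_le_pow_left₀ hc₂.le h _)
  · intro w hw
    obtain ⟨N, hN, P, hP, h0⟩ := Min.exists_inv (R := R) hw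
    have h1 : 0 < ‖MvPolynomial.eval w P‖ := norm_pos_iff.2 h0
    refine ⟨{x | ‖MvPolynomial.eval w P‖ / 2 < ‖MvPolynomial.eval x P‖},
      mem_nhdsWithin_of_mem_nhds ?_, N, hN, [P], ?_, ‖MvPolynomial.eval w P‖ / 2, by positivity,
      fun x hx => ⟨P, List.mem_singleton.2 rfl, le_of_lt hx⟩⟩
    · refine (isOpen_lt continuous_const (continuous_evalP P).norm).mem_nhds ?_
      show ‖MvPolynomial.eval w P‖ / 2 < ‖MvPolynomial.eval w P‖
      linarith
    · intro Q hQ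
      rw [List.mem_singleton.1 hQ]
      exact hP

/-- There are finitely many invariants `p_i` of the same degree `N` and `c > 0` with
`max |p_i(v)| ≥ c (inf_G |g v|)^N` for all `v`. -/
theorem inv_bound (R : Rep n ι) : ∃ N > 0, ∃ (a : ℕ) (p : Fin a → MvPolynomial ι ℂ),
    (∀ i, R.Inv N (p i)) ∧ ∃ c > 0, ∀ (v : ι → ℂ) (m : ℝ), 0 < m →
      (∀ g, m ≤ nm (R.act g v)) → ∃ i, c * m ^ N ≤ ‖MvPolynomial.eval v (p i)‖ := by
  obtain ⟨N, hN, l, hl, c, hc, h⟩ := R.inv_bound_aux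
  refine ⟨N, hN, l.length, l.get, fun i => hl _ (List.get_mem l i), c, hc,
    fun v m hm hv => ?_⟩
  obtain ⟨w, hw, c', hc', hcl⟩ := R.exists_min hm hv
  obtain ⟨P, hP, hPw⟩ := h w hw
  obtain ⟨i, hi⟩ := List.get_of_mem hP
  refine ⟨i, ?_⟩
  rw [hi, ← (hl P hP).closure hcl, eval_smul (hl P hP).hom, norm_mul, norm_pow,
    Complex.norm_real, Real.norm_eq_abs, abs_of_nonneg (hm.le.trans hc'), mul_comm]
  exact mul_le_mul (pow_le_pow_left₀ hm.le hc' N) hPw hc.le (pow_nonneg (hm.le.trans hc') N)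

omit [DecidableEq ι] in
/-- Equality in the inequality of Cauchy and Schwarz. -/
theorem eq_of_ip {x y : ι → ℂ} (hx : ns x = 1) (hy : ns y = 1) (h : ‖ip x y‖ = 1) :
    x = ip x y • y := by
  have h1 := ns_sub x (ip x y • y)
  have h2 : ip x (ip x y • y) = ((‖ip x y‖ ^ 2 : ℝ) : ℂ) := by
    rw [← ip_star, ip_smul_left, star_mul, ip_star, ← Complex.normSq_eq_norm_sq]
    exact Complex.mul_conj _
  rw [ns_smul, h2, h, hx, hy, Complex.ofReal_re] at h1
  have h3 : ns (x - ip x y • y) = 0 := by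
    rw [h1]
    norm_num
  exact sub_eq_zero.1 (ns_eq_zero.1 h3)

/-- Separation of minimal vectors by invariants. -/
theorem inv_sep {w w' : ι → ℂ} (hw : R.Min w) (hw' : R.Min w')
    (hne : ∀ k ∈ SU n, ∀ ζ : ℂ, ‖ζ‖ = 1 → w' ≠ ζ • R.act k w) :
    ∃ N > 0, ∃ P, R.Inv N P ∧ MvPolynomial.eval w P ≠ 0 ∧ MvPolynomial.eval w' P = 0 := by
  have hnw : nm w = 1 := by
    unfold nm
    rw [hw.1, Real.sqrt_one]
  have hnw' : nm w' = 1 := by
    unfold nm
    rw [hw'.1, Real.sqrt_one]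
  have hcont : Continuous fun k : SU n => ‖ip w' (R.act (k : Gp n) w)‖ :=
    (R.continuous_phi w' w).norm
  obtain ⟨k₀, _, hk₀⟩ := (isCompact_univ (X := SU n)).exists_isMaxOn ⟨1, mem_univ _⟩
    hcont.continuousOn
  obtain ⟨q, hq⟩ : ∃ q : ℝ, q = ‖ip w' (R.act (k₀ : Gp n) w)‖ := ⟨_, rfl⟩
  have hq0 : 0 ≤ q := by
    rw [hq]
    exact norm_nonneg _
  have hmax : ∀ k ∈ SU n, ‖ip w' (R.act k w)‖ ≤ q := by
    intro k hk
    rw [hq]
    exact isMaxOn_iff.1 hk₀ ⟨k, hk⟩ (mem_univ _)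
  have hmax' : ∀ k ∈ SU n, ‖ip w (R.act k w')‖ ≤ q := by
    intro k hk
    have e : ip w (R.act k w') = Star.star (ip w' (R.act k⁻¹ w)) := by
      rw [← ip_star (R.act k w') w, R.ip_act, mem_SU.1 hk]
    rw [e, norm_star]
    exact hmax _ ((SU n).inv_mem hk)
  have hq1 : q < 1 := by
    have h1 : q ≤ 1 := by
      rw [hq]
      refine (norm_ip_le _ _).trans ?_
      rw [R.nm_act_SU k₀.2, hnw, hnw', one_mul]
    refine lt_of_le_of_ne h1 fun h2 => ?_
    rw [hq] at h2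
    have h3 := eq_of_ip hw'.1 (y := R.act (k₀ : Gp n) w) (by rw [R.ns_act_SU k₀.2, hw.1]) h2
    exact hne k₀ k₀.2 _ h2 h3
  obtain ⟨N, hN, h⟩ := hw.lim hq0 hq1 1
  obtain ⟨N', hN', h'⟩ := hw'.lim hq0 hq1 1
  have h2 := R.PI_le w N (v := w') hmax
  have h2' := R.PI_le w' N' (v := w) hmax'
  obtain ⟨p, hp⟩ : ∃ p, p = R.PN w N ^ N' := ⟨_, rfl⟩
  obtain ⟨p', hp'⟩ : ∃ p', p' = R.PN w' N' ^ N := ⟨_, rfl⟩
  have hpI : R.Inv (N * N') p := by
    rw [hp]
    exact (R.inv_PN w N).pow N'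
  have hpI' : R.Inv (N * N') p' := by
    rw [hp', mul_comm]
    exact (R.inv_PN w' N').pow N
  have e1 : ‖MvPolynomial.eval w' p‖ < ‖MvPolynomial.eval w p‖ := by
    rw [hp, map_pow, map_pow, norm_pow, norm_pow, R.eval_PN, R.eval_PN]
    exact pow_lt_pow_left₀ (h2.trans_lt h) (norm_nonneg _) (by omega)
  have e2 : ‖MvPolynomial.eval w p'‖ < ‖MvPolynomial.eval w' p'‖ := by
    rw [hp', map_pow, map_pow, norm_pow, norm_pow, R.eval_PN, R.eval_PN]
    exact pow_lt_pow_left₀ (h2'.trans_lt h') (norm_nonneg _) (by omega)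
  refine ⟨N * N', Nat.mul_pos hN hN', MvPolynomial.C (MvPolynomial.eval w' p') * p -
    MvPolynomial.C (MvPolynomial.eval w' p) * p', (hpI.smul _).sub (hpI'.smul _), ?_, ?_⟩
  · rw [map_sub, map_mul, map_mul, MvPolynomial.eval_C, MvPolynomial.eval_C]
    intro h0
    have h3 := congrArg norm (sub_eq_zero.1 h0)
    rw [norm_mul, norm_mul] at h3
    have h4 : ‖MvPolynomial.eval w' p‖ * ‖MvPolynomial.eval w p'‖ <
        ‖MvPolynomial.eval w p‖ * ‖MvPolynomial.eval w' p'‖ :=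
      mul_lt_mul'' e1 e2 (norm_nonneg _) (norm_nonneg _)
    linarith
  · rw [map_sub, map_mul, map_mul, MvPolynomial.eval_C, MvPolynomial.eval_C]
    ring

end Rep

end Pool.Agent.SG
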