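import Pool.Agent.H.MP_e23cd6_ag.SG.Var

/-!
# Tensor products of representations
-/

set_option autoImplicit false

namespace Pool.Agent.SG

open Matrix Topology
open scoped Kronecker

variable {n : ℕ} {ι κ : Type} [Fintype ι] [DecidableEq ι] [Fintype κ] [DecidableEq κ]

/-- The vector `v ⊗ w`. -/
def tv (v : ι → ℂ) (w : κ → ℂ) : ι × κ → ℂ := fun p => v p.1 * w p.2

omit [Fintype ι] [DecidableEq ι] [Fintype κ] [DecidableEq κ] in
theorem tv_smul_left (c : ℂ) (v : ι → ℂ) (w : κ → ℂ) : tv (c • v) w = c • tv v w := by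
  funext p
  simp [tv, mul_assoc]

omit [Fintype ι] [DecidableEq ι] [Fintype κ] [DecidableEq κ] in
theorem tv_smul_right (c : ℂ) (v : ι → ℂ) (w : κ → ℂ) : tv v (c • w) = c • tv v w := by
  funext p
  simp only [tv, Pi.smul_apply, smul_eq_mul]
  ring

omit [DecidableEq ι] [DecidableEq κ] in
theorem ns_tv (v : ι → ℂ) (w : κ → ℂ) : ns (tv v w) = ns v * ns w := by
  unfold ns
  rw [Finset.sum_mul_sum, Fintype.sum_prod_type]
  refine Finset.sum_congr rfl fun i _ => Finset.sum_congr rfl fun j _ => ?_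
  rw [tv, norm_mul, mul_pow]

omit [DecidableEq ι] [DecidableEq κ] in
theorem nm_tv (v : ι → ℂ) (w : κ → ℂ) : nm (tv v w) = nm v * nm w := by
  unfold nm
  rw [ns_tv, Real.sqrt_mul (ns_nonneg v)]

omit [DecidableEq ι] [DecidableEq κ] in
theorem ip_tv (v v' : ι → ℂ) (w w' : κ → ℂ) : ip (tv v w) (tv v' w') = ip v v' * ip w w' := by
  unfold ip
  rw [Finset.sum_mul_sum, Fintype.sum_prod_type]
  refine Finset.sum_congr rfl fun i _ => Finset.sum_congr rfl fun j _ => ?_
  rw [tv, tv, star_mul]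
  ring

namespace Rep

/-- The tensor product of two representations. -/
def tens (R : Rep n ι) (V : Rep n κ) : Rep n (ι × κ) where
  ρ :=
    { toFun := fun g => R.ρ g ⊗ₖ V.ρ g
      map_one' := by rw [map_one, map_one, Matrix.one_kronecker_one]
      map_mul' := fun g h => by rw [map_mul, map_mul, Matrix.mul_kronecker_mul] }
  cont := by
    refine continuous_matrix fun p q => ?_
    exact ((R.cont.matrix_elem p.1 q.1).mul (V.cont.matrix_elem p.2 q.2))
  star := fun g => by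
    show R.ρ (ct g) ⊗ₖ V.ρ (ct g) = (R.ρ g ⊗ₖ V.ρ g)ᴴ
    rw [Matrix.conjTranspose_kronecker, R.star, V.star]
  wt := fun p j => R.wt p.1 j + V.wt p.2 j
  diag := fun τ h => by
    show R.ρ (dgT τ h) ⊗ₖ V.ρ (dgT τ h) = _
    rw [R.diag, V.diag, Matrix.diagonal_kronecker_diagonal]
    have hτ : ∀ j, τ j ≠ 0 := fun j h0 => by
      rw [Finset.prod_eq_zero (Finset.mem_univ j) h0] at h
      exact zero_ne_one h
    congr 1
    funext p
    rw [← Finset.prod_mul_distrib]
    exact Finset.prod_congr rfl fun j _ => (zpow_add₀ (hτ j) _ _).symm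

variable (R : Rep n ι) (V : Rep n κ)

theorem act_tens (g : Gp n) (v : ι → ℂ) (w : κ → ℂ) :
    (R.tens V).act g (tv v w) = tv (R.act g v) (V.act g w) := by
  funext p
  show (R.ρ g ⊗ₖ V.ρ g *ᵥ tv v w) p = (R.ρ g *ᵥ v) p.1 * (V.ρ g *ᵥ w) p.2
  rw [Matrix.mulVec, Matrix.mulVec, Matrix.mulVec, dotProduct, dotProduct, dotProduct,
    Finset.sum_mul_sum, Fintype.sum_prod_type]
  refine Finset.sum_congr rfl fun i _ => Finset.sum_congr rfl fun j _ => ?_
  rw [tv, Matrix.kroneckerMap_apply]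
  ring

theorem lam_tens (p : ι × κ) (H : aa n) :
    (R.tens V).lam p H = R.lam p.1 H + V.lam p.2 H := by
  show ∑ j, ((R.wt p.1 j + V.wt p.2 j : ℤ) : ℝ) * H.1 j =
    (∑ j, (R.wt p.1 j : ℝ) * H.1 j) + ∑ j, (V.wt p.2 j : ℝ) * H.1 j
  rw [← Finset.sum_add_distrib]
  refine Finset.sum_congr rfl fun j _ => ?_
  push_cast
  ring

end Rep

/-- The polynomial `v ↦ P(v ⊗ e)`. -/
noncomputable def sbT (e : κ → ℂ) (P : MvPolynomial (ι × κ) ℂ) : MvPolynomial ι ℂ :=
  MvPolynomial.aeval (fun p : ι × κ => MvPolynomial.C (e p.2) * MvPolynomial.X p.1) P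

omit [Fintype ι] [DecidableEq ι] [Fintype κ] [DecidableEq κ] in
theorem eval_sbT (e : κ → ℂ) (P : MvPolynomial (ι × κ) ℂ) (v : ι → ℂ) :
    MvPolynomial.eval v (sbT e P) = MvPolynomial.eval (tv v e) P := by
  have h : ((MvPolynomial.eval v).comp
      (MvPolynomial.aeval (R := ℂ) (fun p : ι × κ => MvPolynomial.C (e p.2) *
        (MvPolynomial.X p.1 : MvPolynomial ι ℂ))).toRingHom) = MvPolynomial.eval (tv v e) := by
    apply MvPolynomial.ringHom_ext
    · intro r
      simp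
    · intro p
      simp [tv, mul_comm]
  exact congrArg (fun f => f P) h

omit [Fintype ι] [DecidableEq ι] [Fintype κ] [DecidableEq κ] in
theorem hom_sbT (e : κ → ℂ) {N : ℕ} {P : MvPolynomial (ι × κ) ℂ} (hP : P.IsHomogeneous N) :
    (sbT e P).IsHomogeneous N := by
  have h := hP.aeval (n := 1)
    (fun p : ι × κ => MvPolynomial.C (e p.2) * (MvPolynomial.X p.1 : MvPolynomial ι ℂ))
    (fun p => by
      have h1 := (MvPolynomial.isHomogeneous_C ι (e p.2)).mul (MvPolynomial.isHomogeneous_X ℂ p.1)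
      rwa [zero_add] at h1)
  rwa [one_mul] at h

end Pool.Agent.SG
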