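import Pool.Agent.H.MP_e23cd6_ag.SG.SVD

/-!
# The elements of `SU(n)` near the identity
-/

set_option autoImplicit false

namespace Pool.Agent.SG

open Matrix Topology

variable {n : ℕ}

/-- The distance (maximum of the absolute values of the entries) of `k` and `1`. -/
noncomputable def dst (k : Gp n) : ℝ :=
  ‖(fun i : Fin n => fun j : Fin n =>
    (k : Matrix (Fin n) (Fin n) ℂ) i j - (1 : Matrix (Fin n) (Fin n) ℂ) i j)‖

theorem dst_nonneg (k : Gp n) : 0 ≤ dst k := norm_nonneg _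

theorem entry_le_dst (k : Gp n) (i j : Fin n) :
    ‖(k : Matrix (Fin n) (Fin n) ℂ) i j - (1 : Matrix (Fin n) (Fin n) ℂ) i j‖ ≤ dst k :=
  (norm_le_pi_norm (f := fun j : Fin n => (k : Matrix (Fin n) (Fin n) ℂ) i j -
    (1 : Matrix (Fin n) (Fin n) ℂ) i j) j).trans
    (norm_le_pi_norm (f := fun i : Fin n => fun j : Fin n => (k : Matrix (Fin n) (Fin n) ℂ) i j -
      (1 : Matrix (Fin n) (Fin n) ℂ) i j) i)

theorem dst_le {k : Gp n} {r : ℝ} (hr : 0 ≤ r)
    (h : ∀ i j, ‖(k : Matrix (Fin n) (Fin n) ℂ) i j - (1 : Matrix (Fin n) (Fin n) ℂ) i j‖ ≤ r) :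
    dst k ≤ r :=
  (pi_norm_le_iff_of_nonneg hr).2 fun i => (pi_norm_le_iff_of_nonneg hr).2 fun j => h i j

theorem continuous_dst : Continuous (dst : Gp n → ℝ) := by
  unfold dst
  refine Continuous.norm ?_
  refine continuous_pi fun i => continuous_pi fun j => ?_
  have h1 : Continuous (fun k : Gp n => (k : Matrix (Fin n) (Fin n) ℂ)) := continuous_subtype_val
  exact ((continuous_apply_apply i j).comp h1).sub continuous_const

@[simp] theorem dst_one : dst (1 : Gp n) = 0 := by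
  unfold dst
  simp only [coe_gone, sub_self]
  exact norm_zero

/-- `|θ| ≤ 2 |e^{iθ} - 1|` for `|θ| ≤ π`. -/
theorem abs_le_exp {θ : ℝ} (h : |θ| ≤ Real.pi) : |θ| ≤ 2 * ‖Complex.exp (θ * Complex.I) - 1‖ := by
  have h1 : ‖Complex.exp (θ * Complex.I) - 1‖ = ‖2 * Real.sin (θ / 2)‖ := by
    rw [mul_comm]
    exact Complex.norm_exp_I_mul_ofReal_sub_one θ
  rw [h1, Real.norm_eq_abs, abs_mul, abs_two]
  have h2 : 2 / Real.pi * |θ / 2| ≤ |Real.sin (θ / 2)| := by
    apply Real.mul_abs_le_abs_sin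
    rw [abs_div, abs_two]
    linarith
  rw [abs_div, abs_two] at h2
  have hpi : Real.pi ≤ 4 := Real.pi_le_four
  have hpi0 := Real.pi_pos
  have h3 : 2 / Real.pi * (|θ| / 2) = |θ| / Real.pi := by
    field_simp
  rw [h3] at h2
  have h4 : |θ| / 4 ≤ |θ| / Real.pi := div_le_div_of_nonneg_left (abs_nonneg _) hpi0 hpi
  linarith

/-- `1 + k` is invertible for `k` near `1`. -/
theorem det_one_add {k : Gp n} (h : (n : ℝ) * dst k < 2) :
    (1 + (k : Matrix (Fin n) (Fin n) ℂ)).det ≠ 0 := by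
  intro h0
  obtain ⟨v, hv0, hv⟩ := Matrix.exists_mulVec_eq_zero_iff.2 h0
  obtain ⟨i, hi⟩ := Function.ne_iff.1 hv0
  have hne : Nonempty (Fin n) := ⟨i⟩
  obtain ⟨m, hm⟩ := Finite.exists_max (fun j => ‖v j‖)
  have hm0 : 0 < ‖v m‖ := lt_of_lt_of_le (norm_pos_iff.2 hi) (hm i)
  have h1 : 2 * v m = -∑ j, ((k : Matrix (Fin n) (Fin n) ℂ) m j -
      (1 : Matrix (Fin n) (Fin n) ℂ) m j) * v j := by
    have h2 := congrFun hv m
    rw [Matrix.add_mulVec, Matrix.one_mulVec] at h2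
    have h3 : ((k : Matrix (Fin n) (Fin n) ℂ) *ᵥ v) m =
      ∑ j, (k : Matrix (Fin n) (Fin n) ℂ) m j * v j := rfl
    have h4 : ∑ j, (1 : Matrix (Fin n) (Fin n) ℂ) m j * v j = v m := by
      have := congrFun (Matrix.one_mulVec v) m
      exact this
    rw [Pi.add_apply, h3, Pi.zero_apply] at h2
    simp only [sub_mul, Finset.sum_sub_distrib]
    rw [h4]
    linear_combination h2
  have h2 : ‖2 * v m‖ ≤ n * dst k * ‖v m‖ := by
    rw [h1, norm_neg]
    refine (norm_sum_le _ _).trans ?_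
    have h3 : ∀ j ∈ Finset.univ, ‖((k : Matrix (Fin n) (Fin n) ℂ) m j -
        (1 : Matrix (Fin n) (Fin n) ℂ) m j) * v j‖ ≤ dst k * ‖v m‖ := by
      intro j _
      rw [norm_mul]
      exact mul_le_mul (entry_le_dst k m j) (hm j) (norm_nonneg _) (dst_nonneg k)
    refine (Finset.sum_le_sum h3).trans ?_
    rw [Finset.sum_const, Finset.card_univ, Fintype.card_fin, nsmul_eq_mul, mul_assoc]
  rw [norm_mul, Complex.norm_ofNat] at h2
  nlinarith

/-- Diagonalization of the elements of `SU(n)` near the identity. -/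
theorem diag_unit {k : Gp n} (hk : k ∈ SU n) (h : (n : ℝ) * dst k < 2) :
    ∃ u ∈ SU n, ∃ c : Fin n → ℂ, (∀ j, ‖c j‖ = 1) ∧
      (u : Matrix (Fin n) (Fin n) ℂ) * (k : Matrix (Fin n) (Fin n) ℂ) =
        Matrix.diagonal c * (u : Matrix (Fin n) (Fin n) ℂ) := by
  obtain ⟨K, hK⟩ : ∃ K : Matrix (Fin n) (Fin n) ℂ, K = (k : Matrix (Fin n) (Fin n) ℂ) := ⟨_, rfl⟩
  have hdet : IsUnit (1 + K).det := by
    rw [hK]
    exact isUnit_iff_ne_zero.2 (det_one_add h)
  have hKK : Kᴴ * K = 1 := by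
    rw [hK]
    exact mem_SU'.1 hk
  have hKK' : K * Kᴴ = 1 := by
    rw [hK, ← coe_inv_SU hk, ← coe_gmul, mul_inv_cancel, coe_gone]
  obtain ⟨X, hX⟩ : ∃ X : Matrix (Fin n) (Fin n) ℂ,
      X = Complex.I • ((1 - K) * (1 + K)⁻¹) := ⟨_, rfl⟩
  have hXK : X * (1 + K) = Complex.I • (1 - K) := by
    rw [hX, Matrix.smul_mul, Matrix.mul_assoc, Matrix.nonsing_inv_mul _ hdet, Matrix.mul_one]
  have hdet' : IsUnit (1 + Kᴴ).det := by
    have : (1 + Kᴴ) = (1 + K)ᴴ := by
      rw [conjTranspose_add, conjTranspose_one]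
    rw [this, det_conjTranspose]
    exact hdet.star
  have hherm : X.IsHermitian := by
    have e1 : (1 + Kᴴ) * Xᴴ = -(Complex.I • (1 - Kᴴ)) := by
      have := congrArg conjTranspose hXK
      rw [conjTranspose_mul, conjTranspose_add, conjTranspose_one, conjTranspose_smul,
        conjTranspose_sub, conjTranspose_one] at this
      rw [this]
      have hI : star Complex.I = -Complex.I := Complex.conj_I
      rw [hI, neg_smul]
    have e2 : (1 + Kᴴ) * X * (1 + K) = (1 + Kᴴ) * Xᴴ * (1 + K) := by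
      rw [Matrix.mul_assoc, hXK, e1, Matrix.mul_smul, Matrix.neg_mul, Matrix.smul_mul, ← smul_neg]
      congr 1
      have e3 : (1 + Kᴴ) * (1 - K) = 1 - K + Kᴴ - Kᴴ * K := by noncomm_ring
      have e4 : (1 - Kᴴ) * (1 + K) = 1 + K - Kᴴ - Kᴴ * K := by noncomm_ring
      rw [e3, e4, hKK]
      abel
    have e5 : (1 + Kᴴ)⁻¹ * ((1 + Kᴴ) * X * (1 + K)) * (1 + K)⁻¹ = X := by
      rw [Matrix.mul_assoc (1 + Kᴴ) X, ← Matrix.mul_assoc, Matrix.nonsing_inv_mul _ hdet',
        Matrix.one_mul, Matrix.mul_assoc, Matrix.mul_nonsing_inv _ hdet, Matrix.mul_one]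
    have e6 : (1 + Kᴴ)⁻¹ * ((1 + Kᴴ) * Xᴴ * (1 + K)) * (1 + K)⁻¹ = Xᴴ := by
      rw [Matrix.mul_assoc (1 + Kᴴ) Xᴴ, ← Matrix.mul_assoc, Matrix.nonsing_inv_mul _ hdet',
        Matrix.one_mul, Matrix.mul_assoc, Matrix.mul_nonsing_inv _ hdet, Matrix.mul_one]
    show Xᴴ = X
    rw [← e6, ← e2, e5]
  obtain ⟨u, hu, hXu⟩ := diag_herm hherm
  obtain ⟨x, hx⟩ : ∃ x : Fin n → ℝ, x = hherm.eigenvalues := ⟨_, rfl⟩
  rw [← hx] at hXu
  have huu : (u : Matrix (Fin n) (Fin n) ℂ) * (u : Matrix (Fin n) (Fin n) ℂ)ᴴ = 1 := by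
    rw [← coe_inv_SU hu, ← coe_gmul, mul_inv_cancel, coe_gone]
  have huX : (u : Matrix (Fin n) (Fin n) ℂ) * X =
      Matrix.diagonal (fun i => (x i : ℂ)) * (u : Matrix (Fin n) (Fin n) ℂ) := by
    rw [hXu, ← Matrix.mul_assoc, ← Matrix.mul_assoc, huu, Matrix.one_mul]
  have hne : ∀ j, (x j : ℂ) + Complex.I ≠ 0 := by
    intro j h0
    have := congrArg Complex.im h0
    simp at this
  refine ⟨u, hu, fun j => (Complex.I - x j) / (x j + Complex.I), ?_, ?_⟩
  · intro j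
    rw [norm_div, div_eq_one_iff_eq (norm_ne_zero_iff.2 (hne j))]
    have e1 : Complex.I - (x j : ℂ) = -(star ((x j : ℂ) + Complex.I)) := by
      rw [star_add]
      have h1 : star (x j : ℂ) = (x j : ℂ) := Complex.conj_ofReal _
      have h2 : star Complex.I = -Complex.I := Complex.conj_I
      rw [h1, h2]
      ring
    rw [e1, norm_neg, norm_star]
  · have e1 : Matrix.diagonal (fun i => (x i : ℂ)) * ((u : Matrix (Fin n) (Fin n) ℂ) * (1 + K)) =
        Complex.I • ((u : Matrix (Fin n) (Fin n) ℂ) * (1 - K)) := by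
      rw [← Matrix.mul_assoc, ← huX, Matrix.mul_assoc, hXK, Matrix.mul_smul]
    rw [← hK]
    ext i j
    have e2 := congrFun (congrFun e1 i) j
    rw [Matrix.diagonal_mul, Matrix.smul_apply, Matrix.mul_add, Matrix.mul_sub, Matrix.mul_one,
      Matrix.add_apply, Matrix.sub_apply, smul_eq_mul] at e2
    rw [Matrix.diagonal_mul]
    have e3 := hne i
    rw [div_mul_eq_mul_div, eq_div_iff e3]
    linear_combination e2

/-- The elements of `SU(n)` near the identity. -/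
theorem near_one (n : ℕ) : ∃ r > 0, ∀ k ∈ SU n, dst k ≤ r → ∃ u ∈ SU n, ∃ H : aa n,
    k = u⁻¹ * dg H Complex.I * u ∧ ∀ j, |H.1 j| ≤ 2 * (n : ℝ) ^ 2 * dst k := by
  refine ⟨1 / (2 * ((n : ℝ) + 1) ^ 3), by positivity, fun k hk hd => ?_⟩
  have hn0 : (0 : ℝ) ≤ n := n.cast_nonneg
  have hd0 := dst_nonneg k
  have hd' : dst k * (2 * ((n : ℝ) + 1) ^ 3) ≤ 1 := by
    rw [le_div_iff₀ (by positivity)] at hd
    exact hd
  have hN : (n : ℝ) ^ 3 ≤ ((n : ℝ) + 1) ^ 3 := by
    apply pow_le_pow_left₀ hn0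
    linarith
  have hN1 : (n : ℝ) ≤ ((n : ℝ) + 1) ^ 3 := by nlinarith [sq_nonneg (n : ℝ)]
  have h2 : (n : ℝ) * dst k < 2 := by nlinarith
  obtain ⟨u, hu, c, hc, huk⟩ := diag_unit hk h2
  have huu : (u : Matrix (Fin n) (Fin n) ℂ) * (u : Matrix (Fin n) (Fin n) ℂ)ᴴ = 1 := by
    rw [← coe_inv_SU hu, ← coe_gmul, mul_inv_cancel, coe_gone]
  have huu' : (u : Matrix (Fin n) (Fin n) ℂ)ᴴ * (u : Matrix (Fin n) (Fin n) ℂ) = 1 :=
    mem_SU'.1 hu
  have hcE : ∀ j, c j - 1 = ∑ a, ∑ b, (u : Matrix (Fin n) (Fin n) ℂ) j a *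
      ((k : Matrix (Fin n) (Fin n) ℂ) a b - (1 : Matrix (Fin n) (Fin n) ℂ) a b) *
      star ((u : Matrix (Fin n) (Fin n) ℂ) j b) := by
    intro j
    have e1 : (u : Matrix (Fin n) (Fin n) ℂ) * ((k : Matrix (Fin n) (Fin n) ℂ) - 1) *
        (u : Matrix (Fin n) (Fin n) ℂ)ᴴ = Matrix.diagonal c - 1 := by
      rw [Matrix.mul_sub, huk, Matrix.mul_one, Matrix.sub_mul, Matrix.mul_assoc, huu,
        Matrix.mul_one]
    have e2 := congrFun (congrFun e1 j) j
    rw [Matrix.sub_apply, Matrix.diagonal_apply_eq, Matrix.one_apply_eq] at e2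
    rw [← e2, Matrix.mul_apply]
    simp only [Matrix.mul_apply, Finset.sum_mul, Matrix.conjTranspose_apply, Matrix.sub_apply]
    exact Finset.sum_comm
  have hcb : ∀ j, ‖c j - 1‖ ≤ (n : ℝ) ^ 2 * dst k := by
    intro j
    rw [hcE j]
    refine (norm_sum_le _ _).trans ?_
    have h3 : ∀ a ∈ Finset.univ, ‖∑ b, (u : Matrix (Fin n) (Fin n) ℂ) j a *
        ((k : Matrix (Fin n) (Fin n) ℂ) a b - (1 : Matrix (Fin n) (Fin n) ℂ) a b) *
        star ((u : Matrix (Fin n) (Fin n) ℂ) j b)‖ ≤ n * dst k := by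
      intro a _
      refine (norm_sum_le _ _).trans ?_
      have h4 : ∀ b ∈ Finset.univ, ‖(u : Matrix (Fin n) (Fin n) ℂ) j a *
          ((k : Matrix (Fin n) (Fin n) ℂ) a b - (1 : Matrix (Fin n) (Fin n) ℂ) a b) *
          star ((u : Matrix (Fin n) (Fin n) ℂ) j b)‖ ≤ dst k := by
        intro b _
        rw [norm_mul, norm_mul, norm_star]
        have a1 := SU_entry_le hu j a
        have a2 := SU_entry_le hu j b
        have a3 := entry_le_dst k a b
        have a4 := norm_nonneg ((u : Matrix (Fin n) (Fin n) ℂ) j a)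
        have a5 := norm_nonneg ((u : Matrix (Fin n) (Fin n) ℂ) j b)
        have a6 := norm_nonneg ((k : Matrix (Fin n) (Fin n) ℂ) a b -
          (1 : Matrix (Fin n) (Fin n) ℂ) a b)
        calc _ ≤ 1 * dst k * 1 := by gcongr
          _ = dst k := by ring
      refine (Finset.sum_le_sum h4).trans ?_
      rw [Finset.sum_const, Finset.card_univ, Fintype.card_fin, nsmul_eq_mul]
    refine (Finset.sum_le_sum h3).trans ?_
    rw [Finset.sum_const, Finset.card_univ, Fintype.card_fin, nsmul_eq_mul]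
    exact le_of_eq (by ring)
  have hcexp : ∀ j, c j = Complex.exp ((Complex.arg (c j) : ℝ) * Complex.I) := by
    intro j
    have := Complex.norm_mul_exp_arg_mul_I (c j)
    rw [hc j, Complex.ofReal_one, one_mul] at this
    exact this.symm
  have hθ : ∀ j, |Complex.arg (c j)| ≤ 2 * (n : ℝ) ^ 2 * dst k := by
    intro j
    have h3 := abs_le_exp (Complex.abs_arg_le_pi (c j))
    rw [← hcexp j] at h3
    have := hcb j
    linarith
  have hsum : ∑ j, Complex.arg (c j) = 0 := by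
    have hdetc : ∏ j, c j = 1 := by
      have h3 := congrArg Matrix.det huk
      rw [Matrix.det_mul, Matrix.det_mul, Matrix.det_diagonal] at h3
      have h4 : (u : Matrix (Fin n) (Fin n) ℂ).det = 1 := u.det_coe
      have h5 : (k : Matrix (Fin n) (Fin n) ℂ).det = 1 := k.det_coe
      rw [h4, h5] at h3
      simpa using h3.symm
    have h3 : Complex.exp ((∑ j, Complex.arg (c j) : ℝ) * Complex.I) = 1 := by
      rw [Complex.ofReal_sum, Finset.sum_mul, Complex.exp_sum, ← hdetc]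
      exact Finset.prod_congr rfl fun j _ => (hcexp j).symm
    rw [Complex.exp_eq_one_iff] at h3
    obtain ⟨m, hm⟩ := h3
    have h4 : (∑ j, Complex.arg (c j)) = m * (2 * Real.pi) := by
      have h5 : ((∑ j, Complex.arg (c j) : ℝ) : ℂ) = ((m * (2 * Real.pi) : ℝ) : ℂ) := by
        apply mul_right_cancel₀ Complex.I_ne_zero
        rw [hm]
        push_cast
        ring
      exact_mod_cast h5
    have h5 : |∑ j, Complex.arg (c j)| ≤ 1 := by
      refine (Finset.abs_sum_le_sum_abs _ _).trans ?_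
      refine (Finset.sum_le_sum fun j _ => hθ j).trans ?_
      rw [Finset.sum_const, Finset.card_univ, Fintype.card_fin, nsmul_eq_mul]
      have h6 : (n : ℝ) * (2 * (n : ℝ) ^ 2 * dst k) = dst k * (2 * (n : ℝ) ^ 3) := by ring
      rw [h6]
      refine le_trans ?_ hd'
      apply mul_le_mul_of_nonneg_left _ hd0
      linarith
    have h6 : m = 0 := by
      by_contra hm0
      have h7 : (1 : ℝ) ≤ |(m : ℝ)| := by exact_mod_cast Int.one_le_abs hm0
      rw [h4, abs_mul, abs_of_pos (by positivity : (0 : ℝ) < 2 * Real.pi)] at h5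
      have h8 := Real.pi_gt_three
      nlinarith
    rw [h4, h6]
    simp
  refine ⟨u, hu, ⟨fun j => Complex.arg (c j), hsum⟩, ?_, hθ⟩
  apply gp_ext
  rw [coe_gmul, coe_gmul, coe_inv_SU hu, coe_dg]
  have e1 : (Matrix.diagonal fun j => Complex.exp (Complex.I * (Complex.arg (c j) : ℝ))) =
      Matrix.diagonal c := by
    congr 1
    funext j
    rw [mul_comm]
    exact (hcexp j).symm
  show (k : Matrix (Fin n) (Fin n) ℂ) = (u : Matrix (Fin n) (Fin n) ℂ)ᴴ *
    (Matrix.diagonal fun j => Complex.exp (Complex.I * (Complex.arg (c j) : ℝ))) *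
    (u : Matrix (Fin n) (Fin n) ℂ)
  rw [e1, Matrix.mul_assoc, ← huk, ← Matrix.mul_assoc, huu', Matrix.one_mul]

end Pool.Agent.SG
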