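import Pool.Agent.H.MP_e23cd6_ag.SG.Haar

/-!
# Minimal vectors: first variation, and the matrix coefficient `⟨k w, w⟩` near the identity
-/

set_option autoImplicit false

namespace Pool.Agent.SG

open Matrix Topology Set

/-! ## Norms -/

section vec

variable {ι : Type} [Fintype ι]

theorem ns_nonneg (v : ι → ℂ) : 0 ≤ ns v := Finset.sum_nonneg fun _ _ => sq_nonneg _

theorem nm_nonneg (v : ι → ℂ) : 0 ≤ nm v := Real.sqrt_nonneg _

theorem nm_sq (v : ι → ℂ) : nm v ^ 2 = ns v := Real.sq_sqrt (ns_nonneg v)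

@[simp] theorem ns_zero : ns (0 : ι → ℂ) = 0 := by simp [ns]

theorem ns_eq_zero {v : ι → ℂ} : ns v = 0 ↔ v = 0 := by
  constructor
  · intro h
    funext i
    have h1 := (Finset.sum_eq_zero_iff_of_nonneg (fun i _ => sq_nonneg ‖v i‖)).1 h i
      (Finset.mem_univ i)
    exact norm_eq_zero.1 (pow_eq_zero_iff two_ne_zero |>.1 h1)
  · rintro rfl
    exact ns_zero

theorem ns_smul (c : ℂ) (v : ι → ℂ) : ns (c • v) = ‖c‖ ^ 2 * ns v := by
  unfold ns
  rw [Finset.mul_sum]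
  refine Finset.sum_congr rfl fun i _ => ?_
  rw [Pi.smul_apply, smul_eq_mul, norm_mul, mul_pow]

theorem nm_smul (c : ℂ) (v : ι → ℂ) : nm (c • v) = ‖c‖ * nm v := by
  unfold nm
  rw [ns_smul, Real.sqrt_mul (sq_nonneg _), Real.sqrt_sq (norm_nonneg _)]

theorem continuous_ns : Continuous (ns : (ι → ℂ) → ℝ) := by
  unfold ns
  exact continuous_finsetSum _ fun i _ => (continuous_norm.comp (continuous_apply i)).pow 2

theorem continuous_nm : Continuous (nm : (ι → ℂ) → ℝ) := continuous_ns.sqrt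

theorem nm_eq_norm (v : ι → ℂ) : nm v = ‖(WithLp.toLp 2 v : EuclideanSpace ℂ ι)‖ := by
  rw [EuclideanSpace.norm_eq]
  rfl

theorem ip_eq_inner (v w : ι → ℂ) :
    ip v w = inner ℂ (WithLp.toLp 2 w : EuclideanSpace ℂ ι) (WithLp.toLp 2 v) := by
  rw [EuclideanSpace.inner_eq_star_dotProduct]
  rfl

theorem norm_ip_le (v w : ι → ℂ) : ‖ip v w‖ ≤ nm v * nm w := by
  rw [ip_eq_inner, nm_eq_norm, nm_eq_norm, mul_comm]
  exact norm_inner_le_norm _ _

theorem ip_self (v : ι → ℂ) : ip v v = (ns v : ℂ) := by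
  unfold ip ns
  rw [Complex.ofReal_sum]
  refine Finset.sum_congr rfl fun i _ => ?_
  have := Complex.mul_conj (v i)
  rw [Complex.normSq_eq_norm_sq] at this
  exact this

theorem ip_star (v w : ι → ℂ) : star (ip v w) = ip w v := by
  unfold ip
  rw [star_sum]
  refine Finset.sum_congr rfl fun i _ => ?_
  rw [star_mul, star_star]

theorem ip_add_left (u v w : ι → ℂ) : ip (u + v) w = ip u w + ip v w := by
  unfold ip
  rw [← Finset.sum_add_distrib]
  refine Finset.sum_congr rfl fun i _ => ?_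
  rw [Pi.add_apply, add_mul]

theorem ip_smul_left (c : ℂ) (v w : ι → ℂ) : ip (c • v) w = c * ip v w := by
  unfold ip
  rw [Finset.mul_sum]
  refine Finset.sum_congr rfl fun i _ => ?_
  rw [Pi.smul_apply, smul_eq_mul, mul_assoc]

/-- `|v - w|² = |v|² + |w|² - 2 Re ⟨v, w⟩`. -/
theorem ns_sub (v w : ι → ℂ) : ns (v - w) = ns v + ns w - 2 * (ip v w).re := by
  unfold ns ip
  rw [Complex.re_sum, Finset.mul_sum, ← Finset.sum_add_distrib, ← Finset.sum_sub_distrib]
  refine Finset.sum_congr rfl fun i _ => ?_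
  rw [Pi.sub_apply, ← Complex.normSq_eq_norm_sq, ← Complex.normSq_eq_norm_sq,
    ← Complex.normSq_eq_norm_sq, Complex.normSq_sub]
  rfl

end vec

/-! ## The action -/

namespace Rep

variable {n : ℕ} {ι : Type} [Fintype ι] [DecidableEq ι] (R : Rep n ι)

theorem act_mul (g h : Gp n) (v : ι → ℂ) : R.act (g * h) v = R.act g (R.act h v) := by
  unfold act
  rw [map_mul, ← Matrix.mulVec_mulVec]

@[simp] theorem act_one (v : ι → ℂ) : R.act 1 v = v := by
  unfold act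
  rw [map_one, Matrix.one_mulVec]

theorem act_smul (g : Gp n) (c : ℂ) (v : ι → ℂ) : R.act g (c • v) = c • R.act g v :=
  Matrix.mulVec_smul _ _ _

theorem act_zero (g : Gp n) : R.act g (0 : ι → ℂ) = 0 := Matrix.mulVec_zero _

theorem ip_act (g : Gp n) (v w : ι → ℂ) : ip (R.act g v) w = ip v (R.act (ct g) w) := by
  unfold act
  rw [R.star]
  have h1 : ∀ x y : ι → ℂ, ip x y = x ⬝ᵥ Star.star y := fun _ _ => rfl
  rw [h1, h1, Matrix.star_mulVec, conjTranspose_conjTranspose, dotProduct_comm,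
    Matrix.dotProduct_mulVec, dotProduct_comm]

theorem ip_act_SU {k : Gp n} (hk : k ∈ SU n) (v w : ι → ℂ) :
    ip (R.act k v) (R.act k w) = ip v w := by
  rw [ip_act, mem_SU.1 hk, ← act_mul, inv_mul_cancel, act_one]

theorem ns_act_SU {k : Gp n} (hk : k ∈ SU n) (v : ι → ℂ) : ns (R.act k v) = ns v := by
  have h := R.ip_act_SU hk v v
  rw [ip_self, ip_self] at h
  exact_mod_cast h

theorem nm_act_SU {k : Gp n} (hk : k ∈ SU n) (v : ι → ℂ) : nm (R.act k v) = nm v := by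
  unfold nm
  rw [R.ns_act_SU hk]

theorem continuous_act : Continuous (fun p : Gp n × (ι → ℂ) => R.act p.1 p.2) := by
  unfold act
  exact Continuous.matrix_mulVec (R.cont.comp continuous_fst) continuous_snd

theorem act_dg (H : aa n) (z : ℂ) (v : ι → ℂ) (i : ι) :
    R.act (dg H z) v i = Complex.exp (z * R.lam i H) * v i := by
  unfold act dg
  rw [R.diag, Matrix.mulVec_diagonal]
  congr 1
  unfold lam
  rw [Complex.ofReal_sum, Finset.mul_sum, Complex.exp_sum]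
  refine Finset.prod_congr rfl fun j _ => ?_
  rw [← Complex.exp_int_mul]
  congr 1
  push_cast
  ring

theorem ns_act_dg (H : aa n) (s : ℝ) (v : ι → ℂ) :
    ns (R.act (dg H s) v) = ∑ i, Real.exp (2 * s * R.lam i H) * ‖v i‖ ^ 2 := by
  unfold ns
  refine Finset.sum_congr rfl fun i _ => ?_
  rw [act_dg, norm_mul, mul_pow, Complex.norm_exp, ← Real.exp_nat_mul]
  congr 2
  rw [← Complex.ofReal_mul, Complex.ofReal_re]
  push_cast
  ring

/-- `w` is a unit vector of minimal norm in its orbit. -/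
def Min (w : ι → ℂ) : Prop := ns w = 1 ∧ ∀ g, 1 ≤ ns (R.act g w)

variable {R}

theorem Min.act {w : ι → ℂ} (h : R.Min w) {k : Gp n} (hk : k ∈ SU n) : R.Min (R.act k w) := by
  refine ⟨by rw [R.ns_act_SU hk, h.1], fun g => ?_⟩
  rw [← R.act_mul]
  exact h.2 _

/-- First variation. -/
theorem Min.var {w : ι → ℂ} (h : R.Min w) (H : aa n) : ∑ i, ‖w i‖ ^ 2 * R.lam i H = 0 := by
  have hd : HasDerivAt (fun s : ℝ => ∑ i, Real.exp (2 * s * R.lam i H) * ‖w i‖ ^ 2)
      (∑ i, (Real.exp (2 * 0 * R.lam i H) * (2 * 1 * R.lam i H)) * ‖w i‖ ^ 2) 0 := by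
    refine HasDerivAt.fun_sum fun i _ => ?_
    have h1 : HasDerivAt (fun s : ℝ => 2 * s * R.lam i H) (2 * 1 * R.lam i H) 0 :=
      ((hasDerivAt_id (0 : ℝ)).const_mul 2).mul_const _
    exact (h1.exp).mul_const _
  have hmin : IsLocalMin (fun s : ℝ => ∑ i, Real.exp (2 * s * R.lam i H) * ‖w i‖ ^ 2) 0 := by
    refine Filter.Eventually.of_forall fun s => ?_
    have e0 : ∑ i, Real.exp (2 * 0 * R.lam i H) * ‖w i‖ ^ 2 = 1 := by
      rw [← h.1]
      unfold ns
      refine Finset.sum_congr rfl fun i _ => ?_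
      rw [mul_zero, zero_mul, Real.exp_zero, one_mul]
    show ∑ i, Real.exp (2 * 0 * R.lam i H) * ‖w i‖ ^ 2 ≤
      ∑ i, Real.exp (2 * s * R.lam i H) * ‖w i‖ ^ 2
    rw [e0, ← R.ns_act_dg]
    exact h.2 _
  have h0 := hmin.hasDerivAt_eq_zero hd
  have h1 : ∑ i, (Real.exp (2 * 0 * R.lam i H) * (2 * 1 * R.lam i H)) * ‖w i‖ ^ 2 =
      2 * ∑ i, ‖w i‖ ^ 2 * R.lam i H := by
    rw [Finset.mul_sum]
    refine Finset.sum_congr rfl fun i _ => ?_
    rw [mul_zero, zero_mul, Real.exp_zero]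
    ring
  rw [h1] at h0
  linarith

variable (R)

/-- The matrix coefficient. -/
noncomputable def psi (w : ι → ℂ) (k : Gp n) : ℂ := ip (R.act k w) w

theorem psi_near (w : ι → ℂ) {u : Gp n} (hu : u ∈ SU n) (H : aa n) :
    R.psi w (u⁻¹ * dg H Complex.I * u) =
      ∑ i, Complex.exp (Complex.I * R.lam i H) * (‖R.act u w i‖ ^ 2 : ℝ) := by
  unfold psi
  rw [mul_assoc, R.act_mul, R.ip_act, ct_inv, mem_SU.1 hu, inv_inv, R.act_mul]
  unfold ip
  refine Finset.sum_congr rfl fun i _ => ?_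
  rw [R.act_dg, mul_assoc]
  congr 1
  have := Complex.mul_conj (R.act u w i)
  rw [Complex.normSq_eq_norm_sq] at this
  exact this

/-- The bound of the weights. -/
def Wt : ℝ := ∑ i, ∑ j, |(R.wt i j : ℝ)|

theorem Wt_nonneg : 0 ≤ R.Wt := Finset.sum_nonneg fun _ _ => Finset.sum_nonneg fun _ _ =>
  abs_nonneg _

theorem lam_le (i : ι) (H : aa n) {m : ℝ} (hm : ∀ j, |H.1 j| ≤ m) (hm0 : 0 ≤ m) :
    |R.lam i H| ≤ R.Wt * m := by
  unfold lam Wt
  have h1 : |∑ j, (R.wt i j : ℝ) * H.1 j| ≤ (∑ j, |(R.wt i j : ℝ)|) * m := by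
    refine (Finset.abs_sum_le_sum_abs _ _).trans ?_
    rw [Finset.sum_mul]
    refine Finset.sum_le_sum fun j _ => ?_
    rw [abs_mul]
    exact mul_le_mul_of_nonneg_left (hm j) (abs_nonneg _)
  refine h1.trans (mul_le_mul_of_nonneg_right ?_ hm0)
  exact Finset.single_le_sum (f := fun i => ∑ j, |(R.wt i j : ℝ)|)
    (fun i _ => Finset.sum_nonneg fun j _ => abs_nonneg _) (Finset.mem_univ i)

theorem sin_est {x : ℝ} (hx : |x| ≤ 1) : |Real.sin x - x| ≤ |x| * x ^ 2 := by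
  have h1 := Real.sin_bound hx
  have h2 : |Real.sin x - x| ≤ |Real.sin x - (x - x ^ 3 / 6)| + |x ^ 3 / 6| := by
    have e : Real.sin x - x = (Real.sin x - (x - x ^ 3 / 6)) - x ^ 3 / 6 := by ring
    rw [e]
    exact abs_sub _ _
  have h3 : |x ^ 3 / 6| = |x| ^ 3 / 6 := by
    rw [abs_div, abs_pow]
    norm_num
  have h4 : |x| * x ^ 2 = |x| ^ 3 := by
    rw [← sq_abs]
    ring
  rw [h4]
  have h5 : |x| ^ 5 ≤ |x| ^ 3 := by
    have : |x| ^ 5 = |x| ^ 3 * |x| ^ 2 := by ring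
    rw [this]
    exact mul_le_of_le_one_right (by positivity) (pow_le_one₀ (abs_nonneg _) hx)
  have h6 : 0 ≤ |x| ^ 3 := by positivity
  linarith

theorem cos_est {x : ℝ} (hx : |x| ≤ 1) : x ^ 2 / 4 ≤ 1 - Real.cos x := by
  have h1 := (abs_le.1 (Real.cos_bound hx)).2
  have h2 : |x| ^ 4 ≤ x ^ 2 := by
    have : |x| ^ 4 = |x| ^ 2 * |x| ^ 2 := by ring
    rw [this, sq_abs]
    have h3 : x ^ 2 ≤ 1 := by
      rw [← sq_abs]
      exact pow_le_one₀ (abs_nonneg _) hx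
    nlinarith [sq_nonneg x]
  nlinarith [sq_nonneg x]

variable {R}

/-- Near the identity the matrix coefficient of a minimal vector is tangent to the real axis. -/
theorem Min.near {w : ι → ℂ} (hw : R.Min w) {ε : ℝ} (hε : 0 < ε) : ∃ r > 0, ∀ k ∈ SU n,
    dst k ≤ r → |(R.psi w k).im| ≤ ε * (1 - (R.psi w k).re) := by
  obtain ⟨r₀, hr₀, hnear⟩ := near_one n
  have hn0 : (0 : ℝ) ≤ n := n.cast_nonneg
  have hW := R.Wt_nonneg
  obtain ⟨δ, hδ⟩ : ∃ δ : ℝ, δ = min 1 (ε / 4) := ⟨_, rfl⟩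
  have hδ0 : 0 < δ := by
    rw [hδ]
    exact lt_min one_pos (by linarith)
  have hδ1 : δ ≤ 1 := by
    rw [hδ]
    exact min_le_left _ _
  have hδ2 : δ ≤ ε / 4 := by
    rw [hδ]
    exact min_le_right _ _
  refine ⟨min r₀ (δ / ((R.Wt + 1) * (2 * (n : ℝ) ^ 2 + 1))), lt_min hr₀ (by positivity),
    fun k hk hd => ?_⟩
  obtain ⟨u, hu, H, hkH, hH⟩ := hnear k hk (hd.trans (min_le_left _ _))
  have hd2 : dst k * ((R.Wt + 1) * (2 * (n : ℝ) ^ 2 + 1)) ≤ δ := by
    rw [← le_div_iff₀ (by positivity)]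
    exact hd.trans (min_le_right _ _)
  have hdn := dst_nonneg k
  have hlam : ∀ i, |R.lam i H| ≤ δ := by
    intro i
    refine (R.lam_le i H hH (by positivity)).trans (le_trans ?_ hd2)
    have h1 : R.Wt * (2 * (n : ℝ) ^ 2 * dst k) = dst k * (R.Wt * (2 * (n : ℝ) ^ 2)) := by ring
    rw [h1]
    apply mul_le_mul_of_nonneg_left _ hdn
    apply mul_le_mul (by linarith) (by linarith) (by positivity) (by linarith)
  have hw' := hw.act hu
  have hvar := hw'.var H
  obtain ⟨a, ha⟩ : ∃ a : ι → ℝ, ∀ i, a i = ‖R.act u w i‖ ^ 2 := ⟨_, fun _ => rfl⟩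
  have ha0 : ∀ i, 0 ≤ a i := fun i => by
    rw [ha]
    positivity
  have hasum : ∑ i, a i = 1 := by
    rw [← hw'.1]
    exact Finset.sum_congr rfl fun i _ => ha i
  have hvar' : ∑ i, a i * R.lam i H = 0 := by
    rw [← hvar]
    exact Finset.sum_congr rfl fun i _ => by rw [ha]
  have hpsi : R.psi w k = ∑ i, Complex.exp (Complex.I * R.lam i H) * (a i : ℂ) := by
    rw [hkH, R.psi_near w hu]
    exact Finset.sum_congr rfl fun i _ => by rw [ha]
  have hexp : ∀ x : ℝ, Complex.exp (Complex.I * x) = ⟨Real.cos x, Real.sin x⟩ := by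
    intro x
    rw [mul_comm, Complex.exp_mul_I]
    apply Complex.ext
    · simp [← Complex.ofReal_cos, ← Complex.ofReal_sin]
    · simp [← Complex.ofReal_cos, ← Complex.ofReal_sin]
  have him : (R.psi w k).im = ∑ i, a i * (Real.sin (R.lam i H) - R.lam i H) := by
    rw [hpsi, Complex.im_sum]
    simp only [mul_sub, Finset.sum_sub_distrib, hvar', sub_zero]
    refine Finset.sum_congr rfl fun i _ => ?_
    rw [Complex.im_mul_ofReal, hexp]
    ring
  have hre : 1 - (R.psi w k).re = ∑ i, a i * (1 - Real.cos (R.lam i H)) := by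
    rw [hpsi, Complex.re_sum]
    simp only [mul_sub, Finset.sum_sub_distrib, mul_one, hasum]
    congr 1
    refine Finset.sum_congr rfl fun i _ => ?_
    rw [Complex.re_mul_ofReal, hexp]
    ring
  rw [him, hre]
  have h1 : |∑ i, a i * (Real.sin (R.lam i H) - R.lam i H)| ≤
      ∑ i, a i * (δ * R.lam i H ^ 2) := by
    refine (Finset.abs_sum_le_sum_abs _ _).trans (Finset.sum_le_sum fun i _ => ?_)
    rw [abs_mul, abs_of_nonneg (ha0 i)]
    refine mul_le_mul_of_nonneg_left ?_ (ha0 i)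
    refine (sin_est ((hlam i).trans hδ1)).trans ?_
    exact mul_le_mul_of_nonneg_right (hlam i) (sq_nonneg _)
  refine h1.trans ?_
  rw [Finset.mul_sum]
  refine Finset.sum_le_sum fun i _ => ?_
  have h2 := cos_est ((hlam i).trans hδ1)
  have h3 : δ * R.lam i H ^ 2 ≤ ε * (1 - Real.cos (R.lam i H)) := by
    have h4 : δ * R.lam i H ^ 2 ≤ ε / 4 * R.lam i H ^ 2 :=
      mul_le_mul_of_nonneg_right hδ2 (sq_nonneg _)
    have h5 : ε * (R.lam i H ^ 2 / 4) ≤ ε * (1 - Real.cos (R.lam i H)) :=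
      mul_le_mul_of_nonneg_left h2 hε.le
    linarith
  calc a i * (δ * R.lam i H ^ 2) ≤ a i * (ε * (1 - Real.cos (R.lam i H))) :=
        mul_le_mul_of_nonneg_left h3 (ha0 i)
    _ = ε * (a i * (1 - Real.cos (R.lam i H))) := by ring

/-- The matrix coefficient of a unit vector is Lipschitz at the identity. -/
theorem psi_lip {w : ι → ℂ} (hw : ns w = 1) : ∃ r > 0, ∃ C ≥ 0, ∀ k ∈ SU n,
    dst k ≤ r → ‖1 - R.psi w k‖ ≤ C * dst k := by
  obtain ⟨r₀, hr₀, hnear⟩ := near_one n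
  have hW := R.Wt_nonneg
  refine ⟨r₀, hr₀, R.Wt * (2 * (n : ℝ) ^ 2), by positivity, fun k hk hd => ?_⟩
  obtain ⟨u, hu, H, hkH, hH⟩ := hnear k hk hd
  have hdn := dst_nonneg k
  have hsum : ∑ i, ((‖R.act u w i‖ ^ 2 : ℝ) : ℂ) = 1 := by
    rw [← Complex.ofReal_sum]
    have : ∑ i, ‖R.act u w i‖ ^ 2 = 1 := by
      rw [← hw, ← R.ns_act_SU hu w]
      rfl
    rw [this, Complex.ofReal_one]
  have e1 : 1 - R.psi w k =
      ∑ i, (1 - Complex.exp (Complex.I * R.lam i H)) * ((‖R.act u w i‖ ^ 2 : ℝ) : ℂ) := by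
    rw [hkH, R.psi_near w hu]
    simp only [sub_mul, one_mul, Finset.sum_sub_distrib, hsum]
  rw [e1]
  refine (norm_sum_le _ _).trans ?_
  have h2 : ∀ i ∈ Finset.univ, ‖(1 - Complex.exp (Complex.I * R.lam i H)) *
      ((‖R.act u w i‖ ^ 2 : ℝ) : ℂ)‖ ≤ R.Wt * (2 * (n : ℝ) ^ 2) * dst k * ‖R.act u w i‖ ^ 2 := by
    intro i _
    rw [norm_mul, Complex.norm_real, Real.norm_eq_abs, abs_of_nonneg (sq_nonneg _)]
    refine mul_le_mul_of_nonneg_right ?_ (sq_nonneg _)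
    rw [norm_sub_rev]
    refine (Real.norm_exp_I_mul_ofReal_sub_one_le).trans ?_
    rw [Real.norm_eq_abs]
    refine (R.lam_le i H hH (by positivity)).trans (le_of_eq ?_)
    ring
  refine (Finset.sum_le_sum h2).trans ?_
  rw [← Finset.mul_sum]
  have h3 : ∑ i, ‖R.act u w i‖ ^ 2 = 1 := by
    rw [← hw, ← R.ns_act_SU hu w]
    rfl
  rw [h3, mul_one]

end Rep

end Pool.Agent.SG
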