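import Pool.Agent.H.MP_e23cd6_ag.SG.If
import Pool.Agent.H.MP_e23cd6_ag.NT.Thin

/-!
# Algebra of the sections which are eigenvectors of `B`
-/

set_option autoImplicit false

open scoped Manifold ContDiff Topology ENNReal
open MeasureTheory Set Filter

namespace Pool.Agent.SG

open Pool.Agent.Abd Pool.Agent.Abn

variable {E : Type} [NormedAddCommGroup E] [NormedSpace ℂ E] {n : ℕ}
  {X₀ X : Type} [TopologicalSpace X₀] [ChartedSpace E X₀] [TopologicalSpace X]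
  {N : NSp E X₀ X} {L P : NLine N} {A : GAct n N} {ΛL : GLin A L} {ΛP : GLin A P}
  {K J K' J' : ℕ} {U V : Set X} {χ χ' : Fin n → ℤ}

theorem act_inv_act' (A : GAct n N) (g : Gp n) (x : X) : A.act g⁻¹ (A.act g x) = x := by
  rw [← A.mul, inv_mul_cancel, A.one]

theorem glam_ne_zero {B : NLine N} (Λ : GLin A B) {g : Gp n} {i j : B.ι} {x : X}
    (hj : x ∈ B.U j) (hi : A.act g x ∈ B.U i) : Λ.lam i j g x ≠ 0 := by
  intro h0
  have h1 := Λ.mul j i j g⁻¹ g x hj hi (by rw [inv_mul_cancel, A.one]; exact hj)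
  rw [h0, mul_zero, inv_mul_cancel, Λ.one j j x hj hj, B.one j x hj] at h1
  exact zero_ne_one h1

theorem BWt.congr {s : NSec L P K J U} (hs : BWt ΛL ΛP χ s) (h : ∀ i, χ i = χ' i) :
    BWt ΛL ΛP χ' s := by
  have e : χ = χ' := funext h
  rw [← e]
  exact hs

theorem BWt.cast {s : NSec L P K J U} (hs : BWt ΛL ΛP χ s) (hK : K = K') (hJ : J = J') :
    BWt ΛL ΛP χ (s.cast hK hJ) := by
  subst hK hJ
  exact hs

theorem BWt.mul {s : NSec L P K J U} {t : NSec L P K' J' U} (hs : BWt ΛL ΛP χ s)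
    (ht : BWt ΛL ΛP χ' t) : BWt ΛL ΛP (fun c => χ c + χ' c) (s.mul t) := by
  intro b hb i j i' j' x hx hbx h1 h2 h3 h4
  have e1 := hs b hb i j i' j' x hx hbx h1 h2 h3 h4
  have e2 := ht b hb i j i' j' x hx hbx h1 h2 h3 h4
  have e3 : chrB (fun c => χ c + χ' c) b = chrB χ b * chrB χ' b := chrB_wadd hb χ χ'
  have e4 : ∀ y, (s.mul t).f i j y = s.f i j y * t.f i j y := fun _ => rfl
  have e5 : ∀ y, (s.mul t).f i' j' y = s.f i' j' y * t.f i' j' y := fun _ => rfl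
  rw [e4, e5, e3, pow_add, pow_add]
  linear_combination (chrB χ' b * t.f i j (A.act b x)) * e1 +
    (ΛL.lam i i' b x ^ K * ΛP.lam j j' b x ^ J * s.f i' j' x) * e2

theorem BWt.pow {s : NSec L P K J U} (hs : BWt ΛL ΛP χ s) (l : ℕ) :
    BWt ΛL ΛP (fun c => l * χ c) (s.pow l) := by
  intro b hb i j i' j' x hx hbx h1 h2 h3 h4
  have e1 := hs b hb i j i' j' x hx hbx h1 h2 h3 h4
  simp only [NSec.pow]
  rw [chrB_nsmul, ← mul_pow, e1]
  ring

theorem BWt.res {s : NSec L P K J U} (hs : BWt ΛL ΛP χ s) (h : V ⊆ U) :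
    BWt ΛL ΛP χ (s.res h) :=
  fun b hb i j i' j' x hx hbx => hs b hb i j i' j' x (h hx) (h hbx)

/-- The nonvanishing set is invariant. -/
theorem BWt.nz_iff {s : NSec L P K J U} (hs : BWt ΛL ΛP χ s) {b : Gp n} (hb : IsB b) {x : X}
    (hx : x ∈ U) (hbx : A.act b x ∈ U) : s.NZ (A.act b x) ↔ s.NZ x := by
  obtain ⟨i, j, h⟩ := exists_nat L P (A.act b x)
  obtain ⟨i', j', h'⟩ := exists_nat L P x
  rw [s.nz_iff hbx h, s.nz_iff hx h']
  have e := hs b hb i j i' j' x hx hbx h.memL h.memP h'.memL h'.memP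
  have hL := glam_ne_zero ΛL h'.memL h.memL
  have hP := glam_ne_zero ΛP h'.memP h.memP
  have hc := chrB_ne hb χ
  constructor
  · intro h1 h2
    rw [h2, mul_zero] at e
    exact h1 ((mul_eq_zero.1 e).resolve_left hc)
  · intro h1 h2
    rw [h2, mul_zero] at e
    exact h1 ((mul_eq_zero.1 e.symm).resolve_left
      (mul_ne_zero (pow_ne_zero _ hL) (pow_ne_zero _ hP)))

/-- Two sections of the same bundle and weight are proportional along the orbits. -/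
theorem BWt.cross {s t : NSec L P K J U} (hs : BWt ΛL ΛP χ s) (ht : BWt ΛL ΛP χ t) {b : Gp n}
    (hb : IsB b) {x : X} (hx : x ∈ U) (hbx : A.act b x ∈ U) {i i' : L.ι} {j j' : P.ι}
    (hi : A.act b x ∈ L.U i) (hj : A.act b x ∈ P.U j) (hi' : x ∈ L.U i') (hj' : x ∈ P.U j') :
    s.f i j (A.act b x) * t.f i' j' x = t.f i j (A.act b x) * s.f i' j' x := by
  have e1 := hs b hb i j i' j' x hx hbx hi hj hi' hj'
  have e2 := ht b hb i j i' j' x hx hbx hi hj hi' hj'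
  apply mul_left_cancel₀ (chrB_ne hb χ)
  linear_combination (t.f i' j' x) * e1 - (s.f i' j' x) * e2

/-- Semiampleness on the quotient may be checked with exponents depending on the point. -/
theorem bsemiG_of_local {U : Set X} (hU : BGood A U) {ψ : Fin n → ℤ}
    (h : ∀ x ∈ U, ∃ l : ℕ, 1 ≤ l ∧ ∃ s : NSec L P (l * K) (l * J) univ,
      BWt ΛL ΛP (fun c => l * ψ c) s ∧ s.NZ x) : BSemiG ΛL ΛP U K J ψ := by
  obtain ⟨C, hCU, hC, hCB⟩ := hU.cocompact
  have key : ∃ l : ℕ, 1 ≤ l ∧ ∀ x ∈ C, ∃ s : NSec L P (l * K) (l * J) univ,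
      BWt ΛL ΛP (fun c => l * ψ c) s ∧ s.NZ x := by
    refine hC.induction_on (p := fun S => ∃ l : ℕ, 1 ≤ l ∧ ∀ x ∈ S,
      ∃ s : NSec L P (l * K) (l * J) univ, BWt ΛL ΛP (fun c => l * ψ c) s ∧ s.NZ x) ?_ ?_ ?_ ?_
    · exact ⟨1, le_rfl, fun x hx => absurd hx (notMem_empty x)⟩
    · rintro S T hST ⟨l, hl, h1⟩
      exact ⟨l, hl, fun x hx => h1 x (hST hx)⟩
    · rintro S T ⟨l₁, hl₁, h₁⟩ ⟨l₂, hl₂, h₂⟩
      refine ⟨l₁ * l₂, Nat.mul_pos hl₁ hl₂, ?_⟩
      rintro x (hx | hx)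
      · obtain ⟨s, hs, hsx⟩ := h₁ x hx
        refine ⟨(s.pow l₂).cast (by ring) (by ring), ?_, ?_⟩
        · refine ((hs.pow l₂).congr fun i => ?_).cast _ _
          push_cast
          ring
        · exact (s.nz_pow (by omega) (mem_univ x)).2 hsx
      · obtain ⟨s, hs, hsx⟩ := h₂ x hx
        refine ⟨(s.pow l₁).cast (by ring) (by ring), ?_, ?_⟩
        · refine ((hs.pow l₁).congr fun i => ?_).cast _ _
          push_cast
          ring
        · exact (s.nz_pow (by omega) (mem_univ x)).2 hsx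
    · intro x hx
      obtain ⟨l, hl, s, hs, hsx⟩ := h x (hCU hx)
      refine ⟨{y | y ∈ univ ∧ s.NZ y}, mem_nhdsWithin_of_mem_nhds
        (nnz_eventually isOpen_univ s (mem_univ x) hsx), l, hl, fun y hy => ⟨s, hs, hy.2⟩⟩
  obtain ⟨l, hl, h1⟩ := key
  refine ⟨l, hl, fun x hx => ?_⟩
  obtain ⟨b, hb, hbC⟩ := hCB x hx
  obtain ⟨s, hs, hsx⟩ := h1 _ hbC
  exact ⟨s, hs, (hs.nz_iff hb (mem_univ x) (mem_univ _)).1 hsx⟩

/-! ## The metrics -/

/-- Metrics of `L` and `P` with the growth `fL` and `fP`. -/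
structure GMet (ΛL : GLin A L) (ΛP : GLin A P) (fL fP : Gp n → X → ℝ) where
  mL : L.ι → X → ℝ
  mP : P.ι → X → ℝ
  posL : ∀ i y, y ∈ L.U i → 0 < mL i y
  posP : ∀ i y, y ∈ P.U i → 0 < mP i y
  contL : ∀ i y, y ∈ L.U i → ContinuousAt (mL i) y
  contP : ∀ i y, y ∈ P.U i → ContinuousAt (mP i) y
  trL : ∀ i i' y, y ∈ L.U i → y ∈ L.U i' → mL i y = ‖L.g i i' y‖ * mL i' y
  trP : ∀ i i' y, y ∈ P.U i → y ∈ P.U i' → mP i y = ‖P.g i i' y‖ * mP i' y
  grL : ∀ g i i' y, A.act g y ∈ L.U i → y ∈ L.U i' → fL g y =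
    Real.log (mL i (A.act g y)) - Real.log (mL i' y) - Real.log ‖ΛL.lam i i' g y‖
  grP : ∀ g i i' y, A.act g y ∈ P.U i → y ∈ P.U i' → fP g y =
    Real.log (mP i (A.act g y)) - Real.log (mP i' y) - Real.log ‖ΛP.lam i i' g y‖

namespace GMet

variable {fL fP : Gp n → X → ℝ} (D : GMet ΛL ΛP fL fP)

/-- The norm of the section `s`. -/
noncomputable def hn (s : NSec L P K J U) (i : L.ι) (j : P.ι) (y : X) : ℝ :=
  ‖s.f i j y‖ / (D.mL i y ^ K * D.mP j y ^ J)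

theorem hn_frame (s : NSec L P K J U) {i i' : L.ι} {j j' : P.ι} {y : X} (hy : y ∈ U)
    (hi : y ∈ L.U i) (hi' : y ∈ L.U i') (hj : y ∈ P.U j) (hj' : y ∈ P.U j') :
    D.hn s i j y = D.hn s i' j' y := by
  have h1 : ‖L.g i i' y‖ ≠ 0 := norm_ne_zero_iff.2 (L.g_ne hi hi')
  have h2 : ‖P.g j j' y‖ ≠ 0 := norm_ne_zero_iff.2 (P.g_ne hj hj')
  have h3 := (D.posL i' y hi').ne'
  have h4 := (D.posP j' y hj').ne'
  unfold hn
  rw [s.trans i j i' j' y hy hi hj hi' hj', norm_mul, norm_mul, norm_pow, norm_pow,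
    D.trL i i' y hi hi', D.trP j j' y hj hj', mul_pow, mul_pow]
  field_simp

/-- (3.2) -/
theorem hn_B {s : NSec L P K J U} (hs : BWt ΛL ΛP χ s) {b : Gp n} (hb : IsB b) {y : X}
    (hy : y ∈ U) (hby : A.act b y ∈ U) {i i' : L.ι} {j j' : P.ι} (hi : A.act b y ∈ L.U i)
    (hj : A.act b y ∈ P.U j) (hi' : y ∈ L.U i') (hj' : y ∈ P.U j') :
    D.hn s i j (A.act b y) = D.hn s i' j' y *
      Real.exp (-(K * fL b y + J * fP b y + ∑ c, χ c * hw b c)) := by
  have hmL := D.posL i' y hi'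
  have hmP := D.posP j' y hj'
  have hmL' := D.posL i (A.act b y) hi
  have hmP' := D.posP j (A.act b y) hj
  have hlL : 0 < ‖ΛL.lam i i' b y‖ := norm_pos_iff.2 (glam_ne_zero ΛL hi' hi)
  have hlP : 0 < ‖ΛP.lam j j' b y‖ := norm_pos_iff.2 (glam_ne_zero ΛP hj' hj)
  have eL : ‖ΛL.lam i i' b y‖ = D.mL i (A.act b y) / D.mL i' y * Real.exp (-(fL b y)) := by
    rw [D.grL b i i' _ hi hi', show -(Real.log (D.mL i (A.act b y)) -
      Real.log (D.mL i' y) - Real.log ‖ΛL.lam i i' b y‖) =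
      Real.log (D.mL i' y) + Real.log ‖ΛL.lam i i' b y‖ -
      Real.log (D.mL i (A.act b y)) by ring, Real.exp_sub, Real.exp_add,
      Real.exp_log hmL, Real.exp_log hlL, Real.exp_log hmL']
    field_simp
  have eP : ‖ΛP.lam j j' b y‖ = D.mP j (A.act b y) / D.mP j' y * Real.exp (-(fP b y)) := by
    rw [D.grP b j j' _ hj hj', show -(Real.log (D.mP j (A.act b y)) -
      Real.log (D.mP j' y) - Real.log ‖ΛP.lam j j' b y‖) =
      Real.log (D.mP j' y) + Real.log ‖ΛP.lam j j' b y‖ -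
      Real.log (D.mP j (A.act b y)) by ring, Real.exp_sub, Real.exp_add,
      Real.exp_log hmP, Real.exp_log hlP, Real.exp_log hmP']
    field_simp
  have h1 := hs b hb i j i' j' y hy hby hi hj hi' hj'
  have h2 := congrArg norm h1
  rw [norm_mul, norm_mul, norm_mul, norm_pow, norm_pow, chrB_norm hb, eL, eP, mul_pow, mul_pow,
    div_pow, div_pow, ← Real.exp_nat_mul, ← Real.exp_nat_mul] at h2
  have h3 : Real.exp (-(K * fL b y + J * fP b y + ∑ c, χ c * hw b c)) =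
      Real.exp ((K : ℝ) * -(fL b y)) * Real.exp ((J : ℝ) * -(fP b y)) /
        Real.exp (∑ c, χ c * hw b c) := by
    rw [← Real.exp_add, ← Real.exp_sub]
    congr 1
    ring
  unfold hn
  rw [h3]
  have h4 : Real.exp (∑ c, (χ c : ℝ) * hw b c) ≠ 0 := (Real.exp_pos _).ne'
  have h5 := (pow_pos hmL K).ne'
  have h6 := (pow_pos hmP J).ne'
  have h7 := (pow_pos hmL' K).ne'
  have h8 := (pow_pos hmP' J).ne'
  rw [eq_div_of_mul_eq h4 ((mul_comm _ _).trans h2)]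
  field_simp

include D in
/-- Sections of weight `χ` over `U` are locally bounded near all points of `X` if the level
function is bounded from below on a compact set meeting all orbits. -/
theorem bdd_of_level {s : NSec L P K J U} (hs : BWt ΛL ΛP χ s) (hU : BGood A U)
    (hlow : ∀ x₀ ∈ U, ∃ W ∈ 𝓝 x₀, ∃ C : ℝ, ∀ y ∈ W, ∀ b, IsB b →
      -C ≤ K * fL b y + J * fP b y + ∑ c, χ c * hw b c) :
    ∀ x, ∀ i j, x ∈ L.U i → x ∈ P.U j → ∃ W ∈ 𝓝 x, ∃ C : ℝ, ∀ y ∈ W, y ∈ U →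
      ‖s.f i j y‖ ≤ C := by
  obtain ⟨C, hCU, hC, hCB⟩ := hU.cocompact
  -- the level
  obtain ⟨C1, hC1⟩ : ∃ C1 : ℝ, ∀ y ∈ C, ∀ b, IsB b →
      -C1 ≤ K * fL b y + J * fP b y + ∑ c, χ c * hw b c := by
    refine hC.induction_on (p := fun S => ∃ C1 : ℝ, ∀ y ∈ S, ∀ b, IsB b →
      -C1 ≤ K * fL b y + J * fP b y + ∑ c, χ c * hw b c) ?_ ?_ ?_ ?_
    · exact ⟨0, fun y hy => absurd hy (notMem_empty y)⟩
    · rintro S T hST ⟨c, hc⟩
      exact ⟨c, fun y hy => hc y (hST hy)⟩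
    · rintro S T ⟨c, hc⟩ ⟨c', hc'⟩
      refine ⟨max c c', ?_⟩
      rintro y (hy | hy) b hb
      · exact (neg_le_neg (le_max_left c c')).trans (hc y hy b hb)
      · exact (neg_le_neg (le_max_right c c')).trans (hc' y hy b hb)
    · intro x hx
      obtain ⟨W, hW, c, hc⟩ := hlow x (hCU hx)
      exact ⟨W, mem_nhdsWithin_of_mem_nhds hW, c, hc⟩
  -- the norm on the compact set
  obtain ⟨C2, hC2⟩ : ∃ C2 : ℝ, ∀ y ∈ C, ∀ i j, y ∈ L.U i → y ∈ P.U j →
      D.hn s i j y ≤ C2 := by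
    refine hC.induction_on (p := fun S => ∃ C2 : ℝ, ∀ y ∈ S, ∀ i j, y ∈ L.U i → y ∈ P.U j →
      D.hn s i j y ≤ C2) ?_ ?_ ?_ ?_
    · exact ⟨0, fun y hy => absurd hy (notMem_empty y)⟩
    · rintro S T hST ⟨c, hc⟩
      exact ⟨c, fun y hy => hc y (hST hy)⟩
    · rintro S T ⟨c, hc⟩ ⟨c', hc'⟩
      refine ⟨max c c', ?_⟩
      rintro y (hy | hy) i j hi hj
      · exact (hc y hy i j hi hj).trans (le_max_left c c')
      · exact (hc' y hy i j hi hj).trans (le_max_right c c')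
    · intro x hx
      obtain ⟨i0, j0, h0⟩ := exists_nat L P x
      have hcont : ContinuousAt (D.hn s i0 j0) x := by
        have e : D.hn s i0 j0 = fun y => ‖s.f i0 j0 y‖ / (D.mL i0 y ^ K * D.mP j0 y ^ J) := rfl
        rw [e]
        refine ContinuousAt.div (Hol_continuousAt (s.hol' (hCU hx) h0)).norm
          (((D.contL i0 x h0.memL).pow K).mul ((D.contP j0 x h0.memP).pow J)) ?_
        exact (mul_pos (pow_pos (D.posL i0 x h0.memL) K) (pow_pos (D.posP j0 x h0.memP) J)).ne'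
      have h1 : ∀ᶠ y in 𝓝 x, D.hn s i0 j0 y < D.hn s i0 j0 x + 1 :=
        hcont.eventually (gt_mem_nhds (lt_add_one _))
      refine ⟨{y | y ∈ U ∧ NAt L P i0 j0 y ∧ D.hn s i0 j0 y < D.hn s i0 j0 x + 1},
        mem_nhdsWithin_of_mem_nhds ?_, D.hn s i0 j0 x + 1, ?_⟩
      · filter_upwards [hU.isOpen.mem_nhds (hCU hx), h0.eventually, h1] with y a b c
        exact ⟨a, b, c⟩
      · rintro y ⟨h2, h3, h4⟩ i j hi hj
        rw [D.hn_frame s h2 hi h3.memL hj h3.memP]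
        exact h4.le
  have hglob : ∀ y ∈ U, ∀ i j, y ∈ L.U i → y ∈ P.U j →
      D.hn s i j y ≤ max C2 0 * Real.exp C1 := by
    intro y hy i j hi hj
    obtain ⟨b, hb, hbC⟩ := hCB y hy
    obtain ⟨i', j', h'⟩ := exists_nat L P (A.act b y)
    have e0 : A.act b⁻¹ (A.act b y) = y := act_inv_act' A b y
    have h1 := D.hn_B hs (isB_inv hb) (y := A.act b y) (i := i) (i' := i') (j := j) (j' := j')
      (hCU hbC) (by rw [e0]; exact hy) (by rw [e0]; exact hi) (by rw [e0]; exact hj)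
      h'.memL h'.memP
    rw [e0] at h1
    rw [h1]
    have h2 := hC2 _ hbC i' j' h'.memL h'.memP
    have h3 := hC1 _ hbC _ (isB_inv hb)
    exact mul_le_mul (h2.trans (le_max_left _ _)) (Real.exp_le_exp.2 (by linarith))
      (Real.exp_pos _).le (le_max_right _ _)
  intro x i j hi hj
  have hcont : ContinuousAt (fun y => D.mL i y ^ K * D.mP j y ^ J) x :=
    ((D.contL i x hi).pow K).mul ((D.contP j x hj).pow J)
  have h1 : ∀ᶠ y in 𝓝 x, D.mL i y ^ K * D.mP j y ^ J < D.mL i x ^ K * D.mP j x ^ J + 1 :=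
    hcont.eventually (gt_mem_nhds (lt_add_one _))
  refine ⟨{y | NAt L P i j y ∧
    D.mL i y ^ K * D.mP j y ^ J < D.mL i x ^ K * D.mP j x ^ J + 1}, ?_,
    (max C2 0 * Real.exp C1) * (D.mL i x ^ K * D.mP j x ^ J + 1), ?_⟩
  · filter_upwards [(NAt.mk hi hj).eventually, h1] with y a b
    exact ⟨a, b⟩
  · rintro y ⟨h2, h3⟩ hy
    have h4 := hglob y hy i j h2.memL h2.memP
    have h5 : 0 < D.mL i y ^ K * D.mP j y ^ J :=
      mul_pos (pow_pos (D.posL i y h2.memL) K) (pow_pos (D.posP j y h2.memP) J)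
    have h6 : ‖s.f i j y‖ = D.hn s i j y * (D.mL i y ^ K * D.mP j y ^ J) := by
      unfold hn
      rw [div_mul_cancel₀ _ h5.ne']
    rw [h6]
    exact mul_le_mul h4 h3.le h5.le (mul_nonneg (le_max_right _ _) (Real.exp_pos _).le)

end GMet

end Pool.Agent.SG
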