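import Pool.Agent.H.MP_e23cd6_ag.SG.AU

/-!
# Section 11: extension of the sections and the contradiction
-/

set_option autoImplicit false

open scoped Manifold ContDiff Topology ENNReal
open MeasureTheory Set Filter

namespace Pool.Agent.SG

open Pool.Agent.Abd Pool.Agent.Abn

variable {E : Type} [NormedAddCommGroup E] [NormedSpace ℂ E] [FiniteDimensional ℂ E] {n : ℕ}
  {X₀ X : Type} [TopologicalSpace X₀] [ChartedSpace E X₀] [IsManifold 𝓘(ℂ, E) ω X₀]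
  [TopologicalSpace X] [T2Space X] [CompactSpace X] [ConnectedSpace X]
  {N : NSp E X₀ X} {L P : NLine N} {A : GAct n N} {ΛL : GLin A L} {ΛP : GLin A P}
  {S : GSys n X} (r : SysOf ΛL ΛP S) {M : ℕ} {hM : 1 ≤ M} {x : X} {lam mu : Fin n → ℤ}
  {U : Set X} {k₀ l₀ : ℕ} {T : Fin n → ℤ} (h : Sec8 (S.scale M hM) A L P x lam mu U k₀ l₀ T)

include h in
/-- The level functions of `L ^ (M j) ⊗ H ^ l` are locally bounded from below. -/
theorem Sec8.low (j b : ℕ) : ∀ x₀ ∈ U, ∃ W ∈ 𝓝 x₀, ∃ C : ℝ, ∀ y ∈ W, ∀ g : Gp n,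
    -C ≤ S.lev ((M * (l₀ * (b + 1) * k₀ + j) : ℕ)) ((M * (l₀ * (b + 1)) : ℕ)) (fun i =>
      (((b + 1) * (l₀ * (k₀ * lam i + mu i) + T i) + j * lam i : ℤ) : ℝ)) y g := by
  intro x₀ hx₀
  have hst := h.stbZ b j hx₀
  have e1 : (((l₀ * (b + 1) * k₀ + j : ℕ) : ℕ) : ℝ) = (l₀ * (b + 1) * k₀ + j : ℝ) := by
    push_cast
    ring
  rw [← e1] at hst
  have hanti : StrictAnti (fun i =>
      (((b + 1) * (l₀ * (k₀ * lam i + mu i) + T i) + j * lam i : ℤ) : ℝ)) := by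
    intro i i' hii
    exact Int.cast_lt.2 (h.strictZ b j hii)
  obtain ⟨O, hO, δ, η, C, hδ, hη, hC⟩ := (S.scale M hM).growth (l₀ * (b + 1) * k₀ + j)
    (l₀ * (b + 1) - 1) hanti hst
  obtain ⟨C', hC'⟩ := S.scale_lev M hM ((l₀ * (b + 1) * k₀ + j : ℕ) : ℝ)
    (((l₀ * (b + 1) - 1 : ℕ) : ℝ) + 1)
  have e2 : ((M * (l₀ * (b + 1) * k₀ + j) : ℕ) : ℝ) =
      (M : ℝ) * ((l₀ * (b + 1) * k₀ + j : ℕ) : ℝ) := by
    rw [Nat.cast_mul]
  have e3 : ((M * (l₀ * (b + 1)) : ℕ) : ℝ) = (M : ℝ) * (((l₀ * (b + 1) - 1 : ℕ) : ℝ) + 1) := by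
    have h1 : l₀ * (b + 1) - 1 + 1 = l₀ * (b + 1) :=
      Nat.sub_add_cancel (Nat.mul_pos h.hl (Nat.succ_pos b))
    have h2 : (((l₀ * (b + 1) - 1 : ℕ) : ℝ) + 1) = ((l₀ * (b + 1) : ℕ) : ℝ) := by
      rw [← h1]
      push_cast
      rfl
    rw [h2, Nat.cast_mul]
  refine ⟨O, hO, C + C', fun y hy g => ?_⟩
  have h1 := hC y hy _ (fun i => by rw [sub_self, abs_zero]; exact hη.le) g
  have h2 := hC' (fun i =>
      (((b + 1) * (l₀ * (k₀ * lam i + mu i) + T i) + j * lam i : ℤ) : ℝ)) y g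
  have h3 := sz_nonneg g
  rw [e2, e3]
  have h4 := (abs_le.1 h2).2
  nlinarith [mul_nonneg hδ.le h3]

include h in
/-- The growth condition of Section 10. -/
theorem Sec8.grow (b : ℕ) : ∀ δ : ℝ, 0 < δ → ∀ x₀ ∈ U, ∃ W ∈ 𝓝 x₀, ∃ C : ℝ, ∀ y ∈ W,
    ∀ g : Gp n, -C ≤ S.lev M 0 (fun i => (lam i : ℝ)) y g +
      δ * S.lev ((M * (l₀ * (b + 1) * k₀) : ℕ)) ((M * (l₀ * (b + 1)) : ℕ)) (fun i =>
      (((b + 1) * (l₀ * (k₀ * lam i + mu i) + T i) : ℤ) : ℝ)) y g := by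
  intro δ hδ x₀ hx₀
  obtain ⟨j, hj⟩ := exists_nat_gt (1 / δ)
  have hj0 : (0 : ℝ) < j := lt_trans (by positivity) hj
  obtain ⟨W, hW, C, hC⟩ := h.low j b x₀ hx₀
  obtain ⟨W', hW', C', hC'⟩ := h.low 0 b x₀ hx₀
  refine ⟨W ∩ W', inter_mem hW hW', C / j + (δ - 1 / j) * C', ?_⟩
  intro y hy g
  have h1 := hC y hy.1 g
  have h2 := hC' y hy.2 g
  have hδj : 0 ≤ δ - 1 / j := by
    rw [sub_nonneg, div_le_iff₀ hj0]
    rw [div_lt_iff₀ hδ] at hj
    linarith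
  have e1 : S.lev ((M * (l₀ * (b + 1) * k₀ + j) : ℕ)) ((M * (l₀ * (b + 1)) : ℕ)) (fun i =>
      (((b + 1) * (l₀ * (k₀ * lam i + mu i) + T i) + j * lam i : ℤ) : ℝ)) y g =
      j * S.lev M 0 (fun i => (lam i : ℝ)) y g +
      S.lev ((M * (l₀ * (b + 1) * k₀) : ℕ)) ((M * (l₀ * (b + 1)) : ℕ)) (fun i =>
      (((b + 1) * (l₀ * (k₀ * lam i + mu i) + T i) : ℤ) : ℝ)) y g := by
    simp only [GSys.lev]
    have h5 : ∑ i, (((b + 1) * (l₀ * (k₀ * lam i + mu i) + T i) + j * lam i : ℤ) : ℝ) * hw g i =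
        j * ∑ i, (lam i : ℝ) * hw g i +
        ∑ i, (((b + 1) * (l₀ * (k₀ * lam i + mu i) + T i) : ℤ) : ℝ) * hw g i := by
      rw [Finset.mul_sum, ← Finset.sum_add_distrib]
      refine Finset.sum_congr rfl fun i _ => ?_
      push_cast
      ring
    rw [h5]
    push_cast
    ring
  have e2 : S.lev ((M * (l₀ * (b + 1) * k₀ + 0) : ℕ)) ((M * (l₀ * (b + 1)) : ℕ)) (fun i =>
      (((b + 1) * (l₀ * (k₀ * lam i + mu i) + T i) + (0 : ℕ) * lam i : ℤ) : ℝ)) y g =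
      S.lev ((M * (l₀ * (b + 1) * k₀) : ℕ)) ((M * (l₀ * (b + 1)) : ℕ)) (fun i =>
      (((b + 1) * (l₀ * (k₀ * lam i + mu i) + T i) : ℤ) : ℝ)) y g := by
    rw [add_zero]
    congr 1
    funext i
    push_cast
    ring
  rw [e1] at h1
  rw [e2] at h2
  set Lm := S.lev M 0 (fun i => (lam i : ℝ)) y g
  set H := S.lev ((M * (l₀ * (b + 1) * k₀) : ℕ)) ((M * (l₀ * (b + 1)) : ℕ)) (fun i =>
      (((b + 1) * (l₀ * (k₀ * lam i + mu i) + T i) : ℤ) : ℝ)) y g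
  have h3 : Lm + δ * H = (1 / j) * (j * Lm + H) + (δ - 1 / j) * H := by
    field_simp
    ring
  rw [h3]
  have h4 : (1 / (j : ℝ)) * (-C) ≤ (1 / j) * (j * Lm + H) :=
    mul_le_mul_of_nonneg_left h1 (by positivity)
  have h5 : (δ - 1 / (j : ℝ)) * (-C') ≤ (δ - 1 / j) * H := mul_le_mul_of_nonneg_left h2 hδj
  have h6 : -(C / j + (δ - 1 / j) * C') = (1 / (j : ℝ)) * (-C) + (δ - 1 / j) * (-C') := by
    ring
  rw [h6]
  exact add_le_add h4 h5

/-- The metrics of the interface as a structure. -/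
theorem AE_gmet (r : SysOf ΛL ΛP S) : Nonempty (GMet ΛL ΛP S.fL S.fP) := by
  obtain ⟨mL, mP, h1, h2, h3, h4, h5, h6⟩ := r.metric
  exact ⟨{ mL := mL
           mP := mP
           posL := fun i y hy => (h1 i y hy).1
           posP := fun i y hy => (h2 i y hy).1
           contL := fun i y hy => (h1 i y hy).2
           contP := fun i y hy => (h2 i y hy).2
           trL := h3
           trP := h4
           grL := h5
           grP := h6 }⟩

include h r in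
/-- (11.1) -/
theorem Sec8.extend {l : ℕ} (s : NSec L P (l * M) (l * 0) U)
    (hs : BWt ΛL ΛP (fun c => l * lam c) s) :
    ∃ t : NSec L P (l * M) (l * 0) univ, BWt ΛL ΛP (fun c => l * lam c) t ∧
      ∀ i j y, y ∈ U → y ∈ L.U i → y ∈ P.U j → t.f i j y = s.f i j y := by
  obtain ⟨D⟩ := AE_gmet r
  obtain ⟨K', J', v, ⟨x₀, hx₀⟩, hv⟩ := h.v
  obtain ⟨l₁, hl₁, hσ⟩ := (h.ample r).1
  obtain ⟨σ, hσw, hσn⟩ := hσ x₀ (hv x₀ hx₀)
  refine extend_of_pow h.good.isOpen h.good.inv v hx₀ hv s hs σ ⟨x₀, hσn⟩ ?_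
  intro j
  have hw1 : BWt ΛL ΛP (fun c => j * (l * lam c) +
      l₁ * (l₀ * (k₀ * lam c + mu c) + T c)) ((s.pow j).mul (σ.res (subset_univ U))) :=
    (hs.pow j).mul (hσw.res (subset_univ U))
  have hbd := D.bdd_of_level hw1 h.good (by
    intro y₀ hy₀
    obtain ⟨W, hW, C, hC⟩ := h.low (j * l) (l₁ - 1) y₀ hy₀
    refine ⟨W, hW, C, fun y hy b _ => ?_⟩
    have h1 := hC y hy b
    have hl : l₁ - 1 + 1 = l₁ := Nat.sub_add_cancel hl₁
    have hl' : ((l₁ - 1 : ℕ) : ℤ) + 1 = l₁ := by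
      exact_mod_cast hl
    refine le_trans h1 (le_of_eq ?_)
    simp only [GSys.lev]
    rw [hl, hl']
    have e1 : ((M * (l₀ * l₁ * k₀ + j * l) : ℕ) : ℝ) =
        ((j * (l * M) + l₁ * (M * (l₀ * k₀)) : ℕ) : ℝ) := by
      congr 1
      ring
    have e2 : ((M * (l₀ * l₁) : ℕ) : ℝ) = ((j * (l * 0) + l₁ * (M * l₀) : ℕ) : ℝ) := by
      congr 1
      ring
    rw [e1, e2]
    congr 1
    refine Finset.sum_congr rfl fun i _ => ?_
    congr 2
    push_cast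
    ring)
  obtain ⟨t, -, ht⟩ := extend_bdd h.good.isOpen h.good.inv v hx₀ hv _ hw1 hbd
  exact ⟨t, fun i j' y hy h1 h2 => ht i j' y hy h1 h2⟩

/-- Limits along the orbits: for `x` in the closure of `U` there is `z` in `U` such that any two
eigensections of the same bundle and weight are proportional at `x` and `z`. -/
theorem exists_partner (hU : BGood A U) (hx : x ∈ closure U) : ∃ z ∈ U,
    ∀ (K J : ℕ) (χ : Fin n → ℤ) (s t : NSec L P K J univ), BWt ΛL ΛP χ s → BWt ΛL ΛP χ t →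
      s.NZ x → t.NZ z → t.NZ x ∧ s.NZ z := by
  classical
  obtain ⟨C, hCU, hC, hCo⟩ := hU.cocompact
  have hβ : ∀ y : X, ∃ b : Gp n, y ∈ U → IsB b ∧ A.act b y ∈ C := by
    intro y
    by_cases hy : y ∈ U
    · obtain ⟨b, hb⟩ := hCo y hy
      exact ⟨b, fun _ => hb⟩
    · exact ⟨1, fun hy' => absurd hy' hy⟩
  choose β hβ using hβ
  have hne : (𝓝[U] x).NeBot := mem_closure_iff_nhdsWithin_neBot.1 hx
  let F : Ultrafilter X := Ultrafilter.of (𝓝[U] x)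
  have hF : (F : Filter X) ≤ 𝓝[U] x := Ultrafilter.of_le _
  have hFU : U ∈ F := hF self_mem_nhdsWithin
  have hFx : (F : Filter X) ≤ 𝓝 x := hF.trans nhdsWithin_le_nhds
  let φ : X → X := fun y => A.act (β y) y
  have hφC : C ∈ F.map φ := by
    rw [Ultrafilter.mem_map]
    filter_upwards [hFU] with y hy
    exact (hβ y hy).2
  obtain ⟨z, hzC, hz⟩ := hC.ultrafilter_le_nhds (F.map φ) (le_principal_iff.2 hφC)
  have hφ : Tendsto φ F (𝓝 z) := hz
  refine ⟨z, hCU hzC, ?_⟩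
  intro K J χ s t hs ht hsx htz
  obtain ⟨i, j, hz1⟩ := exists_nat L P z
  obtain ⟨i', j', hx1⟩ := exists_nat L P x
  have hsx' := (s.nz_iff (mem_univ _) hx1).1 hsx
  have htz' := (t.nz_iff (mem_univ _) hz1).1 htz
  have hev : ∀ᶠ y in (F : Filter X), s.f i j (φ y) * t.f i' j' y =
      t.f i j (φ y) * s.f i' j' y := by
    filter_upwards [hFU, hφ.eventually hz1.eventually, hFx hx1.eventually] with y hy h1 h2
    exact hs.cross ht (hβ y hy).1 (mem_univ _) (mem_univ _) h1.memL h1.memP h2.memL h2.memP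
  have c1 : ContinuousAt (s.f i j) z := Hol_continuousAt (s.hol' (mem_univ _) hz1)
  have c2 : ContinuousAt (t.f i j) z := Hol_continuousAt (t.hol' (mem_univ _) hz1)
  have c3 : ContinuousAt (s.f i' j') x := Hol_continuousAt (s.hol' (mem_univ _) hx1)
  have c4 : ContinuousAt (t.f i' j') x := Hol_continuousAt (t.hol' (mem_univ _) hx1)
  have l1 : Tendsto (fun y => s.f i j (φ y) * t.f i' j' y) F (𝓝 (s.f i j z * t.f i' j' x)) :=
    (c1.tendsto.comp hφ).mul (c4.tendsto.mono_left hFx)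
  have l2 : Tendsto (fun y => t.f i j (φ y) * s.f i' j' y) F (𝓝 (t.f i j z * s.f i' j' x)) :=
    (c2.tendsto.comp hφ).mul (c3.tendsto.mono_left hFx)
  have heq : s.f i j z * t.f i' j' x = t.f i j z * s.f i' j' x :=
    tendsto_nhds_unique (l1.congr' hev) l2
  have hne0 : s.f i j z * t.f i' j' x ≠ 0 := by
    rw [heq]
    exact mul_ne_zero htz' hsx'
  exact ⟨(t.nz_iff (mem_univ _) hx1).2 (right_ne_zero_of_mul hne0),
    (s.nz_iff (mem_univ _) hz1).2 (left_ne_zero_of_mul hne0)⟩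

include h r in
/-- (11.2) -/
theorem Sec8.nz (hb : ∀ a b, ∃ p ∈ BPoly ((S.scale M hM).D a b).R 1
      (fun i => (S.scale M hM).c a b * (a * lam i + (b + 1) * mu i)),
      MvPolynomial.eval (((S.scale M hM).D a b).v x) p ≠ 0)
    (hQ : BSemiQ ΛL ΛP U M 0 lam) :
    ∃ l : ℕ, 1 ≤ l ∧ ∃ t : NSec L P (l * M) (l * 0) univ, t.NZ x := by
  obtain ⟨z, hzU, hz⟩ := exists_partner (ΛL := ΛL) (ΛP := ΛP) h.good h.mem
  have key : ∀ k : ℕ, k = k₀ ∨ k = k₀ + 1 →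
      ∃ c : ℕ, 1 ≤ c ∧ ∃ s : NSec L P (1 * (c * (M * k))) (1 * (c * (M * (0 + 1)))) univ,
        BWt ΛL ΛP (fun i => c * (k * lam i + mu i)) s ∧ s.NZ x ∧ s.NZ z := by
    intro k hk
    obtain ⟨p, hp, hpx⟩ := hb k 0
    obtain ⟨s, hs, hsn⟩ := toSecM r M hM hp
    have hs' : BWt ΛL ΛP (fun i => (S.scale M hM).c k 0 * (k * lam i + mu i)) s :=
      hs.congr fun i => by
        push_cast
        ring
    have hψ : Antitone fun i => (k * lam i + mu i : ℤ) := by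
      intro i i' hii
      have h1 := h.lamA hii
      have h2 := h.muA hii
      have h3 : (k : ℤ) * lam i' ≤ k * lam i := mul_le_mul_of_nonneg_left h1 (Nat.cast_nonneg k)
      exact add_le_add h3 h2
    have hss := h.ss z hzU k hk
    have hss' : (S.scale M hM).Sst k ((0 : ℕ) + 1) (fun i => ((k * lam i + mu i : ℤ) : ℝ)) z := by
      have e1 : ((0 : ℕ) : ℝ) + 1 = 1 := by
        rw [Nat.cast_zero, zero_add]
      have e2 : (fun i => ((k * lam i + mu i : ℤ) : ℝ)) = fun i => (k * lam i + mu i : ℝ) := by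
        funext i
        push_cast
        ring
      rw [e1, e2]
      exact hss
    obtain ⟨l, hl, p', hp', hpz⟩ := semi_of_sst_pt r M hM hψ hss'
    obtain ⟨t, ht, htn⟩ := toSecM r M hM hp'
    have hsx : s.NZ x := (hsn x).2 hpx
    have htz : t.NZ z := (htn z).2 hpz
    refine ⟨(S.scale M hM).c k 0, (S.scale M hM).c_pos k 0, s, hs', hsx, ?_⟩
    have e1 : l * ((S.scale M hM).c k 0 * (M * k)) = l * (1 * ((S.scale M hM).c k 0 * (M * k))) := by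
      ring
    have e2 : l * ((S.scale M hM).c k 0 * (M * (0 + 1))) =
        l * (1 * ((S.scale M hM).c k 0 * (M * (0 + 1)))) := by
      ring
    have h1 := hz _ _ _ (s.pow l) (t.cast e1 e2) (hs'.pow l) (ht.cast e1 e2)
      ((s.nz_pow (by omega) (mem_univ _)).2 hsx) htz
    exact (s.nz_pow (by omega) (mem_univ _)).1 h1.2
  obtain ⟨c0, hc0, s₀, hs₀, -, hs₀z⟩ := key k₀ (Or.inl rfl)
  obtain ⟨c1, hc1, s₁, hs₁, hs₁x, -⟩ := key (k₀ + 1) (Or.inr rfl)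
  obtain ⟨l, hl, hτ⟩ := hQ
  obtain ⟨τ, hτw, hτz⟩ := hτ z hzU
  obtain ⟨t, ht, hte⟩ := h.extend r τ hτw
  have htz : t.NZ z := by
    obtain ⟨i, j, hat⟩ := exists_nat L P z
    rw [t.nz_iff (mem_univ _) hat, hte i j z hzU hat.memL hat.memP]
    exact (τ.nz_iff hzU hat).1 hτz
  refine ⟨l, hl, t, ?_⟩
  have e1 : c0 * l * (1 * (c1 * (M * (k₀ + 1)))) =
      c1 * l * (1 * (c0 * (M * k₀))) + c0 * c1 * (l * M) := by
    ring
  have e2 : c0 * l * (1 * (c1 * (M * (0 + 1)))) =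
      c1 * l * (1 * (c0 * (M * (0 + 1)))) + c0 * c1 * (l * 0) := by
    ring
  have w1 : BWt ΛL ΛP (fun i => ((c0 * l : ℕ) : ℤ) * (c1 * (((k₀ + 1 : ℕ) : ℤ) * lam i + mu i)))
      ((s₁.pow (c0 * l)).cast e1 e2) := (hs₁.pow (c0 * l)).cast e1 e2
  have w2 : BWt ΛL ΛP (fun i => ((c0 * l : ℕ) : ℤ) * (c1 * (((k₀ + 1 : ℕ) : ℤ) * lam i + mu i)))
      ((s₀.pow (c1 * l)).mul (t.pow (c0 * c1))) :=
    ((hs₀.pow (c1 * l)).mul (ht.pow (c0 * c1))).congr fun i => by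
      push_cast
      ring
  have n1 : ((s₁.pow (c0 * l)).cast e1 e2).NZ x := by
    rw [NSec.nz_cast]
    exact (s₁.nz_pow (by positivity) (mem_univ _)).2 hs₁x
  have n2 : ((s₀.pow (c1 * l)).mul (t.pow (c0 * c1))).NZ z :=
    (NSec.nz_mul _ _ (mem_univ _)).2 ⟨(s₀.nz_pow (by positivity) (mem_univ _)).2 hs₀z,
      (t.nz_pow (by positivity) (mem_univ _)).2 htz⟩
  have h1 := hz _ _ _ _ _ w1 w2 n1 n2
  have h2 := ((NSec.nz_mul _ _ (mem_univ _)).1 h1.1).2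
  exact (t.nz_pow (by positivity) (mem_univ _)).1 h2

end Pool.Agent.SG
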