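import Pool.Agent.H.MP_e23cd6_ag.SG.AA

/-!
# Section 8: calculus of level functions
-/

set_option autoImplicit false

open Set Filter Topology

namespace Pool.Agent.SG

section lev

variable {n : ℕ} {X : Type} [TopologicalSpace X] [CompactSpace X] (S : GSys n X)

/-- Level functions are linear. -/
theorem GSys.lev_add (a b a' b' : ℝ) (θ θ' : Fin n → ℝ) (y : X) (g : Gp n) :
    S.lev (a + a') (b + b') (fun i => θ i + θ' i) y g = S.lev a b θ y g + S.lev a' b' θ' y g := by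
  unfold GSys.lev
  simp only [add_mul, Finset.sum_add_distrib]
  ring

theorem GSys.lev_smul (c a b : ℝ) (θ : Fin n → ℝ) (y : X) (g : Gp n) :
    S.lev (c * a) (c * b) (fun i => c * θ i) y g = c * S.lev a b θ y g := by
  unfold GSys.lev
  have h1 : ∑ i, c * θ i * hw g i = c * ∑ i, θ i * hw g i := by
    rw [Finset.mul_sum]
    exact Finset.sum_congr rfl fun i _ => mul_assoc _ _ _
  rw [h1]
  ring

/-- Constants do not change the level function. -/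
theorem GSys.lev_const (a b : ℝ) (θ : Fin n → ℝ) (c : ℝ) (y : X) (g : Gp n) :
    S.lev a b (fun i => θ i + c) y g = S.lev a b θ y g := by
  unfold GSys.lev
  have h1 : ∑ i, (θ i + c) * hw g i = ∑ i, θ i * hw g i := by
    simp only [add_mul, Finset.sum_add_distrib]
    rw [← Finset.mul_sum, hw_sum, mul_zero, add_zero]
  rw [h1]

theorem GSys.Stb.smul {c a b : ℝ} (hc : 0 < c) {θ : Fin n → ℝ} {y : X}
    (h : S.Stb a b θ y) : S.Stb (c * a) (c * b) (fun i => c * θ i) y := by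
  intro M
  obtain ⟨R, hR⟩ := h (M / c)
  refine ⟨R, fun g hg => hR g ?_⟩
  rw [S.lev_smul] at hg
  rw [le_div_iff₀ hc]
  linarith [mul_comm c (S.lev a b θ y g)]

/-- Stability is invariant under `B`. -/
theorem GSys.Stb.of_act {a b : ℝ} {θ : Fin n → ℝ} {y : X} {b' : Gp n} (hb : IsB b')
    (h : S.Stb a b θ (S.act b' y)) : S.Stb a b θ y := by
  intro M
  obtain ⟨R, hR⟩ := h (M - S.lev a b θ y b')
  refine ⟨R + sz b', fun g hg => ?_⟩
  have h1 := S.lev_mul a b θ y (g * b'⁻¹) hb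
  rw [inv_mul_cancel_right] at h1
  have h2 := hR (g * b'⁻¹) (by linarith)
  have h3 := sz_mul (g * b'⁻¹) b'
  rw [inv_mul_cancel_right] at h3
  linarith

/-- Semistability on the set where some eigensections do not vanish. -/
theorem GSys.sst_of_nz {k₀ b₀ q : ℕ} {lam mu : Fin n → ℤ} (hq : 1 ≤ q)
    {pA : MvPolynomial (S.D (2 * k₀) 0).ι ℂ} (hA : pA ∈ BPoly (S.D (2 * k₀) 0).R 1
      (fun i => S.c (2 * k₀) 0 * ((2 * k₀ : ℕ) * lam i + ((0 : ℕ) + 1) * mu i)))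
    {pB : MvPolynomial (S.D 0 0).ι ℂ} (hB : pB ∈ BPoly (S.D 0 0).R 1
      (fun i => S.c 0 0 * ((0 : ℕ) * lam i + ((0 : ℕ) + 1) * mu i)))
    {χ : Fin n → Fin n → ℤ} {p : Fin n → MvPolynomial (S.D 0 b₀).ι ℂ}
    (hp : ∀ j, p j ∈ BPoly (S.D 0 b₀).R q (χ j)) {ε : Fin n → ℝ} (hε : ∀ j, 0 < ε j)
    (hκ : (q * S.c 0 b₀ * (b₀ + 1) : ℕ) * ∑ j, ε j < 1 / 2) (c : ℝ) {y : X}
    (h1 : MvPolynomial.eval ((S.D (2 * k₀) 0).v y) pA ≠ 0)
    (h2 : MvPolynomial.eval ((S.D 0 0).v y) pB ≠ 0)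
    (h3 : ∀ j, MvPolynomial.eval ((S.D 0 b₀).v y) (p j) ≠ 0) :
    S.Sst k₀ 1 (fun i => k₀ * lam i + mu i + (∑ j, ε j * ((χ j i : ℝ) -
      (q * S.c 0 b₀ * (b₀ + 1) : ℕ) * mu i) + c)) y := by
  have hc1 : (0 : ℝ) < S.c (2 * k₀) 0 := by exact_mod_cast S.c_pos (2 * k₀) 0
  have hc2 : (0 : ℝ) < S.c 0 0 := by exact_mod_cast S.c_pos 0 0
  obtain ⟨CA, hCA⟩ := S.le_lev (2 * k₀) 0 le_rfl hA h1
  obtain ⟨CB, hCB⟩ := S.le_lev 0 0 le_rfl hB h2
  have hCj := fun j => S.le_lev 0 b₀ hq (hp j) (h3 j)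
  choose Cj hCj using hCj
  set Q : ℝ := ((q * S.c 0 b₀ * (b₀ + 1) : ℕ) : ℝ) with hQ
  set κ : ℝ := Q * ∑ j, ε j with hκd
  have hA' : ∀ g, CA / S.c (2 * k₀) 0 ≤
      S.lev (2 * k₀) 1 (fun i => 2 * k₀ * (lam i : ℝ) + mu i) y g := by
    intro g
    rw [div_le_iff₀ hc1]
    have e := S.lev_smul (S.c (2 * k₀) 0) (2 * k₀) 1 (fun i => 2 * k₀ * (lam i : ℝ) + mu i) y g
    have e2 := hCA g
    rw [mul_comm, ← e]
    refine e2.trans (le_of_eq ?_)
    congr 1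
    · push_cast
      ring
    · push_cast
      ring
    · funext i
      push_cast
      ring
  have hB' : ∀ g, CB / S.c 0 0 ≤ S.lev 0 1 (fun i => (mu i : ℝ)) y g := by
    intro g
    rw [div_le_iff₀ hc2]
    have e := S.lev_smul (S.c 0 0) 0 1 (fun i => (mu i : ℝ)) y g
    have e2 := hCB g
    rw [mul_comm, ← e]
    refine e2.trans (le_of_eq ?_)
    congr 1
    · push_cast
      ring
    · push_cast
      ring
    · funext i
      push_cast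
      ring
  have hJ' : ∀ j g, Cj j ≤ S.lev 0 Q (fun i => (χ j i : ℝ)) y g := by
    intro j g
    refine (hCj j g).trans (le_of_eq ?_)
    congr 1
    · push_cast
      ring
    · rw [hQ]
      push_cast
      ring
  refine ⟨1 / 2 * (CA / S.c (2 * k₀) 0) + (1 / 2 - κ) * (CB / S.c 0 0) + ∑ j, ε j * Cj j,
    fun g => ?_⟩
  have key : S.lev k₀ 1 (fun i => k₀ * lam i + mu i + (∑ j, ε j * ((χ j i : ℝ) -
      Q * mu i) + c)) y g =
      1 / 2 * S.lev (2 * k₀) 1 (fun i => 2 * k₀ * (lam i : ℝ) + mu i) y g +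
      (1 / 2 - κ) * S.lev 0 1 (fun i => (mu i : ℝ)) y g +
      ∑ j, ε j * S.lev 0 Q (fun i => (χ j i : ℝ)) y g := by
    unfold GSys.lev
    have s1 : ∑ i, ((k₀ : ℝ) * lam i + mu i + (∑ j, ε j * ((χ j i : ℝ) - Q * mu i) + c)) *
        hw g i = k₀ * ∑ i, (lam i : ℝ) * hw g i + ∑ i, (mu i : ℝ) * hw g i +
        (∑ j, ε j * ∑ i, (χ j i : ℝ) * hw g i - κ * ∑ i, (mu i : ℝ) * hw g i) := by
      have s2 : ∀ i, ((k₀ : ℝ) * lam i + mu i + (∑ j, ε j * ((χ j i : ℝ) - Q * mu i) + c)) *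
          hw g i = k₀ * ((lam i : ℝ) * hw g i) + (mu i : ℝ) * hw g i +
          ((∑ j, ε j * ((χ j i : ℝ) * hw g i) - κ * ((mu i : ℝ) * hw g i)) + c * hw g i) := by
        intro i
        have s3 : ∑ j, ε j * ((χ j i : ℝ) - Q * mu i) = ∑ j, ε j * (χ j i : ℝ) - κ * mu i := by
          rw [hκd, Finset.mul_sum, Finset.sum_mul, ← Finset.sum_sub_distrib]
          exact Finset.sum_congr rfl fun j _ => by ring
        have s4 : ∑ j, ε j * ((χ j i : ℝ) * hw g i) = (∑ j, ε j * (χ j i : ℝ)) * hw g i := by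
          rw [Finset.sum_mul]
          exact Finset.sum_congr rfl fun j _ => by ring
        rw [s3, s4]
        ring
      rw [Finset.sum_congr rfl fun i _ => s2 i, Finset.sum_add_distrib, Finset.sum_add_distrib,
        Finset.sum_add_distrib, Finset.sum_sub_distrib, ← Finset.mul_sum, ← Finset.mul_sum,
        ← Finset.mul_sum, hw_sum, Finset.sum_comm]
      have s5 : ∀ j, ∑ i, ε j * ((χ j i : ℝ) * hw g i) = ε j * ∑ i, (χ j i : ℝ) * hw g i :=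
        fun j => (Finset.mul_sum _ _ _).symm
      rw [Finset.sum_congr rfl fun j _ => s5 j]
      ring
    have s6 : ∑ i, (2 * (k₀ : ℝ) * lam i + mu i) * hw g i =
        2 * (k₀ * ∑ i, (lam i : ℝ) * hw g i) + ∑ i, (mu i : ℝ) * hw g i := by
      rw [Finset.mul_sum, Finset.mul_sum, ← Finset.sum_add_distrib]
      exact Finset.sum_congr rfl fun i _ => by ring
    have s7 : ∑ j, ε j * (0 * S.fL g y + Q * S.fP g y + ∑ i, (χ j i : ℝ) * hw g i) =
        κ * S.fP g y + ∑ j, ε j * ∑ i, (χ j i : ℝ) * hw g i := by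
      rw [hκd, Finset.mul_sum, Finset.sum_mul, ← Finset.sum_add_distrib]
      exact Finset.sum_congr rfl fun j _ => by ring
    rw [s1, s6, s7]
    ring
  rw [key]
  have hκ0 : κ < 1 / 2 := hκ
  have t1 : 1 / 2 * (CA / S.c (2 * k₀) 0) ≤
      1 / 2 * S.lev (2 * k₀) 1 (fun i => 2 * k₀ * (lam i : ℝ) + mu i) y g :=
    mul_le_mul_of_nonneg_left (hA' g) (by norm_num)
  have t2 : (1 / 2 - κ) * (CB / S.c 0 0) ≤
      (1 / 2 - κ) * S.lev 0 1 (fun i => (mu i : ℝ)) y g :=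
    mul_le_mul_of_nonneg_left (hB' g) (by linarith)
  have t3 : ∑ j, ε j * Cj j ≤ ∑ j, ε j * S.lev 0 Q (fun i => (χ j i : ℝ)) y g :=
    Finset.sum_le_sum fun j _ => mul_le_mul_of_nonneg_left (hJ' j g) (hε j).le
  exact add_le_add (add_le_add t1 t2) t3

/-- The exponents are antitone. -/
theorem GSys.antitone_of_nz {k₀ b₀ q : ℕ} {lam mu : Fin n → ℤ} (hl : Antitone lam)
    (hm : Antitone mu) {χ : Fin n → Fin n → ℤ} {p : Fin n → MvPolynomial (S.D 0 b₀).ι ℂ}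
    (hp : ∀ j, p j ∈ BPoly (S.D 0 b₀).R q (χ j)) (hp0 : ∀ j, p j ≠ 0) {ε : Fin n → ℝ}
    (hε : ∀ j, 0 < ε j) (hκ : (q * S.c 0 b₀ * (b₀ + 1) : ℕ) * ∑ j, ε j < 1 / 2) (c : ℝ) :
    Antitone (fun i => k₀ * lam i + mu i + (∑ j, ε j * ((χ j i : ℝ) -
      (q * S.c 0 b₀ * (b₀ + 1) : ℕ) * mu i) + c)) := by
  intro i i' hii
  set Q : ℝ := ((q * S.c 0 b₀ * (b₀ + 1) : ℕ) : ℝ) with hQ
  have e : ∀ i, ∑ j, ε j * ((χ j i : ℝ) - Q * mu i) =
      ∑ j, ε j * (χ j i : ℝ) - Q * (∑ j, ε j) * mu i := by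
    intro i
    rw [Finset.mul_sum, Finset.sum_mul, ← Finset.sum_sub_distrib]
    exact Finset.sum_congr rfl fun j _ => by ring
  have h1 : (lam i' : ℝ) ≤ lam i := by exact_mod_cast hl hii
  have h2 : (mu i' : ℝ) ≤ mu i := by exact_mod_cast hm hii
  have h3 : ∑ j, ε j * (χ j i' : ℝ) ≤ ∑ j, ε j * (χ j i : ℝ) := by
    refine Finset.sum_le_sum fun j _ => mul_le_mul_of_nonneg_left ?_ (hε j).le
    have h4 : χ j i' ≤ χ j i := BPoly_antitone _ (hp j) (hp0 j) hii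
    exact_mod_cast h4
  have h4 : (k₀ : ℝ) * lam i' ≤ k₀ * lam i := mul_le_mul_of_nonneg_left h1 (Nat.cast_nonneg _)
  have h5 : (1 - Q * (∑ j, ε j)) * mu i' ≤ (1 - Q * (∑ j, ε j)) * mu i :=
    mul_le_mul_of_nonneg_left h2 (by linarith)
  show (k₀ : ℝ) * lam i' + mu i' + (∑ j, ε j * ((χ j i' : ℝ) - Q * mu i') + c) ≤
    k₀ * lam i + mu i + (∑ j, ε j * ((χ j i : ℝ) - Q * mu i) + c)
  rw [e, e]
  linarith

/-- Stability at nearby exponents, on a compact set. -/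
theorem GSys.stb_near (a b : ℕ) {θ : Fin n → ℝ} (hθ : StrictAnti θ) {C : Set X}
    (hC : IsCompact C) (h : ∀ y ∈ C, S.Stb a (b + 1) θ y) :
    ∃ η : ℝ, 0 < η ∧ ∀ θ' : Fin n → ℝ, (∀ i, |θ' i - θ i| ≤ η) →
      ∀ y ∈ C, S.Stb a (b + 1) θ' y := by
  have key : ∃ η : ℝ, 0 < η ∧ ∀ θ' : Fin n → ℝ, (∀ i, |θ' i - θ i| ≤ η) →
      ∀ y ∈ C, S.Stb a (b + 1) θ' y := by
    refine hC.induction_on (p := fun C' => ∃ η : ℝ, 0 < η ∧ ∀ θ' : Fin n → ℝ,
      (∀ i, |θ' i - θ i| ≤ η) → ∀ y ∈ C', S.Stb a (b + 1) θ' y) ?_ ?_ ?_ ?_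
    · exact ⟨1, one_pos, fun θ' _ y hy => absurd hy (Set.notMem_empty y)⟩
    · rintro s t hst ⟨η, hη, ht⟩
      exact ⟨η, hη, fun θ' h' y hy => ht θ' h' y (hst hy)⟩
    · rintro s t ⟨η, hη, hs⟩ ⟨η', hη', ht⟩
      refine ⟨min η η', lt_min hη hη', fun θ' h' y hy => ?_⟩
      rcases hy with hy | hy
      · exact hs θ' (fun i => (h' i).trans (min_le_left _ _)) y hy
      · exact ht θ' (fun i => (h' i).trans (min_le_right _ _)) y hy
    · intro y₀ hy₀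
      obtain ⟨O, hO, δ, η, C', hδ, hη, hg⟩ := S.growth a b hθ (h y₀ hy₀)
      refine ⟨O, mem_nhdsWithin_of_mem_nhds hO, η, hη, fun θ' h' y hy M => ?_⟩
      refine ⟨(M + C') / δ, fun g hgM => ?_⟩
      have h1 := hg y hy θ' h' g
      rw [le_div_iff₀ hδ]
      linarith [mul_comm δ (sz g)]
  exact key

end lev

end Pool.Agent.SG
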