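import Mathlib

/-!
# Section 8: the choice of the exponents
-/

set_option autoImplicit false

open Set Filter Topology

namespace Pool.Agent.SG

variable {n : ℕ}

/-- A generic small positive combination. -/
theorem exists_tau (δ : Fin n → Fin n → ℝ)
    (hspan : Submodule.span ℝ (Set.range δ ∪ {fun _ => (1 : ℝ)}) = ⊤) (θ₀ : Fin n → ℝ)
    {G : Set (Fin n → ℝ)} (hG : IsOpen G) (hGd : Dense G) {η : ℝ} (hη : 0 < η) :
    ∃ (ε : Fin n → ℝ) (c : ℝ), (∀ j, 0 < ε j) ∧ ∑ j, ε j < η ∧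
      (∀ i, |∑ j, ε j * δ j i + c| < η) ∧ (fun i => θ₀ i + (∑ j, ε j * δ j i + c)) ∈ G := by
  let F : ((Fin n → ℝ) × ℝ) →ₗ[ℝ] (Fin n → ℝ) :=
    { toFun := fun v i => ∑ j, v.1 j * δ j i + v.2
      map_add' := by
        intro v w
        funext i
        simp only [Prod.fst_add, Prod.snd_add, Pi.add_apply, add_mul, Finset.sum_add_distrib]
        ring
      map_smul' := by
        intro r v
        funext i
        simp only [Prod.smul_fst, Prod.smul_snd, Pi.smul_apply, smul_eq_mul, RingHom.id_apply,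
          mul_add, Finset.mul_sum, mul_assoc] }
  have hF : ∀ v i, F v i = ∑ j, v.1 j * δ j i + v.2 := fun v i => rfl
  have hsurj : Function.Surjective F := by
    rw [← LinearMap.range_eq_top, eq_top_iff, ← hspan, Submodule.span_le]
    rintro x (⟨j, rfl⟩ | hx)
    · refine ⟨(Pi.single j 1, 0), ?_⟩
      funext i
      rw [hF, Finset.sum_eq_single j]
      · simp
      · intro j' _ hj'
        show (Pi.single j 1 : Fin n → ℝ) j' * δ j' i = 0
        rw [Pi.single_eq_of_ne hj', zero_mul]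
      · intro h
        exact absurd (Finset.mem_univ j) h
    · rw [Set.mem_singleton_iff] at hx
      subst hx
      refine ⟨(0, 1), ?_⟩
      funext i
      rw [hF]
      simp
  have hopen : IsOpenMap F := LinearMap.isOpenMap_of_finiteDimensional F hsurj
  let O : Set ((Fin n → ℝ) × ℝ) := {v | (∀ j, 0 < v.1 j) ∧ ∑ j, v.1 j < η ∧
    ∀ i, |∑ j, v.1 j * δ j i + v.2| < η}
  have hO : IsOpen O := by
    have h1 : IsOpen {v : (Fin n → ℝ) × ℝ | ∀ j, 0 < v.1 j} := by
      rw [Set.ofPred_forall]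
      exact isOpen_iInter_of_finite fun j => isOpen_lt continuous_const (by fun_prop)
    have h2 : IsOpen {v : (Fin n → ℝ) × ℝ | ∑ j, v.1 j < η} :=
      isOpen_lt (by fun_prop) continuous_const
    have h3 : IsOpen {v : (Fin n → ℝ) × ℝ | ∀ i, |∑ j, v.1 j * δ j i + v.2| < η} := by
      rw [Set.ofPred_forall]
      exact isOpen_iInter_of_finite fun i => isOpen_lt (by fun_prop) continuous_const
    exact h1.inter (h2.inter h3)
  have hOne : O.Nonempty := by
    have hA0 : (0 : ℝ) ≤ ∑ i, ∑ j, |δ j i| :=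
      Finset.sum_nonneg fun i _ => Finset.sum_nonneg fun j _ => abs_nonneg _
    have hA : (0 : ℝ) < n + 1 + ∑ i, ∑ j, |δ j i| := by positivity
    set A : ℝ := n + 1 + ∑ i, ∑ j, |δ j i| with hAd
    have ht : 0 < η / (2 * A) := by positivity
    have htA : η / (2 * A) * A = η / 2 := by
      field_simp
    refine ⟨(fun _ => η / (2 * A), 0), fun j => ht, ?_, fun i => ?_⟩
    · show ∑ j : Fin n, η / (2 * A) < η
      rw [Finset.sum_const, Finset.card_univ, Fintype.card_fin, nsmul_eq_mul]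
      have h1 : (n : ℝ) ≤ A := by rw [hAd]; linarith
      have h2 : (n : ℝ) * (η / (2 * A)) ≤ A * (η / (2 * A)) :=
        mul_le_mul_of_nonneg_right h1 ht.le
      have h3 : A * (η / (2 * A)) = η / 2 := by rw [mul_comm]; exact htA
      linarith
    · show |∑ j : Fin n, η / (2 * A) * δ j i + 0| < η
      rw [add_zero, ← Finset.mul_sum, abs_mul, abs_of_pos ht]
      have h1 : |∑ j, δ j i| ≤ ∑ j, |δ j i| := Finset.abs_sum_le_sum_abs _ _
      have h2 : ∑ j, |δ j i| ≤ ∑ i, ∑ j, |δ j i| :=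
        Finset.single_le_sum (f := fun i => ∑ j, |δ j i|)
          (fun i _ => Finset.sum_nonneg fun j _ => abs_nonneg _) (Finset.mem_univ i)
      have h3 : |∑ j, δ j i| ≤ A := by
        rw [hAd]
        have : (0 : ℝ) ≤ n := Nat.cast_nonneg n
        linarith
      have h4 := mul_le_mul_of_nonneg_left h3 ht.le
      linarith
  have hV : IsOpen ((fun x : Fin n → ℝ => θ₀ + x) '' (F '' O)) :=
    (Homeomorph.addLeft θ₀).isOpenMap _ (hopen _ hO)
  obtain ⟨x, hxV, hxG⟩ := hGd.inter_open_nonempty _ hV ((hOne.image F).image _)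
  obtain ⟨_, ⟨v, hv, rfl⟩, rfl⟩ := hxV
  exact ⟨v.1, v.2, hv.1, hv.2.1, hv.2.2, hxG⟩

/-- Rational approximation with a common denominator. -/
theorem exists_rat (τ : Fin n → ℝ) {η : ℝ} (hη : 0 < η) :
    ∃ l : ℕ, 1 ≤ l ∧ ∃ T : Fin n → ℤ, ∀ i, |(T i : ℝ) / l - τ i| ≤ η := by
  obtain ⟨l, hl⟩ := exists_nat_gt (1 / η)
  have hl0 : (0 : ℝ) < l := lt_trans (by positivity) hl
  have hl1 : 1 ≤ l := by exact_mod_cast hl0
  refine ⟨l, hl1, fun i => ⌊(l : ℝ) * τ i⌋, fun i => ?_⟩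
  have h1 : ((⌊(l : ℝ) * τ i⌋ : ℤ) : ℝ) ≤ l * τ i := Int.floor_le _
  have h2 : (l : ℝ) * τ i < ⌊(l : ℝ) * τ i⌋ + 1 := Int.lt_floor_add_one _
  have h3 : ((⌊(l : ℝ) * τ i⌋ : ℤ) : ℝ) / l - τ i = (((⌊(l : ℝ) * τ i⌋ : ℤ) : ℝ) - l * τ i) / l := by
    field_simp
  have h4 : 1 / (l : ℝ) ≤ η := by
    rw [div_le_iff₀ hl0]
    rw [div_lt_iff₀ hη] at hl
    linarith [mul_comm η (l : ℝ)]
  rw [h3, abs_div, abs_of_pos hl0]
  refine le_trans ?_ h4
  refine div_le_div_of_nonneg_right ?_ hl0.le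
  rw [abs_le]
  constructor <;> linarith

/-- Small changes preserve strict monotonicity. -/
theorem strictAnti_near {θ : Fin n → ℝ} (h : StrictAnti θ) :
    ∃ η : ℝ, 0 < η ∧ ∀ θ' : Fin n → ℝ, (∀ i, |θ' i - θ i| ≤ η) → StrictAnti θ' := by
  have h1 : ∀ᶠ η in 𝓝[>] (0 : ℝ), ∀ i j : Fin n, i < j → 2 * η < θ i - θ j := by
    rw [Filter.eventually_all]
    intro i
    rw [Filter.eventually_all]
    intro j
    by_cases hij : i < j
    · have h2 : 0 < θ i - θ j := sub_pos.2 (h hij)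
      have h3 : Filter.Tendsto (fun η : ℝ => 2 * η) (𝓝[>] (0 : ℝ)) (𝓝 (2 * 0)) :=
        ((continuous_const.mul continuous_id).tendsto (0 : ℝ)).mono_left nhdsWithin_le_nhds
      rw [mul_zero] at h3
      filter_upwards [h3.eventually (gt_mem_nhds h2)] with η hη _
      exact hη
    · exact Filter.Eventually.of_forall fun η h3 => absurd h3 hij
  obtain ⟨η, hη1, hη2⟩ := (h1.and self_mem_nhdsWithin).exists
  refine ⟨η, hη2, fun θ' hθ' i j hij => ?_⟩
  have h2 := hη1 i j hij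
  have h3 := abs_le.1 (hθ' i)
  have h4 := abs_le.1 (hθ' j)
  linarith [h3.1, h4.2]

end Pool.Agent.SG
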