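import Pool.Agent.H.MP_e23cd6_ag.SG.AA

/-!
# Section 9: semiample and ample line bundles on `U / B` from stability
-/

set_option autoImplicit false

open scoped Manifold ContDiff Topology ENNReal
open MeasureTheory Set Filter

namespace Pool.Agent.SG

open Pool.Agent.Abd Pool.Agent.Abn

variable {E : Type} [NormedAddCommGroup E] [NormedSpace ℂ E] [FiniteDimensional ℂ E] {n : ℕ}
  {X₀ X : Type} [TopologicalSpace X₀] [ChartedSpace E X₀] [IsManifold 𝓘(ℂ, E) ω X₀]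
  [TopologicalSpace X] [T2Space X] [CompactSpace X] [ConnectedSpace X]
  {N : NSp E X₀ X} {L P : NLine N} {A : GAct n N} {ΛL : GLin A L} {ΛP : GLin A P}
  {S : GSys n X} (r : SysOf ΛL ΛP S) (M : ℕ) (hM : 1 ≤ M)

/-- Stable points are semistable (used before `GSys.Stb.sst`). -/
theorem AS_sst {n : ℕ} {X : Type} [TopologicalSpace X] [CompactSpace X]
    {S : GSys n X} {a b : ℕ} {θ : Fin n → ℝ}
    {y : X} (hθ : StrictAnti θ) (h : S.Stb a (b + 1) θ y) : S.Sst a (b + 1) θ y := by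
  obtain ⟨O, hO, δ, η, C, hδ, hη, hlow⟩ := S.growth a b hθ h
  refine ⟨-C, fun g => ?_⟩
  have h1 := hlow y (mem_of_mem_nhds hO) θ (fun i => by rw [sub_self, abs_zero]; exact hη.le) g
  have h2 := mul_nonneg hδ.le (sz_nonneg g)
  linarith

include r in
/-- Sections over `X` from the polynomials in the evaluation vectors. -/
theorem toSecM {a b q : ℕ} {χ : Fin n → ℤ} {p : MvPolynomial ((S.scale M hM).D a b).ι ℂ}
    (hp : p ∈ BPoly ((S.scale M hM).D a b).R q χ) :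
    ∃ s : NSec L P (q * ((S.scale M hM).c a b * (M * a)))
        (q * ((S.scale M hM).c a b * (M * (b + 1)))) univ, BWt ΛL ΛP χ s ∧
      ∀ y, s.NZ y ↔ MvPolynomial.eval (((S.scale M hM).D a b).v y) p ≠ 0 := by
  have e : M * (b + 1) - 1 + 1 = M * (b + 1) :=
    Nat.sub_add_cancel (le_trans hM (Nat.le_mul_of_pos_right M (Nat.succ_pos b)))
  obtain ⟨s, hs, hnz⟩ := r.toSec (a := M * a) (b := M * (b + 1) - 1) (M := q) hp
  refine ⟨s.cast rfl (by rw [e]; rfl), hs.cast _ _, fun y => ?_⟩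
  rw [NSec.nz_cast]
  exact hnz y

include r in
theorem semi_of_sst_pt {y : X} {a b : ℕ} {ψ : Fin n → ℤ} (hψ : Antitone ψ)
    (h : (S.scale M hM).Sst a (b + 1) (fun i => (ψ i : ℝ)) y) :
    ∃ l : ℕ, 1 ≤ l ∧ ∃ p ∈ BPoly ((S.scale M hM).D a b).R l
      (fun i => l * ((S.scale M hM).c a b * ψ i)),
      MvPolynomial.eval (((S.scale M hM).D a b).v y) p ≠ 0 := by
  have hc : ((S.scale M hM).c a b : ℝ) ≠ 0 := by
    have := (S.scale M hM).c_pos a b
    positivity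
  have h1 : (fun i => (ψ i : ℝ)) = fun i =>
      (((((S.scale M hM).c a b : ℕ) : ℤ) * ψ i : ℤ) : ℝ) / (S.scale M hM).c a b := by
    funext i
    push_cast
    field_simp
  rw [h1, (S.scale M hM).sst_iff] at h
  obtain ⟨C, hC⟩ := h
  refine exists_inv ((S.scale M hM).D a b).R (fun i j hij => ?_) (((S.scale M hM).D a b).ne y) C hC
  exact mul_le_mul_of_nonneg_left (hψ hij) (Int.natCast_nonneg _)

include r in
/-- (9.1), (9.3) -/
theorem semi_of_sst {U : Set X} (hU : BGood A U) (a b : ℕ) {ψ : Fin n → ℤ} (hψ : Antitone ψ)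
    (h : ∀ y ∈ U, (S.scale M hM).Sst a (b + 1) (fun i => (ψ i : ℝ)) y) :
    BSemiG ΛL ΛP U (M * a) (M * (b + 1)) ψ := by
  refine bsemiG_of_local hU fun y hy => ?_
  obtain ⟨l, hl, p, hp, h0⟩ := semi_of_sst_pt r M hM hψ (h y hy)
  obtain ⟨s, hs, hnz⟩ := toSecM r M hM hp
  refine ⟨l * (S.scale M hM).c a b, Nat.mul_pos hl ((S.scale M hM).c_pos a b),
    s.cast (mul_assoc _ _ _).symm (mul_assoc _ _ _).symm, ?_, ?_⟩
  · refine (hs.cast _ _).congr fun i => ?_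
    push_cast
    ring
  · rw [NSec.nz_cast]
    exact (hnz y).2 h0

include r in
/-- (9.2) -/
theorem ample_of_stb {U : Set X} (hU : BGood A U) (a b : ℕ) {ψ : Fin n → ℤ} (hψ : StrictAnti ψ)
    (h : ∀ y ∈ U, (S.scale M hM).Stb a (b + 1) (fun i => (ψ i : ℝ)) y) :
    BAmpleG ΛL ΛP U (M * a) (M * (b + 1)) ψ := by
  have hψR : StrictAnti fun i => (ψ i : ℝ) := fun i j hij => Int.cast_lt.2 (hψ hij)
  refine ⟨semi_of_sst r M hM hU a b hψ.antitone fun y hy => AS_sst hψR (h y hy), ?_⟩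
  intro x hx y hy hxy
  have hact : ∀ g y, (S.scale M hM).act g y = A.act g y := fun g y => congrFun (congrFun r.act g) y
  have hcp := (S.scale M hM).c_pos a b
  have hc : ((S.scale M hM).c a b : ℝ) ≠ 0 := by positivity
  have hχ : StrictAnti fun i => (((S.scale M hM).c a b : ℕ) : ℤ) * ψ i := fun i j hij =>
    mul_lt_mul_of_pos_left (hψ hij) (Int.natCast_pos.2 hcp)
  have h1 : (fun i => (ψ i : ℝ)) = fun i =>
      (((((S.scale M hM).c a b : ℕ) : ℤ) * ψ i : ℤ) : ℝ) / (S.scale M hM).c a b := by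
    funext i
    push_cast
    field_simp
  have hmin : ∀ y ∈ U, ∃ b', IsB b' ∧ ∀ g,
      Jf ((S.scale M hM).D a b).R (fun i => (((((S.scale M hM).c a b : ℕ) : ℤ) * ψ i : ℤ) : ℝ))
        (((S.scale M hM).D a b).v ((S.scale M hM).act b' y)) 1 ≤
      Jf ((S.scale M hM).D a b).R (fun i => (((((S.scale M hM).c a b : ℕ) : ℤ) * ψ i : ℤ) : ℝ))
        (((S.scale M hM).D a b).v ((S.scale M hM).act b' y)) g := by
    intro y hy
    have h2 := h y hy
    rw [h1] at h2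
    exact (S.scale M hM).exists_min a b hχ.antitone h2
  obtain ⟨b₁, hb₁, hm₁⟩ := hmin x hx
  obtain ⟨b₂, hb₂, hm₂⟩ := hmin y hy
  obtain ⟨q, hq, p, hp, h4, h5⟩ := exists_inv_sep ((S.scale M hM).D a b).R hχ
    (((S.scale M hM).D a b).ne _) (((S.scale M hM).D a b).ne _) hm₁ hm₂ (by
      intro k _ hkB z hz
      obtain ⟨z', hz', h6⟩ := ((S.scale M hM).D a b).eqv k ((S.scale M hM).act b₁ x)
      rw [h6, smul_smul] at hz
      have h7 := (S.scale M hM).sep a b _ _ ⟨z * z', hz⟩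
      rw [hact, hact, hact] at h7
      refine hxy ⟨b₂⁻¹ * (k * b₁), isB_mul (isB_inv hb₂) (isB_mul hkB hb₁), ?_⟩
      rw [A.mul, A.mul, h7, act_inv_act'])
  obtain ⟨s, hs, hnz⟩ := toSecM r M hM hp
  refine ⟨q * (S.scale M hM).c a b, Nat.mul_pos hq hcp,
    s.cast (mul_assoc _ _ _).symm (mul_assoc _ _ _).symm, ?_, ?_, ?_⟩
  · refine (hs.cast _ _).congr fun i => ?_
    push_cast
    ring
  · rw [NSec.nz_cast, ← hs.nz_iff hb₁ (mem_univ _) (mem_univ _), ← hact]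
    exact (hnz _).2 h4
  · rw [NSec.nz_cast, ← hs.nz_iff hb₂ (mem_univ _) (mem_univ _), ← hact]
    exact fun h8 => (hnz _).1 h8 h5

/-- Stable points are semistable. -/
theorem GSys.Stb.sst {S : GSys n X} {a b : ℕ} {θ : Fin n → ℝ} {y : X} (hθ : StrictAnti θ)
    (h : S.Stb a (b + 1) θ y) : S.Sst a (b + 1) θ y := by
  obtain ⟨O, hO, δ, η, C, hδ, hη, hlow⟩ := S.growth a b hθ h
  refine ⟨-C, fun g => ?_⟩
  have h1 := hlow y (mem_of_mem_nhds hO) θ (fun i => by rw [sub_self, abs_zero]; exact hη.le) g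
  have h2 := mul_nonneg hδ.le (sz_nonneg g)
  linarith

/-- The data found in Section 8. -/
structure Sec8 (S : GSys n X) (A : GAct n N) (L P : NLine N) (x : X) (lam mu : Fin n → ℤ)
    (U : Set X) (k₀ l₀ : ℕ) (T : Fin n → ℤ) : Prop where
  good : BGood A U
  lamA : Antitone lam
  muA : Antitone mu
  hk : 1 ≤ k₀
  hl : 1 ≤ l₀
  strict : StrictAnti fun i => (l₀ * (k₀ * lam i + mu i) + T i : ℤ)
  stb : ∀ y ∈ U, ∀ a b : ℕ, k₀ * (b + 1) ≤ a →
    S.Stb a (b + 1) (fun i => a * lam i + (b + 1) * (mu i + T i / l₀)) y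
  ss : ∀ y ∈ U, ∀ k : ℕ, k = k₀ ∨ k = k₀ + 1 → S.Sst k 1 (fun i => k * lam i + mu i) y
  mem : x ∈ closure U
  v : ∃ (K' J' : ℕ) (v : NSec L P K' J' univ), (∃ y, v.NZ y) ∧ ∀ y, v.NZ y → y ∈ U

namespace Sec8

variable {M : ℕ} {hM : 1 ≤ M} {x : X} {lam mu : Fin n → ℤ} {U : Set X} {k₀ l₀ : ℕ}
  {T : Fin n → ℤ} (h : Sec8 (S.scale M hM) A L P x lam mu U k₀ l₀ T)

include h in
/-- The integral level functions. -/
theorem stbZ (b j : ℕ) {y : X} (hy : y ∈ U) :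
    (S.scale M hM).Stb (l₀ * (b + 1) * k₀ + j) ((l₀ * (b + 1) - 1 : ℕ) + 1) (fun i =>
      (((b + 1) * (l₀ * (k₀ * lam i + mu i) + T i) + j * lam i : ℤ) : ℝ)) y := by
  have hl := h.hl
  have e0 : 1 ≤ l₀ * (b + 1) := Nat.mul_pos hl (Nat.succ_pos b)
  have h1 := h.stb y hy (l₀ * (b + 1) * k₀ + j) (l₀ * (b + 1) - 1) (by
    rw [Nat.sub_add_cancel e0]
    nlinarith [Nat.mul_comm k₀ (l₀ * (b + 1))])
  have hl0 : (l₀ : ℝ) ≠ 0 := by positivity
  have e1 : (((l₀ * (b + 1) - 1 : ℕ) : ℝ) + 1) = l₀ * (b + 1) := by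
    rw [← Nat.cast_add_one, Nat.sub_add_cancel e0]
    push_cast
    ring
  have e2 : ((l₀ * (b + 1) * k₀ + j : ℕ) : ℝ) = l₀ * (b + 1) * k₀ + j := by
    push_cast
    ring
  have e3 : (fun i => ((l₀ * (b + 1) * k₀ + j : ℕ) : ℝ) * lam i +
      (((l₀ * (b + 1) - 1 : ℕ) : ℝ) + 1) * (mu i + T i / l₀)) = fun i =>
      (((b + 1) * (l₀ * (k₀ * lam i + mu i) + T i) + j * lam i : ℤ) : ℝ) := by
    funext i
    rw [e1, e2]
    push_cast
    field_simp
    ring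
  rw [e3, e2] at h1
  exact h1

include h in
theorem strictZ (b j : ℕ) : StrictAnti fun i =>
    ((b + 1) * (l₀ * (k₀ * lam i + mu i) + T i) + j * lam i : ℤ) := by
  intro i i' hij
  have h1 := h.strict hij
  have h2 := h.lamA hij.le
  have h3 : (j : ℤ) * lam i' ≤ j * lam i := mul_le_mul_of_nonneg_left h2 (Int.natCast_nonneg _)
  have h4 : ((b : ℤ) + 1) * (l₀ * (k₀ * lam i' + mu i') + T i') <
      (b + 1) * (l₀ * (k₀ * lam i + mu i) + T i) := mul_lt_mul_of_pos_left h1 (by positivity)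
  exact add_lt_add_of_lt_of_le h4 h3

include h r in
/-- (9.2): the ample line bundle on `U / B`. -/
theorem ample : BAmpleG ΛL ΛP U (M * (l₀ * k₀)) (M * l₀)
    (fun i => l₀ * (k₀ * lam i + mu i) + T i) := by
  have hl := h.hl
  have e : l₀ - 1 + 1 = l₀ := Nat.sub_add_cancel hl
  have h1 := ample_of_stb r M hM h.good (l₀ * k₀) (l₀ - 1) h.strict (fun y hy => by
    have h2 := h.stbZ 0 0 hy
    have e1 : (((l₀ * (0 + 1) - 1 : ℕ) : ℝ) + 1) = ((l₀ - 1 : ℕ) : ℝ) + 1 := by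
      rw [zero_add, mul_one]
    have e2 : (l₀ * (((0 : ℕ) : ℝ) + 1) * k₀ + ((0 : ℕ) : ℝ)) = ((l₀ * k₀ : ℕ) : ℝ) := by
      push_cast
      ring
    have e3 : (fun i => (((((0 : ℕ) : ℤ) + 1) * (l₀ * (k₀ * lam i + mu i) + T i) +
        ((0 : ℕ) : ℤ) * lam i : ℤ) : ℝ)) = fun i =>
        ((l₀ * (k₀ * lam i + mu i) + T i : ℤ) : ℝ) := by
      funext i
      push_cast
      ring
    rw [e3, e2, e1] at h2
    exact h2)
  rw [e] at h1
  exact h1

include h r in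
/-- (9.3): the line bundle given by `L ^ M` and the weight `lam` is nef. -/
theorem nef : BNefG ΛL ΛP U M lam := by
  have hl := h.hl
  have e : l₀ - 1 + 1 = l₀ := Nat.sub_add_cancel hl
  refine ⟨M * (l₀ * k₀), M * l₀, _, h.ample r, fun l _ => ?_⟩
  have hst : StrictAnti fun i => (l * lam i + (l₀ * (k₀ * lam i + mu i) + T i) : ℤ) := by
    have h1 := h.strictZ 0 l
    have e3 : (fun i => ((((0 : ℕ) : ℤ) + 1) * (l₀ * (k₀ * lam i + mu i) + T i) +
        l * lam i : ℤ)) = fun i => (l * lam i + (l₀ * (k₀ * lam i + mu i) + T i) : ℤ) := by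
      funext i
      push_cast
      ring
    rw [e3] at h1
    exact h1
  have h1 := semi_of_sst r M hM h.good (l + l₀ * k₀) (l₀ - 1) hst.antitone (fun y hy => by
    have h2 := h.stbZ 0 l hy
    have e1 : (((l₀ * (0 + 1) - 1 : ℕ) : ℝ) + 1) = ((l₀ - 1 : ℕ) : ℝ) + 1 := by
      rw [zero_add, mul_one]
    have e2 : (l₀ * (((0 : ℕ) : ℝ) + 1) * k₀ + l) = ((l + l₀ * k₀ : ℕ) : ℝ) := by
      push_cast
      ring
    have e3 : (fun i => (((((0 : ℕ) : ℤ) + 1) * (l₀ * (k₀ * lam i + mu i) + T i) +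
        l * lam i : ℤ) : ℝ)) = fun i =>
        ((l * lam i + (l₀ * (k₀ * lam i + mu i) + T i) : ℤ) : ℝ) := by
      funext i
      push_cast
      ring
    rw [e3, e2, e1] at h2
    exact AS_sst (fun i j hij => Int.cast_lt.2 (hst hij)) h2)
  rw [e] at h1
  have e4 : M * (l + l₀ * k₀) = l * M + M * (l₀ * k₀) := by ring
  rw [e4] at h1
  exact h1

end Sec8

end Pool.Agent.SG
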