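import Pool.Agent.H.MP_e23cd6_ag.SG.AS
import Pool.Agent.H.MP_e23cd6_ag.SG.AN
import Pool.Agent.H.MP_e23cd6_ag.SG.AL

/-!
# Section 8: the open set `U`
-/

set_option autoImplicit false

open scoped Manifold ContDiff Topology ENNReal
open MeasureTheory Set Filter

namespace Pool.Agent.SG

open Pool.Agent.Abd Pool.Agent.Abn

variable {E : Type} [NormedAddCommGroup E] [NormedSpace ℂ E] [FiniteDimensional ℂ E] {n : ℕ}
  {X₀ X : Type} [TopologicalSpace X₀] [ChartedSpace E X₀] [IsManifold 𝓘(ℂ, E) ω X₀]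
  [TopologicalSpace X] [T2Space X] [CompactSpace X] [ConnectedSpace X]
  {N : NSp E X₀ X} {L P : NLine N} {A : GAct n N} {ΛL : GLin A L} {ΛP : GLin A P}
  {S : GSys n X} (r : SysOf ΛL ΛP S) (M : ℕ) (hM : 1 ≤ M)

/-- The product of sections of different line bundles. -/
noncomputable def prodSec {ι : Type} (T : Finset ι) (K J : ι → ℕ) {U : Set X}
    (s : ∀ j, NSec L P (K j) (J j) U) : NSec L P (∑ j ∈ T, K j) (∑ j ∈ T, J j) U where
  f := fun i j x => ∏ a ∈ T, (s a).f i j x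
  hol := fun i j x hx hi hj => Hol_prod T fun a _ => (s a).hol i j x hx hi hj
  trans := fun i j i' j' x hx h1 h2 h3 h4 => by
    rw [← Finset.prod_pow_eq_pow_sum, ← Finset.prod_pow_eq_pow_sum, ← Finset.prod_mul_distrib,
      ← Finset.prod_mul_distrib]
    exact Finset.prod_congr rfl fun a _ => (s a).trans i j i' j' x hx h1 h2 h3 h4

theorem nz_prodSec {ι : Type} (T : Finset ι) (K J : ι → ℕ)
    (s : ∀ j, NSec L P (K j) (J j) (univ : Set X)) (y : X) :
    (prodSec T K J s).NZ y ↔ ∀ a ∈ T, (s a).NZ y := by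
  obtain ⟨i, j, h⟩ := exists_nat L P y
  rw [(prodSec T K J s).nz_iff (mem_univ y) h]
  show (∏ a ∈ T, (s a).f i j y ≠ 0) ↔ _
  rw [Finset.prod_ne_zero_iff]
  refine forall₂_congr fun a _ => ?_
  rw [(s a).nz_iff (mem_univ y) h]

/-- Finitely many nonzero sections are nonzero together on a dense connected set. -/
theorem exists_dense_nz {ι : Type} [Fintype ι] (K J : ι → ℕ) (s : ∀ j, NSec L P (K j) (J j) univ)
    (hs : ∀ j, ∃ y, (s j).NZ y) :
    ∃ (K' J' : ℕ) (v : NSec L P K' J' univ), (∃ y, v.NZ y) ∧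
      (∀ y, v.NZ y → ∀ j, (s j).NZ y) ∧ Dense {y | v.NZ y} ∧ IsConnected {y | v.NZ y} := by
  classical
  have hpt : ∀ T : Finset ι, ∃ y, ∀ a ∈ T, (s a).NZ y := by
    intro T
    induction T using Finset.induction_on with
    | empty =>
      obtain ⟨y⟩ := (inferInstance : Nonempty X)
      exact ⟨y, fun a ha => absurd ha (Finset.notMem_empty a)⟩
    | insert a T ha ih =>
      obtain ⟨y, hy⟩ := ih
      obtain ⟨z, hz⟩ := hs a
      have h1 : IsOpen {x | x ∈ (univ : Set X) ∧ (prodSec T K J s).NZ x} :=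
        nnz_isOpen isOpen_univ _
      obtain ⟨w, hw, hw2⟩ := exists_nz isOpen_univ isConnected_univ (s a) (mem_univ z) hz h1
        (subset_univ _) ⟨y, mem_univ y, (nz_prodSec T K J s y).2 hy⟩
      refine ⟨w, fun b hb => ?_⟩
      rcases Finset.mem_insert.1 hb with rfl | hb
      · exact hw2
      · exact (nz_prodSec T K J s w).1 hw.2 b hb
  obtain ⟨y, hy⟩ := hpt Finset.univ
  set v := prodSec Finset.univ K J s with hv
  have hvy : v.NZ y := (nz_prodSec _ K J s y).2 hy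
  refine ⟨_, _, v, ⟨y, hvy⟩, fun z hz j => (nz_prodSec _ K J s z).1 hz j (Finset.mem_univ j),
    dense_of_nz v hvy (fun _ hx => hx), ?_⟩
  exact isConnected_of_thin isOpen_univ isConnected_univ (subset_univ _) v (mem_univ y) hvy
    (fun _ _ hx => hx)

include r in
/-- Section 8. -/
theorem exists_sec8 (hn : 2 ≤ n) (hden : Dense {y : X | NoFix A.act y}) {x : X}
    {lam mu : Fin n → ℤ} (hl : Antitone lam) (hm : Antitone mu)
    (hb : ∀ a b, ∃ p ∈ BPoly ((S.scale M hM).D a b).R 1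
      (fun i => (S.scale M hM).c a b * (a * lam i + (b + 1) * mu i)),
      MvPolynomial.eval (((S.scale M hM).D a b).v x) p ≠ 0) :
    ∃ (U : Set X) (k₀ l₀ : ℕ) (T : Fin n → ℤ),
      Sec8 (S.scale M hM) A L P x lam mu U k₀ l₀ T := by
  set S' := S.scale M hM with hS'
  have hact : S'.act = A.act := r.act
  obtain ⟨k₀, hk₀, hstab⟩ := S'.exists_k0 hl hm
  -- the constants of (4.6)
  have hanti : ∀ k : ℕ, Antitone fun i => (k : ℤ) * lam i + mu i := by
    intro k i j hij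
    have e1 := hl hij
    have e2 := hm hij
    have e3 : (0 : ℤ) ≤ k := Int.natCast_nonneg _
    show (k : ℤ) * lam j + mu j ≤ k * lam i + mu i
    nlinarith [mul_le_mul_of_nonneg_left e1 e3]
  obtain ⟨ε₀, hε₀, h46a⟩ := S'.eps_zero k₀ 0 (hanti k₀)
  obtain ⟨ε₁, hε₁, h46b⟩ := S'.eps_zero (k₀ + 1) 0 (hanti (k₀ + 1))
  obtain ⟨G, hGo, hGd, hG⟩ := S'.exists_generic k₀ 0
  -- the eigensections of the powers of `P`
  obtain ⟨y₁, θ₁, hθ₁, hst⟩ := S'.exists_stb0 hn (by rw [hact]; exact hden) ⟨x⟩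
  obtain ⟨b₀, q, χ, p, hq, hp, hpy, hspan⟩ := S'.exists_forms hθ₁ hst
  obtain ⟨pA, hpA, hpAx⟩ := hb (2 * k₀) 0
  obtain ⟨pB, hpB, hpBx⟩ := hb 0 0
  have hp0 : ∀ j, p j ≠ 0 := by
    intro j h0
    apply hpy j
    rw [h0, map_zero]
  -- the exponents
  set κ : ℕ := q * S'.c 0 b₀ * (b₀ + 1) with hκ
  set η : ℝ := min (1 / (2 * ((κ : ℝ) + 1))) (min (min ε₀ ε₁) 1) / 2 with hη
  have hκpos : (0 : ℝ) < 2 * (κ + 1) := by positivity
  have hm0 : 0 < min (1 / (2 * ((κ : ℝ) + 1))) (min (min ε₀ ε₁) 1) :=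
    lt_min (by positivity) (lt_min (lt_min hε₀ hε₁) one_pos)
  have hη0 : 0 < η := by rw [hη]; linarith
  have hη1 : η < 1 / (2 * ((κ : ℝ) + 1)) := by
    have := min_le_left (1 / (2 * ((κ : ℝ) + 1))) (min (min ε₀ ε₁) 1)
    rw [hη]; linarith
  have hη2 : 2 * η ≤ min (min ε₀ ε₁) 1 := by
    have := min_le_right (1 / (2 * ((κ : ℝ) + 1))) (min (min ε₀ ε₁) 1)
    rw [hη]; linarith
  have hηa : 2 * η ≤ ε₀ := hη2.trans ((min_le_left _ _).trans (min_le_left _ _))
  have hηb : 2 * η ≤ ε₁ := hη2.trans ((min_le_left _ _).trans (min_le_right _ _))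
  have hηc : 2 * η ≤ 1 := hη2.trans (min_le_right _ _)
  obtain ⟨ε, c, hε, hεs, hτ, hτG⟩ := exists_tau
    (fun j i => (χ j i : ℝ) - (κ : ℝ) * mu i) (hspan _) (fun i => (k₀ : ℝ) * lam i + mu i)
    hGo hGd hη0
  have hκε : (κ : ℝ) * ∑ j, ε j < 1 / 2 := by
    have h0 : 0 ≤ ∑ j, ε j := Finset.sum_nonneg fun j _ => (hε j).le
    have h1 : (κ : ℝ) * ∑ j, ε j ≤ (κ + 1) * ∑ j, ε j := by linarith
    have h2 : ((κ : ℝ) + 1) * ∑ j, ε j < (κ + 1) * (1 / (2 * (κ + 1))) :=
      mul_lt_mul_of_pos_left (hεs.trans hη1) (by positivity)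
    have h3 : ((κ : ℝ) + 1) * (1 / (2 * (κ + 1))) = 1 / 2 := by
      field_simp
    linarith
  set τ : Fin n → ℝ := fun i => ∑ j, ε j * ((χ j i : ℝ) - (κ : ℝ) * mu i) + c with hτd
  set θ : Fin n → ℝ := fun i => (k₀ : ℝ) * lam i + mu i + τ i with hθ
  have hθA : Antitone θ := S'.antitone_of_nz hl hm hp hp0 hε hκε c
  obtain ⟨hθS, hgen⟩ := hG θ hτG hθA
  set U : Set X := {y | S'.Stb k₀ ((0 : ℕ) + 1) θ y} with hU
  obtain ⟨hUo, hUB, ⟨C, hCc, hCU, hCB⟩, hUp⟩ := S'.good k₀ 0 hθS hgen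
  -- the dense connected subset
  obtain ⟨sA, hsA, hsA2⟩ := toSecM r M hM hpA
  obtain ⟨sB, hsB, hsB2⟩ := toSecM r M hM hpB
  choose sσ hsσ hsσ2 using fun j => toSecM r M hM (hp j)
  let KK : Option (Option (Fin n)) → ℕ := fun o => match o with
    | none => 1 * (S'.c (2 * k₀) 0 * (M * (2 * k₀)))
    | some none => 1 * (S'.c 0 0 * (M * 0))
    | some (some _) => q * (S'.c 0 b₀ * (M * 0))
  let JJ : Option (Option (Fin n)) → ℕ := fun o => match o with
    | none => 1 * (S'.c (2 * k₀) 0 * (M * (0 + 1)))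
    | some none => 1 * (S'.c 0 0 * (M * (0 + 1)))
    | some (some _) => q * (S'.c 0 b₀ * (M * (b₀ + 1)))
  let ss : ∀ o, NSec L P (KK o) (JJ o) (univ : Set X) := fun o => match o with
    | none => sA
    | some none => sB
    | some (some j) => sσ j
  obtain ⟨K', J', v, hv, hvnz, hvd, hvc⟩ := exists_dense_nz KK JJ ss (by
    intro o
    match o with
    | none => exact ⟨x, (hsA2 x).2 hpAx⟩
    | some none => exact ⟨x, (hsB2 x).2 hpBx⟩
    | some (some j) => exact ⟨y₁, (hsσ2 j y₁).2 (hpy j)⟩)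
  have hvU : ∀ y, v.NZ y → y ∈ U := by
    intro y hy
    have h1 : MvPolynomial.eval ((S'.D (2 * k₀) 0).v y) pA ≠ 0 := (hsA2 y).1 (hvnz y hy none)
    have h2 : MvPolynomial.eval ((S'.D 0 0).v y) pB ≠ 0 := (hsB2 y).1 (hvnz y hy (some none))
    have h3 : ∀ j, MvPolynomial.eval ((S'.D 0 b₀).v y) (p j) ≠ 0 := fun j =>
      (hsσ2 j y).1 (hvnz y hy (some (some j)))
    have h4 := S'.sst_of_nz hq hpA hpB hp hε hκε c h1 h2 h3
    have h5 : S'.Sst k₀ ((0 : ℕ) + 1) θ y := by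
      rw [Nat.cast_zero, zero_add]
      exact h4
    exact hgen y h5
  have hgood : BGood A U := by
    refine ⟨hUo, ?_, ?_, ?_, ?_⟩
    · exact hvc.subset_closure (fun y hy => hvU y hy) (fun y _ => hvd y)
    · intro b hb y hy
      rw [← hact]
      exact hUB b hb y hy
    · exact ⟨C, hCU, hCc, fun y hy => by rw [← hact]; exact hCB y hy⟩
    · intro C' hC' hCc'
      rw [← hact]
      exact hUp C' hCc' hC'
  -- rational exponents
  obtain ⟨η₁, hη₁, hnear⟩ := S'.stb_near k₀ 0 hθS hCc hCU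
  obtain ⟨η₂, hη₂, hnear2⟩ := strictAnti_near hθS
  obtain ⟨l₀, hl₀, T, hT⟩ := exists_rat τ (lt_min (lt_min hη₁ hη₂) hη0)
  have hl₀R : (0 : ℝ) < l₀ := by exact_mod_cast hl₀
  set τ' : Fin n → ℝ := fun i => (T i : ℝ) / l₀ with hτ'
  set θ' : Fin n → ℝ := fun i => (k₀ : ℝ) * lam i + mu i + τ' i with hθ'
  have hd : ∀ i, |θ' i - θ i| ≤ min (min η₁ η₂) η := by
    intro i
    have : θ' i - θ i = (T i : ℝ) / l₀ - τ i := by
      simp only [hθ', hθ, hτ']
      ring
    rw [this]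
    exact hT i
  have hθ'S : StrictAnti θ' := hnear2 θ' fun i =>
    (hd i).trans ((min_le_left _ _).trans (min_le_right _ _))
  have hτ'1 : ∀ i, |τ' i| ≤ 2 * η := by
    intro i
    have h1 : |τ' i - τ i| ≤ η := (hT i).trans (min_le_right _ _)
    have h2 : |τ i| < η := hτ i
    have h3 : |τ' i| ≤ |τ' i - τ i| + |τ i| := by
      have := abs_add_le (τ' i - τ i) (τ i)
      rwa [sub_add_cancel] at this
    linarith
  have hst' : ∀ y ∈ U, S'.Stb k₀ 1 θ' y := by
    intro y hy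
    obtain ⟨b', hb', hbC⟩ := hCB y hy
    have h1 := hnear θ' (fun i => (hd i).trans ((min_le_left _ _).trans (min_le_left _ _)))
      _ hbC
    have h2 := GSys.Stb.of_act S' hb' h1
    rwa [Nat.cast_zero, zero_add] at h2
  refine ⟨U, k₀, l₀, T, hgood, hl, hm, hk₀, hl₀, ?_, ?_, ?_, ?_, K', J', v, hv, hvU⟩
  · intro i j hij
    have h1 := hθ'S hij
    have h2 : ∀ i, ((l₀ * (k₀ * lam i + mu i) + T i : ℤ) : ℝ) = l₀ * θ' i := by
      intro i
      simp only [hθ', hτ']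
      push_cast
      field_simp
    have h3 : ((l₀ * (k₀ * lam j + mu j) + T j : ℤ) : ℝ) <
        ((l₀ * (k₀ * lam i + mu i) + T i : ℤ) : ℝ) := by
      rw [h2, h2]
      exact mul_lt_mul_of_pos_left h1 hl₀R
    exact_mod_cast h3
  · intro y hy a b hab
    exact hstab τ' (fun i => (hτ'1 i).trans hηc) hθ'S y (hst' y hy) a b hab
  · intro y hy k hk
    have h1 : S'.Stb k 1 (fun i => k * lam i + (mu i + τ' i)) y := by
      have h2 := hstab τ' (fun i => (hτ'1 i).trans hηc) hθ'S y (hst' y hy) k 0 (by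
        rcases hk with rfl | rfl <;> omega)
      simp only [Nat.cast_zero, zero_add, one_mul] at h2
      exact h2
    have hSA : StrictAnti (fun i => (k : ℝ) * lam i + (mu i + τ' i)) := by
      intro i j hij
      have e1 := hθ'S hij
      have e2 : (lam j : ℝ) ≤ lam i := by exact_mod_cast hl hij.le
      have e3 : (k : ℝ) = k₀ ∨ (k : ℝ) = k₀ + 1 := by
        rcases hk with rfl | rfl
        · exact Or.inl rfl
        · right; push_cast; ring
      simp only [hθ'] at e1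
      show (k : ℝ) * lam j + (mu j + τ' j) < k * lam i + (mu i + τ' i)
      rcases e3 with e3 | e3 <;> rw [e3] <;> linarith
    have h3 : S'.Sst k ((0 : ℕ) + 1) (fun i => ((k * lam i + mu i : ℤ) : ℝ) + τ' i) y := by
      have h4 : S'.Stb k ((0 : ℕ) + 1) (fun i => (k : ℝ) * lam i + (mu i + τ' i)) y := by
        rw [Nat.cast_zero, zero_add]
        exact h1
      have h5 := GSys.Stb.sst (a := k) (b := 0) hSA h4
      have e : (fun i => ((k * lam i + mu i : ℤ) : ℝ) + τ' i) =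
          fun i => (k : ℝ) * lam i + (mu i + τ' i) := by
        funext i
        push_cast
        ring
      rw [e]
      exact h5
    have h6 : S'.Sst k ((0 : ℕ) + 1) (fun i => ((k * lam i + mu i : ℤ) : ℝ)) y := by
      rcases hk with rfl | rfl
      · exact h46a τ' (fun i => (hτ'1 i).trans hηa) y h3
      · exact h46b τ' (fun i => (hτ'1 i).trans hηb) y (by
          have e : ((k₀ + 1 : ℕ) : ℝ) = ((k₀ + 1 : ℕ) : ℝ) := rfl
          exact h3)
    have e : (fun i => ((k * lam i + mu i : ℤ) : ℝ)) = fun i => (k : ℝ) * lam i + mu i := by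
      funext i
      push_cast
      ring
    rw [e, Nat.cast_zero, zero_add] at h6
    exact h6
  · exact closure_mono (fun y hy => hvU y hy) (hvd x)

end Pool.Agent.SG
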