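import Pool.Agent.H.MP_e23cd6_ag.SG.Root

/-!
# Products and weights of semi-invariant polynomials
-/

set_option autoImplicit false

namespace Pool.Agent.SG

open Matrix Topology Filter

variable {n : ℕ}

theorem IsB_diag_ne {b : Gp n} (hb : IsB b) (i : Fin n) :
    (b : Matrix (Fin n) (Fin n) ℂ) i i ≠ 0 := by
  intro h0
  have h1 : (b : Matrix (Fin n) (Fin n) ℂ).det = ∏ i, (b : Matrix (Fin n) (Fin n) ℂ) i i :=
    det_of_isUpperTriangular fun i j hij => hb i j hij
  have h2 : ∏ i, (b : Matrix (Fin n) (Fin n) ℂ) i i = 0 :=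
    Finset.prod_eq_zero (Finset.mem_univ i) h0
  rw [b.det_coe] at h1
  exact one_ne_zero (h1.trans h2)

theorem chrB_ne_zero {b : Gp n} (hb : IsB b) (χ : Fin n → ℤ) : chrB χ b ≠ 0 :=
  Finset.prod_ne_zero_iff.2 fun i _ => zpow_ne_zero _ (IsB_diag_ne hb i)

theorem chrB_add {b : Gp n} (hb : IsB b) (χ ψ : Fin n → ℤ) :
    chrB (χ + ψ) b = chrB χ b * chrB ψ b := by
  unfold chrB
  rw [← Finset.prod_mul_distrib]
  exact Finset.prod_congr rfl fun i _ => zpow_add₀ (IsB_diag_ne hb i) _ _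

theorem chrB_nsmul (b : Gp n) (χ : Fin n → ℤ) (l : ℕ) :
    chrB (fun i => l * χ i) b = chrB χ b ^ l := by
  unfold chrB
  rw [← Finset.prod_pow]
  refine Finset.prod_congr rfl fun i _ => ?_
  show (b : Matrix (Fin n) (Fin n) ℂ) i i ^ ((l : ℤ) * χ i) = _
  rw [mul_comm, _root_.zpow_mul, zpow_natCast]

theorem IsB_uu {i j : Fin n} (hij : i < j) (z : ℂ) : IsB (uu i j hij.ne z) := by
  intro a b hab
  rw [coe_uu, Matrix.add_apply, single_apply, Matrix.one_apply_ne hab.ne', if_neg, add_zero]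
  rintro ⟨rfl, rfl⟩
  exact absurd hij (not_lt.2 hab.le)

theorem chrB_uu {i j : Fin n} (hij : i < j) (z : ℂ) (χ : Fin n → ℤ) :
    chrB χ (uu i j hij.ne z) = 1 := by
  unfold chrB
  refine Finset.prod_eq_one fun a _ => ?_
  rw [coe_uu, Matrix.add_apply, single_apply, Matrix.one_apply_eq, if_neg, add_zero, _root_.one_zpow]
  rintro ⟨rfl, h⟩
  exact hij.ne h.symm

theorem IsB_dgT {τ : Fin n → ℂ} (hτ : ∏ i, τ i = 1) : IsB (dgT τ hτ) := fun i j hij => by
  show (diagonal τ : Matrix (Fin n) (Fin n) ℂ) i j = 0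
  exact diagonal_apply_ne _ hij.ne'

theorem chrB_dgT {τ : Fin n → ℂ} (hτ : ∏ i, τ i = 1) (χ : Fin n → ℤ) :
    chrB χ (dgT τ hτ) = ∏ i, τ i ^ χ i := by
  unfold chrB
  refine Finset.prod_congr rfl fun i _ => ?_
  show (diagonal τ : Matrix (Fin n) (Fin n) ℂ) i i ^ χ i = τ i ^ χ i
  rw [diagonal_apply_eq]

/-- The element `(1 - z⁻¹ E_ij)(1 + z E_ji)(1 - z⁻¹ E_ij)`. -/
noncomputable def nz (i j : Fin n) (h : i ≠ j) (z : ℂ) : Gp n :=
  uu i j h (-z⁻¹) * uu j i h.symm z * uu i j h (-z⁻¹)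

theorem coe_nz (i j : Fin n) (h : i ≠ j) {z : ℂ} (hz : z ≠ 0) :
    (nz i j h z : Matrix (Fin n) (Fin n) ℂ) =
      1 - single i i 1 - single j j 1 + single j i z - single i j z⁻¹ := by
  unfold nz
  rw [coe_gmul, coe_gmul, coe_uu, coe_uu]
  have e1 : (single i j (-z⁻¹) : Matrix (Fin n) (Fin n) ℂ) * single j i z = - single i i 1 := by
    rw [single_mul_single_same, neg_mul, inv_mul_cancel₀ hz, single_neg]
  have e2 : (single i j (-z⁻¹) : Matrix (Fin n) (Fin n) ℂ) * single i j (-z⁻¹) = 0 :=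
    single_mul_single_of_ne _ _ _ _ h.symm _
  have e3 : (single j i z : Matrix (Fin n) (Fin n) ℂ) * single i j (-z⁻¹) = - single j j 1 := by
    rw [single_mul_single_same, mul_neg, mul_inv_cancel₀ hz, single_neg]
  have e4 : (single i i (1 : ℂ) : Matrix (Fin n) (Fin n) ℂ) * single i j (-z⁻¹) =
      single i j (-z⁻¹) := by
    rw [single_mul_single_same, one_mul]
  have e5 : (1 + single i j (-z⁻¹)) * (1 + single j i z) * (1 + single i j (-z⁻¹)) =
      (1 + single i j (-z⁻¹) + single j i z + single i j (-z⁻¹) * single j i z) +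
      (single i j (-z⁻¹) + single i j (-z⁻¹) * single i j (-z⁻¹) +
        single j i z * single i j (-z⁻¹) +
        single i j (-z⁻¹) * single j i z * single i j (-z⁻¹) : Matrix (Fin n) (Fin n) ℂ) := by
    noncomm_ring
  have e6 : (single i j (-z⁻¹) : Matrix (Fin n) (Fin n) ℂ) = - single i j z⁻¹ := by
    rw [single_neg]
  rw [e5, e1, e2, e3, neg_mul, e4, e6]
  abel

theorem nz_eq (i j : Fin n) (h : i ≠ j) {z : ℂ} (hz : z ≠ 0) :
    nz i j h z = dgT (t2 i j z⁻¹) (t2_prod h (inv_ne_zero hz)) * nz i j h 1 := by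
  apply gp_ext
  rw [coe_gmul, coe_nz i j h hz, coe_nz i j h one_ne_zero]
  show _ = diagonal (t2 i j z⁻¹) * _
  ext a b
  rw [diagonal_mul]
  simp only [Matrix.sub_apply, Matrix.add_apply, single_apply, inv_one]
  by_cases ha : a = i
  · subst ha
    by_cases hb : b = a
    · subst hb
      simp [t2, h.symm]
    · by_cases hbj : b = j
      · subst hbj
        simp [t2, h, h.symm]
      · simp [t2, h.symm, Ne.symm hb, Ne.symm hbj]
  · by_cases ha2 : a = j
    · subst ha2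
      by_cases hb : b = a
      · subst hb
        simp [t2, h, h.symm]
      · by_cases hbi : b = i
        · subst hbi
          simp [t2, h, h.symm]
        · simp [t2, h, h.symm, Ne.symm hb, Ne.symm hbi]
    · simp [t2, ha, ha2, Ne.symm ha, Ne.symm ha2]

theorem uu_eq (i j : Fin n) (h : i ≠ j) (z : ℂ) :
    uu j i h.symm z = uu i j h z⁻¹ * nz i j h z * uu i j h z⁻¹ := by
  unfold nz
  have e : uu i j h z⁻¹ * (uu i j h (-z⁻¹) * uu j i h.symm z * uu i j h (-z⁻¹)) * uu i j h z⁻¹ =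
      (uu i j h z⁻¹ * uu i j h (-z⁻¹)) * uu j i h.symm z * (uu i j h (-z⁻¹) * uu i j h z⁻¹) := by
    group
  rw [e, ← uu_add, ← uu_add, add_neg_cancel, neg_add_cancel, uu_zero, one_mul, mul_one]

section rep

variable {ι : Type} [Fintype ι] [DecidableEq ι] (R : Rep n ι)

theorem BPoly_mul {N M : ℕ} {χ ψ : Fin n → ℤ} {p q : MvPolynomial ι ℂ} (hp : p ∈ BPoly R N χ)
    (hq : q ∈ BPoly R M ψ) : p * q ∈ BPoly R (N + M) (χ + ψ) := by
  refine ⟨hp.1.mul hq.1, fun b hb v => ?_⟩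
  rw [map_mul, map_mul, chrB_add hb, ← hp.2 b hb v, ← hq.2 b hb v]
  ring

theorem BPoly_pow {N : ℕ} {χ : Fin n → ℤ} {p : MvPolynomial ι ℂ} (hp : p ∈ BPoly R N χ)
    (l : ℕ) : p ^ l ∈ BPoly R (l * N) (fun i => l * χ i) := by
  refine ⟨?_, fun b hb v => ?_⟩
  · rw [mul_comm]
    exact hp.1.pow l
  · rw [map_pow, map_pow, chrB_nsmul, ← hp.2 b hb v, mul_pow]

theorem BPoly_antitone {N : ℕ} {χ : Fin n → ℤ} {p : MvPolynomial ι ℂ} (hp : p ∈ BPoly R N χ)
    (h0 : p ≠ 0) : Antitone χ := by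
  intro i j hij
  rcases hij.eq_or_lt with rfl | hij
  · exact le_rfl
  by_contra hlt
  push Not at hlt
  apply h0
  apply MvPolynomial.funext
  intro v
  rw [map_zero]
  -- the function `z ↦ p((1 + z E_ji) v)`
  obtain ⟨f, hf⟩ : ∃ f : ℂ → ℂ, ∀ z, f z = MvPolynomial.eval (R.act (uu j i hij.ne' z) v) p :=
    ⟨_, fun _ => rfl⟩
  have hfd : Differentiable ℂ f := by
    have e : f = fun z => MvPolynomial.eval (R.act (uu j i hij.ne' z) v) p := funext hf
    rw [e]
    exact differentiable_eval p fun a => R.differentiable_act_uu j i hij.ne' v a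
  obtain ⟨m, hm⟩ : ∃ m : ℕ, (m : ℤ) = χ j - χ i := ⟨(χ j - χ i).toNat, Int.toNat_of_nonneg (by omega)⟩
  have hm1 : 1 ≤ m := by omega
  have hinv : ∀ (z : ℂ) (x : ι → ℂ), MvPolynomial.eval (R.act (uu i j hij.ne z) x) p =
      MvPolynomial.eval x p := by
    intro z x
    have h1 := hp.2 _ (IsB_uu hij z) x
    rwa [chrB_uu hij, one_mul] at h1
  have hfe : ∀ z : ℂ, z ≠ 0 → f z = z⁻¹ ^ m *
      MvPolynomial.eval (R.act (nz i j hij.ne 1) (R.act (uu i j hij.ne z⁻¹) v)) p := by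
    intro z hz
    rw [hf, uu_eq i j hij.ne z, nz_eq i j hij.ne hz, R.act_mul, R.act_mul, R.act_mul, hinv]
    have h1 := hp.2 _ (IsB_dgT (t2_prod hij.ne (inv_ne_zero hz)))
      (R.act (nz i j hij.ne 1) (R.act (uu i j hij.ne z⁻¹) v))
    rw [chrB_dgT, t2_zpow hij.ne (inv_ne_zero hz)] at h1
    rw [← h1, ← mul_assoc, ← zpow_natCast, ← zpow_add₀ (inv_ne_zero hz), hm]
    have e : χ j - χ i + (χ i - χ j) = 0 := by ring
    rw [e, zpow_zero, one_mul]
  have hlim : Tendsto f (cocompact ℂ) (𝓝 0) := by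
    have hi : Tendsto (fun z : ℂ => z⁻¹) (cocompact ℂ) (𝓝 0) := by
      rw [← Metric.cobounded_eq_cocompact]
      exact tendsto_inv₀_cobounded
    have hcont : Continuous fun w : ℂ => w ^ m *
        MvPolynomial.eval (R.act (nz i j hij.ne 1) (R.act (uu i j hij.ne w) v)) p := by
      refine (continuous_pow m).mul ((MvPolynomial.continuous_eval p).comp ?_)
      refine R.continuous_act.comp (continuous_const.prodMk ?_)
      exact R.continuous_act.comp ((continuous_uu i j hij.ne).prodMk continuous_const)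
    have h1 := (hcont.tendsto 0).comp hi
    rw [zero_pow (by omega), zero_mul] at h1
    refine h1.congr' ?_
    have h2 : ∀ᶠ z : ℂ in cocompact ℂ, z ≠ 0 := by
      have h3 : ({0} : Set ℂ)ᶜ ∈ cocompact ℂ := isCompact_singleton.compl_mem_cocompact
      filter_upwards [h3] with z hz
      exact hz
    filter_upwards [h2] with z hz
    exact (hfe z hz).symm
  have h3 := hfd.apply_eq_of_tendsto_cocompact 0 hlim
  rw [hf, uu_zero, R.act_one] at h3
  exact h3

end rep

end Pool.Agent.SG
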