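import Pool.Agent.H.MP_e23cd6_ag.SG.ExHw
import Pool.Agent.H.MP_e23cd6_ag.SG.InvB
import Pool.Agent.H.MP_e23cd6_ag.SG.Tens
import Pool.Agent.H.MP_e23cd6_ag.SG.BPa

/-!
# Semi-invariant polynomials: bounds, existence, separation
-/

set_option autoImplicit false

namespace Pool.Agent.SG

open Matrix Topology Filter

variable {n : ℕ} {ι : Type} [Fintype ι] [DecidableEq ι] (R : Rep n ι)

omit [DecidableEq ι] in
/-- A homogeneous polynomial is bounded by a multiple of the power of the norm. -/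
theorem hom_bound {N : ℕ} {p : MvPolynomial ι ℂ} (hp : p.IsHomogeneous N) :
    ∃ C : ℝ, 0 < C ∧ ∀ v, ‖MvPolynomial.eval v p‖ ≤ C * nm v ^ N := by
  obtain ⟨C, hC⟩ := (Rep.isCompact_ns_le (ι := ι) 1).exists_bound_of_continuousOn
    (MvPolynomial.continuous_eval p).continuousOn
  refine ⟨max C 1, by positivity, fun v => ?_⟩
  rcases eq_or_ne v 0 with rfl | hv
  · have h1 := hC 0 (by
      show ns (0 : ι → ℂ) ≤ 1
      rw [ns_zero]
      norm_num)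
    rcases Nat.eq_zero_or_pos N with rfl | hN
    · rw [pow_zero, mul_one]
      exact h1.trans (le_max_left _ _)
    · have h2 := Rep.eval_smul hp 0 (0 : ι → ℂ)
      rw [zero_smul, zero_pow hN.ne', zero_mul] at h2
      rw [h2, norm_zero]
      exact mul_nonneg (by positivity) (pow_nonneg (nm_nonneg _) _)
  · have hns : 0 < ns v := lt_of_le_of_ne (ns_nonneg v) fun h => hv (ns_eq_zero.1 h.symm)
    have hnm : 0 < nm v := Real.sqrt_pos.2 hns
    have h1 := hC (((nm v)⁻¹ : ℂ) • v) (Rep.nm_smul_inv hns).le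
    rw [Rep.eval_smul hp, norm_mul, norm_pow, norm_inv, Complex.norm_real, Real.norm_eq_abs,
      abs_of_pos hnm, inv_pow] at h1
    have h2 : 0 < nm v ^ N := pow_pos hnm N
    rw [← div_eq_inv_mul, div_le_iff₀ h2] at h1
    exact h1.trans (mul_le_mul_of_nonneg_right (le_max_left _ _) h2.le)

theorem BPoly_le {N : ℕ} {χ : Fin n → ℤ} {p : MvPolynomial ι ℂ} (hp : p ∈ BPoly R N χ) :
    ∃ C : ℝ, 0 < C ∧ ∀ v g, ‖MvPolynomial.eval v p‖ ≤
      C * nm (R.act g v) ^ N * Real.exp (∑ i, χ i * hw g i) := by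
  obtain ⟨C, hC, h⟩ := hom_bound hp.1
  refine ⟨C, hC, fun v g => ?_⟩
  obtain ⟨k, hk, b, hb, rfl⟩ := iwasawa g
  rw [hw_SU hk, R.act_mul, R.nm_act_SU hk, ← hp.2 b hb v, norm_mul, chrB_norm hb, mul_comm]
  exact mul_le_mul_of_nonneg_right (h _) (Real.exp_pos _).le

/-- The norm of `g e` for an eigenvector `e` of `B`. -/
theorem nm_act_hw {κ : Type} [Fintype κ] [DecidableEq κ] (V : Rep n κ) {χ : Fin n → ℤ}
    {e : κ → ℂ} (he : ns e = 1) (hB : ∀ b, IsB b → V.act b e = chrB χ b • e) (g : Gp n) :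
    nm (V.act g e) = Real.exp (∑ i, χ i * hw g i) := by
  obtain ⟨k, hk, b, hb, rfl⟩ := iwasawa g
  rw [hw_SU hk, V.act_mul, V.nm_act_SU hk, hB b hb, nm_smul, chrB_norm hb]
  have h1 : nm e = 1 := by
    unfold nm
    rw [he, Real.sqrt_one]
  rw [h1, mul_one]

theorem exp_Jf {θ : Fin n → ℝ} {v : ι → ℂ} (hv : v ≠ 0) (g : Gp n) :
    Real.exp (Jf R θ v g) = nm (R.act g v) * Real.exp (∑ i, θ i * hw g i) := by
  have hns : 0 < ns (R.act g v) :=
    lt_of_le_of_ne (ns_nonneg _) fun h => act_ne_zero R hv g (ns_eq_zero.1 h.symm)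
  have hnm : 0 < nm (R.act g v) := Real.sqrt_pos.2 hns
  unfold Jf
  rw [Real.exp_add]
  congr 1
  rw [← nm_sq, Real.log_pow]
  have e : ((2 : ℕ) : ℝ) * Real.log (nm (R.act g v)) / 2 = Real.log (nm (R.act g v)) := by
    push_cast
    ring
  rw [e, Real.exp_log hnm]

theorem nm_tens_Jf {κ : Type} [Fintype κ] [DecidableEq κ] (V : Rep n κ) {χ : Fin n → ℤ}
    {e : κ → ℂ} (he : ns e = 1) (hB : ∀ b, IsB b → V.act b e = chrB χ b • e) {v : ι → ℂ}
    (hv : v ≠ 0) (g : Gp n) :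
    nm ((R.tens V).act g (tv v e)) = Real.exp (Jf R (fun i => (χ i : ℝ)) v g) := by
  rw [Rep.act_tens, nm_tv, exp_Jf R hv, nm_act_hw V he hB]

theorem sbT_BPoly {κ : Type} [Fintype κ] [DecidableEq κ] (V : Rep n κ) {χ : Fin n → ℤ}
    {e : κ → ℂ} (hB : ∀ b, IsB b → V.act b e = chrB χ b • e) {N : ℕ}
    {P : MvPolynomial (ι × κ) ℂ} (hP : (R.tens V).Inv N P) :
    sbT e P ∈ BPoly R N (fun i => N * χ i) := by
  refine ⟨hom_sbT e hP.hom, fun b hb v => ?_⟩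
  rw [eval_sbT, eval_sbT, chrB_nsmul, ← hP.inv b (tv v e), Rep.act_tens, hB b hb,
    tv_smul_right, Rep.eval_smul hP.hom]

/-- (2.2) -/
theorem exists_inv {χ : Fin n → ℤ} (hχ : Antitone χ) {v : ι → ℂ} (hv : v ≠ 0) (C : ℝ)
    (h : ∀ g, C ≤ Jf R (fun i => (χ i : ℝ)) v g) :
    ∃ N : ℕ, 1 ≤ N ∧ ∃ p ∈ BPoly R N (fun i => N * χ i), MvPolynomial.eval v p ≠ 0 := by
  obtain ⟨κ, _, _, V, e, he, hB, _⟩ := exists_hw χ hχ
  obtain ⟨N, hN, P, hP, h0⟩ := (R.tens V).inv_of_pos (v := tv v e) (Real.exp_pos C) fun g => by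
    rw [nm_tens_Jf R V he hB hv]
    exact Real.exp_le_exp.2 (h g)
  refine ⟨N, hN, sbT e P, sbT_BPoly R V hB hP, ?_⟩
  rw [eval_sbT]
  exact h0

/-- (2.3) -/
theorem exists_inv_unif {χ : Fin n → ℤ} (hχ : Antitone χ) :
    ∃ N : ℕ, 1 ≤ N ∧ ∃ (T : Finset (MvPolynomial ι ℂ)) (c : ℝ), 0 < c ∧
      (∀ p ∈ T, p ∈ BPoly R N (fun i => N * χ i)) ∧
      ∀ v : ι → ℂ, v ≠ 0 → ∀ C : ℝ, (∀ g, C ≤ Jf R (fun i => (χ i : ℝ)) v g) →
        ∃ p ∈ T, c * Real.exp (N * C) ≤ ‖MvPolynomial.eval v p‖ := by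
  classical
  obtain ⟨κ, _, _, V, e, he, hB, _⟩ := exists_hw χ hχ
  obtain ⟨N, hN, a, p, hp, c, hc, h⟩ := (R.tens V).inv_bound
  refine ⟨N, hN, Finset.univ.image fun i => sbT e (p i), c, hc, ?_, fun v hv C hC => ?_⟩
  · intro q hq
    obtain ⟨i, _, rfl⟩ := Finset.mem_image.1 hq
    exact sbT_BPoly R V hB (hp i)
  · obtain ⟨i, hi⟩ := h (tv v e) (Real.exp C) (Real.exp_pos C) fun g => by
      rw [nm_tens_Jf R V he hB hv]
      exact Real.exp_le_exp.2 (hC g)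
    refine ⟨sbT e (p i), Finset.mem_image_of_mem _ (Finset.mem_univ i), ?_⟩
    rw [eval_sbT, Real.exp_nat_mul]
    exact hi

/-- (2.4) -/
theorem exists_inv_sep {χ : Fin n → ℤ} (hχ : StrictAnti χ) {v v' : ι → ℂ} (hv : v ≠ 0)
    (hv' : v' ≠ 0) (h : ∀ g, Jf R (fun i => (χ i : ℝ)) v 1 ≤ Jf R (fun i => (χ i : ℝ)) v g)
    (h' : ∀ g, Jf R (fun i => (χ i : ℝ)) v' 1 ≤ Jf R (fun i => (χ i : ℝ)) v' g)
    (hne : ∀ k ∈ SU n, IsB k → ∀ z : ℂ, v' ≠ z • R.act k v) :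
    ∃ N : ℕ, 1 ≤ N ∧ ∃ p ∈ BPoly R N (fun i => N * χ i),
      MvPolynomial.eval v p ≠ 0 ∧ MvPolynomial.eval v' p = 0 := by
  obtain ⟨κ, _, _, V, e, he, hB, hBK⟩ := exists_hw χ hχ.antitone
  have he0 : e ≠ 0 := by
    rintro rfl
    rw [ns_zero] at he
    exact zero_ne_one he
  -- minimal vectors
  have hmin : ∀ {x : ι → ℂ}, x ≠ 0 →
      (∀ g, Jf R (fun i => (χ i : ℝ)) x 1 ≤ Jf R (fun i => (χ i : ℝ)) x g) →
      0 < ns x ∧ (R.tens V).Min (((nm x)⁻¹ : ℂ) • tv x e) := by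
    intro x hx hxm
    have hns : 0 < ns x := lt_of_le_of_ne (ns_nonneg x) fun h => hx (ns_eq_zero.1 h.symm)
    have hnm : 0 < nm x := Real.sqrt_pos.2 hns
    have hnt : nm (tv x e) = nm x := by
      have h1 : nm e = 1 := by
        unfold nm
        rw [he, Real.sqrt_one]
      rw [nm_tv, h1, mul_one]
    have hnst : ns (tv x e) = ns x := by
      rw [ns_tv, he, mul_one]
    refine ⟨hns, ?_, fun g => ?_⟩
    · have h1 := Rep.nm_smul_inv (w := tv x e) (by rw [hnst]; exact hns)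
      rwa [hnt] at h1
    · rw [Rep.act_smul, ns_smul, norm_inv, Complex.norm_real, Real.norm_eq_abs, abs_of_pos hnm,
        inv_pow, ← div_eq_inv_mul, one_le_div (by positivity), ← nm_sq]
      refine pow_le_pow_left₀ hnm.le ?_ 2
      rw [nm_tens_Jf R V he hB hx]
      refine le_trans (le_of_eq ?_) (Real.exp_le_exp.2 (hxm g))
      rw [← nm_tens_Jf R V he hB hx, Rep.act_one, hnt]
  obtain ⟨hns, hw⟩ := hmin hv h
  obtain ⟨hns', hw'⟩ := hmin hv' h'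
  have hnm : (nm v : ℂ) ≠ 0 := by exact_mod_cast (Real.sqrt_pos.2 hns).ne'
  have hnm' : (nm v' : ℂ) ≠ 0 := by exact_mod_cast (Real.sqrt_pos.2 hns').ne'
  obtain ⟨N, hN, P, hP, h0, h1⟩ := Rep.inv_sep hw hw' (by
    intro k hk ζ hζ heq
    have hζ0 : ζ ≠ 0 := by
      rintro rfl
      rw [norm_zero] at hζ
      exact zero_ne_one hζ
    have heq' : tv v' e = ((nm v' : ℂ) * ζ * (nm v : ℂ)⁻¹) • tv (R.act k v) (V.act k e) := by
      rw [← Rep.act_tens, ← smul_smul, ← smul_smul, ← Rep.act_smul, ← heq, smul_smul,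
        mul_inv_cancel₀ hnm', one_smul]
    obtain ⟨z, hz⟩ : ∃ z : ℂ, z = (nm v' : ℂ) * ζ * (nm v : ℂ)⁻¹ := ⟨_, rfl⟩
    rw [← hz] at heq'
    have hpt : ∀ i j, v' i * e j = z * (R.act k v i * V.act k e j) := fun i j =>
      congrFun heq' (i, j)
    obtain ⟨i, hi⟩ := Function.ne_iff.1 hv'
    obtain ⟨j, hj⟩ := Function.ne_iff.1 he0
    simp only [Pi.zero_apply] at hi hj
    have hzk : z * R.act k v i ≠ 0 := by
      intro h2
      have h3 := hpt i j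
      rw [← mul_assoc, h2, zero_mul] at h3
      exact mul_ne_zero hi hj h3
    have hIB : IsB k := by
      refine hBK hχ k hk ⟨v' i / (z * R.act k v i), ?_⟩
      funext j'
      rw [Pi.smul_apply, smul_eq_mul, div_mul_eq_mul_div, eq_div_iff hzk, hpt i j']
      ring
    refine hne k hk hIB (z * V.act k e j / e j) ?_
    funext i'
    rw [Pi.smul_apply, smul_eq_mul, div_mul_eq_mul_div, eq_div_iff hj, hpt i' j]
    ring)
  refine ⟨N, hN, sbT e P, sbT_BPoly R V hB hP, ?_, ?_⟩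
  · rw [eval_sbT]
    rw [Rep.eval_smul hP.hom] at h0
    exact right_ne_zero_of_mul h0
  · rw [eval_sbT]
    rw [Rep.eval_smul hP.hom] at h1
    exact (mul_eq_zero.1 h1).resolve_left (pow_ne_zero _ (inv_ne_zero hnm'))

end Pool.Agent.SG
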