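import Pool.Agent.H.MP_e23cd6_ag.SG.Rep

/-!
# Upper triangular matrices, characters, Iwasawa projection

`hw g i = log b_ii` for `g = k b` with `k` unitary and `b` upper triangular with positive diagonal
entries, in terms of the minors of the first columns of `g`.
-/

set_option autoImplicit false

open Matrix

namespace Pool.Agent.SG

variable {n : ℕ}

/-- The group `B` of the upper triangular matrices in `SL_n(ℂ)`. -/
def IsB (b : Gp n) : Prop := ∀ i j : Fin n, j < i → (b : Matrix (Fin n) (Fin n) ℂ) i j = 0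

/-- The group of the lower triangular matrices in `SL_n(ℂ)`. -/
def IsBm (b : Gp n) : Prop := ∀ i j : Fin n, i < j → (b : Matrix (Fin n) (Fin n) ℂ) i j = 0

/-- The character `∏ (b_ii) ^ (χ_i)` of the group of upper triangular matrices. -/
noncomputable def chrB (χ : Fin n → ℤ) (b : Gp n) : ℂ :=
  ∏ i, (b : Matrix (Fin n) (Fin n) ℂ) i i ^ χ i

/-- The sum of the roots of `B`: `det (Ad b | Lie B) = ∏ (b_ii) ^ (rho2 i)`. -/
def rho2 (n : ℕ) (i : Fin n) : ℤ := n - 1 - 2 * (i : ℕ)

/-- The entry in the row `r` and the column `q` (zero for `q ≥ n`). -/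
def colE (g : Gp n) (r : Fin n) (q : ℕ) : ℂ :=
  if h : q < n then (g : Matrix (Fin n) (Fin n) ℂ) r ⟨q, h⟩ else 0

/-- The minor of `g` with the rows `a` and the first `i` columns. -/
def mnr (i : ℕ) (g : Gp n) (a : Fin i → Fin n) : ℂ :=
  Matrix.det (Matrix.of fun p q : Fin i => colE g (a p) q)

/-- The sum of the squares of the minors of the first `i` columns of `g`. -/
noncomputable def TT (i : ℕ) (g : Gp n) : ℝ :=
  (∑ a : Fin i → Fin n, ‖mnr i g a‖ ^ 2) / (i.factorial : ℝ)

/-- The Iwasawa projection of `g`. -/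
noncomputable def hw (g : Gp n) (i : Fin n) : ℝ :=
  (Real.log (TT ((i : ℕ) + 1) g) - Real.log (TT (i : ℕ) g)) / 2

/-- The map `φ` from `ℂ` to `SL_n(ℂ)` is holomorphic. -/
def HolCurve (φ : ℂ → Gp n) : Prop :=
  ∀ i j, Differentiable ℂ fun z => (φ z : Matrix (Fin n) (Fin n) ℂ) i j

/-- No nontrivial holomorphic one-parameter subgroup of `B` fixes the point `y`. -/
def NoFix {X : Type} (act : Gp n → X → X) (y : X) : Prop :=
  ∀ φ : ℂ → Gp n, (∀ z w, φ (z + w) = φ z * φ w) → HolCurve φ → (∀ z, IsB (φ z)) →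
    (∀ z, act (φ z) y = y) → ∀ z, φ z = 1

/-- The size of `g`. -/
noncomputable def sz (g : Gp n) : ℝ :=
  Real.log (∑ i, ∑ j, ‖(g : Matrix (Fin n) (Fin n) ℂ) i j‖ ^ 2)

section poly

variable {ι : Type} [Fintype ι] [DecidableEq ι]

/-- Homogeneous polynomials of degree `N` on the space of the representation `R`, which are
semi-invariant under `B` with the weight `χ`. -/
def BPoly (R : Rep n ι) (N : ℕ) (χ : Fin n → ℤ) : Set (MvPolynomial ι ℂ) :=
  {p | p.IsHomogeneous N ∧ ∀ b, IsB b → ∀ v,
    chrB χ b * MvPolynomial.eval (R.act b v) p = MvPolynomial.eval v p}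

/-- The logarithm of the norm of `g v` times the character norm of `g` for the exponents `θ`. -/
noncomputable def Jf (R : Rep n ι) (θ : Fin n → ℝ) (v : ι → ℂ) (g : Gp n) : ℝ :=
  Real.log (ns (R.act g v)) / 2 + ∑ i, θ i * hw g i

end poly

end Pool.Agent.SG
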