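import Pool.Agent.H.MP_e23cd6_ag.NT.DefsI
import Pool.Agent.H.MP_e23cd6_ag.SG.Wt

/-! MP_e23cd6_ag (abundance conjecture), actions of `SL_n(ℂ)` on normal complex spaces: the
definitions. -/

set_option autoImplicit false

open scoped Manifold ContDiff Topology ENNReal
open MeasureTheory Set Filter

namespace Pool.Agent.SG

open Pool.Agent.Abd Pool.Agent.Abn

variable {E : Type} [NormedAddCommGroup E] [NormedSpace ℂ E] {n : ℕ}
  {X₀ X : Type} [TopologicalSpace X₀] [ChartedSpace E X₀] [TopologicalSpace X]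

/-- A holomorphic action of the group `SL_n(ℂ)` on the normal complex space `X` (it preserves the
regular part, and is holomorphic along holomorphic maps from `ℂ` to the group). -/
structure GAct (n : ℕ) (N : NSp E X₀ X) where
  act : Gp n → X → X
  reg : Gp n → X₀ → X₀
  inc : ∀ g y, act g (N.inc y) = N.inc (reg g y)
  one : ∀ x, act 1 x = x
  mul : ∀ g h x, act (g * h) x = act g (act h x)
  cont : Continuous fun v : Gp n × X => act v.1 v.2
  hol : ∀ φ : ℂ → Gp n, HolCurve φ →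
    ContMDiff (𝓘(ℂ).prod 𝓘(ℂ, E)) 𝓘(ℂ, E) ω fun v : ℂ × X₀ => reg (φ v.1) v.2

/-- A linearisation of the line bundle `B`: a lift of the action of `SL_n(ℂ)` to `B`. -/
structure GLin {N : NSp E X₀ X} (A : GAct n N) (B : NLine N) where
  lam : B.ι → B.ι → Gp n → X → ℂ
  cont : ∀ i j g x, x ∈ B.U j → A.act g x ∈ B.U i →
    ContinuousAt (fun v : Gp n × X => lam i j v.1 v.2) (g, x)
  hol : ∀ φ : ℂ → Gp n, HolCurve φ → ∀ i j z y, N.inc y ∈ B.U j →
    A.act (φ z) (N.inc y) ∈ B.U i →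
    ContMDiffAt (𝓘(ℂ).prod 𝓘(ℂ, E)) 𝓘(ℂ) ω
      (fun v : ℂ × X₀ => lam i j (φ v.1) (N.inc v.2)) (z, y)
  one : ∀ i j x, x ∈ B.U i → x ∈ B.U j → lam i j 1 x = B.g i j x
  mul : ∀ i j l g h x, x ∈ B.U l → A.act h x ∈ B.U j → A.act (g * h) x ∈ B.U i →
    lam i j g (A.act h x) * lam j l h x = lam i l (g * h) x

/-- The Jacobian determinant of the action of `g` in the charts `φ` and `ψ`. -/
noncomputable def GAct.jac {N : NSp E X₀ X} (A : GAct n N) (φ ψ : OpenPartialHomeomorph X₀ E)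
    (g : Gp n) (x : X₀) : ℂ :=
  (fderiv ℂ (φ ∘ A.reg g ∘ ψ.symm) (ψ x)).det

variable {N : NSp E X₀ X} {L P : NLine N} {K J m : ℕ} {U : Set X} {A : GAct n N}
  (ΛL : GLin A L) (ΛP : GLin A P)

/-- The section `s` over the `B`-invariant open set `U` has the weight `χ`: `b s = χ(b) s` for all
upper triangular `b`. -/
def BWt (χ : Fin n → ℤ) (s : NSec L P K J U) : Prop :=
  ∀ b, IsB b → ∀ i j i' j', ∀ x ∈ U, A.act b x ∈ U →
    A.act b x ∈ L.U i → A.act b x ∈ P.U j → x ∈ L.U i' → x ∈ P.U j' →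
    chrB χ b * s.f i j (A.act b x) = ΛL.lam i i' b x ^ K * ΛP.lam j j' b x ^ J * s.f i' j' x

/-- The same for sections of `L ^ K ⊗ P ^ J ⊗ K_X ^ (-m)` over the regular part of `U`. -/
def BWt2 (χ : Fin n → ℤ) (s : Sec2 L.reg P.reg K J m (N.inc ⁻¹' U)) : Prop :=
  ∀ b, IsB b → ∀ i j i' j', ∀ φ ∈ Charts E X₀, ∀ ψ ∈ Charts E X₀, ∀ x, N.inc x ∈ U →
    A.act b (N.inc x) ∈ U → A.act b (N.inc x) ∈ L.U i → A.act b (N.inc x) ∈ P.U j →
    N.inc x ∈ L.U i' → N.inc x ∈ P.U j' → A.reg b x ∈ φ.source → x ∈ ψ.source →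
    chrB χ b * s.f i j φ (A.reg b x) = ΛL.lam i i' b (N.inc x) ^ K *
      ΛP.lam j j' b (N.inc x) ^ J * A.jac φ ψ b x ^ m * s.f i' j' ψ x

/-- `U / B` is a compact normal complex space, a geometric quotient: `U` is open, connected and
`B`-invariant, `U` is the union of the `B`-orbits of a compact set, and `B` acts properly on
`U`. -/
structure BGood (A : GAct n N) (U : Set X) : Prop where
  isOpen : IsOpen U
  conn : IsConnected U
  inv : ∀ b, IsB b → ∀ x ∈ U, A.act b x ∈ U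
  cocompact : ∃ C ⊆ U, IsCompact C ∧ ∀ x ∈ U, ∃ b, IsB b ∧ A.act b x ∈ C
  proper : ∀ C ⊆ U, IsCompact C → ∃ R : ℝ, ∀ b, IsB b → ∀ x ∈ C, A.act b x ∈ C →
    ∀ i j, ‖(b : Matrix (Fin n) (Fin n) ℂ) i j‖ ≤ R

/-- The line bundle on `U / B` whose sections are the sections of `L ^ K ⊗ P ^ J` over `U` of
weight `χ` is semiample. -/
def BSemiQ (U : Set X) (K J : ℕ) (χ : Fin n → ℤ) : Prop :=
  ∃ l : ℕ, 1 ≤ l ∧ ∀ x ∈ U, ∃ s : NSec L P (l * K) (l * J) U,
    BWt ΛL ΛP (fun c => l * χ c) s ∧ s.NZ x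

/-- This line bundle is semiample by means of sections over `X`: some power of it is generated by
the sections of the corresponding weight over the whole of `X`. -/
def BSemiG (U : Set X) (K J : ℕ) (χ : Fin n → ℤ) : Prop :=
  ∃ l : ℕ, 1 ≤ l ∧ ∀ x ∈ U, ∃ s : NSec L P (l * K) (l * J) univ,
    BWt ΛL ΛP (fun c => l * χ c) s ∧ s.NZ x

/-- This line bundle is ample by means of sections over `X`: moreover such sections of its powers
separate the points of `U / B`. -/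
def BAmpleG (U : Set X) (K J : ℕ) (χ : Fin n → ℤ) : Prop :=
  BSemiG ΛL ΛP U K J χ ∧ ∀ x ∈ U, ∀ y ∈ U, (¬ ∃ b, IsB b ∧ y = A.act b x) →
    ∃ l : ℕ, 1 ≤ l ∧ ∃ s : NSec L P (l * K) (l * J) univ,
      BWt ΛL ΛP (fun c => l * χ c) s ∧ s.NZ x ∧ ¬ s.NZ y

/-- The line bundle on `U / B` given by `L ^ K` and the weight `χ` is nef by means of sections
over `X`: for some ample line bundle `H` on `U / B`, given by `L ^ K' ⊗ P ^ J'` and the weight
`χ'`, the products of all its positive powers with `H` are semiample by means of sections over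
`X`. -/
def BNefG (U : Set X) (K : ℕ) (χ : Fin n → ℤ) : Prop :=
  ∃ (K' J' : ℕ) (χ' : Fin n → ℤ), BAmpleG ΛL ΛP U K' J' χ' ∧
    ∀ l : ℕ, 1 ≤ l → BSemiG ΛL ΛP U (l * K + K') J' (fun c => l * χ c + χ' c)

/-- There is an effective `ℚ`-divisor `N` on `Y = U / B` with `(Y, N)` klt and `mq (K_Y + N)`
linearly equivalent to `kq` times the line bundle given by `L ^ K` and the weight `χ`: the pull back
to `U` of `K_Y + N` is `K_U + (1/(mq)) div s` (so `N` contains the branch divisor of `U → Y`), and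
`(Y, N)` is klt if and only if `(U, (1/(mq)) div s)` is klt. The pull back to `U` of the
anticanonical bundle of `Y` is that of `U` with the weight `rho2`. -/
def BKltQ [MeasureSpace E] (U : Set X) (K : ℕ) (χ : Fin n → ℤ) (k m : ℕ) : Prop :=
  ∃ q : ℕ, 1 ≤ q ∧ ∃ s : Sec2 L.reg P.reg (k * q * K) 0 (m * q) (N.inc ⁻¹' U),
    BWt2 ΛL ΛP (fun c => k * q * χ c + m * q * rho2 n c) s ∧ NKlt s

variable (L P)

/-- The line bundle `P` is ample: the sections of some power of it generate it and separate the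
points of `X`. -/
def Ample1 : Prop := ∃ l : ℕ, 1 ≤ l ∧ (∀ x : X, ∃ s : NSec L P (l * 0) (l * 1) univ, s.NZ x) ∧
  ∀ x y : X, x ≠ y → ∃ s : NSec L P (l * 0) (l * 1) univ, s.NZ x ∧ ¬ s.NZ y

variable {L P}

/-- The section `s` of `L ^ K ⊗ P ^ J ⊗ K_X ^ (-m)` over the regular part of `X` defines a klt pair
`(X, Δ)`, `Δ = (1/m) div s`: for every nonzero section `t` of a line bundle `L ^ a ⊗ P ^ b` there
is `δ > 0` such that `|s| ^ (-2/m) |t| ^ (-δ)`, in the frames near the points of `X`, is integrable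
(see `NKlt`). By a log resolution this is equivalent to the usual definition: if `(X, Δ)` is klt
then so is `(X, Δ + ε div t)` for small `ε > 0`. -/
def KltX [MeasureSpace E] (s : Sec2 L.reg P.reg K J m (N.inc ⁻¹' (univ : Set X))) : Prop :=
  ∀ (a b : ℕ) (t : NSec L P a b univ), (∃ x, t.NZ x) → ∃ δ : ℝ, 0 < δ ∧
    ∀ x, ∀ i j, x ∈ L.U i → x ∈ P.U j → ∃ V ∈ 𝓝 x,
      ∃ (φ : ℕ → OpenPartialHomeomorph X₀ E) (B : ℕ → Set E),
        (∀ l, φ l ∈ Charts E X₀ ∧ MeasurableSet (B l) ∧ B l ⊆ (φ l).target) ∧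
        (N.inc ⁻¹' V ⊆ ⋃ l, (φ l).symm '' B l) ∧
        ∑' l, ∫⁻ z in B l, ‖s.f i j (φ l) ((φ l).symm z)‖ₑ ^ (-(2 : ℝ) / m) *
          ‖t.f i j (N.inc ((φ l).symm z))‖ₑ ^ (-δ) < ⊤

end Pool.Agent.SG
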