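import Pool.Agent.H.MP_e23cd6_ag.SG.Iw
import Pool.Agent.H.MP_e23cd6_ag.SG.Tens

/-!
# Representations with a vector of given weight for `B`
-/

set_option autoImplicit false

open Matrix MeasureTheory Topology Set Filter

namespace Pool.Agent.SG

variable {n : ℕ}

/-- The weight of the minors of the first `i` columns. -/
def wi (n i : ℕ) : Fin n → ℤ := fun j => if (j : ℕ) < i then 1 else 0

theorem chrB_zero (b : Gp n) : chrB 0 b = 1 := by
  unfold chrB
  simp

theorem chrB_wadd {b : Gp n} (hb : IsB b) (χ ψ : Fin n → ℤ) :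
    chrB (χ + ψ) b = chrB χ b * chrB ψ b := by
  unfold chrB
  rw [← Finset.prod_mul_distrib]
  exact Finset.prod_congr rfl fun i _ => zpow_add₀ (isB_diag_ne hb i) _ _

theorem chrB_const (c : ℤ) {b : Gp n} (hb : IsB b) : chrB (fun _ => c) b = 1 := by
  have h1 : (b : Matrix (Fin n) (Fin n) ℂ).det = 1 := b.det_coe
  have h2 := Matrix.det_of_isUpperTriangular (isB_bt hb)
  rw [h1] at h2
  have h3 : chrB (fun _ => c) b = (∏ i, (b : Matrix (Fin n) (Fin n) ℂ) i i) ^ c :=
    Finset.prod_zpow _ _ _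
  have h4 : ∏ i, (b : Matrix (Fin n) (Fin n) ℂ) i i = 1 := h2.symm
  rw [h3, h4, _root_.one_zpow]

theorem chrB_wi {i : ℕ} (hi : i ≤ n) (b : Gp n) : chrB (wi n i) b = ∏ j : Fin i,
      (b : Matrix (Fin n) (Fin n) ℂ) (Fin.castLE hi j) (Fin.castLE hi j) := by
  unfold chrB
  symm
  refine Fintype.prod_of_injective (Fin.castLE hi) (Fin.castLE_injective hi) _ _ ?_ ?_
  · intro c hc
    have h : ¬ (c : ℕ) < i := fun h => hc ⟨⟨c, h⟩, Fin.ext rfl⟩
    unfold wi
    rw [if_neg h, zpow_zero]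
  · intro c
    have hc : ((Fin.castLE hi c : Fin n) : ℕ) < i := c.2
    unfold wi
    rw [if_pos hc, zpow_one]

/-- `B` acts on the highest weight vector of the tensor power by a character. -/
theorem act_mnr_one {i : ℕ} (hi : i ≤ n) {b : Gp n} (hb : IsB b) :
    (Er n i).act b (mnr i 1) = chrB (wi n i) b • mnr i 1 := by
  rw [← mnr_mul, mul_one]
  funext a
  have h := mnr_B hb i hi 1 a
  rw [one_mul] at h
  rw [h, ← chrB_wi hi, Pi.smul_apply, smul_eq_mul, mul_comm]

/-- The line of the highest weight vector is fixed by `k`. -/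
def FixL (i : ℕ) (k : Gp n) : Prop := ∃ z : ℂ, (Er n i).act k (mnr i 1) = z • mnr i 1

/-- There is a unit vector of weight `χ`; if an element `k` of `SU(n)` fixes its line then it
fixes the lines of the highest weight vectors of the tensor powers with numbers in `I`. -/
def HW (χ : Fin n → ℤ) (I : Set ℕ) : Prop :=
  ∃ (κ : Type) (_ : Fintype κ) (_ : DecidableEq κ) (V : Rep n κ) (e : κ → ℂ), ns e = 1 ∧
    (∀ b, IsB b → V.act b e = chrB χ b • e) ∧
    ∀ k ∈ SU n, (∃ z : ℂ, V.act k e = z • e) → ∀ i ∈ I, FixL i k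

theorem HW_zero : HW (0 : Fin n → ℤ) ∅ := by
  refine ⟨_, inferInstance, inferInstance, Er n 0, mnr 0 1, ?_, ?_, ?_⟩
  · rw [ns_mnr_one 0 (Nat.zero_le n), Nat.factorial_zero, Nat.cast_one]
  · intro b hb
    rw [act_mnr_one (Nat.zero_le n) hb]
    congr 1
  · intro k _ _ i hi
    exact absurd hi (Set.notMem_empty i)

theorem tv_line {ι κ : Type} {x v : ι → ℂ} {y w : κ → ℂ} (hx : x ≠ 0) (hy : y ≠ 0) {z : ℂ}
    (h : tv x y = z • tv v w) : (∃ c : ℂ, x = c • v) ∧ ∃ c : ℂ, y = c • w := by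
  obtain ⟨p, hp⟩ := Function.ne_iff.1 hx
  obtain ⟨q, hq⟩ := Function.ne_iff.1 hy
  have h1 : ∀ p q, x p * y q = z * (v p * w q) := fun p q => congrFun h (p, q)
  constructor
  · refine ⟨z * w q / y q, ?_⟩
    funext p'
    rw [Pi.smul_apply, smul_eq_mul, div_mul_eq_mul_div, eq_div_iff hq, h1]
    ring
  · refine ⟨z * v p / x p, ?_⟩
    funext q'
    rw [Pi.smul_apply, smul_eq_mul, div_mul_eq_mul_div, eq_div_iff hp, mul_comm, h1]
    ring

theorem HW_add {χ : Fin n → ℤ} {I : Set ℕ} (h : HW χ I) {i : ℕ} (hi : i ≤ n) :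
    HW (χ + wi n i) (insert i I) := by
  obtain ⟨κ, _, _, V, e, he, hB, hk⟩ := h
  obtain ⟨c, hc⟩ : ∃ c : ℝ, c = 1 / Real.sqrt (i.factorial : ℝ) := ⟨_, rfl⟩
  have hf : (0 : ℝ) < i.factorial := by exact_mod_cast i.factorial_pos
  have hc0 : 0 < c := by
    rw [hc]
    exact div_pos one_pos (Real.sqrt_pos.2 hf)
  have hcne : (c : ℂ) ≠ 0 := by exact_mod_cast hc0.ne'
  have he0 : e ≠ 0 := by
    intro h0
    rw [h0, ns_zero] at he
    exact zero_ne_one he
  have hu0 : ((c : ℂ) • mnr i (1 : Gp n)) ≠ 0 := smul_ne_zero hcne (mnr_one_ne i hi)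
  refine ⟨_, inferInstance, inferInstance, V.tens (Er n i), tv e ((c : ℂ) • mnr i 1), ?_, ?_, ?_⟩
  · rw [ns_tv, he, one_mul, ns_smul, ns_mnr_one i hi, Complex.norm_real, Real.norm_eq_abs,
      abs_of_pos hc0, hc, div_pow, one_pow, Real.sq_sqrt hf.le, one_div_mul_cancel hf.ne']
  · intro b hb
    rw [Rep.act_tens, hB b hb, Rep.act_smul, act_mnr_one hi hb, chrB_wadd hb, tv_smul_left,
      smul_comm, tv_smul_right, smul_smul]
  · rintro k hks ⟨z, hz⟩ i' hi'
    rw [Rep.act_tens] at hz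
    obtain ⟨h1, c', h2⟩ := tv_line (act_ne_zero V he0 k) (act_ne_zero (Er n i) hu0 k) hz
    rcases hi' with rfl | hi'
    · refine ⟨c', ?_⟩
      rw [Rep.act_smul, smul_comm] at h2
      exact smul_right_injective _ hcne h2
    · exact hk k hks h1 i' hi'

theorem HW_mono {χ : Fin n → ℤ} {I J : Set ℕ} (h : HW χ I) (hJ : J ⊆ I) : HW χ J := by
  obtain ⟨κ, i1, i2, V, e, he, hB, hk⟩ := h
  exact ⟨κ, i1, i2, V, e, he, hB, fun k hks hz i hi => hk k hks hz i (hJ hi)⟩

theorem HW_nsmul {χ : Fin n → ℤ} {I : Set ℕ} (h : HW χ I) {i : ℕ} (hi : i ≤ n) (m : ℕ) :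
    HW (χ + m • wi n i) (I ∪ {j | j = i ∧ 0 < m}) := by
  induction m with
  | zero =>
    rw [zero_smul, add_zero]
    refine HW_mono h ?_
    rintro j (hj | ⟨-, hj⟩)
    · exact hj
    · exact absurd hj (lt_irrefl _)
  | succ m ih =>
    have h1 := HW_add ih hi
    rw [add_assoc, ← succ_nsmul] at h1
    refine HW_mono h1 ?_
    rintro j (hj | ⟨hj, -⟩)
    · exact Or.inr (Or.inl hj)
    · exact Or.inl hj

theorem HW_sum (m : ℕ → ℕ) (r : ℕ) (hr : r ≤ n) :
    HW (∑ i ∈ Finset.range r, m i • wi n (i + 1)) {j | ∃ i < r, j = i + 1 ∧ 0 < m i} := by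
  induction r with
  | zero =>
    rw [Finset.range_zero, Finset.sum_empty]
    refine HW_mono HW_zero ?_
    rintro j ⟨i, hi, -⟩
    exact absurd hi (Nat.not_lt_zero i)
  | succ r ih =>
    rw [Finset.sum_range_succ]
    refine HW_mono (HW_nsmul (ih (by omega)) hr (m r)) ?_
    rintro j ⟨i, hi, hj, hm⟩
    rcases Nat.lt_succ_iff_lt_or_eq.1 hi with h | h
    · exact Or.inl ⟨i, h, hj, hm⟩
    · right
      rw [h] at hj hm
      exact ⟨hj, hm⟩

theorem tele (a : ℕ → ℤ) (j r : ℕ) (hr : j ≤ r) :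
    ∑ i ∈ Finset.range r, (if j ≤ i then a i - a (i + 1) else 0) = a j - a r := by
  induction r, hr using Nat.le_induction with
  | base =>
    rw [sub_self]
    refine Finset.sum_eq_zero fun i hi => ?_
    rw [Finset.mem_range] at hi
    rw [if_neg (by omega)]
  | succ r hr ih =>
    rw [Finset.sum_range_succ, ih, if_pos hr]
    ring

/-- An element of `SU(n)` which fixes all the lines is upper triangular. -/
theorem isB_of_fixL {k : Gp n} (h : ∀ i, 1 ≤ i → i < n → FixL i k) : IsB k := by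
  intro p q hqp
  obtain ⟨i, hi⟩ : ∃ i : ℕ, i = p := ⟨_, rfl⟩
  have hin : i < n := by rw [hi]; exact p.2
  have hqi : (q : ℕ) < i := by rw [hi]; exact hqp
  obtain ⟨z, hz⟩ := h i (by omega) hin
  rw [← mnr_mul, mul_one] at hz
  have hz0 : z ≠ 0 := by
    intro h0
    rw [h0, zero_smul] at hz
    exact mnr_ne i hin.le k hz
  obtain ⟨A, hA⟩ : ∃ A : Matrix (Fin i) (Fin i) ℂ, A = Matrix.of fun p' q' : Fin i =>
      colE k (Fin.castLE hin.le p') q' := ⟨_, rfl⟩
  obtain ⟨x, hx⟩ : ∃ x : Fin i → ℂ, ∀ q', x q' = colE k p q' := ⟨_, fun _ => rfl⟩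
  have hAdet : A.det ≠ 0 := by
    have h1 : mnr i k (Fin.castLE hin.le) = A.det := by rw [hA]; rfl
    have h2 : mnr i (1 : Gp n) (Fin.castLE hin.le) = 1 := by
      have e : (Matrix.of fun p' q' : Fin i => colE (1 : Gp n) (Fin.castLE hin.le p') q') = 1 := by
        ext p' q'
        rw [Matrix.of_apply]
        unfold colE
        rw [dif_pos (q'.2.trans hin), coe_gone, Matrix.one_apply, Matrix.one_apply]
        have e1 : (Fin.castLE hin.le p' = (⟨q', q'.2.trans hin⟩ : Fin n)) ↔ p' = q' := by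
          constructor
          · intro h
            have h' := congrArg Fin.val h
            exact Fin.ext h'
          · intro h
            rw [h]
            rfl
        by_cases h : p' = q'
        · rw [if_pos h, if_pos (e1.2 h)]
        · rw [if_neg h, if_neg fun h' => h (e1.1 h')]
      unfold mnr
      rw [e, Matrix.det_one]
    rw [← h1, hz, Pi.smul_apply, h2, smul_eq_mul, mul_one]
    exact hz0
  have hcr : Matrix.cramer Aᵀ x = 0 := by
    funext r
    rw [Matrix.cramer_transpose_apply, Pi.zero_apply]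
    have h1 : (A.updateRow r x).det = mnr i k (Function.update (Fin.castLE hin.le) r p) := by
      unfold mnr
      congr 1
      ext p' q'
      rw [Matrix.of_apply, Matrix.updateRow_apply]
      by_cases h : p' = r
      · rw [if_pos h, h, Function.update_self, hx]
      · rw [if_neg h, Function.update_of_ne h, hA, Matrix.of_apply]
    have h2 : mnr i (1 : Gp n) (Function.update (Fin.castLE hin.le) r p) = 0 := by
      unfold mnr
      refine Matrix.det_eq_zero_of_row_eq_zero r fun q' => ?_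
      rw [Matrix.of_apply, Function.update_self]
      unfold colE
      rw [dif_pos (q'.2.trans hin), coe_gone, Matrix.one_apply_ne]
      intro h
      have h' := congrArg Fin.val h
      have h3 := q'.2
      simp only at h'
      omega
    rw [h1, hz, Pi.smul_apply, h2, smul_zero]
  have h3 := Matrix.mulVec_cramer Aᵀ x
  rw [hcr, Matrix.mulVec_zero, Matrix.det_transpose] at h3
  have h4 : x = 0 := by
    rcases smul_eq_zero.1 h3.symm with h5 | h5
    · exact absurd h5 hAdet
    · exact h5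
  have h5 := congrFun h4 ⟨q, hqi⟩
  rw [hx, Pi.zero_apply] at h5
  unfold colE at h5
  rw [dif_pos q.2] at h5
  exact h5

/-- A representation with a vector of weight `χ` for `B`. -/
theorem exists_hw (χ : Fin n → ℤ) (hχ : Antitone χ) :
    ∃ (κ : Type) (_ : Fintype κ) (_ : DecidableEq κ) (V : Rep n κ) (e : κ → ℂ), ns e = 1 ∧
      (∀ b, IsB b → V.act b e = chrB χ b • e) ∧
      (StrictAnti χ → ∀ k ∈ SU n, (∃ z : ℂ, V.act k e = z • e) → IsB k) := by
  obtain ⟨a, ha⟩ : ∃ a : ℕ → ℤ, ∀ j, a j = if h : j < n then χ ⟨j, h⟩ else 0 := ⟨_, fun _ => rfl⟩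
  have haF : ∀ j : Fin n, a j = χ j := fun j => by rw [ha, dif_pos j.2]
  obtain ⟨m, hm⟩ : ∃ m : ℕ → ℕ, ∀ i, m i = (a i - a (i + 1)).toNat := ⟨_, fun _ => rfl⟩
  have hm' : ∀ i < n - 1, ((m i : ℕ) : ℤ) = a i - a (i + 1) := by
    intro i hi
    rw [hm, Int.toNat_of_nonneg]
    have h1 : a (i + 1) ≤ a i := by
      rw [ha, ha, dif_pos (by omega), dif_pos (by omega)]
      exact hχ (by
        show i ≤ i + 1
        omega)
    omega
  obtain ⟨κ, i1, i2, V, e, he, hB, hk⟩ := HW_sum (n := n) m (n - 1) (Nat.sub_le n 1)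
  have hsum : ∀ j : Fin n, (∑ i ∈ Finset.range (n - 1), m i • wi n (i + 1)) j =
      χ j - a (n - 1) := by
    intro j
    rw [← haF, ← tele a j (n - 1) (by have := j.2; omega), Finset.sum_apply]
    refine Finset.sum_congr rfl fun i hi => ?_
    rw [Finset.mem_range] at hi
    rw [Pi.smul_apply, nsmul_eq_mul, hm' i hi]
    unfold wi
    by_cases h : (j : ℕ) ≤ i
    · rw [if_pos h, if_pos (by omega), mul_one]
    · rw [if_neg h, if_neg (by omega), mul_zero]
  refine ⟨κ, i1, i2, V, e, he, fun b hb => ?_, fun hs k hks hz => ?_⟩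
  · rw [hB b hb]
    congr 1
    have h1 : χ = (∑ i ∈ Finset.range (n - 1), m i • wi n (i + 1)) + fun _ => a (n - 1) := by
      funext j
      rw [Pi.add_apply, hsum j]
      ring
    rw [h1, chrB_wadd hb, chrB_const _ hb, mul_one]
  · refine isB_of_fixL fun i hi1 hin => ?_
    refine hk k hks hz i ⟨i - 1, by omega, by omega, ?_⟩
    have h1 : a (i - 1 + 1) < a (i - 1) := by
      rw [ha, ha, dif_pos (by omega), dif_pos (by omega)]
      exact hs (by
        show i - 1 < i - 1 + 1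
        omega)
    rw [hm]
    omega

end Pool.Agent.SG
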