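import Pool.Agent.H.MP_e23cd6_ag.SG.Near

/-!
# Compactness of `SU(n)`, Haar measure, small balls
-/

set_option autoImplicit false

namespace Pool.Agent.SG

open Matrix Topology MeasureTheory Set

variable {n : ℕ}

theorem isClosed_SU (n : ℕ) : IsClosed (SU n : Set (Gp n)) := by
  have h : (SU n : Set (Gp n)) = {g | ct g * g = 1} := by
    ext g
    show ct g = g⁻¹ ↔ ct g * g = 1
    exact eq_inv_iff_mul_eq_one
  rw [h]
  exact isClosed_eq (continuous_ct.mul continuous_id) continuous_const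

theorem isClosedEmbedding_SU (n : ℕ) : IsClosedEmbedding
    (fun k : SU n => ((k : Gp n) : Matrix (Fin n) (Fin n) ℂ)) :=
  Matrix.SpecialLinearGroup.isClosedEmbedding_val.comp (isClosed_SU n).isClosedEmbedding_subtypeVal

instance compactSpace_SU (n : ℕ) : CompactSpace (SU n) := by
  have hK : IsCompact (Set.pi univ fun _ : Fin n => Set.pi univ fun _ : Fin n =>
      Metric.closedBall (0 : ℂ) 1) :=
    isCompact_univ_pi fun i => isCompact_univ_pi fun j => isCompact_closedBall 0 1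
  have h := (isClosedEmbedding_SU n).isCompact_preimage hK
  have hu : (fun k : SU n => ((k : Gp n) : Matrix (Fin n) (Fin n) ℂ)) ⁻¹'
      (Set.pi univ fun _ : Fin n => Set.pi univ fun _ : Fin n => Metric.closedBall (0 : ℂ) 1) =
      univ := by
    rw [eq_univ_iff_forall]
    intro k i _ j _
    rw [mem_closedBall_zero_iff]
    exact SU_entry_le k.2 i j
  rw [hu] at h
  exact ⟨h⟩

noncomputable instance measurableSpace_SU (n : ℕ) : MeasurableSpace (SU n) := borel _

instance borelSpace_SU (n : ℕ) : BorelSpace (SU n) := ⟨rfl⟩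

/-- The Haar probability measure of `SU(n)`. -/
noncomputable def hμ (n : ℕ) : Measure (SU n) := Measure.haarMeasure ⊤

instance isProb_hμ (n : ℕ) : IsProbabilityMeasure (hμ n) := by
  constructor
  have h := Measure.haarMeasure_self (K₀ := (⊤ : TopologicalSpace.PositiveCompacts (SU n)))
  exact h

instance isLeft_hμ (n : ℕ) : (hμ n).IsMulLeftInvariant := by
  unfold hμ
  infer_instance

theorem integrable_SU {f : SU n → ℂ} (hf : Continuous f) : Integrable f (hμ n) :=
  hf.integrable_of_hasCompactSupport (HasCompactSupport.of_compactSpace f)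

/-- Haar measure of small balls. -/
theorem small_ball (n : ℕ) : ∃ c > 0, ∃ D : ℕ, ∀ r : ℝ, 0 < r → r ≤ 1 →
    c * r ^ D ≤ (hμ n).real {k : SU n | dst (k : Gp n) ≤ r} := by
  refine ⟨(1 / (4 * (n : ℝ) + 7)) ^ (n * (n * 2)), by positivity, n * (n * 2),
    fun r hr hr1 => ?_⟩
  have hn0 : (0 : ℝ) ≤ n := n.cast_nonneg
  obtain ⟨ρ, hρ⟩ : ∃ ρ : ℝ, ρ = r / (2 * ((n : ℝ) + 1)) := ⟨_, rfl⟩
  have hρ0 : 0 < ρ := by
    rw [hρ]
    positivity
  obtain ⟨M, hM⟩ : ∃ M : ℕ, M = ⌈1 / ρ⌉₊ := ⟨_, rfl⟩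
  have hM1 : 1 / ρ ≤ M := by
    rw [hM]
    exact Nat.le_ceil _
  have hM2 : (M : ℝ) < 1 / ρ + 1 := by
    rw [hM]
    exact Nat.ceil_lt_add_one (by positivity)
  obtain ⟨F, hF⟩ : ∃ F : Finset (Fin n → Fin n → ℤ × ℤ),
      F = Fintype.piFinset fun _ => Fintype.piFinset fun _ =>
        (Finset.Icc (-(M : ℤ)) M ×ˢ Finset.Icc (-(M : ℤ)) M) := ⟨_, rfl⟩
  have hcard : (F.card : ℝ) = (2 * (M : ℝ) + 1) ^ (n * (n * 2)) := by
    rw [hF, Fintype.card_piFinset_const, Fintype.card_piFinset_const, Finset.card_product,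
      Int.card_Icc]
    have e1 : ((M : ℤ) + 1 - -(M : ℤ)).toNat = 2 * M + 1 := by omega
    rw [e1]
    push_cast
    rw [← pow_two, ← pow_mul, ← pow_mul]
    congr 1
    ring
  obtain ⟨q, hq⟩ : ∃ q : SU n → (Fin n → Fin n → ℤ × ℤ), ∀ k i j, q k i j =
      (⌊(((k : Gp n) : Matrix (Fin n) (Fin n) ℂ) i j).re / ρ⌋,
        ⌊(((k : Gp n) : Matrix (Fin n) (Fin n) ℂ) i j).im / ρ⌋) := ⟨_, fun _ _ _ => rfl⟩
  have hfl : ∀ x : ℝ, |x| ≤ 1 → ⌊x / ρ⌋ ∈ Finset.Icc (-(M : ℤ)) M := by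
    intro x hx
    rw [Finset.mem_Icc]
    have h1 := abs_le.1 hx
    constructor
    · rw [Int.le_floor]
      push_cast
      have h2 : -(1 / ρ) ≤ x / ρ := by
        rw [← neg_div]
        exact div_le_div_of_nonneg_right h1.1 hρ0.le
      linarith
    · have h2 : x / ρ ≤ 1 / ρ := div_le_div_of_nonneg_right h1.2 hρ0.le
      have h3 : x / ρ ≤ ((M : ℤ) : ℝ) := by
        push_cast
        linarith
      have h4 : ((⌊x / ρ⌋ : ℤ) : ℝ) ≤ ((M : ℤ) : ℝ) := (Int.floor_le _).trans h3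
      exact_mod_cast h4
  have hqF : ∀ k, q k ∈ F := by
    intro k
    rw [hF, Fintype.mem_piFinset]
    intro i
    rw [Fintype.mem_piFinset]
    intro j
    rw [hq, Finset.mem_product]
    have h1 := SU_entry_le k.2 i j
    exact ⟨hfl _ ((Complex.abs_re_le_norm _).trans h1), hfl _ ((Complex.abs_im_le_norm _).trans h1)⟩
  have hcell : ∀ c ∈ F, (hμ n).real (q ⁻¹' {c}) ≤
      (hμ n).real {k : SU n | dst (k : Gp n) ≤ r} := by
    intro c _
    rcases (q ⁻¹' {c}).eq_empty_or_nonempty with h0 | ⟨k₁, hk₁⟩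
    · rw [h0, measureReal_empty]
      exact measureReal_nonneg
    · have hsub : q ⁻¹' {c} ⊆ (fun k => k₁⁻¹ * k) ⁻¹' {k : SU n | dst (k : Gp n) ≤ r} := by
        intro k hk
        have hkk : q k = q k₁ := by
          rw [mem_preimage, mem_singleton_iff] at hk hk₁
          rw [hk, hk₁]
        show dst ((k₁⁻¹ * k : SU n) : Gp n) ≤ r
        have hre : ∀ x y : ℝ, ⌊x / ρ⌋ = ⌊y / ρ⌋ → |x - y| ≤ ρ := by
          intro x y hxy
          have h1 := Int.abs_sub_lt_one_of_floor_eq_floor hxy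
          have h2 : x - y = (x / ρ - y / ρ) * ρ := by field_simp
          rw [h2, abs_mul, abs_of_pos hρ0]
          nlinarith
        have hent : ∀ i j, ‖((k : Gp n) : Matrix (Fin n) (Fin n) ℂ) i j -
            ((k₁ : Gp n) : Matrix (Fin n) (Fin n) ℂ) i j‖ ≤ 2 * ρ := by
          intro i j
          have h1 := congrFun (congrFun hkk i) j
          rw [hq, hq, Prod.mk.injEq] at h1
          refine (Complex.norm_le_abs_re_add_abs_im _).trans ?_
          rw [Complex.sub_re, Complex.sub_im]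
          have h2 := hre _ _ h1.1
          have h3 := hre _ _ h1.2
          linarith
        refine dst_le hr.le fun i j => ?_
        have e1 : (((k₁⁻¹ * k : SU n) : Gp n) : Matrix (Fin n) (Fin n) ℂ) =
            ((k₁ : Gp n) : Matrix (Fin n) (Fin n) ℂ)ᴴ *
              ((k : Gp n) : Matrix (Fin n) (Fin n) ℂ) := by
          rw [Subgroup.coe_mul, Subgroup.coe_inv, coe_gmul, coe_inv_SU k₁.2]
        have e2 : (((k₁⁻¹ * k : SU n) : Gp n) : Matrix (Fin n) (Fin n) ℂ) i j -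
            (1 : Matrix (Fin n) (Fin n) ℂ) i j =
            ∑ a, ((k₁ : Gp n) : Matrix (Fin n) (Fin n) ℂ)ᴴ i a *
              (((k : Gp n) : Matrix (Fin n) (Fin n) ℂ) a j -
                ((k₁ : Gp n) : Matrix (Fin n) (Fin n) ℂ) a j) := by
          have e3 : (1 : Matrix (Fin n) (Fin n) ℂ) =
              ((k₁ : Gp n) : Matrix (Fin n) (Fin n) ℂ)ᴴ *
                ((k₁ : Gp n) : Matrix (Fin n) (Fin n) ℂ) := (mem_SU'.1 k₁.2).symm
          rw [e1, e3, Matrix.mul_apply, Matrix.mul_apply, ← Finset.sum_sub_distrib]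
          refine Finset.sum_congr rfl fun a _ => ?_
          ring
        rw [e2]
        refine (norm_sum_le _ _).trans ?_
        have h4 : ∀ a ∈ Finset.univ, ‖((k₁ : Gp n) : Matrix (Fin n) (Fin n) ℂ)ᴴ i a *
            (((k : Gp n) : Matrix (Fin n) (Fin n) ℂ) a j -
              ((k₁ : Gp n) : Matrix (Fin n) (Fin n) ℂ) a j)‖ ≤ 2 * ρ := by
          intro a _
          rw [norm_mul, Matrix.conjTranspose_apply, norm_star]
          have h5 := SU_entry_le k₁.2 a i
          have h6 := hent a j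
          have h7 := norm_nonneg (((k₁ : Gp n) : Matrix (Fin n) (Fin n) ℂ) a i)
          have h8 := norm_nonneg (((k : Gp n) : Matrix (Fin n) (Fin n) ℂ) a j -
              ((k₁ : Gp n) : Matrix (Fin n) (Fin n) ℂ) a j)
          nlinarith
        refine (Finset.sum_le_sum h4).trans ?_
        rw [Finset.sum_const, Finset.card_univ, Fintype.card_fin, nsmul_eq_mul, hρ]
        have h9 : (n : ℝ) * (2 * (r / (2 * ((n : ℝ) + 1)))) = r * (n / (n + 1)) := by
          field_simp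
        rw [h9]
        have h10 : (n : ℝ) / (n + 1) ≤ 1 := by
          rw [div_le_one (by positivity)]
          linarith
        nlinarith
      calc (hμ n).real (q ⁻¹' {c}) ≤
          (hμ n).real ((fun k => k₁⁻¹ * k) ⁻¹' {k : SU n | dst (k : Gp n) ≤ r}) :=
            measureReal_mono hsub
        _ = (hμ n).real {k : SU n | dst (k : Gp n) ≤ r} := by
            unfold Measure.real
            rw [measure_preimage_mul]
  have hcover : (1 : ℝ) ≤ ∑ c ∈ F, (hμ n).real (q ⁻¹' {c}) := by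
    have h1 : (univ : Set (SU n)) ⊆ ⋃ c ∈ F, q ⁻¹' {c} := by
      intro k _
      rw [mem_iUnion₂]
      exact ⟨q k, hqF k, rfl⟩
    have h2 : (hμ n).real univ ≤ (hμ n).real (⋃ c ∈ F, q ⁻¹' {c}) :=
      measureReal_mono h1 (measure_ne_top _ _)
    have h3 : (hμ n).real univ = 1 := by simp
    rw [h3] at h2
    exact h2.trans (measureReal_biUnion_finset_le _ _)
  have hmain : (1 : ℝ) ≤ (2 * (M : ℝ) + 1) ^ (n * (n * 2)) *
      (hμ n).real {k : SU n | dst (k : Gp n) ≤ r} := by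
    refine hcover.trans ((Finset.sum_le_sum hcell).trans ?_)
    rw [Finset.sum_const, nsmul_eq_mul, hcard]
  have hMr : 2 * (M : ℝ) + 1 ≤ (4 * (n : ℝ) + 7) / r := by
    have h1 : 1 / ρ = 2 * ((n : ℝ) + 1) / r := by
      rw [hρ, one_div_div]
    have h2 : 2 * (M : ℝ) + 1 ≤ 4 * ((n : ℝ) + 1) / r + 3 := by
      have h3 : 2 * (1 / ρ) = 4 * ((n : ℝ) + 1) / r := by
        rw [h1]
        ring
      linarith
    have h4 : (3 : ℝ) ≤ 3 / r := by
      rw [le_div_iff₀ hr]
      linarith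
    have h5 : (4 * (n : ℝ) + 7) / r = 4 * ((n : ℝ) + 1) / r + 3 / r := by
      rw [← add_div]
      congr 1
      ring
    linarith
  have hμ0 : 0 ≤ (hμ n).real {k : SU n | dst (k : Gp n) ≤ r} := measureReal_nonneg
  have h6 : (2 * (M : ℝ) + 1) ^ (n * (n * 2)) ≤ ((4 * (n : ℝ) + 7) / r) ^ (n * (n * 2)) := by
    apply pow_le_pow_left₀ (by positivity) hMr
  have h7 : (1 : ℝ) ≤ ((4 * (n : ℝ) + 7) / r) ^ (n * (n * 2)) *
      (hμ n).real {k : SU n | dst (k : Gp n) ≤ r} :=
    hmain.trans (mul_le_mul_of_nonneg_right h6 hμ0)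
  have h8 : 0 < (1 / (4 * (n : ℝ) + 7)) ^ (n * (n * 2)) * r ^ (n * (n * 2)) := by positivity
  calc (1 / (4 * (n : ℝ) + 7)) ^ (n * (n * 2)) * r ^ (n * (n * 2))
      = (1 / (4 * (n : ℝ) + 7)) ^ (n * (n * 2)) * r ^ (n * (n * 2)) * 1 := (mul_one _).symm
    _ ≤ (1 / (4 * (n : ℝ) + 7)) ^ (n * (n * 2)) * r ^ (n * (n * 2)) *
        (((4 * (n : ℝ) + 7) / r) ^ (n * (n * 2)) *
        (hμ n).real {k : SU n | dst (k : Gp n) ≤ r}) := mul_le_mul_of_nonneg_left h7 h8.le
    _ = (hμ n).real {k : SU n | dst (k : Gp n) ≤ r} := by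
        rw [← mul_assoc, ← mul_pow, ← mul_pow]
        have h9 : 1 / (4 * (n : ℝ) + 7) * r * ((4 * (n : ℝ) + 7) / r) = 1 := by
          field_simp
        rw [h9, one_pow, one_mul]

end Pool.Agent.SG
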