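import Pool.Agent.H.MP_e23cd6_ag.SG.SysOf
import Pool.Agent.H.MP_e23cd6_ag.NT.Alg

/-! Sections given by homogeneous polynomials in the sections of a system. -/

set_option autoImplicit false

open Matrix MeasureTheory Topology Set Filter
open scoped Manifold ContDiff ENNReal

namespace Pool.Agent.SG

open Pool.Agent.Abd Pool.Agent.Abn

variable {n : ℕ} {E : Type} [NormedAddCommGroup E] [NormedSpace ℂ E]
  {X₀ X : Type} [TopologicalSpace X₀] [ChartedSpace E X₀] [TopologicalSpace X]
  {N : NSp E X₀ X} {L P : NLine N} {A : GAct n N} {ΛL : GLin A L} {ΛP : GLin A P}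

/-- Homogeneous polynomials scale. -/
theorem eval_scale {ι : Type} {M : ℕ} {p : MvPolynomial ι ℂ} (hp : p.IsHomogeneous M) (z : ℂ)
    (v : ι → ℂ) : MvPolynomial.eval (fun α => z * v α) p = z ^ M * MvPolynomial.eval v p := by
  rw [MvPolynomial.eval_eq, MvPolynomial.eval_eq, Finset.mul_sum]
  refine Finset.sum_congr rfl fun d hd => ?_
  have h1 : ∑ i ∈ d.support, d i = M := (hp.degree_eq_sum_deg_support hd).symm
  simp only [mul_pow, Finset.prod_mul_distrib, Finset.prod_pow_eq_pow_sum, h1]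
  ring

/-- The section given by a homogeneous polynomial in sections of the same line bundle. -/
noncomputable def polySec {ι : Type} {K J : ℕ} {U : Set X} (s : ι → NSec L P K J U) {M : ℕ}
    {p : MvPolynomial ι ℂ} (hp : p.IsHomogeneous M) : NSec L P (M * K) (M * J) U where
  f := fun i j x => MvPolynomial.eval (fun α => (s α).f i j x) p
  hol := fun i j x hx hi hj => by
    have h : N.Hol (fun x => ∑ d ∈ p.support, p.coeff d * ∏ α ∈ d.support, (s α).f i j x ^ d α) x :=
      Hol_sum _ fun d _ => Hol_mul (Hol_const _ _)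
        (Hol_prod _ fun α _ => Hol_pow ((s α).hol i j x hx hi hj) _)
    refine Hol_congr h (Eventually.of_forall fun y => ?_)
    exact (MvPolynomial.eval_eq _ _).symm
  trans := fun i j i' j' x hx h1 h2 h3 h4 => by
    have h5 : (fun α => (s α).f i j x) =
        fun α => (L.g i i' x ^ K * P.g j j' x ^ J) * (s α).f i' j' x := by
      funext α
      exact (s α).trans i j i' j' x hx h1 h2 h3 h4
    rw [h5, eval_scale hp]
    ring

namespace SysOf

variable {S : GSys n X} (r : SysOf ΛL ΛP S) {a b M : ℕ} {p : MvPolynomial (S.D a b).ι ℂ}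

/-- The section given by a homogeneous polynomial. -/
noncomputable def poly (r : SysOf ΛL ΛP S) (hp : p.IsHomogeneous M) :
    NSec L P (M * (S.c a b * a)) (M * (S.c a b * (b + 1))) univ := polySec (r.sec a b) hp

theorem poly_f (hp : p.IsHomogeneous M) (i : L.ι) (j : P.ι) (y : X) :
    (r.poly hp).f i j y = MvPolynomial.eval (fun α => (r.sec a b α).f i j y) p := rfl

theorem poly_nz (hp : p.IsHomogeneous M) (y : X) :
    (r.poly hp).NZ y ↔ MvPolynomial.eval ((S.D a b).v y) p ≠ 0 := by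
  obtain ⟨i, j, h⟩ := exists_nat L P y
  obtain ⟨z, hz, hv⟩ := r.val a b y i j h.memL h.memP
  rw [(r.poly hp).nz_iff (mem_univ _) h, r.poly_f hp]
  have h1 : (fun α => (r.sec a b α).f i j y) = fun α => z * (S.D a b).v y α := funext hv
  rw [h1, eval_scale hp]
  constructor
  · exact right_ne_zero_of_mul
  · exact mul_ne_zero (pow_ne_zero _ hz)

theorem poly_wt {χ : Fin n → ℤ} (hp : p ∈ BPoly (S.D a b).R M χ) :
    BWt ΛL ΛP χ (r.poly hp.1) := by
  intro g hg i j i' j' y _ _ h1 h2 h3 h4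
  rw [r.poly_f, r.poly_f]
  have h5 : (fun α => (r.sec a b α).f i j (A.act g y)) = fun α =>
      (ΛL.lam i i' g y ^ (S.c a b * a) * ΛP.lam j j' g y ^ (S.c a b * (b + 1))) *
        (S.D a b).R.act g (fun β => (r.sec a b β).f i' j' y) α := by
    funext α
    exact r.eqv a b g y i j i' j' h1 h2 h3 h4 α
  have h6 := hp.2 g hg (fun β => (r.sec a b β).f i' j' y)
  rw [h5, eval_scale hp.1]
  linear_combination (ΛL.lam i i' g y ^ (S.c a b * a) *
    ΛP.lam j j' g y ^ (S.c a b * (b + 1))) ^ M * h6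

/-- X2 -/
theorem toSec (r : SysOf ΛL ΛP S) {χ : Fin n → ℤ} (hp : p ∈ BPoly (S.D a b).R M χ) :
    ∃ s : NSec L P (M * (S.c a b * a)) (M * (S.c a b * (b + 1))) univ, BWt ΛL ΛP χ s ∧
      ∀ y, s.NZ y ↔ MvPolynomial.eval ((S.D a b).v y) p ≠ 0 :=
  ⟨r.poly hp.1, r.poly_wt hp, r.poly_nz hp.1⟩

end SysOf

end Pool.Agent.SG
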