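import Pool.Agent.H.MP_e23cd6_ag.SG.Defs
import Pool.Agent.H.MP_e23cd6_ag.NT.Thin

/-! Extension of locally bounded sections with a weight for the upper triangular group. -/

set_option autoImplicit false

open scoped Manifold ContDiff Topology ENNReal
open MeasureTheory Set Filter

namespace Pool.Agent.SG

open Pool.Agent.Abd Pool.Agent.Abn

section basic

variable {E : Type} [NormedAddCommGroup E] [NormedSpace ℂ E] {n : ℕ}
  {X₀ X : Type} [TopologicalSpace X₀] [ChartedSpace E X₀] [TopologicalSpace X]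
  {N : NSp E X₀ X} {L P : NLine N} {A : GAct n N}

theorem x5_act_continuous (A : GAct n N) (g : Gp n) : Continuous (A.act g) :=
  A.cont.comp (f := fun x : X => (g, x)) (by fun_prop)

theorem x5_lam_continuousAt {B : NLine N} (Λ : GLin A B) {g : Gp n} {i j : B.ι} {x : X}
    (hj : x ∈ B.U j) (hi : A.act g x ∈ B.U i) : ContinuousAt (Λ.lam i j g) x := by
  have h1 : ContinuousAt (fun y : X => (g, y)) x := by fun_prop
  exact ContinuousAt.comp (g := fun v : Gp n × X => Λ.lam i j v.1 v.2)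
    (f := fun y : X => (g, y)) (Λ.cont i j g x hj hi) h1

/-- The trivial action of the torus of rank zero. -/
def triv0 (E X₀ : Type) [NormedAddCommGroup E] [NormedSpace ℂ E] [TopologicalSpace X₀]
    [ChartedSpace E X₀] : TorusAction E 0 X₀ where
  act := fun _ y => y
  one := fun _ => rfl
  mul := fun _ _ _ _ _ => rfl
  hol := fun _ _ _ => contMDiffAt_snd

/-- The trivial linearisation. -/
def lin0 (B : LineBundle E X₀) : Linearization (triv0 E X₀) B where
  lam := fun i j _ y => B.g i j y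
  hol := fun i j _ y _ hj hi => ContMDiffAt.comp (I' := 𝓘(ℂ, E)) _ (B.hol i j y hi hj)
    contMDiffAt_snd
  one := fun _ _ _ _ _ => rfl
  mul := fun i j l _ _ y _ _ hl hj hi => B.mul i j l y hi hj hl

/-- Two functions which are continuous at `x` and agree at the points near `x` of a dense set agree
at `x`. -/
theorem eq_of_dense {F : Type} [TopologicalSpace F] [T2Space F] {V : Set X} (hV : Dense V)
    {f g : X → F} {x : X} (hf : ContinuousAt f x) (hg : ContinuousAt g x)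
    (h : ∀ᶠ z in 𝓝 x, z ∈ V → f z = g z) : f x = g x := by
  have : (𝓝[V] x).NeBot := mem_closure_iff_nhdsWithin_neBot.1 (hV x)
  have h1 : Tendsto f (𝓝[V] x) (𝓝 (f x)) := hf.mono_left nhdsWithin_le_nhds
  have h2 : Tendsto g (𝓝[V] x) (𝓝 (g x)) := hg.mono_left nhdsWithin_le_nhds
  have h3 : f =ᶠ[𝓝[V] x] g := by
    filter_upwards [self_mem_nhdsWithin, nhdsWithin_le_nhds h] with z hz hz2
    exact hz2 hz
  exact tendsto_nhds_unique (h1.congr' h3) h2

end basic

section ext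

variable {E : Type} [NormedAddCommGroup E] [NormedSpace ℂ E] {n : ℕ}
  {X₀ X : Type} [TopologicalSpace X₀] [ChartedSpace E X₀] [IsManifold 𝓘(ℂ, E) ω X₀]
  [TopologicalSpace X] [ConnectedSpace X]
  {N : NSp E X₀ X} {L P : NLine N} {A : GAct n N} {ΛL : GLin A L} {ΛP : GLin A P}

/-- The complement of the zeros of a nonzero section is dense. -/
theorem dense_of_nz {V : Set X} {K' J' : ℕ} (v : NSec L P K' J' univ) {x₀ : X} (hv : v.NZ x₀)
    (hVv : ∀ x, v.NZ x → x ∈ V) : Dense V := by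
  intro x
  rw [mem_closure_iff]
  intro W hW hxW
  obtain ⟨y, hy, hy2⟩ := exists_nz isOpen_univ isConnected_univ v (mem_univ x₀) hv hW
    (subset_univ W) ⟨x, hxW⟩
  exact ⟨y, hy, hVv y hy2⟩

/-- Extension of sections which are bounded near the regular points. -/
theorem extend_reg0 [FiniteDimensional ℂ E] {V : Set X} (hV : IsOpen V)
    {K' J' : ℕ} (v : NSec L P K' J' univ) {x₀ : X} (hv : v.NZ x₀) (hVv : ∀ x, v.NZ x → x ∈ V)
    {K J : ℕ} (s : NSec L P K J V)
    (hb : ∀ y : X₀, ∀ i j, N.inc y ∈ L.U i → N.inc y ∈ P.U j → ∃ W ∈ 𝓝 y, ∃ C : ℝ, ∀ z ∈ W,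
      N.inc z ∈ V → ‖s.f i j (N.inc z)‖ ≤ C) :
    ∃ t : NSec L P K J univ,
      ∀ i j x, x ∈ V → x ∈ L.U i → x ∈ P.U j → t.f i j x = s.f i j x := by
  obtain ⟨y, hy, hsy⟩ := nnz_reg isOpen_univ v (mem_univ x₀) hv
  obtain ⟨F, hF1, -⟩ := extend_sec (lin0 L.reg) (lin0 P.reg)
    ((isOpen_univ (X := X)).preimage N.emb.continuous)
    (N.conn univ isOpen_univ isConnected_univ).isPreconnected (hV.preimage N.emb.continuous)
    (fun z _ => mem_univ (N.inc z)) v.reg
    ⟨y, hy, hsy⟩ (fun z _ hz2 => hVv _ ((NSec.nz_reg v).1 hz2)) s.reg (by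
      intro y0 _ i j φ hat
      obtain ⟨W, hW, C, hC⟩ := hb y0 i j hat.memL hat.memP
      exact ⟨W, hW, C, fun y hy hyV => hC _ hy hyV⟩)
  obtain ⟨t, ht⟩ := exists_ofReg isOpen_univ F
  refine ⟨t, ?_⟩
  intro i j x hx h1 h2
  have h3 := NSec.ext_reg (t.res (subset_univ V)) s hV (fun i j y hy hat' => by
    have h2 := ht i j (chartAt E y) y (mem_univ _) hat'.reg
    show t.f i j (N.inc y) = s.f i j (N.inc y)
    rw [h2]
    exact hF1 i j _ y hy hat'.reg) hx ⟨h1, h2⟩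
  exact h3

omit [IsManifold 𝓘(ℂ, E) ω X₀] [ConnectedSpace X] in
/-- The weight may be tested on a dense invariant set. -/
theorem BWt.of_dense {V : Set X} (hd : Dense V) (hVB : ∀ b, IsB b → ∀ x ∈ V, A.act b x ∈ V)
    {K J : ℕ} {χ : Fin n → ℤ} {s : NSec L P K J V} (hs : BWt ΛL ΛP χ s) {t : NSec L P K J univ}
    (h : ∀ i j x, x ∈ V → x ∈ L.U i → x ∈ P.U j → t.f i j x = s.f i j x) : BWt ΛL ΛP χ t := by
  intro b hb i j i' j' x _ _ h1 h2 h3 h4
  have hc := (x5_act_continuous A b).continuousAt (x := x)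
  refine eq_of_dense hd (f := fun x => chrB χ b * t.f i j (A.act b x))
    (g := fun x => ΛL.lam i i' b x ^ K * ΛP.lam j j' b x ^ J * t.f i' j' x) ?_ ?_ ?_
  · exact continuousAt_const.mul (ContinuousAt.comp (f := A.act b)
      (Hol_continuousAt (t.hol i j _ (mem_univ _) h1 h2)) hc)
  · exact (((x5_lam_continuousAt ΛL h3 h1).pow K).mul
      ((x5_lam_continuousAt ΛP h4 h2).pow J)).mul
        (Hol_continuousAt (t.hol i' j' x (mem_univ _) h3 h4))
  · filter_upwards [hc.preimage_mem_nhds ((L.isOpen i).mem_nhds h1),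
      hc.preimage_mem_nhds ((P.isOpen j).mem_nhds h2), (L.isOpen i').mem_nhds h3,
      (P.isOpen j').mem_nhds h4] with z k2 k3 k4 k5 hz
    have k2' : A.act b z ∈ L.U i := k2
    have k3' : A.act b z ∈ P.U j := k3
    have hbz := hVB b hb z hz
    show chrB χ b * t.f i j (A.act b z) = _
    rw [h i j _ hbz k2' k3', h i' j' z hz k4 k5]
    exact hs b hb i j i' j' z hz hbz k2' k3' k4 k5

/-- Extension of sections with a weight which are bounded near the regular points. -/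
theorem extend_reg [FiniteDimensional ℂ E] {V : Set X} (hV : IsOpen V)
    (hVB : ∀ b, IsB b → ∀ x ∈ V, A.act b x ∈ V)
    {K' J' : ℕ} (v : NSec L P K' J' univ) {x₀ : X} (hv : v.NZ x₀) (hVv : ∀ x, v.NZ x → x ∈ V)
    {K J : ℕ} {χ : Fin n → ℤ} (s : NSec L P K J V) (hs : BWt ΛL ΛP χ s)
    (hb : ∀ y : X₀, ∀ i j, N.inc y ∈ L.U i → N.inc y ∈ P.U j → ∃ W ∈ 𝓝 y, ∃ C : ℝ, ∀ z ∈ W,
      N.inc z ∈ V → ‖s.f i j (N.inc z)‖ ≤ C) :
    ∃ t : NSec L P K J univ, BWt ΛL ΛP χ t ∧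
      ∀ i j x, x ∈ V → x ∈ L.U i → x ∈ P.U j → t.f i j x = s.f i j x := by
  obtain ⟨t, ht⟩ := extend_reg0 hV v hv hVv s hb
  exact ⟨t, BWt.of_dense (dense_of_nz v hv hVv) hVB hs ht, ht⟩

/-- X5: extension of locally bounded sections with a weight. -/
theorem extend_bdd [FiniteDimensional ℂ E] {V : Set X} (hV : IsOpen V)
    (hVB : ∀ b, IsB b → ∀ x ∈ V, A.act b x ∈ V)
    {K' J' : ℕ} (v : NSec L P K' J' univ) {x₀ : X} (hv : v.NZ x₀) (hVv : ∀ x, v.NZ x → x ∈ V)
    {K J : ℕ} {χ : Fin n → ℤ} (s : NSec L P K J V) (hs : BWt ΛL ΛP χ s)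
    (hb : ∀ x, ∀ i j, x ∈ L.U i → x ∈ P.U j → ∃ W ∈ 𝓝 x, ∃ C : ℝ, ∀ y ∈ W, y ∈ V →
      ‖s.f i j y‖ ≤ C) :
    ∃ t : NSec L P K J univ, BWt ΛL ΛP χ t ∧
      ∀ i j x, x ∈ V → x ∈ L.U i → x ∈ P.U j → t.f i j x = s.f i j x := by
  refine extend_reg hV hVB v hv hVv s hs ?_
  intro y i j hi hj
  obtain ⟨W, hW, C, hC⟩ := hb (N.inc y) i j hi hj
  exact ⟨N.inc ⁻¹' W, N.emb.continuous.continuousAt.preimage_mem_nhds hW, C,
    fun z hz hzV => hC _ hz hzV⟩

end ext

end Pool.Agent.SG
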