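import Pool.Agent.H.MP_e23cd6_ag.SG.X2
import Pool.Agent.H.MP_e23cd6_ag.SG.X5
import Pool.Agent.H.MP_e23cd6_ag.SG.Var

/-! The metrics of `L` and `P` given by a system. -/

set_option autoImplicit false

open Matrix MeasureTheory Topology Set Filter
open scoped Manifold ContDiff ENNReal

namespace Pool.Agent.SG

open Pool.Agent.Abd Pool.Agent.Abn

variable {n : ℕ} {E : Type} [NormedAddCommGroup E] [NormedSpace ℂ E]
  {X₀ X : Type} [TopologicalSpace X₀] [ChartedSpace E X₀] [TopologicalSpace X]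
  {N : NSp E X₀ X} {L P : NLine N} {A : GAct n N} {ΛL : GLin A L} {ΛP : GLin A P}

/-- The cocycle of a linearisation does not vanish. -/
theorem x3_lam_ne {B : NLine N} (Λ : GLin A B) {g : Gp n} {i j : B.ι} {x : X}
    (hj : x ∈ B.U j) (hi : A.act g x ∈ B.U i) : Λ.lam i j g x ≠ 0 := by
  intro h0
  have h1 : A.act (g⁻¹ * g) x ∈ B.U j := by
    rw [inv_mul_cancel, A.one]
    exact hj
  have h2 := Λ.mul j i j g⁻¹ g x hj hi h1
  rw [h0, mul_zero, inv_mul_cancel, Λ.one j j x hj hj, B.one j x hj] at h2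
  exact zero_ne_one h2

namespace SysOf

variable {S : GSys n X} (r : SysOf ΛL ΛP S)

/-- The vector of the values of the sections. -/
def vec (r : SysOf ΛL ΛP S) (a b : ℕ) (i : L.ι) (j : P.ι) (y : X) : (S.D a b).ι → ℂ :=
  fun α => (r.sec a b α).f i j y

/-- The logarithm of the norm of the vector of the values of the sections. -/
noncomputable def hh (r : SysOf ΛL ΛP S) (a b : ℕ) (i : L.ι) (j : P.ι) (y : X) : ℝ :=
  Real.log (ns (r.vec a b i j y)) / 2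

theorem vec_val (a b : ℕ) {i : L.ι} {j : P.ι} {y : X} (hi : y ∈ L.U i) (hj : y ∈ P.U j) :
    ∃ z : ℂ, z ≠ 0 ∧ r.vec a b i j y = z • (S.D a b).v y := by
  obtain ⟨z, hz, h⟩ := r.val a b y i j hi hj
  exact ⟨z, hz, funext h⟩

theorem ns_vec_pos (a b : ℕ) {i : L.ι} {j : P.ι} {y : X} (hi : y ∈ L.U i) (hj : y ∈ P.U j) :
    0 < ns (r.vec a b i j y) := by
  obtain ⟨z, hz, h⟩ := r.vec_val a b hi hj
  refine lt_of_le_of_ne (ns_nonneg _) fun h0 => ?_
  have h1 := ns_eq_zero.1 h0.symm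
  rw [h, smul_eq_zero] at h1
  exact h1.elim hz ((S.D a b).ne y)

theorem log_aux {z : ℂ} (hz : z ≠ 0) {w : ℂ} (hw : w ≠ 0) {x : ℝ} (hx : 0 < x) (p q : ℕ) :
    Real.log (‖z ^ p * w ^ q‖ ^ 2 * x) / 2 =
      Real.log x / 2 + p * Real.log ‖z‖ + q * Real.log ‖w‖ := by
  have hz' : ‖z‖ ≠ 0 := norm_ne_zero_iff.2 hz
  have hw' : ‖w‖ ≠ 0 := norm_ne_zero_iff.2 hw
  rw [norm_mul, norm_pow, norm_pow, Real.log_mul (pow_ne_zero _ (mul_ne_zero (pow_ne_zero _ hz')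
    (pow_ne_zero _ hw'))) hx.ne', Real.log_pow, Real.log_mul (pow_ne_zero _ hz')
    (pow_ne_zero _ hw'), Real.log_pow, Real.log_pow]
  push_cast
  ring

theorem hh_trans (a b : ℕ) {i i' : L.ι} {j j' : P.ι} {y : X} (hi : y ∈ L.U i) (hj : y ∈ P.U j)
    (hi' : y ∈ L.U i') (hj' : y ∈ P.U j') : r.hh a b i j y = r.hh a b i' j' y +
      (S.c a b * a : ℕ) * Real.log ‖L.g i i' y‖ +
      (S.c a b * (b + 1) : ℕ) * Real.log ‖P.g j j' y‖ := by
  have h1 : r.vec a b i j y = (L.g i i' y ^ (S.c a b * a) * P.g j j' y ^ (S.c a b * (b + 1))) •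
      r.vec a b i' j' y :=
    funext fun α => (r.sec a b α).trans i j i' j' y (mem_univ _) hi hj hi' hj'
  rw [hh, h1, ns_smul, log_aux (L.g_ne hi hi') (P.g_ne hj hj') (r.ns_vec_pos a b hi' hj')]
  rfl

theorem hh_cont (a b : ℕ) {i : L.ι} {j : P.ι} {y : X} (hi : y ∈ L.U i) (hj : y ∈ P.U j) :
    ContinuousAt (r.hh a b i j) y := by
  have h1 : ContinuousAt (r.vec a b i j) y :=
    continuousAt_pi.2 fun α => Hol_continuousAt ((r.sec a b α).hol i j y (mem_univ _) hi hj)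
  have h2 : ContinuousAt (fun y => ns (r.vec a b i j y)) y :=
    ContinuousAt.comp (g := ns) continuous_ns.continuousAt h1
  exact (h2.log (r.ns_vec_pos a b hi hj).ne').div_const 2

theorem lg_eq (a b : ℕ) {g : Gp n} {i i' : L.ι} {j j' : P.ι} {y : X} (hi : A.act g y ∈ L.U i)
    (hj : A.act g y ∈ P.U j) (hi' : y ∈ L.U i') (hj' : y ∈ P.U j') :
    (S.D a b).lg g y = r.hh a b i j (A.act g y) - r.hh a b i' j' y -
      (S.c a b * a : ℕ) * Real.log ‖ΛL.lam i i' g y‖ -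
      (S.c a b * (b + 1) : ℕ) * Real.log ‖ΛP.lam j j' g y‖ := by
  obtain ⟨z, hz, h⟩ := r.vec_val a b hi' hj'
  have h1 : r.vec a b i j (A.act g y) = (ΛL.lam i i' g y ^ (S.c a b * a) *
      ΛP.lam j j' g y ^ (S.c a b * (b + 1))) • (S.D a b).R.act g (r.vec a b i' j' y) :=
    funext fun α => r.eqv a b g y i j i' j' hi hj hi' hj' α
  have hv : 0 < ns ((S.D a b).v y) := by
    refine lt_of_le_of_ne (ns_nonneg _) fun h0 => ?_
    exact (S.D a b).ne y (ns_eq_zero.1 h0.symm)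
  have hgv : 0 < ns ((S.D a b).R.act g ((S.D a b).v y)) := by
    refine lt_of_le_of_ne (ns_nonneg _) fun h0 => ?_
    have h2 := ns_eq_zero.1 h0.symm
    obtain ⟨w, hw, h3⟩ := (S.D a b).eqv g y
    rw [h3, smul_eq_zero] at h2
    exact h2.elim hw ((S.D a b).ne _)
  have hgz : 0 < ns ((S.D a b).R.act g (r.vec a b i' j' y)) := by
    rw [h, Rep.act_smul, ns_smul]
    have := norm_pos_iff.2 hz
    positivity
  have e1 : r.hh a b i j (A.act g y) = Real.log (ns ((S.D a b).R.act g (r.vec a b i' j' y))) / 2 +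
      (S.c a b * a : ℕ) * Real.log ‖ΛL.lam i i' g y‖ +
      (S.c a b * (b + 1) : ℕ) * Real.log ‖ΛP.lam j j' g y‖ := by
    rw [hh, h1, ns_smul, log_aux (x3_lam_ne ΛL hi' hi) (x3_lam_ne ΛP hj' hj) hgz]
  have hzn : ‖z‖ ≠ 0 := norm_ne_zero_iff.2 hz
  rw [e1, hh, h, Rep.act_smul, ns_smul, ns_smul, Real.log_mul (pow_ne_zero _ hzn) hgv.ne',
    Real.log_mul (pow_ne_zero _ hzn) hv.ne', PDat.lg]
  ring

/-- X3: metrics of `L` and `P` with the growth `fL`, `fP`. -/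
theorem metric (r : SysOf ΛL ΛP S) :
    ∃ (mL : L.ι → X → ℝ) (mP : P.ι → X → ℝ),
      (∀ i y, y ∈ L.U i → 0 < mL i y ∧ ContinuousAt (mL i) y) ∧
      (∀ i y, y ∈ P.U i → 0 < mP i y ∧ ContinuousAt (mP i) y) ∧
      (∀ i i' y, y ∈ L.U i → y ∈ L.U i' → mL i y = ‖L.g i i' y‖ * mL i' y) ∧
      (∀ i i' y, y ∈ P.U i → y ∈ P.U i' → mP i y = ‖P.g i i' y‖ * mP i' y) ∧
      (∀ g i i' y, A.act g y ∈ L.U i → y ∈ L.U i' → S.fL g y =
        Real.log (mL i (A.act g y)) - Real.log (mL i' y) - Real.log ‖ΛL.lam i i' g y‖) ∧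
      (∀ g i i' y, A.act g y ∈ P.U i → y ∈ P.U i' → S.fP g y =
        Real.log (mP i (A.act g y)) - Real.log (mP i' y) - Real.log ‖ΛP.lam i i' g y‖) := by
  choose iL hiL using L.cover
  choose jP hjP using P.cover
  have hc0 : (S.c 0 0 : ℝ) ≠ 0 := by
    have := S.c_pos 0 0
    positivity
  have hc1 : (S.c 1 0 : ℝ) ≠ 0 := by
    have := S.c_pos 1 0
    positivity
  -- the logarithms of the metrics
  have kP : ∀ i j i' j' y, y ∈ L.U i → y ∈ P.U j → y ∈ L.U i' → y ∈ P.U j' →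
      r.hh 0 0 i j y / S.c 0 0 = r.hh 0 0 i' j' y / S.c 0 0 + Real.log ‖P.g j j' y‖ := by
    intro i j i' j' y h1 h2 h3 h4
    rw [r.hh_trans 0 0 h1 h2 h3 h4]
    push_cast
    field_simp
    ring
  have kL : ∀ i j i' j' y, y ∈ L.U i → y ∈ P.U j → y ∈ L.U i' → y ∈ P.U j' →
      r.hh 1 0 i j y / S.c 1 0 - r.hh 0 0 i j y / S.c 0 0 =
        r.hh 1 0 i' j' y / S.c 1 0 - r.hh 0 0 i' j' y / S.c 0 0 + Real.log ‖L.g i i' y‖ := by
    intro i j i' j' y h1 h2 h3 h4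
    rw [kP i j i' j' y h1 h2 h3 h4, r.hh_trans 1 0 h1 h2 h3 h4]
    push_cast
    field_simp
    ring
  have fP : ∀ g i j i' j' y, A.act g y ∈ L.U i → A.act g y ∈ P.U j → y ∈ L.U i' → y ∈ P.U j' →
      S.fP g y = r.hh 0 0 i j (A.act g y) / S.c 0 0 - r.hh 0 0 i' j' y / S.c 0 0 -
        Real.log ‖ΛP.lam j j' g y‖ := by
    intro g i j i' j' y h1 h2 h3 h4
    rw [GSys.fP, r.lg_eq 0 0 h1 h2 h3 h4]
    push_cast
    field_simp
    ring
  have fL : ∀ g i j i' j' y, A.act g y ∈ L.U i → A.act g y ∈ P.U j → y ∈ L.U i' → y ∈ P.U j' →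
      S.fL g y = (r.hh 1 0 i j (A.act g y) / S.c 1 0 - r.hh 0 0 i j (A.act g y) / S.c 0 0) -
        (r.hh 1 0 i' j' y / S.c 1 0 - r.hh 0 0 i' j' y / S.c 0 0) -
        Real.log ‖ΛL.lam i i' g y‖ := by
    intro g i j i' j' y h1 h2 h3 h4
    rw [GSys.fL, fP g i j i' j' y h1 h2 h3 h4, r.lg_eq 1 0 h1 h2 h3 h4]
    push_cast
    field_simp
    ring
  refine ⟨fun i y => Real.exp (r.hh 1 0 i (jP y) y / S.c 1 0 - r.hh 0 0 i (jP y) y / S.c 0 0),
    fun j y => Real.exp (r.hh 0 0 (iL y) j y / S.c 0 0), ?_, ?_, ?_, ?_, ?_, ?_⟩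
  · intro i y hi
    refine ⟨Real.exp_pos _, ?_⟩
    have h1 : ContinuousAt (fun z => Real.exp (r.hh 1 0 i (jP y) z / S.c 1 0 -
        r.hh 0 0 i (jP y) z / S.c 0 0)) y :=
      (((r.hh_cont 1 0 hi (hjP y)).div_const _).sub ((r.hh_cont 0 0 hi (hjP y)).div_const _)).rexp
    refine h1.congr ?_
    filter_upwards [(L.isOpen i).mem_nhds hi, (P.isOpen (jP y)).mem_nhds (hjP y)] with z h2 h3
    rw [kL i (jP y) i (jP z) z h2 h3 h2 (hjP z), L.one i z h2]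
    simp
  · intro j y hj
    refine ⟨Real.exp_pos _, ?_⟩
    have h1 : ContinuousAt (fun z => Real.exp (r.hh 0 0 (iL y) j z / S.c 0 0)) y :=
      ((r.hh_cont 0 0 (hiL y) hj).div_const _).rexp
    refine h1.congr ?_
    filter_upwards [(P.isOpen j).mem_nhds hj, (L.isOpen (iL y)).mem_nhds (hiL y)] with z h2 h3
    rw [kP (iL y) j (iL z) j z h3 h2 (hiL z) h2, P.one j z h2]
    simp
  · intro i i' y hi hi'
    have h1 : 0 < ‖L.g i i' y‖ := norm_pos_iff.2 (L.g_ne hi hi')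
    beta_reduce
    rw [kL i (jP y) i' (jP y) y hi (hjP y) hi' (hjP y), Real.exp_add, Real.exp_log h1, mul_comm]
  · intro j j' y hj hj'
    have h1 : 0 < ‖P.g j j' y‖ := norm_pos_iff.2 (P.g_ne hj hj')
    beta_reduce
    rw [kP (iL y) j (iL y) j' y (hiL y) hj (hiL y) hj', Real.exp_add, Real.exp_log h1, mul_comm]
  · intro g i i' y hi hi'
    rw [Real.log_exp, Real.log_exp]
    exact fL g i _ i' _ y hi (hjP _) hi' (hjP y)
  · intro g j j' y hj hj'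
    rw [Real.log_exp, Real.log_exp]
    exact fP g _ j _ j' y (hiL _) hj (hiL y) hj'

end SysOf

end Pool.Agent.SG
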