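import Pool.Agent.H.MP_795b03_ag.RExt

/-! A function `S` such that all `S ^ l * G` extend holomorphically is locally bounded. -/

set_option autoImplicit false

open Topology Filter Set Complex Metric

namespace Pool.Agent.SG

variable {E : Type} [NormedAddCommGroup E] [NormedSpace ℂ E]

/-- If all the functions `S ^ l * G` extend to holomorphic functions `T l` then `S` is locally
bounded. -/
theorem x6_local {G D S : E → ℂ} {T : ℕ → E → ℂ} {O : Set E} {p : E} (hO : O ∈ 𝓝 p)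
    (hG : ∀ q ∈ O, ContinuousAt G q) (hD : ∀ q ∈ O, DifferentiableAt ℂ D q)
    (hDG : ∀ q ∈ O, D q ≠ 0 → G q ≠ 0) (hne : ¬ ∀ᶠ q in 𝓝 p, D q = 0)
    (hS : ∀ q ∈ O, D q ≠ 0 → ContinuousAt S q)
    (hT : ∀ l, ∀ q ∈ O, DifferentiableAt ℂ (T l) q)
    (hTS : ∀ l, ∀ q ∈ O, D q ≠ 0 → T l q = S q ^ l * G q) :
    ∃ W ∈ 𝓝 p, ∃ C : ℝ, ∀ q ∈ W, D q ≠ 0 → ‖S q‖ ≤ C := by
  obtain ⟨ρ, hρ, hb⟩ := Metric.mem_nhds_iff.1 hO
  have hDp : Moi.HolAt D p := by
    filter_upwards [hO] with q hq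
    exact hD q hq
  obtain ⟨e, he, -, -, hen⟩ := Moi.exists_dir hDp hne (ε := ρ / 4) (by positivity)
  -- the radius
  have hline : Moi.HolAt (fun s : ℂ => D (p + s • e)) 0 := by
    refine Moi.HolAt.comp (f := fun s : ℂ => p + s • e) ?_ (Eventually.of_forall fun s => by fun_prop)
    simpa using hDp
  have h1 : ∀ᶠ s in 𝓝 (0 : ℂ), s ≠ 0 → D (p + s • e) ≠ 0 :=
    eventually_nhdsWithin_iff.1 (Moi.one_var_dich hline hen)
  obtain ⟨r0, hr0, hr0b⟩ := Metric.mem_nhds_iff.1 h1
  obtain ⟨r, hr, hr1, hrr⟩ : ∃ r : ℝ, 0 < r ∧ r < 1 ∧ r < r0 :=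
    ⟨min 1 r0 / 2, by positivity, by
      have := min_le_left (1 : ℝ) r0
      linarith, by
      have := min_le_right (1 : ℝ) r0
      linarith⟩
  have hcirc : ∀ s ∈ sphere (0 : ℂ) r, D (p + s • e) ≠ 0 := by
    intro s hs
    rw [mem_sphere_zero_iff_norm] at hs
    refine hr0b (by rw [mem_ball_zero_iff]; linarith) ?_
    rw [← norm_pos_iff]
    linarith
  have hin : ∀ q ∈ ball p (ρ / 4), ∀ s : ℂ, ‖s‖ < 2 → q + s • e ∈ O := by
    intro q hq s hs
    refine hb ?_
    rw [mem_ball, dist_eq_norm] at hq ⊢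
    calc ‖q + s • e - p‖ = ‖(q - p) + s • e‖ := by congr 1; abel
      _ ≤ ‖q - p‖ + ‖s • e‖ := norm_add_le _ _
      _ = ‖q - p‖ + ‖s‖ * ‖e‖ := by rw [norm_smul]
      _ < ρ := by nlinarith [norm_nonneg e, norm_nonneg s]
  have hpin : ∀ s ∈ sphere (0 : ℂ) r, p + s • e ∈ O := by
    intro s hs
    rw [mem_sphere_zero_iff_norm] at hs
    exact hin p (mem_ball_self (by positivity)) s (by linarith)
  -- bounds on the circle
  have hbound : ∀ F : E → ℂ, (∀ s ∈ sphere (0 : ℂ) r, ContinuousAt F (p + s • e)) →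
      ∃ M : ℝ, 0 < M ∧ ∀ᶠ q in 𝓝 p, ∀ s ∈ sphere (0 : ℂ) r, ‖F (q + s • e)‖ ≤ M := by
    intro F hF
    have hc : ContinuousOn (fun s : ℂ => F (p + s • e)) (sphere (0 : ℂ) r) := by
      intro s hs
      refine ContinuousAt.continuousWithinAt ?_
      exact ContinuousAt.comp (f := fun s : ℂ => p + s • e) (g := F) (hF s hs) (by fun_prop)
    obtain ⟨M, hM⟩ := (isCompact_sphere (0 : ℂ) r).exists_bound_of_continuousOn hc
    refine ⟨|M| + 1, by positivity, ?_⟩
    refine (isCompact_sphere (0 : ℂ) r).eventually_forall_of_forall_eventually fun s hs => ?_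
    have h3 : ContinuousAt (fun z : E × ℂ => F (z.1 + z.2 • e)) (p, s) := by
      refine ContinuousAt.comp (f := fun z : E × ℂ => z.1 + z.2 • e) (g := F) (hF s hs) ?_
      fun_prop
    have h4 : ‖F (p + s • e)‖ < |M| + 1 := by
      have := hM s hs
      have := le_abs_self M
      linarith
    filter_upwards [h3.norm.eventually_lt_const h4] with z hz
    exact hz.le
  have h2 : ∀ᶠ q in 𝓝 p, ∀ s ∈ sphere (0 : ℂ) r, D (q + s • e) ≠ 0 := by
    refine (isCompact_sphere (0 : ℂ) r).eventually_forall_of_forall_eventually fun s hs => ?_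
    have h3 : ContinuousAt (fun z : E × ℂ => D (z.1 + z.2 • e)) (p, s) := by
      refine ContinuousAt.comp (f := fun z : E × ℂ => z.1 + z.2 • e) (g := D) ?_ ?_
      · exact (hD _ (hpin s hs)).continuousAt
      · fun_prop
    exact h3.eventually_ne (hcirc s hs)
  obtain ⟨M, hM0, hM⟩ := hbound S fun s hs => hS _ (hpin s hs) (hcirc s hs)
  obtain ⟨M', hM'0, hM'⟩ := hbound G fun s hs => hG _ (hpin s hs)
  refine ⟨_, inter_mem (inter_mem h2 (inter_mem hM hM')) (ball_mem_nhds p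
    (show 0 < ρ / 4 by positivity)), M, ?_⟩
  rintro q ⟨⟨hq2, hqM, hqM'⟩, hqb⟩ hDq
  have hqO : q ∈ O := by
    have := hin q hqb 0 (by simp)
    simpa using this
  have hGq : 0 < ‖G q‖ := norm_pos_iff.2 (hDG q hqO hDq)
  have key : ∀ l : ℕ, ‖S q‖ ^ l * ‖G q‖ ≤ M ^ l * M' := by
    intro l
    have hd : DiffContOnCl ℂ (fun s : ℂ => T l (q + s • e)) (ball (0 : ℂ) r) := by
      refine DifferentiableOn.diffContOnCl ?_
      rw [closure_ball _ hr.ne']
      intro s hs
      rw [mem_closedBall_zero_iff] at hs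
      have h5 : DifferentiableAt ℂ (fun s : ℂ => q + s • e) s := by fun_prop
      exact (DifferentiableAt.comp (f := fun s : ℂ => q + s • e) s
        (hT l _ (hin q hqb s (by linarith))) h5).differentiableWithinAt
    have h6 := Complex.norm_le_of_forall_mem_frontier_norm_le isBounded_ball hd
      (C := M ^ l * M') (fun s hs => by
        rw [frontier_ball _ hr.ne'] at hs
        have hs' : ‖s‖ < 2 := by
          rw [mem_sphere_zero_iff_norm] at hs
          linarith
        rw [hTS l _ (hin q hqb s hs') (hq2 s hs), norm_mul, norm_pow]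
        exact mul_le_mul (pow_le_pow_left₀ (norm_nonneg _) (hqM s hs) l) (hqM' s hs)
          (norm_nonneg _) (by positivity)) (subset_closure (mem_ball_self hr))
    simp only [zero_smul, add_zero] at h6
    rw [hTS l q hqO hDq, norm_mul, norm_pow] at h6
    exact h6
  by_contra hcon
  push Not at hcon
  obtain ⟨l, hl⟩ := pow_unbounded_of_one_lt (M' / ‖G q‖) ((one_lt_div hM0).2 hcon)
  rw [div_pow, div_lt_div_iff₀ hGq (by positivity)] at hl
  have := key l
  nlinarith

end Pool.Agent.SG
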