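import Pool.Agent.H.MP_e23cd6_ag.SG.X5
import Pool.Agent.H.MP_e23cd6_ag.SG.X6L

/-! Extension of a section `s` such that all `s ^ l σ` extend. -/

set_option autoImplicit false

open scoped Manifold ContDiff Topology ENNReal
open MeasureTheory Set Filter

namespace Pool.Agent.SG

open Pool.Agent.Abd Pool.Agent.Abn

variable {E : Type} [NormedAddCommGroup E] [NormedSpace ℂ E] {n : ℕ}
  {X₀ X : Type} [TopologicalSpace X₀] [ChartedSpace E X₀] [IsManifold 𝓘(ℂ, E) ω X₀]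
  [TopologicalSpace X] [ConnectedSpace X]
  {N : NSp E X₀ X} {L P : NLine N} {A : GAct n N} {ΛL : GLin A L} {ΛP : GLin A P}

omit [ConnectedSpace X] in
/-- A holomorphic function on the regular part is differentiable in the charts. -/
theorem x6_diff {V : Set X} {K J : ℕ} (s : NSec L P K J V) {i : L.ι} {j : P.ι} (y₀ : X₀) {q : E}
    (hq : q ∈ (chartAt E y₀).target) (hV : N.inc ((chartAt E y₀).symm q) ∈ V)
    (h1 : N.inc ((chartAt E y₀).symm q) ∈ L.U i) (h2 : N.inc ((chartAt E y₀).symm q) ∈ P.U j) :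
    DifferentiableAt ℂ (fun q => s.f i j (N.inc ((chartAt E y₀).symm q))) q := by
  have h := extr_diff (IsManifold.chart_mem_maximalAtlas y₀)
    ((chartAt E y₀).map_target hq) (Hol_reg (s.hol i j _ hV h1 h2))
  rw [(chartAt E y₀).right_inv hq] at h
  exact h

/-- X6: if all `s ^ l σ` extend, so does `s`. -/
theorem extend_of_pow [FiniteDimensional ℂ E] {V : Set X} (hV : IsOpen V)
    (hVB : ∀ b, IsB b → ∀ x ∈ V, A.act b x ∈ V)
    {K' J' : ℕ} (v : NSec L P K' J' univ) {x₀ : X} (hv : v.NZ x₀) (hVv : ∀ x, v.NZ x → x ∈ V)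
    {K J K₁ J₁ : ℕ} {χ : Fin n → ℤ} (s : NSec L P K J V) (hs : BWt ΛL ΛP χ s)
    (σ : NSec L P K₁ J₁ univ) (hσ : ∃ x, σ.NZ x)
    (h : ∀ l : ℕ, ∃ t : NSec L P (l * K + K₁) (l * J + J₁) univ, ∀ i j x, x ∈ V → x ∈ L.U i →
      x ∈ P.U j → t.f i j x = s.f i j x ^ l * σ.f i j x) :
    ∃ t : NSec L P K J univ, BWt ΛL ΛP χ t ∧
      ∀ i j x, x ∈ V → x ∈ L.U i → x ∈ P.U j → t.f i j x = s.f i j x := by
  refine extend_reg hV hVB v hv hVv s hs ?_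
  choose t ht using h
  obtain ⟨x₁, hx₁⟩ := hσ
  -- the product of `σ` and `v` does not vanish identically
  obtain ⟨x₂, hx₂, hx₂'⟩ := exists_nz isOpen_univ isConnected_univ σ (mem_univ x₁) hx₁
    (nnz_isOpen isOpen_univ v) (subset_univ _) ⟨x₀, mem_univ _, hv⟩
  have hD0 : (σ.mul v).NZ x₂ := (NSec.nz_mul σ v (mem_univ _)).2 ⟨hx₂', hx₂.2⟩
  have hden : ∀ W : Set X₀, IsOpen W → W.Nonempty → ∃ y ∈ W, (σ.mul v).NZ (N.inc y) := by
    intro W hW hWn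
    obtain ⟨x, hx, hx'⟩ := exists_nz isOpen_univ isConnected_univ (σ.mul v) (mem_univ x₂) hD0
      (N.emb.isOpenMap W hW) (subset_univ _) (hWn.image _)
    obtain ⟨y, hy, rfl⟩ := hx
    exact ⟨y, hy, hx'⟩
  intro y₀ i j hi hj
  -- the chart
  set φ := chartAt E y₀ with hφ
  have hU : IsOpen (N.inc ⁻¹' (L.U i ∩ P.U j)) :=
    ((L.isOpen i).inter (P.isOpen j)).preimage N.emb.continuous
  set O : Set E := φ.target ∩ φ.symm ⁻¹' (N.inc ⁻¹' (L.U i ∩ P.U j)) with hOdef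
  have hOo : IsOpen O := φ.isOpen_inter_preimage_symm hU
  have hy₀ : y₀ ∈ φ.source := mem_chart_source E y₀
  have hpO : φ y₀ ∈ O := by
    refine ⟨φ.map_source hy₀, ?_⟩
    show φ.symm (φ y₀) ∈ N.inc ⁻¹' (L.U i ∩ P.U j)
    rw [φ.left_inv hy₀]
    exact ⟨hi, hj⟩
  have hmemO : ∀ y ∈ φ.source, N.inc y ∈ L.U i → N.inc y ∈ P.U j → φ y ∈ O := by
    intro y hy h1 h2
    refine ⟨φ.map_source hy, ?_⟩
    show φ.symm (φ y) ∈ N.inc ⁻¹' (L.U i ∩ P.U j)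
    rw [φ.left_inv hy]
    exact ⟨h1, h2⟩
  have hDnz : ∀ q ∈ O, σ.f i j (N.inc (φ.symm q)) * v.f i j (N.inc (φ.symm q)) ≠ 0 ↔
      (σ.mul v).NZ (N.inc (φ.symm q)) := fun q hq =>
    ((σ.mul v).nz_iff (mem_univ _) ⟨hq.2.1, hq.2.2⟩).symm
  have hDV : ∀ q ∈ O, σ.f i j (N.inc (φ.symm q)) * v.f i j (N.inc (φ.symm q)) ≠ 0 →
      N.inc (φ.symm q) ∈ V := fun q hq h0 =>
    hVv _ ((v.nz_iff (mem_univ _) ⟨hq.2.1, hq.2.2⟩).2 (right_ne_zero_of_mul h0))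
  obtain ⟨W, hW, C, hC⟩ := x6_local (O := O) (p := φ y₀)
    (G := fun q => σ.f i j (N.inc (φ.symm q)))
    (D := fun q => σ.f i j (N.inc (φ.symm q)) * v.f i j (N.inc (φ.symm q)))
    (S := fun q => s.f i j (N.inc (φ.symm q)))
    (T := fun l q => (t l).f i j (N.inc (φ.symm q)))
    (hOo.mem_nhds hpO)
    (fun q hq => (x6_diff σ y₀ hq.1 (mem_univ _) hq.2.1 hq.2.2).continuousAt)
    (fun q hq => (x6_diff σ y₀ hq.1 (mem_univ _) hq.2.1 hq.2.2).mul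
      (x6_diff v y₀ hq.1 (mem_univ _) hq.2.1 hq.2.2))
    (fun q _ h0 => left_ne_zero_of_mul h0)
    (by
      intro hev
      rw [Filter.eventually_iff_exists_mem] at hev
      obtain ⟨W, hW, hW0⟩ := hev
      obtain ⟨W', hW'W, hW'o, hpW'⟩ := mem_nhds_iff.1 (inter_mem hW (hOo.mem_nhds hpO))
      have hop : IsOpen (φ.source ∩ φ ⁻¹' W') := φ.isOpen_inter_preimage hW'o
      obtain ⟨y, hy, hy'⟩ := hden _ hop ⟨y₀, hy₀, hpW'⟩
      have h5 := hW'W hy.2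
      have h6 := hW0 _ h5.1
      have h7 := (hDnz _ h5.2).2 (by rw [φ.left_inv hy.1]; exact hy')
      exact h7 h6)
    (fun q hq h0 => (x6_diff s y₀ hq.1 (hDV q hq h0) hq.2.1 hq.2.2).continuousAt)
    (fun l q hq => x6_diff (t l) y₀ hq.1 (mem_univ _) hq.2.1 hq.2.2)
    (fun l q hq h0 => ht l i j _ (hDV q hq h0) hq.2.1 hq.2.2)
  obtain ⟨W', hW'W, hW'o, hpW'⟩ := mem_nhds_iff.1 (inter_mem hW (hOo.mem_nhds hpO))
  have hop : IsOpen (φ.source ∩ φ ⁻¹' W') := φ.isOpen_inter_preimage hW'o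
  refine ⟨φ.source ∩ φ ⁻¹' W', hop.mem_nhds ⟨hy₀, hpW'⟩, C, ?_⟩
  intro z hz hzV
  by_contra hcon
  push Not at hcon
  have hzO := (hW'W hz.2).2
  have hzU : N.inc z ∈ L.U i ∩ P.U j := by
    have : N.inc (φ.symm (φ z)) ∈ L.U i ∩ P.U j := hzO.2
    rwa [φ.left_inv hz.1] at this
  have hcont : ContinuousAt (fun z => ‖s.f i j (N.inc z)‖) z :=
    (Hol_reg (s.hol i j _ hzV hzU.1 hzU.2)).continuousAt.norm
  have hev : ∀ᶠ z' in 𝓝 z, C < ‖s.f i j (N.inc z')‖ ∧ z' ∈ φ.source ∩ φ ⁻¹' W' :=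
    (hcont.eventually_const_lt hcon).and (hop.mem_nhds hz)
  obtain ⟨Z, hZ, hZo, hzZ⟩ := mem_nhds_iff.1 hev
  obtain ⟨z', hz', hz'n⟩ := hden Z hZo ⟨z, hzZ⟩
  have h8 := hZ hz'
  have h9 := hW'W h8.2.2
  have h10 := hC (φ z') h9.1 ((hDnz _ h9.2).2 (by rw [φ.left_inv h8.2.1]; exact hz'n))
  rw [φ.left_inv h8.2.1] at h10
  exact absurd h8.1 (not_lt.2 h10)

end Pool.Agent.SG
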