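import Pool.Agent.H.MP_e23cd6_ag.SG.X7P
import Pool.Agent.H.MP_e23cd6_ag.SG.X2
import Pool.Agent.H.MP_e23cd6_ag.SG.X5

/-! X7: the points which are not fixed by any one-parameter subgroup of `B` are dense. -/

set_option autoImplicit false

open Matrix MeasureTheory Topology Set Filter
open scoped Manifold ContDiff ENNReal

namespace Pool.Agent.SG

open Pool.Agent.Abd Pool.Agent.Abn

variable {n : ℕ} {E : Type} [NormedAddCommGroup E] [NormedSpace ℂ E]
  {X₀ X : Type} [TopologicalSpace X₀] [ChartedSpace E X₀] [IsManifold 𝓘(ℂ, E) ω X₀]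
  [TopologicalSpace X] [ConnectedSpace X]
  {N : NSp E X₀ X} {L P : NLine N} {A : GAct n N} {ΛL : GLin A L} {ΛP : GLin A P}

/-- The points with a generic vector are not fixed by any one-parameter subgroup of `B`. -/
theorem noFix_of_gen {X : Type} [TopologicalSpace X] (S : GSys n X) (a b : ℕ)
    {D : (Fin n → Fin n → ℂ) →L[ℂ] ((S.D a b).ι → (S.D a b).ι → ℂ)}
    (hD : ∀ φ : ℂ → Gp n, HolCurve φ → (∀ z, IsB (φ z)) → φ 0 = 1 → ∀ α β,
      HasDerivAt (fun z => (S.D a b).R.ρ (φ z) α β)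
        (D (fun i j => deriv (fun z => en (φ z) i j) 0) α β) 0)
    {y : X} (hy : Rep.Gen D ((S.D a b).v y)) : NoFix S.act y := by
  intro φ hadd hφ hB hfix
  have h0 : φ 0 = 1 := by
    have h1 := hadd 0 0
    rw [add_zero] at h1
    exact (mul_eq_left.1 h1.symm)
  have h1 : ∃ c : ℂ, ∀ α, ∑ β, D (fun i j => deriv (fun z => en (φ z) i j) 0) α β *
      (S.D a b).v y β = c * (S.D a b).v y α := by
    refine (S.D a b).R.eigen_of_act (φ := φ) (hD φ hφ hB h0) ((S.D a b).ne y) fun z => ?_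
    obtain ⟨w, -, hw⟩ := (S.D a b).eqv (φ z) y
    rw [hfix z] at hw
    exact ⟨w, hw⟩
  obtain ⟨c, hc⟩ := h1
  have h2 := hy _ (deriv_mem_bb hφ hB h0) c hc
  exact fun z => curve_const hadd hφ h0 (fun i j => congrFun (congrFun h2 i) j) z

/-- The vector of a point with a finite stabiliser in `B` is generic. -/
theorem gen_of_finite {X : Type} [TopologicalSpace X] (S : GSys n X) (a b : ℕ)
    {D : (Fin n → Fin n → ℂ) →L[ℂ] ((S.D a b).ι → (S.D a b).ι → ℂ)}
    (hD : ∀ φ : ℂ → Gp n, HolCurve φ → (∀ z, IsB (φ z)) → φ 0 = 1 → ∀ α β,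
      HasDerivAt (fun z => (S.D a b).R.ρ (φ z) α β)
        (D (fun i j => deriv (fun z => en (φ z) i j) 0) α β) 0)
    {y : X} (hy : {g : Gp n | IsB g ∧ S.act g y = y}.Finite) : Rep.Gen D ((S.D a b).v y) := by
  intro ξ hξ c hc
  obtain ⟨φ, hadd, hφ, hB, h0, hd⟩ := exists_exp hξ
  have hξ' : (fun i j => deriv (fun z => en (φ z) i j) 0) = ξ := by
    funext i j
    exact hd i j
  have hD' := hD φ hφ hB h0
  rw [hξ'] at hD'
  have hfix : ∀ z, S.act (φ z) y = y := by
    intro z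
    have h1 := (S.D a b).R.act_of_eigen hadd h0 hD' hc z
    obtain ⟨w, hw0, hw⟩ := (S.D a b).eqv (φ z) y
    symm
    refine S.sep a b _ _ ⟨w⁻¹ * Complex.exp (c * z), ?_⟩
    rw [← smul_smul, ← h1, hw, smul_smul, inv_mul_cancel₀ hw0, one_smul]
  -- `φ` is constant
  have hc : ∀ i j z, en (φ z) i j = en (φ 0) i j := by
    intro i j z
    by_contra hne
    have h1 : Continuous fun z => en (φ z) i j := (hφ i j).continuous
    have h2 : (Set.range fun z => en (φ z) i j).Infinite :=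
      (isPreconnected_range h1).infinite_of_nontrivial
        ⟨_, ⟨z, rfl⟩, _, ⟨0, rfl⟩, hne⟩
    refine h2 ((hy.image fun g => en g i j).subset ?_)
    rintro _ ⟨w, rfl⟩
    exact ⟨φ w, ⟨hB w, hfix w⟩, rfl⟩
  rw [← hξ']
  funext i j
  have h1 : (fun z => en (φ z) i j) = fun _ => en (φ 0) i j := funext fun z => hc i j z
  show deriv (fun z => en (φ z) i j) 0 = 0
  rw [h1, deriv_const]

/-- X7 (7.5): the points not fixed by any one-parameter subgroup of `B` are dense. -/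
theorem dense_noFix {S : GSys n X} (r : SysOf ΛL ΛP S)
    (hA : ∃ y : X₀, {b : Gp n | IsB b ∧ A.reg b y = y}.Finite) :
    Dense {y : X | NoFix A.act y} := by
  obtain ⟨y₀, hy₀⟩ := hA
  obtain ⟨D, hD⟩ := (S.D 0 0).R.exists_D
  have h0 : {g : Gp n | IsB g ∧ S.act g (N.inc y₀) = N.inc y₀}.Finite := by
    refine hy₀.subset ?_
    rintro g ⟨hg, hgy⟩
    refine ⟨hg, ?_⟩
    rw [r.act, A.inc] at hgy
    exact N.emb.injective hgy
  have hgen := gen_of_finite S 0 0 hD h0
  obtain ⟨d, p, hp, hp0, hpg⟩ := exists_genPoly D ((S.D 0 0).ne _) hgen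
  refine dense_of_nz (r.poly hp) ((r.poly_nz hp _).2 hp0) fun y hy => ?_
  have h1 := noFix_of_gen S 0 0 hD (hpg _ ((r.poly_nz hp y).1 hy))
  rw [r.act] at h1
  exact h1

end Pool.Agent.SG
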