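import Pool.Agent.H.MP_e23cd6_ag.SG.IfR
import Pool.Agent.H.MP_e23cd6_ag.SG.X2
import Pool.Agent.H.MP_e23cd6_ag.SG.X3
import Pool.Agent.H.MP_e23cd6_ag.SG.X5
import Pool.Agent.H.MP_e23cd6_ag.SG.X6
import Pool.Agent.H.MP_e23cd6_ag.SG.X7
import Pool.Agent.H.MP_e23cd6_ag.SG.X.ExSys
import Pool.Agent.H.MP_e23cd6_ag.SG.X.Span
import Pool.Agent.H.MP_e23cd6_ag.SG.S.Good
import Pool.Agent.H.MP_e23cd6_ag.SG.S.Up
import Pool.Agent.H.MP_e23cd6_ag.SG.S.Scale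
import Pool.Agent.H.MP_e23cd6_ag.SG.S.Gen
import Pool.Agent.H.MP_e23cd6_ag.SG.S.Base
import Pool.Agent.H.MP_e23cd6_ag.SG.M.Forms
import Pool.Agent.H.MP_e23cd6_ag.SG.M.M

/-! Interface of the blocks R, S, M, X of the project SEMISIMPLE. -/
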