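import Pool.Agent.H.MP_e23cd6_ag.SG.Sz
import Pool.Agent.H.MP_e23cd6_ag.SG.ExHw
import Pool.Agent.H.MP_e23cd6_ag.SG.BPb

/-! Block R of the project: everything is proved in the imports. -/
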