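import Mathlib

/-!
# A limit formula for powers of a function near its maximum, and an identity principle
-/

set_option autoImplicit false

namespace Pool.Agent.SG

open Topology Set MeasureTheory Filter

/-- An entire function which is constant on the imaginary axis is constant. -/
theorem entire_const {f : ℂ → ℂ} (hf : Differentiable ℂ f) {c : ℂ}
    (h : ∀ t : ℝ, f (t * Complex.I) = c) (z : ℂ) : f z = c := by
  have h1 : AnalyticOnNhd ℂ f univ := fun z _ => hf.analyticAt z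
  have h2 : AnalyticOnNhd ℂ (fun _ : ℂ => c) univ := analyticOnNhd_const
  have h3 : ∃ᶠ z in 𝓝[≠] (0 : ℂ), f z = c := by
    have ht : Tendsto (fun t : ℝ => (t : ℂ) * Complex.I) (𝓝[≠] 0) (𝓝[≠] 0) := by
      apply tendsto_nhdsWithin_of_tendsto_nhds_of_eventually_within
      · have hc : Continuous (fun t : ℝ => (t : ℂ) * Complex.I) := by fun_prop
        have h0 := hc.tendsto 0
        simp only [Complex.ofReal_zero, zero_mul] at h0
        exact h0.mono_left nhdsWithin_le_nhds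
      · filter_upwards [self_mem_nhdsWithin] with t ht
        simpa using ht
    exact ht.frequently (Frequently.of_forall h)
  exact congrFun (h1.eq_of_frequently_eq h2 h3) z

theorem norm_pow_sub_one_le {u : ℂ} (hu : ‖u‖ ≤ 1) (m : ℕ) : ‖u ^ m - 1‖ ≤ m * ‖u - 1‖ := by
  induction m with
  | zero => simp
  | succ m ih =>
    have e : u ^ (m + 1) - 1 = u * (u ^ m - 1) + (u - 1) := by ring
    rw [e]
    refine (norm_add_le _ _).trans ?_
    rw [norm_mul]
    have h1 : ‖u‖ * ‖u ^ m - 1‖ ≤ ‖u ^ m - 1‖ := mul_le_of_le_one_left (norm_nonneg _) hu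
    push_cast
    linarith

/-- Powers of numbers in a thin sector. -/
theorem sector {ζ : ℂ} (h0 : 0 < ζ.re) {m : ℕ} {ε : ℝ} (hε : 4 * (m : ℝ) * ε ≤ 1)
    (him : |ζ.im| ≤ ε * ζ.re) : 1 / 2 * (1 / ‖ζ‖ ^ m) ≤ (1 / ζ ^ m).re := by
  have hζ0 : ζ ≠ 0 := by
    rintro rfl
    simp at h0
  have hζ : 0 < ‖ζ‖ := norm_pos_iff.2 hζ0
  have hζc : (‖ζ‖ : ℂ) ≠ 0 := by exact_mod_cast hζ.ne'
  have hε0 : 0 ≤ ε := by
    by_contra hneg
    push Not at hneg
    have h1 : ε * ζ.re < 0 := mul_neg_of_neg_of_pos hneg h0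
    linarith [abs_nonneg ζ.im]
  obtain ⟨v, hv⟩ : ∃ v : ℂ, v = ‖ζ‖ / ζ := ⟨_, rfl⟩
  have hv1 : ‖v‖ = 1 := by
    rw [hv, norm_div, Complex.norm_real, norm_norm, div_self hζ.ne']
  have hv2 : ‖v - 1‖ ≤ 2 * ε := by
    have e : v - 1 = (‖ζ‖ - ζ) / ζ := by
      rw [hv, sub_div, div_self hζ0]
    rw [e, norm_div, div_le_iff₀ hζ]
    have h1 : ‖(‖ζ‖ : ℂ) - ζ‖ ≤ |(‖ζ‖ : ℝ) - ζ.re| + |ζ.im| := by
      refine (Complex.norm_le_abs_re_add_abs_im _).trans (le_of_eq ?_)
      simp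
    have h2 : ζ.re ≤ ‖ζ‖ := Complex.re_le_norm ζ
    have h3 : ‖ζ‖ ≤ |ζ.re| + |ζ.im| := Complex.norm_le_abs_re_add_abs_im ζ
    rw [abs_of_pos h0] at h3
    rw [abs_of_nonneg (by linarith)] at h1
    have h4 : ε * ζ.re ≤ ε * ‖ζ‖ := mul_le_mul_of_nonneg_left h2 hε0
    linarith
  have hv3 := norm_pow_sub_one_le hv1.le m
  have hm0 : (0 : ℝ) ≤ m := m.cast_nonneg
  have hv4 : ‖v ^ m - 1‖ ≤ 1 / 2 := by
    refine hv3.trans ?_
    have := mul_le_mul_of_nonneg_left hv2 hm0
    linarith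
  have hv5 : 1 / 2 ≤ (v ^ m).re := by
    have h1 := (Complex.abs_re_le_norm (v ^ m - 1)).trans hv4
    rw [Complex.sub_re, Complex.one_re] at h1
    linarith [(abs_le.1 h1).1]
  have e : 1 / ζ ^ m = ((1 / ‖ζ‖ ^ m : ℝ) : ℂ) * v ^ m := by
    rw [hv, div_pow]
    push_cast
    field_simp
  rw [e, Complex.re_ofReal_mul, mul_comm]
  exact mul_le_mul_of_nonneg_left hv5 (by positivity)

/-- The main estimate: if `φ` is tangent to the real axis at the value one and the sets where it is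
close to one are not too small, then the integrals of `φ^N` do not decay exponentially. -/
theorem lim_abs {α : Type} [MeasurableSpace α] {μ : Measure α} [IsProbabilityMeasure μ]
    {φ : α → ℂ} (hφm : Measurable φ) (hφ : ∀ k, ‖φ k‖ ≤ 1) {D : ℕ} {ε δ r₀ c C : ℝ}
    (hε : 4 * ((D + 1 : ℕ) : ℝ) * ε ≤ 1) (hε0 : 0 ≤ ε) (hδ : 0 < δ) (hr₀ : 0 < r₀) (hc : 0 < c)
    (hC : 0 ≤ C)
    (hU : ∀ k, |(φ k).im| ≤ ε * (1 - (φ k).re) ∨ δ ≤ ‖1 - φ k‖)
    {S : ℝ → Set α} (hSm : ∀ r, MeasurableSet (S r))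
    (hS : ∀ r, 0 < r → r ≤ r₀ → c * r ^ D ≤ μ.real (S r))
    (hS1 : ∀ r, 0 < r → r ≤ r₀ → ∀ k ∈ S r,
      |(φ k).im| ≤ ε * (1 - (φ k).re) ∧ ‖1 - φ k‖ ≤ C * r)
    {q : ℝ} (hq0 : 0 < q) (hq : q < 1) (N₀ : ℕ) : ∃ N ≥ N₀, q ^ N < ‖∫ k, φ k ^ N ∂μ‖ := by
  by_contra hcon
  push Not at hcon
  have hint : ∀ N : ℕ, Integrable (fun k => φ k ^ N) μ := fun N =>
    Integrable.of_bound (hφm.pow_const N).aestronglyMeasurable 1
      (Eventually.of_forall fun k => by
        rw [norm_pow]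
        exact pow_le_one₀ (norm_nonneg _) (hφ k))
  have hb1 : ∀ N : ℕ, ‖∫ k, φ k ^ N ∂μ‖ ≤ 1 := by
    intro N
    have h := norm_integral_le_of_norm_le_const (μ := μ) (f := fun k => φ k ^ N) (C := 1)
      (Eventually.of_forall fun k => by
        rw [norm_pow]
        exact pow_le_one₀ (norm_nonneg _) (hφ k))
    simpa using h
  have hb2 : ∀ N : ℕ, ‖∫ k, φ k ^ N ∂μ‖ ≤ (q ^ N₀)⁻¹ * q ^ N := by
    intro N
    have hqN : 0 < q ^ N₀ := pow_pos hq0 _
    rcases le_or_gt N₀ N with h | h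
    · refine (hcon N h).trans ?_
      have h1 : 1 ≤ (q ^ N₀)⁻¹ := (one_le_inv₀ hqN).2 (pow_le_one₀ hq0.le hq.le)
      exact le_mul_of_one_le_left (pow_pos hq0 _).le h1
    · refine (hb1 N).trans ?_
      rw [← div_eq_inv_mul, one_le_div hqN]
      exact pow_le_pow_of_le_one hq0.le hq.le h.le
  -- the bound of the integrals of `(1 - z φ)^{-(D+1)}`
  obtain ⟨B, hB⟩ : ∃ B : ℝ, ∀ z : ℝ, 0 ≤ z → z < 1 →
      ‖∫ k, 1 / (1 - z * φ k) ^ (D + 1) ∂μ‖ ≤ B := by
    refine ⟨(q ^ N₀)⁻¹ * (1 / (1 - q) ^ (D + 1)), fun z hz0 hz1 => ?_⟩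
    obtain ⟨F, hF⟩ : ∃ F : ℕ → α → ℂ, ∀ N k, F N k = ((N + D).choose D : ℂ) * (z * φ k) ^ N :=
      ⟨_, fun _ _ => rfl⟩
    have hzn : ‖(z : ℝ)‖ < 1 := by
      rw [Real.norm_eq_abs, abs_of_nonneg hz0]
      exact hz1
    have hzk : ∀ k, ‖(z : ℂ) * φ k‖ ≤ z := by
      intro k
      rw [norm_mul, Complex.norm_real, Real.norm_eq_abs, abs_of_nonneg hz0]
      exact mul_le_of_le_one_right hz0 (hφ k)
    have hFe : ∀ k, ∑' N, F N k = 1 / (1 - z * φ k) ^ (D + 1) := by
      intro k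
      simp only [hF]
      exact tsum_choose_mul_geometric_of_norm_lt_one D ((hzk k).trans_lt hz1)
    have hFi : ∀ N, Integrable (F N) μ := by
      intro N
      have e : F N = fun k => ((N + D).choose D : ℂ) * (z : ℂ) ^ N * φ k ^ N := by
        funext k
        rw [hF, mul_pow, mul_assoc]
      rw [e]
      exact (hint N).const_mul _
    have hFn : ∀ N, ∫ k, ‖F N k‖ ∂μ ≤ ((N + D).choose D : ℝ) * z ^ N := by
      intro N
      have h := integral_mono (μ := μ) (hFi N).norm (integrable_const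
        (((N + D).choose D : ℝ) * z ^ N)) (fun k => by
          show ‖F N k‖ ≤ ((N + D).choose D : ℝ) * z ^ N
          rw [hF, norm_mul, norm_pow, Complex.norm_natCast]
          exact mul_le_mul_of_nonneg_left (pow_le_pow_left₀ (norm_nonneg _) (hzk k) N)
            (Nat.cast_nonneg _))
      simpa using h
    have hsum : Summable fun N => ∫ k, ‖F N k‖ ∂μ :=
      Summable.of_nonneg_of_le (fun N => integral_nonneg fun k => norm_nonneg _) hFn
        (hasSum_choose_mul_geometric_of_norm_lt_one D hzn).summable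
    have hS2 := hasSum_integral_of_summable_integral_norm hFi hsum
    have e1 : ∫ k, 1 / (1 - z * φ k) ^ (D + 1) ∂μ = ∑' N, ∫ k, F N k ∂μ := by
      rw [hS2.tsum_eq]
      exact integral_congr_ae (Eventually.of_forall fun k => (hFe k).symm)
    rw [e1]
    have hqn : ‖(q : ℝ)‖ < 1 := by
      rw [Real.norm_eq_abs, abs_of_nonneg hq0.le]
      exact hq
    refine tsum_of_norm_bounded
      ((hasSum_choose_mul_geometric_of_norm_lt_one D hqn).mul_left (q ^ N₀)⁻¹) fun N => ?_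
    have e2 : ∫ k, F N k ∂μ = ((N + D).choose D : ℂ) * (z : ℂ) ^ N * ∫ k, φ k ^ N ∂μ := by
      rw [← integral_const_mul]
      refine integral_congr_ae (Eventually.of_forall fun k => ?_)
      show F N k = _
      rw [hF, mul_pow, ← mul_assoc]
    rw [e2, norm_mul, norm_mul, Complex.norm_natCast, norm_pow, Complex.norm_real,
      Real.norm_eq_abs, abs_of_nonneg hz0]
    have h3 : ((N + D).choose D : ℝ) * z ^ N ≤ ((N + D).choose D : ℝ) :=
      mul_le_of_le_one_right (Nat.cast_nonneg _) (pow_le_one₀ hz0 hz1.le)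
    calc ((N + D).choose D : ℝ) * z ^ N * ‖∫ k, φ k ^ N ∂μ‖
        ≤ ((N + D).choose D : ℝ) * ((q ^ N₀)⁻¹ * q ^ N) :=
          mul_le_mul h3 (hb2 N) (norm_nonneg _) (Nat.cast_nonneg _)
      _ = (q ^ N₀)⁻¹ * (((N + D).choose D : ℝ) * q ^ N) := by ring
  have hB0 : 0 ≤ B := (norm_nonneg _).trans (hB 0 le_rfl one_pos)
  -- the lower bound
  obtain ⟨B', hB'⟩ : ∃ B' : ℝ, B' = 1 / (δ / 2) ^ (D + 1) := ⟨_, rfl⟩
  have hB'0 : 0 < B' := by
    rw [hB']
    positivity
  have hlow : ∀ r : ℝ, 0 < r → r ≤ r₀ → r ≤ δ / 2 → r < 1 →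
      1 / 2 * (1 / ((1 + C) * r) ^ (D + 1)) * μ.real (S r) - B' ≤ B := by
    intro r hr hrr₀ hrδ hr1
    obtain ⟨A, hA⟩ : ∃ A : ℝ, A = 1 / 2 * (1 / ((1 + C) * r) ^ (D + 1)) := ⟨_, rfl⟩
    have hA0 : 0 ≤ A := by
      rw [hA]
      positivity
    rw [← hA]
    obtain ⟨f, hf⟩ : ∃ f : α → ℂ, ∀ k, f k = 1 / (1 - ((1 - r : ℝ) : ℂ) * φ k) ^ (D + 1) :=
      ⟨_, fun _ => rfl⟩
    have hz0 : 0 ≤ 1 - r := by linarith
    have hre : ∀ k, (φ k).re ≤ 1 := fun k => (Complex.re_le_norm _).trans (hφ k)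
    have hζre : ∀ k, (1 - ((1 - r : ℝ) : ℂ) * φ k).re = r + (1 - r) * (1 - (φ k).re) := by
      intro k
      rw [Complex.sub_re, Complex.one_re, Complex.re_ofReal_mul]
      ring
    have hζim : ∀ k, (1 - ((1 - r : ℝ) : ℂ) * φ k).im = -((1 - r) * (φ k).im) := by
      intro k
      rw [Complex.sub_im, Complex.one_im, Complex.im_ofReal_mul]
      ring
    have hζpos : ∀ k, r ≤ (1 - ((1 - r : ℝ) : ℂ) * φ k).re := by
      intro k
      rw [hζre]
      have := mul_nonneg hz0 (sub_nonneg.2 (hre k))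
      linarith
    have hζn : ∀ k, r ≤ ‖1 - ((1 - r : ℝ) : ℂ) * φ k‖ := fun k =>
      (hζpos k).trans (Complex.re_le_norm _)
    have hfm : Measurable f := by
      have e : f = fun k => 1 / (1 - ((1 - r : ℝ) : ℂ) * φ k) ^ (D + 1) := funext hf
      rw [e]
      exact (measurable_const.div ((measurable_const.sub (hφm.const_mul _)).pow_const _))
    have hfi : Integrable f μ :=
      Integrable.of_bound hfm.aestronglyMeasurable (1 / r ^ (D + 1))
        (Eventually.of_forall fun k => by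
          rw [hf, norm_div, norm_one, norm_pow]
          exact one_div_le_one_div_of_le (pow_pos hr _)
            (pow_le_pow_left₀ hr.le (hζn k) _))
    -- in the sector
    have hsec : ∀ k, |(φ k).im| ≤ ε * (1 - (φ k).re) →
        1 / 2 * (1 / ‖1 - ((1 - r : ℝ) : ℂ) * φ k‖ ^ (D + 1)) ≤ (f k).re := by
      intro k hk
      rw [hf]
      refine sector (hr.trans_le (hζpos k)) hε ?_
      rw [hζre, hζim, abs_neg, abs_mul, abs_of_nonneg hz0]
      have h1 := mul_le_mul_of_nonneg_left hk hz0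
      have h2 : 0 ≤ ε * r := mul_nonneg hε0 hr.le
      calc (1 - r) * |(φ k).im| ≤ (1 - r) * (ε * (1 - (φ k).re)) := h1
        _ ≤ ε * (r + (1 - r) * (1 - (φ k).re)) := by linarith
    have hpt : ∀ k, (S r).indicator (fun _ => A) k - B' ≤ (f k).re := by
      intro k
      by_cases hk : k ∈ S r
      · rw [indicator_of_mem hk]
        obtain ⟨h1, h2⟩ := hS1 r hr hrr₀ k hk
        have h3 := hsec k h1
        have h4 : ‖1 - ((1 - r : ℝ) : ℂ) * φ k‖ ≤ (1 + C) * r := by
          have e : 1 - ((1 - r : ℝ) : ℂ) * φ k = (1 - φ k) + (r : ℂ) * φ k := by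
            push_cast
            ring
          rw [e]
          refine (norm_add_le _ _).trans ?_
          rw [norm_mul, Complex.norm_real, Real.norm_eq_abs, abs_of_pos hr]
          have h5 := mul_le_of_le_one_right hr.le (hφ k)
          linarith
        have h5 : A ≤ 1 / 2 * (1 / ‖1 - ((1 - r : ℝ) : ℂ) * φ k‖ ^ (D + 1)) := by
          rw [hA]
          refine mul_le_mul_of_nonneg_left ?_ (by norm_num)
          exact one_div_le_one_div_of_le (pow_pos (hr.trans_le (hζn k)) _)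
            (pow_le_pow_left₀ (norm_nonneg _) h4 _)
        linarith
      · rw [indicator_of_notMem hk]
        rcases hU k with h1 | h1
        · have h3 := hsec k h1
          have h4 : 0 ≤ 1 / 2 * (1 / ‖1 - ((1 - r : ℝ) : ℂ) * φ k‖ ^ (D + 1)) := by positivity
          linarith
        · have h2 : δ / 2 ≤ ‖1 - ((1 - r : ℝ) : ℂ) * φ k‖ := by
            have e : 1 - φ k = (1 - ((1 - r : ℝ) : ℂ) * φ k) - (r : ℂ) * φ k := by
              push_cast
              ring
            have h3 : ‖1 - φ k‖ ≤ ‖1 - ((1 - r : ℝ) : ℂ) * φ k‖ + r := by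
              rw [e]
              refine (norm_sub_le _ _).trans ?_
              rw [norm_mul, Complex.norm_real, Real.norm_eq_abs, abs_of_pos hr]
              have h5 := mul_le_of_le_one_right hr.le (hφ k)
              rw [← Complex.ofReal_one] at *
              linarith
            linarith
          have h3 : ‖f k‖ ≤ B' := by
            rw [hf, hB', norm_div, norm_one, norm_pow]
            exact one_div_le_one_div_of_le (by positivity)
              (pow_le_pow_left₀ (by positivity) h2 _)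
          have h4 := (abs_le.1 ((Complex.abs_re_le_norm (f k)).trans h3)).1
          linarith
    have hfre : Integrable (fun k => (f k).re) μ := hfi.re
    have hind : Integrable ((S r).indicator fun _ => A) μ :=
      (integrable_const A).indicator (hSm r)
    have h6 : ∫ k, ((S r).indicator (fun _ => A) k - B') ∂μ ≤ ∫ k, (f k).re ∂μ :=
      integral_mono (μ := μ) (hind.sub (integrable_const B')) hfre hpt
    have h7 : ∫ k, (f k).re ∂μ = (∫ k, f k ∂μ).re := integral_re hfi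
    have h8 : ∫ k, ((S r).indicator (fun _ => A) k - B') ∂μ = A * μ.real (S r) - B' := by
      rw [integral_sub hind (integrable_const B'), integral_indicator_const A (hSm r)]
      simp [mul_comm]
    have h9 : ‖∫ k, f k ∂μ‖ ≤ B := by
      have h10 := hB (1 - r) hz0 (by linarith)
      have e : ∫ k, f k ∂μ = ∫ k, 1 / (1 - ((1 - r : ℝ) : ℂ) * φ k) ^ (D + 1) ∂μ :=
        integral_congr_ae (Eventually.of_forall hf)
      rw [e]
      exact h10
    have h11 := (Complex.re_le_norm (∫ k, f k ∂μ)).trans h9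
    rw [h8, h7] at h6
    exact h6.trans h11
  -- the contradiction
  obtain ⟨κ, hκ⟩ : ∃ κ : ℝ, κ = 1 / 2 * (1 / (1 + C) ^ (D + 1)) * c := ⟨_, rfl⟩
  have hκ0 : 0 < κ := by
    rw [hκ]
    positivity
  obtain ⟨r, hr⟩ : ∃ r : ℝ, r = min (min r₀ (δ / 2)) (min (1 / 2) (κ / (2 * (B + B' + 1)))) :=
    ⟨_, rfl⟩
  have hBB : 0 < B + B' + 1 := by linarith
  have hr0 : 0 < r := by
    rw [hr]
    exact lt_min (lt_min hr₀ (by positivity)) (lt_min (by norm_num) (by positivity))
  have hr1 : r ≤ r₀ := by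
    rw [hr]
    exact (min_le_left _ _).trans (min_le_left _ _)
  have hr2 : r ≤ δ / 2 := by
    rw [hr]
    exact (min_le_left _ _).trans (min_le_right _ _)
  have hr3 : r ≤ 1 / 2 := by
    rw [hr]
    exact (min_le_right _ _).trans (min_le_left _ _)
  have hr4 : r * (2 * (B + B' + 1)) ≤ κ := by
    rw [← le_div_iff₀ (by positivity), hr]
    exact (min_le_right _ _).trans (min_le_right _ _)
  have h1 := hlow r hr0 hr1 hr2 (by linarith)
  have h2 := hS r hr0 hr1
  have h3 : κ / r ≤ 1 / 2 * (1 / ((1 + C) * r) ^ (D + 1)) * μ.real (S r) := by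
    have e : κ / r = 1 / 2 * (1 / ((1 + C) * r) ^ (D + 1)) * (c * r ^ D) := by
      rw [hκ, mul_pow, pow_succ r D]
      field_simp
    rw [e]
    exact mul_le_mul_of_nonneg_left h2 (by positivity)
  have h4 : κ / r ≤ B + B' := by linarith
  rw [div_le_iff₀ hr0] at h4
  nlinarith

end Pool.Agent.SG
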