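import Pool.Agent.H.MP_e23cd6_ag.SG.Var
import Pool.Agent.H.MP_e23cd6_ag.SG.Inv0

/-!
# The invariants `P_N(v) = ∫_K ⟨v, k w⟩^N dk` of a minimal vector
-/

set_option autoImplicit false

namespace Pool.Agent.SG

open Matrix Topology Set MeasureTheory Filter

namespace Rep

variable {n : ℕ} {ι : Type} [Fintype ι] [DecidableEq ι] (R : Rep n ι)

/-- `P` is an invariant homogeneous polynomial of degree `N`. -/
structure Inv (N : ℕ) (P : MvPolynomial ι ℂ) : Prop where
  hom : P.IsHomogeneous N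
  inv : ∀ g v, MvPolynomial.eval (R.act g v) P = MvPolynomial.eval v P

theorem continuous_actSU (w : ι → ℂ) : Continuous fun k : SU n => R.act (k : Gp n) w :=
  R.continuous_act.comp (continuous_subtype_val.prodMk continuous_const)

omit [DecidableEq ι] in
theorem continuous_ip {α : Type} [TopologicalSpace α] {f g : α → ι → ℂ} (hf : Continuous f)
    (hg : Continuous g) : Continuous fun a => ip (f a) (g a) := by
  unfold ip
  refine continuous_finsetSum _ fun i _ => ?_
  exact ((continuous_apply i).comp hf).mul (((continuous_apply i).comp hg).star)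

theorem continuous_phi (v w : ι → ℂ) : Continuous fun k : SU n => ip v (R.act (k : Gp n) w) :=
  continuous_ip continuous_const (R.continuous_actSU w)

/-- A function invariant under `SU(n)` given by a polynomial is invariant under `SL_n(ℂ)`. -/
theorem inv_of_SU {P : MvPolynomial ι ℂ}
    (h : ∀ k ∈ SU n, ∀ v, MvPolynomial.eval (R.act k v) P = MvPolynomial.eval v P) (g : Gp n)
    (v : ι → ℂ) : MvPolynomial.eval (R.act g v) P = MvPolynomial.eval v P := by
  obtain ⟨k₁, hk₁, k₂, hk₂, H, hg⟩ := svd g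
  rw [hg, R.act_mul, R.act_mul, h k₁ hk₁]
  obtain ⟨v', hv'⟩ : ∃ v', v' = R.act k₂ v := ⟨_, rfl⟩
  rw [← hv']
  have hd : Differentiable ℂ fun z : ℂ => MvPolynomial.eval (R.act (dg H z) v') P := by
    have e : (fun z : ℂ => MvPolynomial.eval (R.act (dg H z) v') P) = fun z =>
        ∑ s ∈ P.support, P.coeff s * ∏ i ∈ s.support,
          (Complex.exp (z * R.lam i H) * v' i) ^ s i := by
      funext z
      rw [MvPolynomial.eval_eq]
      refine Finset.sum_congr rfl fun s _ => ?_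
      congr 1
      refine Finset.prod_congr rfl fun i _ => ?_
      rw [R.act_dg]
    rw [e]
    fun_prop
  have h1 := entire_const hd (c := MvPolynomial.eval v' P)
    (fun t => h _ (dg_mem_SU H t) v') 1
  rw [h1, hv', h k₂ hk₂]

/-- The integral `∫_K ⟨v, k w⟩^N dk`. -/
noncomputable def PI (w : ι → ℂ) (N : ℕ) (v : ι → ℂ) : ℂ :=
  ∫ k : SU n, ip v (R.act (k : Gp n) w) ^ N ∂(hμ n)

/-- The polynomial with the values `PI`. -/
noncomputable def PN (w : ι → ℂ) (N : ℕ) : MvPolynomial ι ℂ :=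
  ∑ s ∈ Finset.piAntidiag Finset.univ N, MvPolynomial.C
    (∫ k : SU n, (Nat.multinomial Finset.univ s : ℂ) *
      ∏ i, (Star.star (R.act (k : Gp n) w i)) ^ s i ∂(hμ n)) * ∏ i, MvPolynomial.X i ^ s i

theorem eval_PN (w : ι → ℂ) (N : ℕ) (v : ι → ℂ) :
    MvPolynomial.eval v (R.PN w N) = R.PI w N v := by
  unfold PN PI
  rw [map_sum]
  have e : ∀ k : SU n, ip v (R.act (k : Gp n) w) ^ N =
      ∑ s ∈ Finset.piAntidiag Finset.univ N, ((Nat.multinomial Finset.univ s : ℂ) *
        ∏ i, (Star.star (R.act (k : Gp n) w i)) ^ s i) * ∏ i, v i ^ s i := by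
    intro k
    unfold ip
    rw [Finset.sum_pow_eq_sum_piAntidiag]
    refine Finset.sum_congr rfl fun s _ => ?_
    rw [mul_assoc, ← Finset.prod_mul_distrib]
    congr 1
    refine Finset.prod_congr rfl fun i _ => ?_
    rw [mul_pow, mul_comm]
  simp only [e]
  have hc : ∀ s : ι → ℕ, Continuous fun k : SU n => ((Nat.multinomial Finset.univ s : ℂ) *
      ∏ i, (Star.star (R.act (k : Gp n) w i)) ^ s i) := by
    intro s
    refine continuous_const.mul (continuous_finsetProd _ fun i _ => ?_)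
    exact (((continuous_apply i).comp (R.continuous_actSU w)).star).pow _
  rw [integral_finsetSum _ fun s _ => (integrable_SU (hc s)).mul_const _]
  refine Finset.sum_congr rfl fun s _ => ?_
  rw [integral_mul_const, map_mul, MvPolynomial.eval_C, map_prod]
  congr 1
  refine Finset.prod_congr rfl fun i _ => ?_
  rw [map_pow, MvPolynomial.eval_X]

theorem hom_PN (w : ι → ℂ) (N : ℕ) : (R.PN w N).IsHomogeneous N := by
  unfold PN
  refine MvPolynomial.IsHomogeneous.sum _ _ _ fun s hs => ?_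
  have h1 : (∏ i, (MvPolynomial.X i : MvPolynomial ι ℂ) ^ s i).IsHomogeneous (∑ i, s i) :=
    MvPolynomial.IsHomogeneous.prod _ _ _ fun i _ => by
      simpa using (MvPolynomial.isHomogeneous_X ℂ i).pow (s i)
  have h2 : ∑ i, s i = N := (Finset.mem_piAntidiag.1 hs).1
  rw [h2] at h1
  have h3 := (MvPolynomial.isHomogeneous_C ι
    (∫ k : SU n, (Nat.multinomial Finset.univ s : ℂ) *
      ∏ i, (Star.star (R.act (k : Gp n) w i)) ^ s i ∂(hμ n))).mul h1
  rwa [zero_add] at h3

theorem PI_SU (w : ι → ℂ) (N : ℕ) {h : Gp n} (hh : h ∈ SU n) (v : ι → ℂ) :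
    R.PI w N (R.act h v) = R.PI w N v := by
  unfold PI
  have e : ∀ k : SU n, ip (R.act h v) (R.act (k : Gp n) w) =
      ip v (R.act (((⟨h, hh⟩ : SU n)⁻¹ * k : SU n) : Gp n) w) := by
    intro k
    rw [R.ip_act, mem_SU.1 hh, ← R.act_mul]
    rfl
  simp only [e]
  exact integral_mul_left_eq_self
    (fun k : SU n => ip v (R.act (k : Gp n) w) ^ N) (⟨h, hh⟩ : SU n)⁻¹

theorem inv_PN (w : ι → ℂ) (N : ℕ) : R.Inv N (R.PN w N) := by
  refine ⟨R.hom_PN w N, R.inv_of_SU fun k hk v => ?_⟩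
  rw [R.eval_PN, R.eval_PN, R.PI_SU w N hk]

/-- The bound of the invariant. -/
theorem PI_le (w : ι → ℂ) (N : ℕ) {v : ι → ℂ} {q : ℝ}
    (hq : ∀ k ∈ SU n, ‖ip v (R.act k w)‖ ≤ q) : ‖R.PI w N v‖ ≤ q ^ N := by
  unfold PI
  have h := norm_integral_le_of_norm_le_const (μ := hμ n)
    (f := fun k : SU n => ip v (R.act (k : Gp n) w) ^ N) (C := q ^ N)
    (Eventually.of_forall fun k => by
      rw [norm_pow]
      exact pow_le_pow_left₀ (norm_nonneg _) (hq k k.2) N)
  simpa using h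

variable {R}

theorem Min.act_of_ip {w : ι → ℂ} (hw : R.Min w) {k : Gp n} (hk : k ∈ SU n)
    (h : R.psi w k = 1) : R.act k w = w := by
  have h1 := ns_sub (R.act k w) w
  have h2 : (ip (R.act k w) w).re = 1 := by
    have : ip (R.act k w) w = 1 := h
    rw [this, Complex.one_re]
  rw [R.ns_act_SU hk, hw.1, h2] at h1
  have h3 : ns (R.act k w - w) = 0 := by
    rw [h1]
    ring
  exact sub_eq_zero.1 (ns_eq_zero.1 h3)

/-- Outside a neighbourhood of the stabiliser the matrix coefficient stays away from one. -/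
theorem Min.away {w : ι → ℂ} (hw : R.Min w) {ε : ℝ} (hε : 0 < ε) : ∃ δ > 0, ∀ k : SU n,
    |(R.psi w (k : Gp n)).im| ≤ ε * (1 - (R.psi w (k : Gp n)).re) ∨
      δ ≤ ‖1 - R.psi w (k : Gp n)‖ := by
  obtain ⟨r, hr, hnear⟩ := hw.near hε
  have hcψ : Continuous fun k : SU n => R.psi w (k : Gp n) :=
    continuous_ip (R.continuous_actSU w) continuous_const
  have hmain : ∃ δ > 0, ∀ k ∈ (univ : Set (SU n)),
      |(R.psi w (k : Gp n)).im| ≤ ε * (1 - (R.psi w (k : Gp n)).re) ∨
      δ ≤ ‖1 - R.psi w (k : Gp n)‖ := by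
    refine isCompact_univ.induction_on (p := fun s : Set (SU n) => ∃ δ > 0, ∀ k ∈ s,
      |(R.psi w (k : Gp n)).im| ≤ ε * (1 - (R.psi w (k : Gp n)).re) ∨
      δ ≤ ‖1 - R.psi w (k : Gp n)‖) ?_ ?_ ?_ ?_
    · exact ⟨1, one_pos, fun k hk => absurd hk (notMem_empty k)⟩
    · rintro s t hst ⟨δ, hδ, h⟩
      exact ⟨δ, hδ, fun k hk => h k (hst hk)⟩
    · rintro s t ⟨δ₁, hδ₁, h₁⟩ ⟨δ₂, hδ₂, h₂⟩
      refine ⟨min δ₁ δ₂, lt_min hδ₁ hδ₂, fun k hk => ?_⟩
      rcases hk with hk | hk
      · rcases h₁ k hk with h | h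
        · exact Or.inl h
        · exact Or.inr ((min_le_left _ _).trans h)
      · rcases h₂ k hk with h | h
        · exact Or.inl h
        · exact Or.inr ((min_le_right _ _).trans h)
    · intro k₀ _
      by_cases h0 : R.psi w (k₀ : Gp n) = 1
      · have hk₀w := hw.act_of_ip k₀.2 h0
        have hk₀w' : R.act ((k₀ : Gp n)⁻¹) w = w := by
          conv_lhs => rw [← hk₀w]
          rw [← R.act_mul, inv_mul_cancel, R.act_one]
        have hc : Continuous fun k : SU n => dst ((k : Gp n) * (k₀ : Gp n)⁻¹) :=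
          continuous_dst.comp (continuous_subtype_val.mul continuous_const)
        refine ⟨{k : SU n | dst ((k : Gp n) * (k₀ : Gp n)⁻¹) < r}, ?_, 1, one_pos, fun k hk => ?_⟩
        · rw [nhdsWithin_univ]
          refine (isOpen_lt hc continuous_const).mem_nhds ?_
          show dst ((k₀ : Gp n) * (k₀ : Gp n)⁻¹) < r
          rw [mul_inv_cancel, dst_one]
          exact hr
        · left
          have h1 := hnear ((k : Gp n) * (k₀ : Gp n)⁻¹)
            ((SU n).mul_mem k.2 ((SU n).inv_mem k₀.2)) (le_of_lt hk)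
          have h2 : R.psi w ((k : Gp n) * (k₀ : Gp n)⁻¹) = R.psi w (k : Gp n) := by
            unfold psi
            rw [R.act_mul, hk₀w']
          rwa [h2] at h1
      · have h1 : 0 < ‖1 - R.psi w (k₀ : Gp n)‖ := norm_pos_iff.2 (sub_ne_zero.2 (Ne.symm h0))
        refine ⟨{k : SU n | ‖1 - R.psi w (k₀ : Gp n)‖ / 2 < ‖1 - R.psi w (k : Gp n)‖}, ?_,
          ‖1 - R.psi w (k₀ : Gp n)‖ / 2, by positivity, fun k hk => Or.inr (le_of_lt hk)⟩
        rw [nhdsWithin_univ]
        refine (isOpen_lt continuous_const (continuous_const.sub hcψ).norm).mem_nhds ?_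
        show ‖1 - R.psi w (k₀ : Gp n)‖ / 2 < ‖1 - R.psi w (k₀ : Gp n)‖
        linarith
  obtain ⟨δ, hδ, h⟩ := hmain
  exact ⟨δ, hδ, fun k => h k (mem_univ k)⟩

/-- The invariants of a minimal vector do not decay exponentially at this vector. -/
theorem Min.lim {w : ι → ℂ} (hw : R.Min w) {q : ℝ} (hq0 : 0 ≤ q) (hq : q < 1) (N₀ : ℕ) :
    ∃ N ≥ N₀, q ^ N < ‖R.PI w N w‖ := by
  obtain ⟨c, hc, D, hball⟩ := small_ball n
  obtain ⟨ε, hε⟩ : ∃ ε : ℝ, ε = 1 / (4 * ((D + 1 : ℕ) : ℝ)) := ⟨_, rfl⟩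
  have hD : (0 : ℝ) < ((D + 1 : ℕ) : ℝ) := by positivity
  have hε0 : 0 < ε := by
    rw [hε]
    positivity
  have hε1 : 4 * ((D + 1 : ℕ) : ℝ) * ε ≤ 1 := by
    rw [hε, mul_one_div, div_self (by positivity)]
  obtain ⟨r₁, hr₁, hnear⟩ := hw.near hε0
  obtain ⟨r₂, hr₂, C, hC, hlip⟩ := R.psi_lip hw.1
  obtain ⟨δ, hδ, haway⟩ := hw.away hε0
  obtain ⟨φ, hφ⟩ : ∃ φ : SU n → ℂ, ∀ k, φ k = ip w (R.act (k : Gp n) w) := ⟨_, fun _ => rfl⟩
  have hφψ : ∀ k : SU n, φ k = Star.star (R.psi w (k : Gp n)) := by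
    intro k
    rw [hφ]
    exact (ip_star _ _).symm
  have hre : ∀ k : SU n, (φ k).re = (R.psi w (k : Gp n)).re := fun k => by
    rw [hφψ]
    exact Complex.conj_re _
  have him : ∀ k : SU n, |(φ k).im| = |(R.psi w (k : Gp n)).im| := fun k => by
    rw [hφψ]
    have : (Star.star (R.psi w (k : Gp n))).im = -(R.psi w (k : Gp n)).im := Complex.conj_im _
    rw [this, abs_neg]
  have h1 : ∀ k : SU n, ‖1 - φ k‖ = ‖1 - R.psi w (k : Gp n)‖ := fun k => by
    rw [hφψ, ← star_one ℂ, ← star_sub, norm_star, star_one]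
  have hφc : Continuous φ := by
    have e : φ = fun k : SU n => ip w (R.act (k : Gp n) w) := funext hφ
    rw [e]
    exact R.continuous_phi w w
  have hnw : nm w = 1 := by
    unfold nm
    rw [hw.1, Real.sqrt_one]
  have hφ1 : ∀ k, ‖φ k‖ ≤ 1 := by
    intro k
    rw [hφ]
    refine (norm_ip_le _ _).trans ?_
    rw [R.nm_act_SU k.2, hnw, one_mul]
  have hmeas : ∀ r : ℝ, MeasurableSet {k : SU n | dst (k : Gp n) ≤ r} := fun r =>
    (isClosed_le (continuous_dst.comp continuous_subtype_val) continuous_const).measurableSet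
  have hq' : max q (1 / 2) < 1 := max_lt hq (by norm_num)
  have hq0' : 0 < max q (1 / 2) := lt_of_lt_of_le (by norm_num) (le_max_right _ _)
  obtain ⟨N, hN, h⟩ := lim_abs (μ := hμ n) (φ := φ) hφc.measurable hφ1 (D := D)
    (r₀ := min 1 (min r₁ r₂)) (c := c) (C := C) hε1 hε0.le hδ
    (lt_min one_pos (lt_min hr₁ hr₂)) hc hC
    (fun k => by
      rw [him, hre, h1]
      exact haway k)
    (S := fun r => {k : SU n | dst (k : Gp n) ≤ r}) hmeas
    (fun r hr hr' => hball r hr (hr'.trans (min_le_left _ _)))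
    (fun r hr hr' k hk => by
      have hk' : dst (k : Gp n) ≤ r := hk
      rw [him, hre, h1]
      refine ⟨hnear k k.2 (hk'.trans (hr'.trans ((min_le_right _ _).trans (min_le_left _ _)))), ?_⟩
      refine (hlip k k.2
        (hk'.trans (hr'.trans ((min_le_right _ _).trans (min_le_right _ _))))).trans ?_
      exact mul_le_mul_of_nonneg_left hk' hC)
    hq0' hq' N₀
  refine ⟨N, hN, ?_⟩
  have e : R.PI w N w = ∫ k, φ k ^ N ∂(hμ n) := by
    unfold PI
    simp only [hφ]
  rw [e]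
  exact (pow_le_pow_left₀ hq0 (le_max_left _ _) N).trans_lt h

end Rep

end Pool.Agent.SG
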