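import Pool.Agent.H.MP_e23cd6_ag.SG.TT

/-!
# Iwasawa decomposition, the Iwasawa projection and the characters of `B`
-/

set_option autoImplicit false

open Matrix MeasureTheory Topology Set Filter

namespace Pool.Agent.SG

variable {n : ℕ}

theorem isB_bt {b : Gp n} (hb : IsB b) :
    (b : Matrix (Fin n) (Fin n) ℂ).BlockTriangular id := fun i j h => hb i j h

theorem isB_mul {b b' : Gp n} (hb : IsB b) (hb' : IsB b') : IsB (b * b') := by
  intro i j h
  rw [coe_gmul]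
  exact ((isB_bt hb).mul (isB_bt hb')) h

theorem isB_one : IsB (1 : Gp n) := by
  intro i j h
  rw [coe_gone, Matrix.one_apply_ne h.ne']

theorem isB_inv {b : Gp n} (hb : IsB b) : IsB b⁻¹ := (Bor n).inv_mem' (x := b) hb

/-- The diagonal entries of an upper triangular matrix are nonzero. -/
theorem isB_diag_ne {b : Gp n} (hb : IsB b) (i : Fin n) :
    (b : Matrix (Fin n) (Fin n) ℂ) i i ≠ 0 := by
  have h1 : (b : Matrix (Fin n) (Fin n) ℂ).det = 1 := b.det_coe
  have h2 := Matrix.det_of_isUpperTriangular (isB_bt hb)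
  rw [h1] at h2
  intro h
  exact one_ne_zero (h2.trans (Finset.prod_eq_zero (Finset.mem_univ i) h))

/-- The diagonal entries of a product. -/
theorem isB_mul_diag {b b' : Gp n} (hb : IsB b) (hb' : IsB b') (i : Fin n) :
    ((b * b' : Gp n) : Matrix (Fin n) (Fin n) ℂ) i i =
      (b : Matrix (Fin n) (Fin n) ℂ) i i * (b' : Matrix (Fin n) (Fin n) ℂ) i i := by
  rw [coe_gmul, Matrix.mul_apply, Finset.sum_eq_single i]
  · intro c _ hc
    rcases lt_or_gt_of_ne hc with h | h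
    · rw [hb i c h, zero_mul]
    · rw [hb' c i h, mul_zero]
  · intro h
    exact absurd (Finset.mem_univ _) h

theorem hw_SU {k : Gp n} (hk : k ∈ SU n) (g : Gp n) : hw (k * g) = hw g := by
  funext i
  unfold hw
  rw [TT_SU hk, TT_SU hk]

theorem hw_B {b : Gp n} (hb : IsB b) (g : Gp n) (i : Fin n) :
    hw (g * b) i = hw g i + Real.log ‖(b : Matrix (Fin n) (Fin n) ℂ) i i‖ := by
  have hbi := isB_diag_ne hb
  obtain ⟨x, hx⟩ : ∃ x : Fin n → ℝ, ∀ j, x j = ‖(b : Matrix (Fin n) (Fin n) ℂ) j j‖ ^ 2 :=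
    ⟨_, fun _ => rfl⟩
  have hx0 : ∀ j, 0 < x j := fun j => by
    rw [hx]
    have := norm_pos_iff.2 (hbi j)
    positivity
  obtain ⟨P, hP⟩ : ∃ P : ℕ → ℝ, ∀ m, P m = ∏ j : Fin n, if (j : ℕ) < m then x j else 1 :=
    ⟨_, fun _ => rfl⟩
  have hP0 : ∀ m, 0 < P m := fun m => by
    rw [hP]
    refine Finset.prod_pos fun j _ => ?_
    split_ifs
    · exact hx0 j
    · exact one_pos
  have hT : ∀ m, m ≤ n → TT m (g * b) = TT m g * P m := by
    intro m hm
    rw [TT_B hb m hm, hP]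
    simp only [hx]
  have hPs : P ((i : ℕ) + 1) = P i * x i := by
    rw [hP, hP]
    have h1 : ∀ j : Fin n, (if (j : ℕ) < (i : ℕ) + 1 then x j else 1) =
        (if (j : ℕ) < (i : ℕ) then x j else 1) * (if j = i then x j else 1) := by
      intro j
      by_cases h : j = i
      · rw [h, if_pos (Nat.lt_succ_self _), if_neg (lt_irrefl _), if_pos rfl, one_mul]
      · have h' : (j : ℕ) ≠ (i : ℕ) := fun e => h (Fin.ext e)
        rw [if_neg h, mul_one]
        by_cases h2 : (j : ℕ) < (i : ℕ)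
        · rw [if_pos h2, if_pos (by omega)]
        · rw [if_neg h2, if_neg (by omega)]
    simp only [h1]
    rw [Finset.prod_mul_distrib, Finset.prod_ite_eq' Finset.univ i x, if_pos (Finset.mem_univ _)]
  unfold hw
  rw [hT _ i.2, hT _ i.2.le, hPs, Real.log_mul (TT_pos _ i.2 g).ne' (mul_pos (hP0 _) (hx0 _)).ne',
    Real.log_mul (hP0 _).ne' (hx0 _).ne', Real.log_mul (TT_pos _ i.2.le g).ne' (hP0 _).ne', hx,
    Real.log_pow]
  push_cast
  ring

theorem hw_one (i : Fin n) : hw (1 : Gp n) i = 0 := by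
  unfold hw
  rw [TT_one _ i.2, TT_one _ i.2.le, sub_self, zero_div]

theorem hw_isB {b : Gp n} (hb : IsB b) (i : Fin n) :
    hw b i = Real.log ‖(b : Matrix (Fin n) (Fin n) ℂ) i i‖ := by
  have h := hw_B hb 1 i
  rwa [one_mul, hw_one, zero_add] at h

theorem hw_sum (g : Gp n) : ∑ i, hw g i = 0 := by
  unfold hw
  have h1 : ∑ i : Fin n, (Real.log (TT ((i : ℕ) + 1) g) - Real.log (TT (i : ℕ) g)) / 2 =
      ∑ i ∈ Finset.range n, (Real.log (TT (i + 1) g) - Real.log (TT i g)) / 2 :=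
    Fin.sum_univ_eq_sum_range (fun i => (Real.log (TT (i + 1) g) - Real.log (TT i g)) / 2) n
  rw [h1, ← Finset.sum_div, Finset.sum_range_sub (fun i => Real.log (TT i g)), TT_top, TT_zero,
    sub_self, zero_div]

theorem hw_cont (i : Fin n) : Continuous fun g : Gp n => hw g i := by
  unfold hw
  refine Continuous.div_const ?_ _
  exact ((TT_cont _).log fun g => (TT_pos _ i.2 g).ne').sub
    ((TT_cont _).log fun g => (TT_pos _ i.2.le g).ne')

theorem chrB_norm {b : Gp n} (hb : IsB b) (χ : Fin n → ℤ) :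
    ‖chrB χ b‖ = Real.exp (∑ i, χ i * hw b i) := by
  unfold chrB
  rw [norm_prod, Real.exp_sum]
  refine Finset.prod_congr rfl fun i _ => ?_
  have h0 := norm_pos_iff.2 (isB_diag_ne hb i)
  rw [norm_zpow, hw_isB hb, ← Real.rpow_intCast, Real.rpow_def_of_pos h0, mul_comm]

theorem chrB_mul {b b' : Gp n} (hb : IsB b) (hb' : IsB b') (χ : Fin n → ℤ) :
    chrB χ (b * b') = chrB χ b * chrB χ b' := by
  unfold chrB
  rw [← Finset.prod_mul_distrib]
  refine Finset.prod_congr rfl fun i _ => ?_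
  rw [isB_mul_diag hb hb', mul_zpow]

theorem chrB_ne {b : Gp n} (hb : IsB b) (χ : Fin n → ℤ) : chrB χ b ≠ 0 :=
  Finset.prod_ne_zero_iff.2 fun i _ => zpow_ne_zero _ (isB_diag_ne hb i)

open scoped ComplexOrder in
/-- Iwasawa decomposition. -/
theorem iwasawa (g : Gp n) : ∃ k ∈ SU n, ∃ b, IsB b ∧ g = k * b := by
  obtain ⟨G, hG⟩ : ∃ G : Matrix (Fin n) (Fin n) ℂ, G = (g : Matrix (Fin n) (Fin n) ℂ) := ⟨_, rfl⟩
  have hGdet : G.det = 1 := by rw [hG]; exact g.det_coe
  have hS : (Gᴴ * G).PosDef := by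
    apply Matrix.PosDef.conjTranspose_mul_self
    rw [Matrix.mulVec_injective_iff_isUnit, Matrix.isUnit_iff_isUnit_det, hGdet]
    exact isUnit_one
  obtain ⟨M, hM⟩ : ∃ M : Matrix (Fin n) (Fin n) ℂ, M = (LDL.lowerInv hS)ᴴ := ⟨_, rfl⟩
  have hMt : M.BlockTriangular id := by
    intro i j h
    have h' : j < i := h
    have h0 := LDL.lowerInv_triangular hS h'
    rw [hM, Matrix.conjTranspose_apply, h0, star_zero]
  have hMdet : M.det ≠ 0 := by
    rw [hM, Matrix.det_conjTranspose]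
    have h1 : IsUnit (LDL.lowerInv hS) := isUnit_of_invertible _
    rw [Matrix.isUnit_iff_isUnit_det, isUnit_iff_ne_zero] at h1
    exact star_ne_zero.2 h1
  obtain ⟨P, hP⟩ : ∃ P : Matrix (Fin n) (Fin n) ℂ, P = G * M := ⟨_, rfl⟩
  have hPdet : P.det ≠ 0 := by rw [hP, Matrix.det_mul, hGdet, one_mul]; exact hMdet
  have hPP : Pᴴ * P = Matrix.diagonal (LDL.diagEntries hS) := by
    have h1 : Pᴴ * P = LDL.lowerInv hS * (Gᴴ * G) * (LDL.lowerInv hS)ᴴ := by
      rw [hP, hM, Matrix.conjTranspose_mul, Matrix.conjTranspose_conjTranspose]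
      simp only [Matrix.mul_assoc]
    rw [h1, ← LDL.diag_eq_lowerInv_conj]
    rfl
  obtain ⟨d, hd⟩ : ∃ d : Fin n → ℝ, ∀ i, d i = ∑ r, ‖P r i‖ ^ 2 := ⟨_, fun _ => rfl⟩
  have hd0 : ∀ i, 0 < d i := by
    intro i
    have h1 : ∃ r, P r i ≠ 0 := by
      by_contra hcon
      push Not at hcon
      exact hPdet (Matrix.det_eq_zero_of_column_eq_zero i hcon)
    obtain ⟨r, hr⟩ := h1
    rw [hd]
    have h2 : 0 < ‖P r i‖ ^ 2 := by
      have := norm_pos_iff.2 hr
      positivity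
    exact lt_of_lt_of_le h2 (Finset.single_le_sum (f := fun r => ‖P r i‖ ^ 2)
      (fun _ _ => sq_nonneg _) (Finset.mem_univ r))
  have hPP' : Pᴴ * P = Matrix.diagonal fun i => ((d i : ℝ) : ℂ) := by
    ext i j
    by_cases h : i = j
    · subst h
      rw [Matrix.diagonal_apply_eq, Matrix.mul_apply, hd, Complex.ofReal_sum]
      refine Finset.sum_congr rfl fun r _ => ?_
      have h1 := Complex.mul_conj (P r i)
      rw [Complex.normSq_eq_norm_sq] at h1
      rw [Matrix.conjTranspose_apply, mul_comm]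
      exact h1
    · rw [hPP, Matrix.diagonal_apply_ne _ h, Matrix.diagonal_apply_ne _ h]
  obtain ⟨E, hE⟩ : ∃ E : Matrix (Fin n) (Fin n) ℂ,
      E = Matrix.diagonal fun i => ((1 / Real.sqrt (d i) : ℝ) : ℂ) := ⟨_, rfl⟩
  obtain ⟨E', hE'⟩ : ∃ E' : Matrix (Fin n) (Fin n) ℂ,
      E' = Matrix.diagonal fun i => ((Real.sqrt (d i) : ℝ) : ℂ) := ⟨_, rfl⟩
  have hsd : ∀ i, 0 < Real.sqrt (d i) := fun i => Real.sqrt_pos.2 (hd0 i)
  have hEH : Eᴴ = E := by
    rw [hE, Matrix.diagonal_conjTranspose]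
    congr 1
    funext i
    exact Complex.conj_ofReal _
  have hEDE : E * (Pᴴ * P) = E' := by
    rw [hPP', hE, hE', Matrix.diagonal_mul_diagonal]
    congr 1
    funext i
    rw [← Complex.ofReal_mul]
    congr 1
    have h1 := Real.mul_self_sqrt (hd0 i).le
    rw [div_mul_eq_mul_div, one_mul, div_eq_iff (hsd i).ne', h1]
  have hE'E : E' * E = 1 := by
    rw [hE, hE', Matrix.diagonal_mul_diagonal, ← Matrix.diagonal_one]
    congr 1
    funext i
    rw [← Complex.ofReal_mul, mul_one_div_cancel (hsd i).ne', Complex.ofReal_one]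
  have hUU : (P * E)ᴴ * (P * E) = 1 := by
    rw [Matrix.conjTranspose_mul, hEH, ← Matrix.mul_assoc, Matrix.mul_assoc E, hEDE, hE'E]
  have hU : P * E ∈ Matrix.unitaryGroup (Fin n) ℂ := Matrix.mem_unitaryGroup_iff'.2 hUU
  obtain ⟨c, hc1, hc2⟩ := exists_phase hU
  obtain ⟨k, hk⟩ : ∃ k : Gp n, (k : Matrix (Fin n) (Fin n) ℂ) = c • (P * E) := ⟨⟨_, hc2⟩, rfl⟩
  have hkSU : k ∈ SU n := by
    rw [mem_SU', hk, Matrix.conjTranspose_smul, Matrix.smul_mul, Matrix.mul_smul, smul_smul,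
      hUU, mul_comm, hc1, one_smul]
  refine ⟨k, hkSU, k⁻¹ * g, ?_, (mul_inv_cancel_left _ _).symm⟩
  have : Invertible M := Matrix.invertibleOfIsUnitDet _ (isUnit_iff_ne_zero.2 hMdet)
  have hMinv := Matrix.blockTriangular_inv_of_blockTriangular hMt
  have h1 : ((k⁻¹ * g : Gp n) : Matrix (Fin n) (Fin n) ℂ) = (star c) • (E' * M⁻¹) := by
    rw [coe_gmul, coe_inv_SU hkSU, hk, Matrix.conjTranspose_smul, Matrix.smul_mul]
    congr 1
    have h2 : (P * E)ᴴ * G * M = E' := by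
      rw [Matrix.mul_assoc, ← hP, Matrix.conjTranspose_mul, hEH, Matrix.mul_assoc, hEDE]
    rw [← hG, ← h2, Matrix.mul_inv_cancel_right_of_invertible]
  intro i j h
  rw [h1, Matrix.smul_apply, hE', Matrix.diagonal_mul, hMinv h, mul_zero, smul_zero]

end Pool.Agent.SG
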