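import Pool.Agent.H.MP_e23cd6_ag.SG.KN

/-!
# The left Haar measure of the group `A N` in coordinates

`bw (H, u) = dg H 1 * un u`; `muB` is the product of the Haar measure of the vector space `aa n` and
the Lebesgue measure. The measure of the left translates of a bounded set is bounded, and the measure
of the right translates of a neighbourhood of `1` is at least a constant times
`exp (-2 ∑ rho2 i * H i)`.
-/

set_option autoImplicit false

open Matrix MeasureTheory
open scoped ENNReal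

namespace Pool.Agent.SG

variable {n : ℕ}

/-- The measure on the coordinates of `A N`. -/
noncomputable def muB (n : ℕ) : Measure (aa n × (Up n → ℂ)) :=
  (Measure.addHaar : Measure (aa n)).prod volume

instance : SFinite (muB n) := by
  unfold muB
  infer_instance

/-- The element of the group `A N` with the coordinates `w`. -/
noncomputable def bw (w : aa n × (Up n → ℂ)) : Gp n := dg w.1 1 * un w.2

theorem isB_dgz (H : aa n) (z : ℂ) : IsB (dg H z) := by
  intro i j h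
  have h3 : i ≠ j := ne_of_gt h
  rw [coe_dg, Matrix.diagonal_apply_ne _ h3]

theorem isB_bw (w : aa n × (Up n → ℂ)) : IsB (bw w) := (isB_dgz _ _).mul' (isU_un _).1

theorem continuous_dg_one : Continuous fun H : aa n => dg H 1 := by
  apply continuous_induced_rng.2
  show Continuous fun H : aa n => Matrix.diagonal fun j => Complex.exp (1 * H.1 j)
  refine Continuous.matrix_diagonal (continuous_pi fun j => ?_)
  have h1 : Continuous fun H : aa n => (H.1 j : ℝ) := (continuous_apply j).comp continuous_subtype_val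
  exact Complex.continuous_exp.comp (continuous_const.mul (Complex.continuous_ofReal.comp h1))

theorem continuous_bw : Continuous (bw : aa n × (Up n → ℂ) → Gp n) :=
  (continuous_dg_one.comp continuous_fst).mul (continuous_un.comp continuous_snd)

theorem dg_mul_apply (H : aa n) (z : ℂ) (g : Gp n) (i j : Fin n) :
    ((dg H z * g : Gp n) : Matrix (Fin n) (Fin n) ℂ) i j =
      Complex.exp (z * H.1 i) * (g : Matrix (Fin n) (Fin n) ℂ) i j := by
  rw [coe_gmul, coe_dg, Matrix.diagonal_mul]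

theorem mul_dg_apply (H : aa n) (z : ℂ) (g : Gp n) (i j : Fin n) :
    ((g * dg H z : Gp n) : Matrix (Fin n) (Fin n) ℂ) i j =
      (g : Matrix (Fin n) (Fin n) ℂ) i j * Complex.exp (z * H.1 j) := by
  rw [coe_gmul, coe_dg, Matrix.mul_diagonal]

theorem isB_dgT {τ : Fin n → ℂ} (h : ∏ i, τ i = 1) : IsB (dgT τ h) := by
  intro i j hij
  have h3 : i ≠ j := ne_of_gt hij
  show Matrix.diagonal τ i j = 0
  rw [Matrix.diagonal_apply_ne _ h3]

/-- The matrix `bw (H, u) * bw (H₀, u₀)⁻¹`. -/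
theorem bw_mul_inv (w w₀ : aa n × (Up n → ℂ)) :
    bw w * (bw w₀)⁻¹ = dg (w.1 - w₀.1) 1 * un (dcj w₀.1 (co (un w.2 * (un w₀.2)⁻¹))) := by
  have h1 : un (co (un w.2 * (un w₀.2)⁻¹)) = un w.2 * (un w₀.2)⁻¹ :=
    un_co ((isU_un _).mul (isU_un _).inv)
  have h2 := dg_un w₀.1 (co (un w.2 * (un w₀.2)⁻¹))
  have h3 : un (dcj w₀.1 (co (un w.2 * (un w₀.2)⁻¹))) =
      dg w₀.1 1 * (un w.2 * (un w₀.2)⁻¹) * (dg w₀.1 1)⁻¹ := by
    rw [h1] at h2
    rw [h2]
    group
  have h4 : dg (w.1 - w₀.1) 1 = dg w.1 1 * (dg w₀.1 1)⁻¹ := by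
    rw [dg_inv]
    apply gp_ext
    rw [coe_gmul, coe_dg, coe_dg, coe_dg, Matrix.diagonal_mul_diagonal]
    congr 1
    funext j
    rw [← Complex.exp_add]
    congr 1
    show 1 * (((w.1 - w₀.1 : aa n).1 j : ℝ) : ℂ) = _
    rw [Submodule.coe_sub, Pi.sub_apply, Complex.ofReal_sub]
    ring
  rw [h3, h4, bw, bw]
  group

/-- The matrix `bw (H, u)⁻¹ * bw (H₀, u₀)`. -/
theorem bw_inv_mul (w w₀ : aa n × (Up n → ℂ)) :
    (bw w)⁻¹ * bw w₀ = (un w.2)⁻¹ * un (dcj (w₀.1 - w.1) w₀.2) * dg (w₀.1 - w.1) 1 := by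
  have h4 : dg (w₀.1 - w.1) 1 = (dg w.1 1)⁻¹ * dg w₀.1 1 := by
    rw [dg_inv]
    apply gp_ext
    rw [coe_gmul, coe_dg, coe_dg, coe_dg, Matrix.diagonal_mul_diagonal]
    congr 1
    funext j
    rw [← Complex.exp_add]
    congr 1
    show 1 * (((w₀.1 - w.1 : aa n).1 j : ℝ) : ℂ) = _
    rw [Submodule.coe_sub, Pi.sub_apply, Complex.ofReal_sub]
    ring
  rw [mul_assoc, ← dg_un, h4, bw, bw]
  group

theorem bw_apply_self (w : aa n × (Up n → ℂ)) (i : Fin n) :
    (bw w : Matrix (Fin n) (Fin n) ℂ) i i = Complex.exp (w.1.1 i) := by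
  rw [bw, dg_mul_apply, un_apply_self, mul_one, one_mul]

/-- Every upper triangular matrix is `k * bw w` with a diagonal unitary matrix `k`. -/
theorem exists_bw {b : Gp n} (hb : IsB b) : ∃ k ∈ SU n, ∃ w, b = k * bw w := by
  set d : Fin n → ℂ := fun i => (b : Matrix (Fin n) (Fin n) ℂ) i i with hd
  have hprod : ∏ i, d i = 1 := by
    have h1 : (b : Matrix (Fin n) (Fin n) ℂ).BlockTriangular id := fun i j hij => hb i j hij
    rw [← Matrix.det_of_isUpperTriangular h1, b.det_coe]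
  have hd0 : ∀ i, d i ≠ 0 := by
    intro i h
    rw [Finset.prod_eq_zero (Finset.mem_univ i) h] at hprod
    exact zero_ne_one hprod
  have hn0 : ∀ i, (‖d i‖ : ℂ) ≠ 0 := fun i => by
    rw [ne_eq, Complex.ofReal_eq_zero, norm_eq_zero]
    exact hd0 i
  have hnp : ∏ i, (‖d i‖ : ℂ) = 1 := by
    rw [← Complex.ofReal_prod, ← norm_prod, hprod, norm_one, Complex.ofReal_one]
  have hH : (fun i => Real.log ‖d i‖) ∈ aa n := by
    show ∑ i, Real.log ‖d i‖ = 0
    rw [← Real.log_prod (fun i _ => norm_ne_zero_iff.2 (hd0 i)), ← norm_prod, hprod, norm_one,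
      Real.log_one]
  set H : aa n := ⟨_, hH⟩ with hHd
  have hk : ∏ i, d i / (‖d i‖ : ℂ) = 1 := by rw [Finset.prod_div_distrib, hprod, hnp, div_one]
  have hk' : ∏ i, (‖d i‖ : ℂ) / d i = 1 := by rw [Finset.prod_div_distrib, hprod, hnp, div_one]
  set k : Gp n := dgT _ hk with hkd
  set k' : Gp n := dgT _ hk' with hkd'
  have hkk : k * k' = 1 := by
    apply gp_ext
    show Matrix.diagonal _ * Matrix.diagonal _ = _
    rw [Matrix.diagonal_mul_diagonal, coe_gone, ← Matrix.diagonal_one]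
    congr 1
    funext i
    have h1 := hd0 i
    have h2 := hn0 i
    field_simp
  have hkS : k ∈ SU n := by
    rw [mem_SU']
    show (Matrix.diagonal _)ᴴ * Matrix.diagonal _ = _
    rw [Matrix.diagonal_conjTranspose, Matrix.diagonal_mul_diagonal, ← Matrix.diagonal_one]
    congr 1
    funext i
    have h2 := hn0 i
    show (starRingEnd ℂ) (d i / (‖d i‖ : ℂ)) * (d i / (‖d i‖ : ℂ)) = 1
    rw [map_div₀, Complex.conj_ofReal, div_mul_div_comm, Complex.conj_mul', sq, div_self]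
    exact mul_ne_zero h2 h2
  have hg : IsU (dg H (-1) * (k' * b)) := by
    refine ⟨(isB_dgz _ _).mul' ((isB_dgT hk').mul' hb), fun i => ?_⟩
    rw [dg_mul_apply, coe_gmul]
    have h3 : ((k' : Matrix (Fin n) (Fin n) ℂ) * (b : Matrix (Fin n) (Fin n) ℂ)) i i =
        (‖d i‖ : ℂ) / d i * d i := by
      show (Matrix.diagonal (fun i => (‖d i‖ : ℂ) / d i) * (b : Matrix (Fin n) (Fin n) ℂ)) i i = _
      rw [Matrix.diagonal_mul]
    rw [h3, div_mul_cancel₀ _ (hd0 i)]
    have h4 : (-1 : ℂ) * (H.1 i : ℝ) = ((-Real.log ‖d i‖ : ℝ) : ℂ) := by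
      rw [Complex.ofReal_neg]
      show (-1 : ℂ) * (Real.log ‖d i‖ : ℂ) = _
      ring
    rw [h4, ← Complex.ofReal_exp, Real.exp_neg, Real.exp_log (norm_pos_iff.2 (hd0 i)),
      Complex.ofReal_inv, inv_mul_cancel₀ (hn0 i)]
  refine ⟨k, hkS, (H, co (dg H (-1) * (k' * b))), ?_⟩
  rw [bw]
  simp only
  rw [un_co hg, ← dg_inv, mul_inv_cancel_left, ← mul_assoc, hkk, one_mul]

/-- The left translates of a bounded set have bounded measure. -/
theorem muB_le (R : ℝ) : ∃ C : ℝ≥0∞, C ≠ ⊤ ∧ ∀ w₀ : aa n × (Up n → ℂ),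
    muB n {w | ∀ i j, ‖(((bw w)⁻¹ * bw w₀ : Gp n) : Matrix (Fin n) (Fin n) ℂ) i j‖ ≤ R} ≤ C := by
  set L : ℝ := Real.log (max R 1) with hL
  have hmax : (0 : ℝ) < max R 1 := lt_of_lt_of_le one_pos (le_max_right _ _)
  have hL0 : 0 ≤ L := Real.log_nonneg (le_max_right _ _)
  set M : ℝ := max R 1 * Real.exp (n * L) with hM
  set K : Set (Up n → ℂ) := {v | ∀ i j, ‖(((un v)⁻¹ : Gp n) : Matrix (Fin n) (Fin n) ℂ) i j‖ ≤ M}
    with hK
  have hentry : ∀ i j : Fin n, Continuous fun g : Gp n => (g : Matrix (Fin n) (Fin n) ℂ) i j :=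
    fun i j => ((continuous_apply j).comp ((continuous_apply i).comp continuous_subtype_val))
  have hKfin : volume K < ⊤ := by
    have h1 : K ⊆ (fun u => co (un u)⁻¹) '' Metric.closedBall (0 : Up n → ℂ) M := by
      intro v hv
      refine ⟨co (un v)⁻¹, ?_, ?_⟩
      · rw [mem_closedBall_zero_iff]
        rcases isEmpty_or_nonempty (Up n) with hE | hE
        · refine (pi_norm_le_iff_of_nonneg (by positivity)).2 fun p => hE.elim p
        · refine (pi_norm_le_iff_of_nonneg (by positivity)).2 fun p => hv p.1.1 p.1.2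
      · show co (un (co (un v)⁻¹))⁻¹ = v
        rw [un_co (isU_un v).inv, inv_inv, co_un]
    refine lt_of_le_of_lt (measure_mono h1) ?_
    refine IsCompact.measure_lt_top ((isCompact_closedBall _ _).image ?_)
    exact continuous_co.comp continuous_un.inv
  have hKc : IsClosed K := by
    have h1 : K = ⋂ i, ⋂ j, {v | ‖(((un v)⁻¹ : Gp n) : Matrix (Fin n) (Fin n) ℂ) i j‖ ≤ M} := by
      ext v
      simp [hK]
    rw [h1]
    refine isClosed_iInter fun i => isClosed_iInter fun j => ?_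
    exact isClosed_le ((hentry i j).comp continuous_un.inv).norm continuous_const
  refine ⟨(Measure.addHaar : Measure (aa n)) (Metric.closedBall 0 (n * L)) * volume K,
    ENNReal.mul_ne_top (isCompact_closedBall _ _).measure_lt_top.ne hKfin.ne, fun w₀ => ?_⟩
  set S : Set (aa n × (Up n → ℂ)) := {w | w.1 ∈ Metric.closedBall w₀.1 (n * L) ∧ ∀ i j,
    ‖(((un w.2)⁻¹ * un (dcj (w₀.1 - w.1) w₀.2) : Gp n) : Matrix (Fin n) (Fin n) ℂ) i j‖ ≤ M}
    with hS
  have hSc : IsClosed S := by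
    refine IsClosed.inter (Metric.isClosed_closedBall.preimage continuous_fst) ?_
    have h1 : {w : aa n × (Up n → ℂ) | ∀ i j,
        ‖(((un w.2)⁻¹ * un (dcj (w₀.1 - w.1) w₀.2) : Gp n) : Matrix (Fin n) (Fin n) ℂ) i j‖ ≤ M} =
        ⋂ i, ⋂ j, {w : aa n × (Up n → ℂ) |
          ‖(((un w.2)⁻¹ * un (dcj (w₀.1 - w.1) w₀.2) : Gp n) : Matrix (Fin n) (Fin n) ℂ) i j‖
            ≤ M} := by
      ext v
      simp
    show IsClosed {w : aa n × (Up n → ℂ) | ∀ i j,
      ‖(((un w.2)⁻¹ * un (dcj (w₀.1 - w.1) w₀.2) : Gp n) : Matrix (Fin n) (Fin n) ℂ) i j‖ ≤ M}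
    rw [h1]
    refine isClosed_iInter fun i => isClosed_iInter fun j => ?_
    refine isClosed_le ((hentry i j).comp ?_).norm continuous_const
    refine (continuous_un.comp continuous_snd).inv.mul (continuous_un.comp ?_)
    exact continuous_dcj.comp ((continuous_const.sub continuous_fst).prodMk continuous_const)
  have hsub : {w | ∀ i j, ‖(((bw w)⁻¹ * bw w₀ : Gp n) : Matrix (Fin n) (Fin n) ℂ) i j‖ ≤ R} ⊆
      S := by
    intro w hw
    have hw' : ∀ i j, ‖(((bw w)⁻¹ * bw w₀ : Gp n) : Matrix (Fin n) (Fin n) ℂ) i j‖ ≤ max R 1 :=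
      fun i j => (hw i j).trans (le_max_left _ _)
    have hy := bw_inv_mul w w₀
    have hU : IsU ((un w.2)⁻¹ * un (dcj (w₀.1 - w.1) w₀.2)) := (isU_un _).inv.mul (isU_un _)
    have hup : ∀ i, w₀.1.1 i - w.1.1 i ≤ L := by
      intro i
      have h1 := hw' i i
      rw [hy, mul_dg_apply, hU.2 i, one_mul, one_mul, ← Complex.ofReal_exp,
        Complex.norm_real, Real.norm_eq_abs, Real.abs_exp] at h1
      have h2 := Real.log_le_log (Real.exp_pos _) h1
      rw [Real.log_exp] at h2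
      exact h2
    have hlow : ∀ i, -(n * L) ≤ w₀.1.1 i - w.1.1 i := by
      intro i
      have h1 : ∑ j, (w₀.1.1 j - w.1.1 j) = 0 := by
        rw [Finset.sum_sub_distrib, aa_sum, aa_sum, sub_zero]
      rw [← Finset.add_sum_erase _ _ (Finset.mem_univ i)] at h1
      have h2 : ∑ j ∈ Finset.univ.erase i, (w₀.1.1 j - w.1.1 j) ≤
          ∑ j ∈ Finset.univ.erase i, L := Finset.sum_le_sum fun j _ => hup j
      rw [Finset.sum_const, Finset.card_erase_of_mem (Finset.mem_univ i), Finset.card_univ,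
        Fintype.card_fin, nsmul_eq_mul] at h2
      have h3 : ((n - 1 : ℕ) : ℝ) * L ≤ n * L :=
        mul_le_mul_of_nonneg_right (by exact_mod_cast Nat.sub_le n 1) hL0
      linarith
    have hnL : ∀ i, |w₀.1.1 i - w.1.1 i| ≤ n * L := by
      intro i
      refine abs_le.2 ⟨hlow i, (hup i).trans ?_⟩
      have h1 : (1 : ℝ) ≤ n := by
        have : 0 < n := i.pos
        exact_mod_cast this
      nlinarith
    refine ⟨?_, fun i j => ?_⟩
    · rw [Metric.mem_closedBall, dist_eq_norm]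
      show ‖((w.1 - w₀.1 : aa n) : Fin n → ℝ)‖ ≤ _
      refine (pi_norm_le_iff_of_nonneg (by positivity)).2 fun i => ?_
      rw [Submodule.coe_sub, Pi.sub_apply, Real.norm_eq_abs, abs_sub_comm]
      exact hnL i
    · have h1 : ((un w.2)⁻¹ * un (dcj (w₀.1 - w.1) w₀.2) : Gp n) =
          ((bw w)⁻¹ * bw w₀) * dg (w₀.1 - w.1) (-1) := by
        rw [hy, mul_assoc _ (dg _ _), ← dg_inv, mul_inv_cancel, mul_one]
      rw [h1, mul_dg_apply, norm_mul, hM]
      refine mul_le_mul (hw' i j) ?_ (norm_nonneg _) hmax.le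
      have h2 : (-1 : ℂ) * ((w₀.1 - w.1 : aa n).1 j : ℝ) = ((-(w₀.1.1 j - w.1.1 j) : ℝ) : ℂ) := by
        rw [Submodule.coe_sub, Pi.sub_apply]
        push_cast
        ring
      rw [h2, ← Complex.ofReal_exp, Complex.norm_real, Real.norm_eq_abs, Real.abs_exp]
      refine Real.exp_le_exp.2 ?_
      have h3 := (abs_le.1 (hnL j)).1
      linarith
  refine (measure_mono hsub).trans ?_
  rw [muB, Measure.prod_apply hSc.measurableSet]
  have hfib : ∀ H : aa n, volume (Prod.mk H ⁻¹' S) ≤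
      (Metric.closedBall w₀.1 (n * L)).indicator (fun _ => volume K) H := by
    intro H
    by_cases hH : H ∈ Metric.closedBall w₀.1 (n * L)
    · rw [Set.indicator_of_mem hH]
      set u₀' := dcj (w₀.1 - H) w₀.2 with hu₀
      have h1 : Prod.mk H ⁻¹' S =
          (fun u : Up n → ℂ => co (un (co (un u₀')⁻¹) * un u)) ⁻¹' K := by
        ext u
        have h2 : un (co (un (co (un u₀')⁻¹) * un u)) = (un u₀')⁻¹ * un u := by
          rw [un_co (isU_un u₀').inv, un_co ((isU_un u₀').inv.mul (isU_un u))]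
        simp only [Set.mem_preimage, hS, hK, Set.mem_ofPred_eq]
        rw [h2, _root_.mul_inv_rev, inv_inv]
        exact ⟨fun h => h.2, fun h => ⟨hH, h⟩⟩
      rw [h1, (mp_left (co (un u₀')⁻¹)).measure_preimage hKc.measurableSet.nullMeasurableSet]
    · rw [Set.indicator_of_notMem hH]
      have h1 : Prod.mk H ⁻¹' S = ∅ := by
        ext u
        simp only [Set.mem_preimage, hS, Set.mem_ofPred_eq, Set.mem_empty_iff_false, iff_false]
        exact fun h => hH h.1
      rw [h1, measure_empty]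
  refine (lintegral_mono hfib).trans (le_of_eq ?_)
  rw [lintegral_indicator Metric.isClosed_closedBall.measurableSet, setLIntegral_const, mul_comm]
  congr 1
  rw [← Measure.addHaar_closedBall_center _ w₀.1]

/-- The right translates of a neighbourhood of `1`. -/
theorem muB_ge : ∃ c : ℝ≥0∞, c ≠ 0 ∧ ∀ w₀ : aa n × (Up n → ℂ),
    c ≤ ∫⁻ w in {w | ∀ i j, ‖((bw w * (bw w₀)⁻¹ : Gp n) : Matrix (Fin n) (Fin n) ℂ) i j‖ ≤
        Real.exp 1},
      ENNReal.ofReal (Real.exp (2 * ∑ i, rho2 n i * w.1.1 i)) ∂(muB n) := by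
  set q : ℝ := 2 * ∑ i, |(rho2 n i : ℝ)| with hq
  set V1 : ℝ≥0∞ := volume {u : Up n → ℂ | ∀ p, ‖u p‖ ≤ 1} with hV1
  have hV1set : {u : Up n → ℂ | ∀ p, ‖u p‖ ≤ 1} = Metric.closedBall 0 1 := by
    ext u
    rw [mem_closedBall_zero_iff, pi_norm_le_iff_of_nonneg zero_le_one]
    rfl
  have hV0 : V1 ≠ 0 := by
    rw [hV1, hV1set]
    exact (Metric.measure_closedBall_pos _ _ one_pos).ne'
  refine ⟨ENNReal.ofReal (Real.exp (-q)) *
    ((Measure.addHaar : Measure (aa n)) (Metric.closedBall 0 1) * V1), ?_, fun w₀ => ?_⟩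
  · refine mul_ne_zero ?_ (mul_ne_zero (Metric.measure_closedBall_pos _ _ one_pos).ne' hV0)
    rw [ne_eq, ENNReal.ofReal_eq_zero, not_le]
    exact Real.exp_pos _
  set B : Set (Up n → ℂ) := {u | ∀ p, ‖dcj w₀.1 (co (un u * (un w₀.2)⁻¹)) p‖ ≤ 1} with hB
  have hentry : ∀ i j : Fin n, Continuous fun g : Gp n => (g : Matrix (Fin n) (Fin n) ℂ) i j :=
    fun i j => ((continuous_apply j).comp ((continuous_apply i).comp continuous_subtype_val))
  have hcj : Continuous fun u : Up n → ℂ => dcj w₀.1 u :=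
    continuous_dcj.comp (continuous_const.prodMk continuous_id)
  have hB' : IsClosed {u : Up n → ℂ | ∀ p, ‖dcj w₀.1 u p‖ ≤ 1} := by
    have h1 : {u : Up n → ℂ | ∀ p, ‖dcj w₀.1 u p‖ ≤ 1} = ⋂ p, {u | ‖dcj w₀.1 u p‖ ≤ 1} := by
      ext u
      simp
    rw [h1]
    exact isClosed_iInter fun p =>
      isClosed_le ((continuous_apply p).comp hcj).norm continuous_const
  have hBeq : B = (fun u : Up n → ℂ => co (un u * un (co (un w₀.2)⁻¹))) ⁻¹'
      {u : Up n → ℂ | ∀ p, ‖dcj w₀.1 u p‖ ≤ 1} := by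
    ext u
    simp only [hB, Set.mem_preimage, Set.mem_ofPred_eq]
    rw [un_co (isU_un w₀.2).inv]
  have hBc : MeasurableSet B := by
    rw [hBeq]
    exact (mp_right _).measurable hB'.measurableSet
  have hBvol : volume B = ENNReal.ofReal (Real.exp (-2 * ∑ i, rho2 n i * w₀.1.1 i)) * V1 := by
    rw [hBeq, (mp_right _).measure_preimage hB'.measurableSet.nullMeasurableSet, vol_dcj]
  have hsub : Metric.closedBall w₀.1 1 ×ˢ B ⊆
      {w | ∀ i j, ‖((bw w * (bw w₀)⁻¹ : Gp n) : Matrix (Fin n) (Fin n) ℂ) i j‖ ≤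
        Real.exp 1} := by
    rintro ⟨H, u⟩ ⟨hH, hu⟩ i j
    rw [bw_mul_inv, dg_mul_apply, norm_mul]
    simp only
    have hH2 : ‖((H - w₀.1 : aa n) : Fin n → ℝ)‖ ≤ 1 := by
      have h1 : dist H w₀.1 ≤ 1 := hH
      rw [dist_eq_norm] at h1
      exact h1
    have hH3 := (norm_le_pi_norm ((H - w₀.1 : aa n) : Fin n → ℝ) i).trans hH2
    have h5 : ‖Complex.exp (1 * (((H - w₀.1 : aa n) : Fin n → ℝ) i : ℝ))‖ ≤ Real.exp 1 := by
      rw [one_mul, ← Complex.ofReal_exp, Complex.norm_real, Real.norm_eq_abs, Real.abs_exp]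
      exact Real.exp_le_exp.2 ((le_abs_self _).trans hH3)
    have h6 : ‖(un (dcj w₀.1 (co (un u * (un w₀.2)⁻¹))) : Matrix (Fin n) (Fin n) ℂ) i j‖ ≤ 1 := by
      rcases lt_trichotomy i j with h | h | h
      · rw [un_apply_lt _ h]
        exact hu ⟨(i, j), h⟩
      · subst h
        rw [un_apply_self, norm_one]
      · rw [un_apply_gt _ h, norm_zero]
        exact zero_le_one
    calc _ ≤ Real.exp 1 * 1 := mul_le_mul h5 h6 (norm_nonneg _) (Real.exp_pos _).le
      _ = Real.exp 1 := mul_one _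
  have hSm : MeasurableSet (Metric.closedBall w₀.1 1 ×ˢ B) :=
    Metric.isClosed_closedBall.measurableSet.prod hBc
  refine le_trans ?_ (lintegral_mono_set hsub)
  have hge : ∀ w ∈ Metric.closedBall w₀.1 1 ×ˢ B,
      ENNReal.ofReal (Real.exp (2 * ∑ i, rho2 n i * w₀.1.1 i - q)) ≤
        ENNReal.ofReal (Real.exp (2 * ∑ i, rho2 n i * w.1.1 i)) := by
    rintro ⟨H, u⟩ ⟨hH, -⟩
    refine ENNReal.ofReal_le_ofReal (Real.exp_le_exp.2 ?_)
    simp only
    have hH2 : ‖((H - w₀.1 : aa n) : Fin n → ℝ)‖ ≤ 1 := by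
      have h1 : dist H w₀.1 ≤ 1 := hH
      rw [dist_eq_norm] at h1
      exact h1
    have h7 : ∑ i, (rho2 n i : ℝ) * w₀.1.1 i - ∑ i, (rho2 n i : ℝ) * H.1 i ≤
        ∑ i, |(rho2 n i : ℝ)| := by
      rw [← Finset.sum_sub_distrib]
      refine Finset.sum_le_sum fun i _ => ?_
      have hH3 := (norm_le_pi_norm ((H - w₀.1 : aa n) : Fin n → ℝ) i).trans hH2
      rw [Submodule.coe_sub, Pi.sub_apply, Real.norm_eq_abs, abs_sub_comm] at hH3
      rw [← mul_sub]
      calc (rho2 n i : ℝ) * (w₀.1.1 i - H.1 i) ≤ |(rho2 n i : ℝ) * (w₀.1.1 i - H.1 i)| :=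
            le_abs_self _
        _ = |(rho2 n i : ℝ)| * |w₀.1.1 i - H.1 i| := abs_mul _ _
        _ ≤ |(rho2 n i : ℝ)| * 1 := mul_le_mul_of_nonneg_left hH3 (abs_nonneg _)
        _ = |(rho2 n i : ℝ)| := mul_one _
    rw [hq]
    linarith
  refine le_trans (le_of_eq ?_) (setLIntegral_mono' hSm hge)
  rw [setLIntegral_const, muB, Measure.prod_prod, hBvol, Measure.addHaar_closedBall_center _ w₀.1]
  have h8 : Real.exp (-q) = Real.exp (2 * ∑ i, rho2 n i * w₀.1.1 i - q) *
      Real.exp (-2 * ∑ i, rho2 n i * w₀.1.1 i) := by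
    rw [← Real.exp_add]
    congr 1
    ring
  rw [h8, ENNReal.ofReal_mul (Real.exp_pos _).le]
  ring

end Pool.Agent.SG
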