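import Pool.Agent.H.MP_e23cd6_ag.SG.KB
import Pool.Agent.H.MP_e23cd6_ag.SG.If

/-!
# The average of `‖b v‖ ^ (-2/m)` over the group `A N`

`gden V m χ v b = (‖b v‖ exp (∑ χ_i h_i(b))) ^ (-2/m)`, and `FF` is its integral over `A N` with the
right Haar measure `exp (2 ∑ rho2_i H_i) muB`. It bounds the values of invariants from below.
-/

set_option autoImplicit false

open Matrix MeasureTheory
open scoped ENNReal

namespace Pool.Agent.SG

variable {n : ℕ} {κ : Type} [Fintype κ] [DecidableEq κ] (V : Rep n κ)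

/-- The function `(‖b v‖ exp (∑ χ_i h_i(b))) ^ (-2/m)`. -/
noncomputable def gden (m : ℕ) (χ : Fin n → ℤ) (v : κ → ℂ) (b : Gp n) : ℝ≥0∞ :=
  ENNReal.ofReal (nm (V.act b v) * Real.exp (∑ i, χ i * hw b i)) ^ (-(2 : ℝ) / m)

/-! ## Auxiliary facts -/

theorem KF_anti {x y : ℝ≥0∞} (h : x ≤ y) {z : ℝ} (hz : z ≤ 0) : y ^ z ≤ x ^ z := by
  have h1 : x ^ (-z) ≤ y ^ (-z) := ENNReal.rpow_le_rpow h (neg_nonneg.2 hz)
  have h2 := ENNReal.inv_le_inv.2 h1
  rwa [← ENNReal.rpow_neg, ← ENNReal.rpow_neg, neg_neg] at h2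

theorem KF_exp_nonpos (m : ℕ) : -(2 : ℝ) / m ≤ 0 :=
  div_nonpos_of_nonpos_of_nonneg (by norm_num) (Nat.cast_nonneg m)

omit [DecidableEq κ] in
theorem KF_ns_nonneg (v : κ → ℂ) : 0 ≤ ns v := Finset.sum_nonneg fun _ _ => by positivity

omit [DecidableEq κ] in
theorem KF_nm_nonneg (v : κ → ℂ) : 0 ≤ nm v := Real.sqrt_nonneg _

omit [DecidableEq κ] in
theorem KF_ns_zero {v : κ → ℂ} (h : ns v = 0) : v = 0 := by
  funext i
  have h1 := (Finset.sum_eq_zero_iff_of_nonneg (fun i _ => by positivity)).1 h i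
    (Finset.mem_univ i)
  have h2 : ‖v i‖ = 0 := by
    rcases pow_eq_zero_iff (two_ne_zero) |>.1 h1 with h3
    exact h3
  simpa using h2

omit [DecidableEq κ] in
theorem KF_ns_mulVec (M : Matrix κ κ ℂ) (v : κ → ℂ) :
    ns (M *ᵥ v) ≤ (∑ i, ∑ j, ‖M i j‖ ^ 2) * ns v := by
  unfold ns
  rw [Finset.sum_mul]
  refine Finset.sum_le_sum fun i _ => ?_
  have h1 : ‖(M *ᵥ v) i‖ ≤ ∑ j, ‖M i j‖ * ‖v j‖ := by
    show ‖∑ j, M i j * v j‖ ≤ _
    refine (norm_sum_le _ _).trans (Finset.sum_le_sum fun j _ => ?_)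
    rw [norm_mul]
  calc ‖(M *ᵥ v) i‖ ^ 2 ≤ (∑ j, ‖M i j‖ * ‖v j‖) ^ 2 := pow_le_pow_left₀ (norm_nonneg _) h1 2
    _ ≤ _ := Finset.sum_mul_sq_le_sq_mul_sq _ _ _

omit [DecidableEq κ] in
theorem KF_nm_mulVec (M : Matrix κ κ ℂ) (v : κ → ℂ) :
    nm (M *ᵥ v) ≤ Real.sqrt (∑ i, ∑ j, ‖M i j‖ ^ 2) * nm v := by
  unfold nm
  rw [← Real.sqrt_mul (Finset.sum_nonneg fun _ _ => Finset.sum_nonneg fun _ _ => by positivity)]
  exact Real.sqrt_le_sqrt (KF_ns_mulVec M v)

theorem KF_ns_unitary {M : Matrix κ κ ℂ} (hM : Mᴴ * M = 1) (v : κ → ℂ) : ns (M *ᵥ v) = ns v := by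
  have key : ∀ w : κ → ℂ, ((ns w : ℝ) : ℂ) = star w ⬝ᵥ w := by
    intro w
    unfold ns
    push_cast
    refine Finset.sum_congr rfl fun i _ => ?_
    show (‖w i‖ : ℂ) ^ 2 = star (w i) * w i
    rw [← Complex.conj_mul']
    rfl
  have h1 : ((ns (M *ᵥ v) : ℝ) : ℂ) = ((ns v : ℝ) : ℂ) := by
    rw [key, key, Matrix.star_mulVec, Matrix.dotProduct_mulVec, Matrix.vecMul_vecMul, hM,
      Matrix.vecMul_one]
  exact_mod_cast h1

theorem KF_act_mul (g h : Gp n) (v : κ → ℂ) : V.act (g * h) v = V.act g (V.act h v) := by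
  unfold Rep.act
  rw [map_mul, Matrix.mulVec_mulVec]

theorem KF_nm_SU {k : Gp n} (hk : k ∈ SU n) (v : κ → ℂ) : nm (V.act k v) = nm v := by
  unfold nm Rep.act
  rw [KF_ns_unitary]
  rw [← V.star, ← map_mul, mem_SU.1 hk, inv_mul_cancel, map_one]

theorem KF_gden_SU (m : ℕ) (χ : Fin n → ℤ) {k : Gp n} (hk : k ∈ SU n) (v : κ → ℂ) (g : Gp n) :
    gden V m χ v (k * g) = gden V m χ v g := by
  unfold gden
  rw [hw_SU hk, KF_act_mul, KF_nm_SU V hk]

theorem KF_hw_mul {b : Gp n} (hb : IsB b) (g : Gp n) (i : Fin n) :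
    hw (g * b) i = hw g i + hw b i := by
  have h1 := hw_B hb 1 i
  rw [one_mul, hw_one, zero_add] at h1
  rw [hw_B hb g i, h1]

theorem KF_act_ne {v : κ → ℂ} (hv : v ≠ 0) (g : Gp n) : 0 < nm (V.act g v) := by
  have h1 : V.act g v ≠ 0 := by
    intro h
    apply hv
    have h2 : V.act (g⁻¹ * g) v = 0 := by
      rw [KF_act_mul, h]
      unfold Rep.act
      exact Matrix.mulVec_zero _
    rw [inv_mul_cancel] at h2
    unfold Rep.act at h2
    rwa [map_one, Matrix.one_mulVec] at h2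
  have h2 : ns (V.act g v) ≠ 0 := fun h => h1 (KF_ns_zero h)
  exact Real.sqrt_pos.2 (lt_of_le_of_ne (KF_ns_nonneg _) h2.symm)

theorem measurable_gden (m : ℕ) (χ : Fin n → ℤ) :
    Measurable fun x : (κ → ℂ) × (aa n × (Up n → ℂ)) => gden V m χ x.1 (bw x.2) := by
  have hb : Continuous fun x : (κ → ℂ) × (aa n × (Up n → ℂ)) => bw x.2 :=
    continuous_bw.comp continuous_snd
  have h1 : Continuous fun x : (κ → ℂ) × (aa n × (Up n → ℂ)) => V.act (bw x.2) x.1 := by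
    unfold Rep.act
    exact (V.cont.comp hb).matrix_mulVec continuous_fst
  have h2 : Continuous fun x : (κ → ℂ) × (aa n × (Up n → ℂ)) => nm (V.act (bw x.2) x.1) := by
    unfold nm ns
    refine Real.continuous_sqrt.comp (continuous_finsetSum _ fun i _ => ?_)
    exact (((continuous_apply i).comp h1).norm).pow 2
  have h3 : Continuous fun x : (κ → ℂ) × (aa n × (Up n → ℂ)) =>
      Real.exp (∑ i, χ i * hw (bw x.2) i) := by
    refine Real.continuous_exp.comp (continuous_finsetSum _ fun i _ => ?_)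
    exact continuous_const.mul ((hw_cont i).comp hb)
  unfold gden
  exact ((h2.mul h3).measurable.ennreal_ofReal).pow_const _

/-- The integral of `gden` with respect to the right Haar measure. -/
noncomputable def FF (m : ℕ) (χ : Fin n → ℤ) (v : κ → ℂ) : ℝ≥0∞ :=
  ∫⁻ w, gden V m χ v (bw w) * ENNReal.ofReal (Real.exp (2 * ∑ i, rho2 n i * w.1.1 i)) ∂(muB n)

/-- Comparison of `gden` at `x b` and at `b`, for `x` in a compact set. -/
theorem gden_mul (m : ℕ) (χ : Fin n → ℤ) (R : ℝ) : ∃ c : ℝ≥0∞, c ≠ 0 ∧ c ≠ ⊤ ∧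
    ∀ (v : κ → ℂ) (b c' : Gp n), IsB b → IsB c' →
      (∀ i j, ‖((c' * b⁻¹ : Gp n) : Matrix (Fin n) (Fin n) ℂ) i j‖ ≤ R) →
      c * gden V m χ v b ≤ gden V m χ v c' := by
  obtain ⟨B, hB⟩ : ∃ B : ℝ, B = n * (n * R ^ 2) + 1 := ⟨_, rfl⟩
  have hB1 : 1 ≤ B := by
    rw [hB]
    have : 0 ≤ (n : ℝ) * (n * R ^ 2) := by positivity
    linarith
  have hK := sz_compact (n := n) (Real.log B)
  obtain ⟨C1, hC1⟩ := hK.exists_bound_of_continuousOn
    (f := fun x : Gp n => ∑ i, ∑ j, ‖V.ρ x i j‖ ^ 2) (by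
      refine Continuous.continuousOn ?_
      refine continuous_finsetSum _ fun i _ => continuous_finsetSum _ fun j _ => ?_
      exact ((V.cont.matrix_elem i j).norm).pow 2)
  have hC2 : ∀ i, ∃ C : ℝ, ∀ x ∈ {g : Gp n | sz g ≤ Real.log B}, ‖hw x i‖ ≤ C := fun i =>
    hK.exists_bound_of_continuousOn (hw_cont i).continuousOn
  choose C2 hC2 using hC2
  obtain ⟨D, hD⟩ : ∃ D : ℝ, D = ∑ i, |(χ i : ℝ)| * C2 i := ⟨_, rfl⟩
  obtain ⟨A, hA⟩ : ∃ A : ℝ, A = (Real.sqrt C1 + 1) * Real.exp D := ⟨_, rfl⟩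
  have hA0 : 0 < A := by
    rw [hA]
    have := Real.sqrt_nonneg C1
    positivity
  refine ⟨ENNReal.ofReal A ^ (-(2 : ℝ) / m), ?_, ?_, ?_⟩
  · rw [Ne, ENNReal.rpow_eq_zero_iff]
    rintro (⟨h1, -⟩ | ⟨h1, -⟩)
    · exact absurd (ENNReal.ofReal_eq_zero.1 h1) (not_le.2 hA0)
    · exact ENNReal.ofReal_ne_top h1
  · rw [Ne, ENNReal.rpow_eq_top_iff]
    rintro (⟨h1, -⟩ | ⟨h1, -⟩)
    · exact absurd (ENNReal.ofReal_eq_zero.1 h1) (not_le.2 hA0)
    · exact ENNReal.ofReal_ne_top h1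
  · intro v b c' hb _ hx
    obtain ⟨x, hxd⟩ : ∃ x : Gp n, x = c' * b⁻¹ := ⟨_, rfl⟩
    rw [← hxd] at hx
    have hc' : c' = x * b := by rw [hxd, inv_mul_cancel_right]
    have hxs : x ∈ {g : Gp n | sz g ≤ Real.log B} := by
      show Real.log _ ≤ Real.log B
      have h1 : (∑ i, ∑ j, ‖(x : Matrix (Fin n) (Fin n) ℂ) i j‖ ^ 2) ≤ B := by
        have h2 : (∑ i, ∑ j, ‖(x : Matrix (Fin n) (Fin n) ℂ) i j‖ ^ 2) ≤
            ∑ _i : Fin n, ∑ _j : Fin n, R ^ 2 :=
          Finset.sum_le_sum fun i _ => Finset.sum_le_sum fun j _ =>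
            pow_le_pow_left₀ (norm_nonneg _) (hx i j) 2
        simp only [Finset.sum_const, Finset.card_univ, Fintype.card_fin, nsmul_eq_mul] at h2
        linarith
      have h0 : 0 ≤ ∑ i, ∑ j, ‖(x : Matrix (Fin n) (Fin n) ℂ) i j‖ ^ 2 :=
        Finset.sum_nonneg fun _ _ => Finset.sum_nonneg fun _ _ => by positivity
      rcases h0.eq_or_lt with h2 | h2
      · rw [← h2, Real.log_zero]
        exact Real.log_nonneg hB1
      · exact Real.log_le_log h2 h1
    have hnm : nm (V.act (x * b) v) ≤ (Real.sqrt C1 + 1) * nm (V.act b v) := by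
      rw [KF_act_mul]
      refine (KF_nm_mulVec (V.ρ x) (V.act b v)).trans ?_
      refine mul_le_mul_of_nonneg_right ?_ (KF_nm_nonneg _)
      have h1 := hC1 x hxs
      rw [Real.norm_of_nonneg (Finset.sum_nonneg fun _ _ => Finset.sum_nonneg fun _ _ => by
        positivity)] at h1
      exact (Real.sqrt_le_sqrt h1).trans (by linarith)
    have hexp : Real.exp (∑ i, χ i * hw (x * b) i) ≤
        Real.exp D * Real.exp (∑ i, χ i * hw b i) := by
      rw [← Real.exp_add]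
      refine Real.exp_le_exp.2 ?_
      rw [hD, ← Finset.sum_add_distrib]
      refine Finset.sum_le_sum fun i _ => ?_
      rw [KF_hw_mul hb, mul_add]
      have h1 : (χ i : ℝ) * hw x i ≤ |(χ i : ℝ)| * C2 i :=
        calc (χ i : ℝ) * hw x i ≤ |(χ i : ℝ) * hw x i| := le_abs_self _
          _ = |(χ i : ℝ)| * |hw x i| := abs_mul _ _
          _ ≤ _ := mul_le_mul_of_nonneg_left (hC2 i x hxs) (abs_nonneg _)
      linarith
    rw [hc']
    unfold gden
    rw [← ENNReal.mul_rpow_of_ne_top ENNReal.ofReal_ne_top ENNReal.ofReal_ne_top,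
      ← ENNReal.ofReal_mul hA0.le]
    refine KF_anti (ENNReal.ofReal_le_ofReal ?_) (KF_exp_nonpos m)
    calc nm (V.act (x * b) v) * Real.exp (∑ i, χ i * hw (x * b) i)
        ≤ ((Real.sqrt C1 + 1) * nm (V.act b v)) * (Real.exp D * Real.exp (∑ i, χ i * hw b i)) :=
          mul_le_mul hnm hexp (Real.exp_nonneg _) (by
            have := Real.sqrt_nonneg C1
            have := KF_nm_nonneg (V.act b v)
            positivity)
      _ = _ := by
          rw [hA]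
          ring

theorem gden_le_FF (m : ℕ) (χ : Fin n → ℤ) : ∃ C : ℝ≥0∞, C ≠ ⊤ ∧
    ∀ (v : κ → ℂ) (g : Gp n), gden V m χ v g ≤ C * FF V m χ v := by
  obtain ⟨c, hc0, hct, hc⟩ := gden_mul V m χ (Real.exp 1)
  obtain ⟨c', hc'0, hc'⟩ := muB_ge (n := n)
  obtain ⟨d, hd⟩ : ∃ d : ℝ≥0∞, d = c * min c' 1 := ⟨_, rfl⟩
  have hm0 : min c' 1 ≠ 0 := by
    intro h
    rcases min_eq_iff.1 h with ⟨h1, -⟩ | ⟨h1, -⟩
    · exact hc'0 h1
    · exact one_ne_zero h1
  have hd0 : d ≠ 0 := by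
    rw [hd]
    exact mul_ne_zero hc0 hm0
  have hdt : d ≠ ⊤ := by
    rw [hd]
    exact ENNReal.mul_ne_top hct (ne_top_of_le_ne_top ENNReal.one_ne_top (min_le_right _ _))
  refine ⟨d⁻¹, ENNReal.inv_ne_top.2 hd0, fun v g => ?_⟩
  obtain ⟨k, hk, b, hb, rfl⟩ := iwasawa g
  obtain ⟨k', hk', w₀, rfl⟩ := exists_bw hb
  rw [KF_gden_SU V m χ hk, KF_gden_SU V m χ hk']
  have key : d * gden V m χ v (bw w₀) ≤ FF V m χ v := by
    obtain ⟨S, hS⟩ : ∃ S : Set (aa n × (Up n → ℂ)), S = {w | ∀ i j,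
        ‖((bw w * (bw w₀)⁻¹ : Gp n) : Matrix (Fin n) (Fin n) ℂ) i j‖ ≤ Real.exp 1} := ⟨_, rfl⟩
    have hSm : MeasurableSet S := by
      have h1 : IsClosed S := by
        have h2 : S = ⋂ i, ⋂ j, {w | ‖((bw w * (bw w₀)⁻¹ : Gp n) :
            Matrix (Fin n) (Fin n) ℂ) i j‖ ≤ Real.exp 1} := by
          rw [hS]
          ext w
          simp only [Set.mem_ofPred_eq, Set.mem_iInter]
        rw [h2]
        refine isClosed_iInter fun i => isClosed_iInter fun j => ?_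
        refine isClosed_le ?_ continuous_const
        have h3 : Continuous fun w : aa n × (Up n → ℂ) =>
            ((bw w * (bw w₀)⁻¹ : Gp n) : Matrix (Fin n) (Fin n) ℂ) :=
          continuous_subtype_val.comp (continuous_bw.mul continuous_const)
        exact (h3.matrix_elem i j).norm
      exact h1.measurableSet
    have hmeas : Measurable fun w : aa n × (Up n → ℂ) =>
        ENNReal.ofReal (Real.exp (2 * ∑ i, rho2 n i * w.1.1 i)) := by
      refine Measurable.ennreal_ofReal (Continuous.measurable ?_)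
      refine Real.continuous_exp.comp (continuous_const.mul (continuous_finsetSum _ fun i _ => ?_))
      refine continuous_const.mul ?_
      exact (continuous_apply i).comp (continuous_subtype_val.comp continuous_fst)
    have h1 : c * gden V m χ v (bw w₀) * (∫⁻ w in S,
        ENNReal.ofReal (Real.exp (2 * ∑ i, rho2 n i * w.1.1 i)) ∂(muB n)) ≤ FF V m χ v := by
      rw [← lintegral_const_mul _ hmeas]
      refine (setLIntegral_mono' hSm fun w hw => ?_).trans (setLIntegral_le_lintegral S _)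
      rw [hS] at hw
      exact mul_le_mul' (hc v (bw w₀) (bw w) (isB_bw w₀) (isB_bw w) hw) le_rfl
    refine le_trans ?_ h1
    rw [hd, mul_assoc, mul_comm (min c' 1), ← mul_assoc]
    refine mul_le_mul' le_rfl ((min_le_left _ _).trans ?_)
    rw [hS]
    exact hc' w₀
  calc gden V m χ v (bw w₀) = d⁻¹ * (d * gden V m χ v (bw w₀)) := by
        rw [← mul_assoc, ENNReal.inv_mul_cancel hd0 hdt, one_mul]
    _ ≤ _ := mul_le_mul' le_rfl key

/-- The average bounds the values of the invariants from below. -/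
theorem exists_FF_inv {m : ℕ} (hm : 1 ≤ m) {χ : Fin n → ℤ} (hχ : Antitone χ) :
    ∃ N : ℕ, 2 ≤ N ∧ ∃ (T : Finset (MvPolynomial κ ℂ)) (C : ℝ≥0∞), C ≠ ⊤ ∧
      (∀ p ∈ T, p ∈ BPoly V N (fun i => N * χ i)) ∧
      ∀ v : κ → ℂ, (∑ p ∈ T, ‖MvPolynomial.eval v p‖ₑ) ^ (-(2 : ℝ) / (m * N : ℕ)) ≤
        C * FF V m χ v := by
  classical
  have hm0 : (0 : ℝ) < m := by exact_mod_cast hm
  obtain ⟨N₀, hN₀, T₀, c₀, hc₀, hT₀, hinv⟩ := exists_inv_unif V hχ
  have hN0 : (0 : ℝ) < N₀ := by exact_mod_cast hN₀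
  obtain ⟨C₁, hC₁, hle⟩ := gden_le_FF V m χ
  obtain ⟨a, ha⟩ : ∃ a : ℝ, a = (c₀ ^ 2) ^ (-(2 : ℝ) / (m * (2 * N₀) : ℕ)) := ⟨_, rfl⟩
  have ha0 : 0 < a := by
    rw [ha]
    exact Real.rpow_pos_of_pos (by positivity) _
  refine ⟨2 * N₀, by omega, T₀.image (fun p => p ^ 2), ENNReal.ofReal a * C₁ + 1, ?_, ?_, ?_⟩
  · exact ENNReal.add_ne_top.2 ⟨ENNReal.mul_ne_top ENNReal.ofReal_ne_top hC₁, ENNReal.one_ne_top⟩
  · intro p hp
    obtain ⟨q, hq, rfl⟩ := Finset.mem_image.1 hp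
    have h1 := BPoly_pow V (hT₀ q hq) 2
    have h2 : (fun i => ((2 : ℕ) : ℤ) * ((N₀ : ℤ) * χ i)) =
        fun i => (((2 * N₀ : ℕ) : ℤ)) * χ i := by
      funext i
      push_cast
      ring
    rw [h2] at h1
    exact h1
  · intro v
    by_cases hF : FF V m χ v = ⊤
    · rw [hF, ENNReal.mul_top (by simp)]
      exact le_top
    have hneg : -(2 : ℝ) / m < 0 := div_neg_of_neg_of_pos (by norm_num) hm0
    have hv : v ≠ 0 := by
      rintro rfl
      have h1 := hle 0 (1 : Gp n)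
      have h2 : gden V m χ (0 : κ → ℂ) 1 = ⊤ := by
        unfold gden
        have h3 : nm (V.act 1 (0 : κ → ℂ)) = 0 := by
          unfold nm ns Rep.act
          simp
        rw [h3, zero_mul, ENNReal.ofReal_zero, ENNReal.zero_rpow_of_neg hneg]
      rw [h2] at h1
      exact ENNReal.mul_ne_top hC₁ hF (top_le_iff.1 h1)
    obtain ⟨f, hf⟩ : ∃ f : ℝ, f = (C₁ * FF V m χ v).toReal := ⟨_, rfl⟩
    have hfin : C₁ * FF V m χ v ≠ ⊤ := ENNReal.mul_ne_top hC₁ hF
    have hfe : ENNReal.ofReal f = C₁ * FF V m χ v := by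
      rw [hf]
      exact ENNReal.ofReal_toReal hfin
    have hy0 : ∀ g : Gp n, 0 < nm (V.act g v) * Real.exp (∑ i, χ i * hw g i) := fun g =>
      mul_pos (KF_act_ne V hv g) (Real.exp_pos _)
    have hyf : ∀ g : Gp n,
        (nm (V.act g v) * Real.exp (∑ i, χ i * hw g i)) ^ (-(2 : ℝ) / m) ≤ f := by
      intro g
      have h1 := hle v g
      unfold gden at h1
      rw [ENNReal.ofReal_rpow_of_pos (hy0 g)] at h1
      rw [hf]
      exact (ENNReal.ofReal_le_iff_le_toReal hfin).1 h1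
    have hf0 : 0 < f := lt_of_lt_of_le (Real.rpow_pos_of_pos (hy0 1) _) (hyf 1)
    obtain ⟨p, hp, hpv⟩ := hinv v hv (-(m / 2) * Real.log f) (fun g => by
      have h1 := Real.log_le_log (Real.rpow_pos_of_pos (hy0 g) _) (hyf g)
      rw [Real.log_rpow (hy0 g), Real.log_mul (KF_act_ne V hv g).ne' (Real.exp_ne_zero _),
        Real.log_exp] at h1
      have h2 : Real.log (nm (V.act g v)) = Real.log (ns (V.act g v)) / 2 := by
        unfold nm
        rw [Real.log_sqrt (KF_ns_nonneg _)]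
      unfold Jf
      rw [← h2]
      have h3 : (-(2 : ℝ) / m) * (-(m / 2)) = 1 := by
        field_simp
      have h4 : -((m : ℝ) / 2) ≤ 0 := by
        have : (0 : ℝ) < m / 2 := by positivity
        linarith
      have h5 := mul_le_mul_of_nonpos_left h1 h4
      calc -((m : ℝ) / 2) * Real.log f ≤ -((m : ℝ) / 2) * (-2 / m *
            (Real.log (nm (V.act g v)) + ∑ i, (χ i : ℝ) * hw g i)) := h5
        _ = (-2 / m * (-(m / 2))) * (Real.log (nm (V.act g v)) + ∑ i, (χ i : ℝ) * hw g i) := by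
            ring
        _ = _ := by rw [h3, one_mul])
    obtain ⟨E, hE⟩ : ∃ E : ℝ, E = Real.exp (N₀ * (-(m / 2) * Real.log f)) := ⟨_, rfl⟩
    rw [← hE] at hpv
    have hE0 : 0 < E := by
      rw [hE]
      exact Real.exp_pos _
    -- the lower bound of the sum
    have h1 : ENNReal.ofReal (c₀ ^ 2 * E ^ 2) ≤
        ∑ q ∈ T₀.image (fun p => p ^ 2), ‖MvPolynomial.eval v q‖ₑ := by
      refine le_trans ?_ (Finset.single_le_sum (fun _ _ => bot_le)
        (Finset.mem_image.2 ⟨p, hp, rfl⟩))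
      rw [map_pow, ← ofReal_norm, norm_pow]
      refine ENNReal.ofReal_le_ofReal ?_
      rw [← mul_pow]
      exact pow_le_pow_left₀ (by positivity) hpv 2
    have hneg' : -(2 : ℝ) / (m * (2 * N₀) : ℕ) ≤ 0 :=
      div_nonpos_of_nonpos_of_nonneg (by norm_num) (Nat.cast_nonneg _)
    refine (KF_anti h1 hneg').trans ?_
    rw [ENNReal.ofReal_rpow_of_pos (by positivity), Real.mul_rpow (by positivity) (by positivity),
      ← ha]
    have h2 : (E ^ 2) ^ (-(2 : ℝ) / (m * (2 * N₀) : ℕ)) = f := by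
      rw [hE, ← Real.exp_nat_mul, ← Real.exp_mul]
      have h3 : ((2 : ℕ) : ℝ) * (N₀ * (-(m / 2) * Real.log f)) *
          (-(2 : ℝ) / (m * (2 * N₀) : ℕ)) = Real.log f := by
        push_cast
        field_simp
      rw [h3, Real.exp_log hf0]
    rw [h2, ENNReal.ofReal_mul ha0.le, hfe, ← mul_assoc]
    exact mul_le_mul' le_self_add le_rfl

end Pool.Agent.SG
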