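import Pool.Agent.H.MP_e23cd6_ag.SG.KM
import Pool.Agent.H.MP_e23cd6_ag.SG.KF

/-!
# The density `‖v‖ ^ (-2/m) |t| ^ (-δ)` and its translates
-/

set_option autoImplicit false

open scoped Manifold ContDiff Topology ENNReal
open MeasureTheory Set Filter

namespace Pool.Agent.SG

open Pool.Agent.Abd Pool.Agent.Abn

variable {E : Type} [NormedAddCommGroup E] [NormedSpace ℂ E] {n : ℕ}
  {X₀ X : Type} [TopologicalSpace X₀] [ChartedSpace E X₀] [TopologicalSpace X]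
  {N : NSp E X₀ X} {L P : NLine N} (A : GAct n N)

theorem reg_one (y : X₀) : A.reg 1 y = y := by
  apply N.emb.injective
  rw [← A.inc, A.one]

theorem reg_mul (g h : Gp n) (y : X₀) : A.reg (g * h) y = A.reg g (A.reg h y) := by
  apply N.emb.injective
  rw [← A.inc, A.mul, A.inc, A.inc]

theorem reg_inv_reg (g : Gp n) (y : X₀) : A.reg g⁻¹ (A.reg g y) = y := by
  rw [← reg_mul, inv_mul_cancel, reg_one]

theorem reg_reg_inv (g : Gp n) (y : X₀) : A.reg g (A.reg g⁻¹ y) = y := by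
  rw [← reg_mul, mul_inv_cancel, reg_one]

theorem reg_contMDiff (g : Gp n) : ContMDiff 𝓘(ℂ, E) 𝓘(ℂ, E) ω (A.reg g) := by
  have h1 : HolCurve (fun _ : ℂ => g) := fun _ _ => differentiable_const _
  exact (A.hol _ h1).comp (contMDiff_const.prodMk contMDiff_id :
    ContMDiff 𝓘(ℂ, E) (𝓘(ℂ).prod 𝓘(ℂ, E)) ω fun y : X₀ => ((0 : ℂ), y))

theorem reg_continuous (g : Gp n) : Continuous (A.reg g) := (reg_contMDiff A g).continuous

/-- The action on the regular part is continuous. -/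
theorem reg_cont : Continuous fun v : Gp n × X₀ => A.reg v.1 v.2 := by
  rw [N.emb.continuous_iff]
  have h1 : (N.inc ∘ fun v : Gp n × X₀ => A.reg v.1 v.2) = fun v => A.act v.1 (N.inc v.2) := by
    funext v
    exact (A.inc _ _).symm
  rw [h1]
  exact A.cont.comp (continuous_fst.prodMk (N.emb.continuous.comp continuous_snd))

/-- The homeomorphism `y ↦ g y`. -/
noncomputable def gHomeo (g : Gp n) : X₀ ≃ₜ X₀ where
  toFun := A.reg g
  invFun := A.reg g⁻¹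
  left_inv := reg_inv_reg A g
  right_inv := reg_reg_inv A g
  continuous_toFun := reg_continuous A g
  continuous_invFun := reg_continuous A g⁻¹

/-- The chart `y ↦ φ (g y)`. -/
noncomputable def gpull (g : Gp n) (φ : OpenPartialHomeomorph X₀ E) :
    OpenPartialHomeomorph X₀ E := (gHomeo A g).toOpenPartialHomeomorph.trans φ

theorem mem_gpull_source (g : Gp n) (φ : OpenPartialHomeomorph X₀ E) (y : X₀) :
    y ∈ (gpull A g φ).source ↔ A.reg g y ∈ φ.source := by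
  simp [gpull, gHomeo]

theorem gpull_apply (g : Gp n) (φ : OpenPartialHomeomorph X₀ E) (y : X₀) :
    gpull A g φ y = φ (A.reg g y) := rfl

theorem gpull_symm_apply (g : Gp n) (φ : OpenPartialHomeomorph X₀ E) (z : E) :
    (gpull A g φ).symm z = A.reg g⁻¹ (φ.symm z) := rfl

theorem gpull_target (g : Gp n) (φ : OpenPartialHomeomorph X₀ E) :
    (gpull A g φ).target = φ.target := by
  simp [gpull, gHomeo]

theorem gpull_mem [IsManifold 𝓘(ℂ, E) ω X₀] (g : Gp n) {φ : OpenPartialHomeomorph X₀ E}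
    (hφ : φ ∈ Charts E X₀) : gpull A g φ ∈ Charts E X₀ := by
  apply OpenPartialHomeomorph.mem_maximalAtlas_of_contMDiffOn
  · intro y hy
    apply ContMDiffAt.contMDiffWithinAt
    rw [mem_gpull_source] at hy
    exact ContMDiffAt.comp (g := φ) (f := A.reg g) y (contMDiffAt_of_mem_maximalAtlas hφ hy)
      (reg_contMDiff A g y)
  · intro w hw
    apply ContMDiffAt.contMDiffWithinAt
    rw [gpull_target] at hw
    exact ContMDiffAt.comp (g := A.reg g⁻¹) (f := φ.symm) w (reg_contMDiff A g⁻¹ (φ.symm w))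
      (contMDiffAt_symm_of_mem_maximalAtlas hφ hw)

theorem KD_anti {x y : ℝ≥0∞} (h : x ≤ y) {z : ℝ} (hz : z ≤ 0) : y ^ z ≤ x ^ z := by
  obtain ⟨w, rfl⟩ : ∃ w, z = -w := ⟨-z, (neg_neg z).symm⟩
  rw [ENNReal.rpow_neg, ENNReal.rpow_neg]
  exact ENNReal.inv_le_inv.2 (ENNReal.rpow_le_rpow h (by linarith))

theorem KD_exp {x : ℝ} (hx : 0 ≤ x) (u s : ℝ) :
    ENNReal.ofReal (x * Real.exp u) ^ s =
      ENNReal.ofReal x ^ s * ENNReal.ofReal (Real.exp (u * s)) := by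
  rw [ENNReal.ofReal_mul hx, ENNReal.mul_rpow_of_ne_top ENNReal.ofReal_ne_top
    ENNReal.ofReal_ne_top, ENNReal.ofReal_rpow_of_pos (Real.exp_pos u), ← Real.exp_mul]

theorem KD_nm_smul {κ : Type} [Fintype κ] (c : ℂ) (v : κ → ℂ) : nm (c • v) = ‖c‖ * nm v := by
  unfold nm ns
  have h1 : ∑ i, ‖(c • v) i‖ ^ 2 = ‖c‖ ^ 2 * ∑ i, ‖v i‖ ^ 2 := by
    rw [Finset.mul_sum]
    refine Finset.sum_congr rfl fun i _ => ?_
    rw [Pi.smul_apply, smul_eq_mul, norm_mul, mul_pow]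
  rw [h1, Real.sqrt_mul (sq_nonneg _), Real.sqrt_sq (norm_nonneg _)]

theorem KD_nm_nonneg {κ : Type} [Fintype κ] (v : κ → ℂ) : 0 ≤ nm v := Real.sqrt_nonneg _

theorem KD_jac_self {φ : OpenPartialHomeomorph X₀ E} {x : X₀} (hx : x ∈ φ.source) :
    jac φ φ x = 1 := by
  unfold jac
  have h1 : φ ∘ φ.symm =ᶠ[𝓝 (φ x)] id := by
    filter_upwards [φ.open_target.mem_nhds (φ.map_source hx)] with v hv
    exact φ.right_inv hv
  rw [h1.fderiv_eq, fderiv_id]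
  exact LinearMap.det_id

theorem KD_lam_ne {B : NLine N} {A : GAct n N} (Λ : GLin A B) {g : Gp n} {i j : B.ι} {x : X}
    (hj : x ∈ B.U j) (hi : A.act g x ∈ B.U i) : Λ.lam i j g x ≠ 0 := by
  intro h0
  have h1 := Λ.mul j i j g⁻¹ g x hj hi (by rw [inv_mul_cancel, A.one]; exact hj)
  rw [h0, mul_zero, inv_mul_cancel, Λ.one j j x hj hj, B.one j x hj] at h1
  exact zero_ne_one h1

/-- The Jacobian of the action of `g` between `ψ` and its translate. -/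
theorem jac_gpull (g : Gp n) (ψ : OpenPartialHomeomorph X₀ E) {y : X₀} (hy : y ∈ ψ.source) :
    A.jac (gpull A g⁻¹ ψ) ψ g y = 1 := by
  have h1 : (gpull A g⁻¹ ψ ∘ A.reg g ∘ ψ.symm : E → E) =ᶠ[𝓝 (ψ y)] id := by
    filter_upwards [ψ.open_target.mem_nhds (ψ.map_source hy)] with v hv
    show ψ (A.reg g⁻¹ (A.reg g (ψ.symm v))) = v
    rw [reg_inv_reg, ψ.right_inv hv]
  unfold GAct.jac
  rw [h1.fderiv_eq, fderiv_id]
  exact LinearMap.det_id

variable {A} {ΛL : GLin A L} {ΛP : GLin A P}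

/-- The data on `X` used in the density: the metrics of `L` and `P`, a tuple of sections which is
the basis of a representation of the group, and a section which is an eigenvector of `B`. -/
structure KDat (ΛL : GLin A L) (ΛP : GLin A P) (fL fP : Gp n → X → ℝ) (κ : Type) [Fintype κ]
    [DecidableEq κ] (kk m a b : ℕ) where
  mL : L.ι → X → ℝ
  mP : P.ι → X → ℝ
  posL : ∀ i y, y ∈ L.U i → 0 < mL i y
  posP : ∀ i y, y ∈ P.U i → 0 < mP i y
  contL : ∀ i y, y ∈ L.U i → ContinuousAt (mL i) y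
  contP : ∀ i y, y ∈ P.U i → ContinuousAt (mP i) y
  trL : ∀ i i' y, y ∈ L.U i → y ∈ L.U i' → mL i y = ‖L.g i i' y‖ * mL i' y
  trP : ∀ i i' y, y ∈ P.U i → y ∈ P.U i' → mP i y = ‖P.g i i' y‖ * mP i' y
  grL : ∀ g i i' y, A.act g y ∈ L.U i → y ∈ L.U i' → fL g y =
    Real.log (mL i (A.act g y)) - Real.log (mL i' y) - Real.log ‖ΛL.lam i i' g y‖
  grP : ∀ g i i' y, A.act g y ∈ P.U i → y ∈ P.U i' → fP g y =
    Real.log (mP i (A.act g y)) - Real.log (mP i' y) - Real.log ‖ΛP.lam i i' g y‖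
  V : Rep n κ
  σ : κ → Sec2 L.reg P.reg kk 0 m (N.inc ⁻¹' (univ : Set X))
  eqv : ∀ g i j i' j', ∀ φ ∈ Charts E X₀, ∀ ψ ∈ Charts E X₀, ∀ y, A.act g (N.inc y) ∈ L.U i →
    A.act g (N.inc y) ∈ P.U j → N.inc y ∈ L.U i' → N.inc y ∈ P.U j' →
    A.reg g y ∈ φ.source → y ∈ ψ.source → ∀ α,
    (σ α).f i j φ (A.reg g y) = ΛL.lam i i' g (N.inc y) ^ kk * A.jac φ ψ g y ^ m *
      V.act g (fun β => (σ β).f i' j' ψ y) α
  t : NSec L P a b univ
  χt : Fin n → ℤ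
  wt : BWt ΛL ΛP χt t

namespace KDat

variable {fL fP : Gp n → X → ℝ} {κ : Type} [Fintype κ] [DecidableEq κ] {kk m a b : ℕ}
  (D : KDat ΛL ΛP fL fP κ kk m a b)

/-- The values of the tuple of sections in the frames `i`, `j` and the chart `φ`. -/
def vec (i : L.ι) (j : P.ι) (φ : OpenPartialHomeomorph X₀ E) (y : X₀) : κ → ℂ :=
  fun α => (D.σ α).f i j φ y

theorem vec_frame {i i' : L.ι} {j j' : P.ι} {φ : OpenPartialHomeomorph X₀ E}
    (hφ : φ ∈ Charts E X₀) {y : X₀} (hy : y ∈ φ.source) (hi : N.inc y ∈ L.U i)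
    (hi' : N.inc y ∈ L.U i') (hj : N.inc y ∈ P.U j) (hj' : N.inc y ∈ P.U j') :
    D.vec i j φ y = (L.g i i' (N.inc y) ^ kk) • D.vec i' j' φ y := by
  funext α
  have h := (D.σ α).trans i j i' j' φ hφ φ hφ y (mem_univ _) hi hj hi' hj' hy hy
  show (D.σ α).f i j φ y = L.g i i' (N.inc y) ^ kk * (D.σ α).f i' j' φ y
  rw [h, KD_jac_self hy, one_pow, mul_one, pow_zero, mul_one]
  rfl

theorem vec_chart {i : L.ι} {j : P.ι} {φ ψ : OpenPartialHomeomorph X₀ E}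
    (hφ : φ ∈ Charts E X₀) (hψ : ψ ∈ Charts E X₀) {y : X₀} (hy : y ∈ φ.source)
    (hy' : y ∈ ψ.source) (hi : N.inc y ∈ L.U i) (hj : N.inc y ∈ P.U j) :
    D.vec i j φ y = (jac φ ψ y ^ m) • D.vec i j ψ y := by
  funext α
  have h := (D.σ α).trans i j i j φ hφ ψ hψ y (mem_univ _) hi hj hi hj hy hy'
  show (D.σ α).f i j φ y = jac φ ψ y ^ m * (D.σ α).f i j ψ y
  have h1 : L.reg.g i i y = 1 := L.one i _ hi
  rw [h, h1, one_pow, one_mul, pow_zero, one_mul]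

/-- The density in given frames. -/
noncomputable def den (δ : ℝ) (i : L.ι) (j : P.ι) (φ : OpenPartialHomeomorph X₀ E) (y : X₀) :
    ℝ≥0∞ :=
  ENNReal.ofReal (nm (D.vec i j φ y) / D.mL i (N.inc y) ^ kk) ^ (-(2 : ℝ) / m) *
    ENNReal.ofReal (‖D.t.f i j (N.inc y)‖ / (D.mL i (N.inc y) ^ a * D.mP j (N.inc y) ^ b)) ^ (-δ)

/-- The density. -/
noncomputable def dens (δ : ℝ) (φ : OpenPartialHomeomorph X₀ E) (y : X₀) : ℝ≥0∞ :=
  D.den δ (L.cover (N.inc y)).choose (P.cover (N.inc y)).choose φ y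

/-- Independence of the frames. -/
theorem den_frame (δ : ℝ) {i i' : L.ι} {j j' : P.ι} {φ : OpenPartialHomeomorph X₀ E}
    (hφ : φ ∈ Charts E X₀) {y : X₀} (hy : y ∈ φ.source) (hi : N.inc y ∈ L.U i)
    (hi' : N.inc y ∈ L.U i') (hj : N.inc y ∈ P.U j) (hj' : N.inc y ∈ P.U j') :
    D.den δ i j φ y = D.den δ i' j' φ y := by
  have hL : ‖L.g i i' (N.inc y)‖ ≠ 0 := norm_ne_zero_iff.2 (L.g_ne hi hi')
  have hP : ‖P.g j j' (N.inc y)‖ ≠ 0 := norm_ne_zero_iff.2 (P.g_ne hj hj')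
  have e1 : nm (D.vec i j φ y) / D.mL i (N.inc y) ^ kk =
      nm (D.vec i' j' φ y) / D.mL i' (N.inc y) ^ kk := by
    rw [D.vec_frame hφ hy hi hi' hj hj', KD_nm_smul, D.trL i i' _ hi hi', norm_pow, mul_pow,
      mul_div_mul_left _ _ (pow_ne_zero _ hL)]
  have e2 : ‖D.t.f i j (N.inc y)‖ / (D.mL i (N.inc y) ^ a * D.mP j (N.inc y) ^ b) =
      ‖D.t.f i' j' (N.inc y)‖ / (D.mL i' (N.inc y) ^ a * D.mP j' (N.inc y) ^ b) := by
    rw [D.t.trans i j i' j' _ (mem_univ _) hi hj hi' hj', norm_mul, norm_mul, norm_pow, norm_pow,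
      D.trL i i' _ hi hi', D.trP j j' _ hj hj', mul_pow, mul_pow,
      mul_mul_mul_comm, mul_div_mul_left _ _ (mul_ne_zero (pow_ne_zero _ hL) (pow_ne_zero _ hP))]
  unfold den
  rw [e1, e2]

theorem dens_eq (δ : ℝ) {i : L.ι} {j : P.ι} {φ : OpenPartialHomeomorph X₀ E}
    (hφ : φ ∈ Charts E X₀) {y : X₀} (hy : y ∈ φ.source) (hi : N.inc y ∈ L.U i)
    (hj : N.inc y ∈ P.U j) : D.dens δ φ y = D.den δ i j φ y :=
  D.den_frame δ hφ hy (L.cover (N.inc y)).choose_spec hi (P.cover (N.inc y)).choose_spec hj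

/-- Change of charts. -/
theorem dens_chart [FiniteDimensional ℂ E] [IsManifold 𝓘(ℂ, E) ω X₀] (hm : 1 ≤ m) (δ : ℝ) {φ ψ : OpenPartialHomeomorph X₀ E} (hφ : φ ∈ Charts E X₀)
    (hψ : ψ ∈ Charts E X₀) {y : X₀} (hy : y ∈ φ.source) (hy' : y ∈ ψ.source) :
    D.dens δ ψ y = ‖jac φ ψ y‖ₑ ^ 2 * D.dens δ φ y := by
  have hm0 : (m : ℝ) ≠ 0 := by
    have : (0 : ℝ) < m := by exact_mod_cast hm
    exact this.ne'
  have hi := (L.cover (N.inc y)).choose_spec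
  have hj := (P.cover (N.inc y)).choose_spec
  have hJ : jac φ ψ y ≠ 0 := pnorm_jac_ne_zero hφ hψ hy hy'
  have hJ0 : ‖jac φ ψ y‖ₑ ≠ 0 := by
    rw [Ne, enorm_eq_zero]
    exact hJ
  have hJt : ‖jac φ ψ y‖ₑ ≠ ⊤ := enorm_ne_top
  rw [D.dens_eq δ hφ hy hi hj, D.dens_eq δ hψ hy' hi hj]
  unfold den
  rw [D.vec_chart hφ hψ hy hy' hi hj, KD_nm_smul, norm_pow, mul_div_assoc,
    ENNReal.ofReal_mul (by positivity), ENNReal.mul_rpow_of_ne_top ENNReal.ofReal_ne_top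
    ENNReal.ofReal_ne_top, ← mul_assoc, ← mul_assoc]
  have h1 : ENNReal.ofReal (‖jac φ ψ y‖ ^ m) = ‖jac φ ψ y‖ₑ ^ (m : ℝ) := by
    rw [ENNReal.ofReal_pow (norm_nonneg _), ofReal_norm, ENNReal.rpow_natCast]
  have h2 : ‖jac φ ψ y‖ₑ ^ 2 * ENNReal.ofReal (‖jac φ ψ y‖ ^ m) ^ (-(2 : ℝ) / m) = 1 := by
    rw [h1, ← ENNReal.rpow_mul, mul_div_cancel₀ _ hm0]
    rw [← ENNReal.rpow_natCast, ← ENNReal.rpow_add _ _ hJ0 hJt]
    norm_num
  rw [h2, one_mul]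

/-- The translate of the density. -/
theorem dens_gpull [IsManifold 𝓘(ℂ, E) ω X₀] (hm : 1 ≤ m) {δ : ℝ} (hδ : 0 < δ) {i : L.ι} {j : P.ι} {ψ : OpenPartialHomeomorph X₀ E}
    (hψ : ψ ∈ Charts E X₀) {y : X₀} (hy : y ∈ ψ.source) (hi : N.inc y ∈ L.U i)
    (hj : N.inc y ∈ P.U j) {g : Gp n} (hg : IsB g) :
    D.dens δ (gpull A g⁻¹ ψ) (A.reg g y) =
      ENNReal.ofReal (nm (D.V.act g (D.vec i j ψ y)) / D.mL i (N.inc y) ^ kk) ^ (-(2 : ℝ) / m) *
      ENNReal.ofReal (‖D.t.f i j (N.inc y)‖ /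
        (D.mL i (N.inc y) ^ a * D.mP j (N.inc y) ^ b)) ^ (-δ) *
      ENNReal.ofReal (Real.exp (2 * kk / m * fL g (N.inc y) +
        δ * (a * fL g (N.inc y) + b * fP g (N.inc y) + ∑ c, D.χt c * hw g c))) := by
  have hm0 : (m : ℝ) ≠ 0 := by
    have : (0 : ℝ) < m := by exact_mod_cast hm
    exact this.ne'
  have hφ : gpull A g⁻¹ ψ ∈ Charts E X₀ := gpull_mem A g⁻¹ hψ
  have hy' : A.reg g y ∈ (gpull A g⁻¹ ψ).source := by
    rw [mem_gpull_source, reg_inv_reg]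
    exact hy
  obtain ⟨i₀, hi₀⟩ := L.cover (N.inc (A.reg g y))
  obtain ⟨j₀, hj₀⟩ := P.cover (N.inc (A.reg g y))
  have hi₁ : A.act g (N.inc y) ∈ L.U i₀ := by
    rw [A.inc]
    exact hi₀
  have hj₁ : A.act g (N.inc y) ∈ P.U j₀ := by
    rw [A.inc]
    exact hj₀
  have hlL : 0 < ‖ΛL.lam i₀ i g (N.inc y)‖ := norm_pos_iff.2 (KD_lam_ne ΛL hi hi₁)
  have hlP : 0 < ‖ΛP.lam j₀ j g (N.inc y)‖ := norm_pos_iff.2 (KD_lam_ne ΛP hj hj₁)
  have hmL := D.posL i _ hi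
  have hmP := D.posP j _ hj
  have hmL' := D.posL i₀ _ hi₁
  have hmP' := D.posP j₀ _ hj₁
  have eL : ‖ΛL.lam i₀ i g (N.inc y)‖ = D.mL i₀ (A.act g (N.inc y)) / D.mL i (N.inc y) *
      Real.exp (-(fL g (N.inc y))) := by
    rw [D.grL g i₀ i _ hi₁ hi, show -(Real.log (D.mL i₀ (A.act g (N.inc y))) -
      Real.log (D.mL i (N.inc y)) - Real.log ‖ΛL.lam i₀ i g (N.inc y)‖) =
      Real.log (D.mL i (N.inc y)) + Real.log ‖ΛL.lam i₀ i g (N.inc y)‖ -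
      Real.log (D.mL i₀ (A.act g (N.inc y))) by ring, Real.exp_sub, Real.exp_add,
      Real.exp_log hmL, Real.exp_log hlL, Real.exp_log hmL']
    field_simp
  have eP : ‖ΛP.lam j₀ j g (N.inc y)‖ = D.mP j₀ (A.act g (N.inc y)) / D.mP j (N.inc y) *
      Real.exp (-(fP g (N.inc y))) := by
    rw [D.grP g j₀ j _ hj₁ hj, show -(Real.log (D.mP j₀ (A.act g (N.inc y))) -
      Real.log (D.mP j (N.inc y)) - Real.log ‖ΛP.lam j₀ j g (N.inc y)‖) =
      Real.log (D.mP j (N.inc y)) + Real.log ‖ΛP.lam j₀ j g (N.inc y)‖ -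
      Real.log (D.mP j₀ (A.act g (N.inc y))) by ring, Real.exp_sub, Real.exp_add,
      Real.exp_log hmP, Real.exp_log hlP, Real.exp_log hmP']
    field_simp
  rw [D.dens_eq δ hφ hy' hi₀ hj₀]
  unfold den
  rw [← A.inc]
  have hvec : D.vec i₀ j₀ (gpull A g⁻¹ ψ) (A.reg g y) =
      (ΛL.lam i₀ i g (N.inc y) ^ kk) • D.V.act g (D.vec i j ψ y) := by
    funext α
    have h1 := D.eqv g i₀ j₀ i j (gpull A g⁻¹ ψ) hφ ψ hψ y hi₁ hj₁ hi hj hy' hy α
    rw [jac_gpull A g ψ hy, one_pow, mul_one] at h1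
    exact h1
  have e1 : nm (D.vec i₀ j₀ (gpull A g⁻¹ ψ) (A.reg g y)) /
      D.mL i₀ (A.act g (N.inc y)) ^ kk =
      nm (D.V.act g (D.vec i j ψ y)) / D.mL i (N.inc y) ^ kk *
        Real.exp (-(kk * fL g (N.inc y))) := by
    rw [hvec, KD_nm_smul, norm_pow, eL, mul_pow, div_pow, ← Real.exp_nat_mul]
    rw [show (kk : ℝ) * -(fL g (N.inc y)) = -(kk * fL g (N.inc y)) by ring]
    field_simp
  have e2 : ‖D.t.f i₀ j₀ (A.act g (N.inc y))‖ /
      (D.mL i₀ (A.act g (N.inc y)) ^ a * D.mP j₀ (A.act g (N.inc y)) ^ b) =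
      ‖D.t.f i j (N.inc y)‖ / (D.mL i (N.inc y) ^ a * D.mP j (N.inc y) ^ b) *
        Real.exp (-(a * fL g (N.inc y) + b * fP g (N.inc y) + ∑ c, D.χt c * hw g c)) := by
    have h1 := D.wt g hg i₀ j₀ i j (N.inc y) (mem_univ _) (mem_univ _) hi₁ hj₁ hi hj
    have h2 := congrArg norm h1
    rw [norm_mul, norm_mul, norm_mul, norm_pow, norm_pow, chrB_norm hg, eL, eP, mul_pow, mul_pow,
      div_pow, div_pow, ← Real.exp_nat_mul, ← Real.exp_nat_mul] at h2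
    have h3 : Real.exp (-(a * fL g (N.inc y) + b * fP g (N.inc y) + ∑ c, D.χt c * hw g c)) =
        Real.exp ((a : ℝ) * -(fL g (N.inc y))) * Real.exp ((b : ℝ) * -(fP g (N.inc y))) /
          Real.exp (∑ c, D.χt c * hw g c) := by
      rw [← Real.exp_add, ← Real.exp_sub]
      congr 1
      ring
    rw [h3]
    have h4 : Real.exp (∑ c, (D.χt c : ℝ) * hw g c) ≠ 0 := (Real.exp_pos _).ne'
    have h5 := (pow_pos hmL a).ne'
    have h6 := (pow_pos hmP b).ne'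
    have h7 := (pow_pos hmL' a).ne'
    have h8 := (pow_pos hmP' b).ne'
    rw [eq_div_of_mul_eq h4 ((mul_comm _ _).trans h2)]
    field_simp
  rw [e1, e2, KD_exp (div_nonneg (KD_nm_nonneg _) (pow_pos hmL kk).le),
    KD_exp (div_nonneg (norm_nonneg _) (mul_pos (pow_pos hmL a) (pow_pos hmP b)).le)]
  rw [mul_mul_mul_comm, ← ENNReal.ofReal_mul (Real.exp_pos _).le, ← Real.exp_add]
  congr 3
  field_simp

/-- The lower bound for the translates of the density. -/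
theorem dens_ge [IsManifold 𝓘(ℂ, E) ω X₀] {K k : ℕ} (hk : 1 ≤ k) (hkk : kk = k * K) (hm : 1 ≤ m) {δ : ℝ} (hδ : 0 < δ)
    (χ : Fin n → ℤ) {x₀ : X} {W : Set X} (hW : W ∈ 𝓝 x₀) {C : ℝ}
    (hC : ∀ y ∈ W, ∀ g, IsB g → -C ≤ K * fL g y + ∑ c, χ c * hw g c +
      δ * m / (2 * k) * (a * fL g y + b * fP g y + ∑ c, D.χt c * hw g c))
    {i : L.ι} {j : P.ι} (hi : x₀ ∈ L.U i) (hj : x₀ ∈ P.U j) :
    ∃ W' ⊆ W, IsOpen W' ∧ x₀ ∈ W' ∧ W' ⊆ L.U i ∧ W' ⊆ P.U j ∧ ∃ c : ℝ≥0∞, c ≠ 0 ∧ c ≠ ⊤ ∧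
      ∀ y, N.inc y ∈ W' → ∀ ψ ∈ Charts E X₀, y ∈ ψ.source → ∀ g, IsB g →
        c * (gden D.V m (fun c => k * χ c + m * rho2 n c) (D.vec i j ψ y) g *
          ENNReal.ofReal (Real.exp (2 * ∑ c, rho2 n c * hw g c))) ≤
          D.dens δ (gpull A g⁻¹ ψ) (A.reg g y) := by
  have hm' : (0 : ℝ) < m := by exact_mod_cast hm
  have hkk' : (kk : ℝ) = k * K := by
    rw [hkk]
    push_cast
    ring
  have hk' : (0 : ℝ) < k := by exact_mod_cast hk
  have hmL := D.posL i _ hi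
  have hmP := D.posP j _ hj
  have ht : ContinuousAt (D.t.f i j) x₀ := Hol_continuousAt (D.t.hol i j x₀ (mem_univ _) hi hj)
  have hq : ContinuousAt (fun y => ‖D.t.f i j y‖ / (D.mL i y ^ a * D.mP j y ^ b)) x₀ :=
    ht.norm.div (((D.contL i _ hi).pow a).mul ((D.contP j _ hj).pow b))
      (mul_pos (pow_pos hmL a) (pow_pos hmP b)).ne'
  obtain ⟨C₁, hC₁⟩ : ∃ C₁ : ℝ, C₁ = ‖D.t.f i j x₀‖ / (D.mL i x₀ ^ a * D.mP j x₀ ^ b) + 1 :=
    ⟨_, rfl⟩
  have hC₁p : 0 < C₁ := by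
    have : 0 ≤ ‖D.t.f i j x₀‖ / (D.mL i x₀ ^ a * D.mP j x₀ ^ b) :=
      div_nonneg (norm_nonneg _) (mul_pos (pow_pos hmL a) (pow_pos hmP b)).le
    linarith
  have hlt : ‖D.t.f i j x₀‖ / (D.mL i x₀ ^ a * D.mP j x₀ ^ b) < C₁ := by
    rw [hC₁]
    linarith
  have hev : ∀ᶠ y in 𝓝 x₀, y ∈ W ∧ y ∈ L.U i ∧ y ∈ P.U j ∧ D.mL i x₀ / 2 < D.mL i y ∧
      ‖D.t.f i j y‖ / (D.mL i y ^ a * D.mP j y ^ b) < C₁ := by
    filter_upwards [hW, (L.isOpen i).mem_nhds hi, (P.isOpen j).mem_nhds hj,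
      continuousAt_const.eventually_lt (D.contL i _ hi) (by linarith : D.mL i x₀ / 2 < D.mL i x₀),
      hq.eventually_lt (g := fun _ => C₁) continuousAt_const hlt] with y h1 h2 h3 h4 h5
    exact ⟨h1, h2, h3, h4, h5⟩
  obtain ⟨W', hW', hW'o, hxW'⟩ := eventually_nhds_iff.1 hev
  have hpm : 0 < (D.mL i x₀ / 2) ^ kk := pow_pos (by linarith) kk
  have hne1 : -(2 : ℝ) / m ≤ 0 := div_nonpos_of_nonpos_of_nonneg (by norm_num) hm'.le
  refine ⟨W', fun y hy => (hW' y hy).1, hW'o, hxW', fun y hy => (hW' y hy).2.1,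
    fun y hy => (hW' y hy).2.2.1,
    ENNReal.ofReal (((D.mL i x₀ / 2) ^ kk)⁻¹) ^ (-(2 : ℝ) / m) * ENNReal.ofReal C₁ ^ (-δ) *
      ENNReal.ofReal (Real.exp (-(2 * k / m * C))), ?_, ?_, ?_⟩
  · refine mul_ne_zero (mul_ne_zero ?_ ?_) ?_
    · exact (ENNReal.rpow_pos (ENNReal.ofReal_pos.2 (inv_pos.2 hpm)) ENNReal.ofReal_ne_top).ne'
    · exact (ENNReal.rpow_pos (ENNReal.ofReal_pos.2 hC₁p) ENNReal.ofReal_ne_top).ne'
    · exact (ENNReal.ofReal_pos.2 (Real.exp_pos _)).ne'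
  · refine ENNReal.mul_ne_top (ENNReal.mul_ne_top ?_ ?_) ENNReal.ofReal_ne_top
    · exact ENNReal.rpow_ne_top_of_ne_zero (ENNReal.ofReal_pos.2 (inv_pos.2 hpm)).ne'
        ENNReal.ofReal_ne_top
    · exact ENNReal.rpow_ne_top_of_ne_zero (ENNReal.ofReal_pos.2 hC₁p).ne' ENNReal.ofReal_ne_top
  · intro y hy ψ hψ hyψ g hg
    obtain ⟨h1, h2, h3, h4, h5⟩ := hW' _ hy
    have hmLy := D.posL i _ h2
    have hmPy := D.posP j _ h3
    rw [D.dens_gpull hm hδ hψ hyψ h2 h3 hg]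
    have hgd : gden D.V m (fun c => k * χ c + m * rho2 n c) (D.vec i j ψ y) g *
        ENNReal.ofReal (Real.exp (2 * ∑ c, rho2 n c * hw g c)) =
        ENNReal.ofReal (nm (D.V.act g (D.vec i j ψ y))) ^ (-(2 : ℝ) / m) *
          ENNReal.ofReal (Real.exp (-(2 * k / m * ∑ c, χ c * hw g c))) := by
      unfold gden
      rw [KD_exp (KD_nm_nonneg _), mul_assoc, ← ENNReal.ofReal_mul (Real.exp_pos _).le,
        ← Real.exp_add]
      congr 3
      have h6 : ∑ c, (((fun c => k * χ c + m * rho2 n c : Fin n → ℤ) c : ℤ) : ℝ) * hw g c =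
          k * ∑ c, χ c * hw g c + m * ∑ c, rho2 n c * hw g c := by
        rw [Finset.mul_sum, Finset.mul_sum, ← Finset.sum_add_distrib]
        refine Finset.sum_congr rfl fun c _ => ?_
        push_cast
        ring
      rw [h6]
      field_simp
      ring
    rw [hgd]
    have hX : ENNReal.ofReal (((D.mL i x₀ / 2) ^ kk)⁻¹) ^ (-(2 : ℝ) / m) *
        ENNReal.ofReal (nm (D.V.act g (D.vec i j ψ y))) ^ (-(2 : ℝ) / m) ≤
        ENNReal.ofReal (nm (D.V.act g (D.vec i j ψ y)) / D.mL i (N.inc y) ^ kk) ^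
          (-(2 : ℝ) / m) := by
      rw [← ENNReal.mul_rpow_of_ne_top ENNReal.ofReal_ne_top ENNReal.ofReal_ne_top,
        ← ENNReal.ofReal_mul (inv_pos.2 hpm).le]
      refine KD_anti (ENNReal.ofReal_le_ofReal ?_) hne1
      rw [div_eq_mul_inv, mul_comm]
      refine mul_le_mul_of_nonneg_right ?_ (KD_nm_nonneg _)
      exact inv_anti₀ hpm (pow_le_pow_left₀ (by linarith) h4.le kk)
    have hT : ENNReal.ofReal C₁ ^ (-δ) ≤ ENNReal.ofReal (‖D.t.f i j (N.inc y)‖ /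
        (D.mL i (N.inc y) ^ a * D.mP j (N.inc y) ^ b)) ^ (-δ) :=
      KD_anti (ENNReal.ofReal_le_ofReal h5.le) (by linarith)
    have hE : ENNReal.ofReal (Real.exp (-(2 * k / m * C))) *
        ENNReal.ofReal (Real.exp (-(2 * k / m * ∑ c, χ c * hw g c))) ≤
        ENNReal.ofReal (Real.exp (2 * kk / m * fL g (N.inc y) +
        δ * (a * fL g (N.inc y) + b * fP g (N.inc y) + ∑ c, D.χt c * hw g c))) := by
      rw [← ENNReal.ofReal_mul (Real.exp_pos _).le, ← Real.exp_add]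
      refine ENNReal.ofReal_le_ofReal (Real.exp_le_exp.2 ?_)
      have h7 := mul_le_mul_of_nonneg_left (hC _ h1 g hg)
        (div_nonneg (by positivity : (0 : ℝ) ≤ 2 * k) hm'.le)
      have h8 : 2 * (k : ℝ) / m * (K * fL g (N.inc y) + ∑ c, χ c * hw g c +
          δ * m / (2 * k) * (a * fL g (N.inc y) + b * fP g (N.inc y) + ∑ c, D.χt c * hw g c)) =
          2 * kk / m * fL g (N.inc y) + 2 * k / m * ∑ c, χ c * hw g c +
          δ * (a * fL g (N.inc y) + b * fP g (N.inc y) + ∑ c, D.χt c * hw g c) := by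
        rw [hkk']
        field_simp
      rw [h8] at h7
      linarith
    calc _ = (ENNReal.ofReal (((D.mL i x₀ / 2) ^ kk)⁻¹) ^ (-(2 : ℝ) / m) *
        ENNReal.ofReal (nm (D.V.act g (D.vec i j ψ y))) ^ (-(2 : ℝ) / m)) *
        ENNReal.ofReal C₁ ^ (-δ) * (ENNReal.ofReal (Real.exp (-(2 * k / m * C))) *
        ENNReal.ofReal (Real.exp (-(2 * k / m * ∑ c, χ c * hw g c)))) := by ring
      _ ≤ _ := mul_le_mul' (mul_le_mul' hX hT) hE

end KDat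

end Pool.Agent.SG
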