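import Pool.Agent.H.MP_e23cd6_ag.NT.KltPt

/-!
# The measure given by a density in charts
-/

set_option autoImplicit false

open scoped Manifold ContDiff Topology ENNReal
open MeasureTheory Set Filter

namespace Pool.Agent.SG

open Pool.Agent.Abd Pool.Agent.Abn

variable {E : Type} [NormedAddCommGroup E] [NormedSpace ℂ E] [FiniteDimensional ℂ E]
  [MeasureSpace E] [BorelSpace E] [(volume : Measure E).IsAddHaarMeasure]
  {X₀ : Type} [TopologicalSpace X₀] [ChartedSpace E X₀] [IsManifold 𝓘(ℂ, E) ω X₀]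
  [SecondCountableTopology X₀] [MeasurableSpace X₀] [BorelSpace X₀]

omit [FiniteDimensional ℂ E] [(volume : Measure E).IsAddHaarMeasure]
  [IsManifold 𝓘(ℂ, E) ω X₀] [SecondCountableTopology X₀] in
theorem measurableSet_chart {ψ : OpenPartialHomeomorph X₀ E} {A : Set X₀} (hA : MeasurableSet A) :
    MeasurableSet (ψ.target ∩ ψ.symm ⁻¹' A) := by
  have h1 : Continuous (ψ.target.domRestrict ψ.symm) :=
    continuousOn_iff_continuous_domRestrict.1 ψ.continuousOn_symm
  have h2 : MeasurableSet (ψ.target.domRestrict ψ.symm ⁻¹' A) := h1.measurable hA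
  have h3 := MeasurableSet.subtype_image ψ.open_target.measurableSet h2
  rwa [preimage_restrict_val] at h3

omit [FiniteDimensional ℂ E] [(volume : Measure E).IsAddHaarMeasure]
  [IsManifold 𝓘(ℂ, E) ω X₀] [SecondCountableTopology X₀] in
theorem measurableSet_chart_image {ψ : OpenPartialHomeomorph X₀ E} {B : Set E}
    (hB : MeasurableSet B) (h : B ⊆ ψ.target) : MeasurableSet (ψ.symm '' B) := by
  have h0 : ψ.symm '' B = ψ.source ∩ ψ ⁻¹' B := by
    ext x
    constructor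
    · rintro ⟨z, hz, rfl⟩
      refine ⟨ψ.map_target (h hz), ?_⟩
      show ψ (ψ.symm z) ∈ B
      rw [ψ.right_inv (h hz)]
      exact hz
    · rintro ⟨h1, h2⟩
      exact ⟨ψ x, h2, ψ.left_inv h1⟩
  have h1 : Continuous (ψ.source.domRestrict ψ) :=
    continuousOn_iff_continuous_domRestrict.1 ψ.continuousOn
  have h2 : MeasurableSet (ψ.source.domRestrict ψ ⁻¹' B) := h1.measurable hB
  have h3 := MeasurableSet.subtype_image ψ.open_source.measurableSet h2
  rw [h0]
  rwa [preimage_restrict_val] at h3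

omit [FiniteDimensional ℂ E] [(volume : Measure E).IsAddHaarMeasure]
  [IsManifold 𝓘(ℂ, E) ω X₀] [SecondCountableTopology X₀] in
theorem measurableSet_image {ψ : OpenPartialHomeomorph X₀ E} {A : Set X₀} (hA : MeasurableSet A)
    (h : A ⊆ ψ.source) : MeasurableSet (ψ '' A) := by
  have h0 : ψ '' A = ψ.target ∩ ψ.symm ⁻¹' A := by
    ext x
    constructor
    · rintro ⟨z, hz, rfl⟩
      refine ⟨ψ.map_source (h hz), ?_⟩
      show ψ.symm (ψ z) ∈ A
      rw [ψ.left_inv (h hz)]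
      exact hz
    · rintro ⟨h1, h2⟩
      exact ⟨ψ.symm x, h2, ψ.right_inv h1⟩
  rw [h0]
  exact measurableSet_chart hA

/-- A countable atlas with disjoint Borel pieces. -/
theorem exists_atlasB [Nonempty X₀] :
    ∃ (φ : ℕ → OpenPartialHomeomorph X₀ E) (D : ℕ → Set X₀), (∀ n, φ n ∈ Charts E X₀) ∧
      (∀ n, D n ⊆ (φ n).source) ∧ (∀ n, MeasurableSet (D n)) ∧
      Pairwise (Function.onFun Disjoint D) ∧ ⋃ n, D n = univ := by
  obtain ⟨T, hTc, hT⟩ := TopologicalSpace.countable_cover_nhds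
    (f := fun x : X₀ => (chartAt E x).source)
    (fun x => (chartAt E x).open_source.mem_nhds (mem_chart_source E x))
  have hne : T.Nonempty := by
    obtain ⟨x⟩ := ‹Nonempty X₀›
    have h1 : x ∈ ⋃ x ∈ T, (chartAt E x).source := by rw [hT]; exact mem_univ x
    simp only [mem_iUnion] at h1
    obtain ⟨t, ht, -⟩ := h1
    exact ⟨t, ht⟩
  obtain ⟨g, hg⟩ := hTc.exists_eq_range hne
  have hcov : ∀ x, ∃ n, x ∈ (chartAt E (g n)).source := by
    intro x
    have h1 : x ∈ ⋃ x ∈ T, (chartAt E x).source := by rw [hT]; exact mem_univ x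
    simp only [mem_iUnion] at h1
    obtain ⟨t, ht, hx⟩ := h1
    rw [hg] at ht
    obtain ⟨n, rfl⟩ := ht
    exact ⟨n, hx⟩
  refine ⟨fun n => chartAt E (g n), fun n => (chartAt E (g n)).source \
    ⋃ m ∈ Finset.range n, (chartAt E (g m)).source,
    fun n => IsManifold.chart_mem_maximalAtlas (g n), fun n x hx => hx.1, ?_, ?_, ?_⟩
  · intro n
    refine (chartAt E (g n)).open_source.measurableSet.diff ?_
    exact (isOpen_biUnion fun m _ => (chartAt E (g m)).open_source).measurableSet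
  · intro n n' hne
    refine Set.disjoint_left.2 fun x hx hx' => ?_
    rcases lt_or_gt_of_ne hne with h | h
    · exact hx'.2 (mem_iUnion₂.2 ⟨n, Finset.mem_range.2 h, hx.1⟩)
    · exact hx.2 (mem_iUnion₂.2 ⟨n', Finset.mem_range.2 h, hx'.1⟩)
  · refine eq_univ_of_forall fun x => ?_
    classical
    refine mem_iUnion.2 ⟨Nat.find (hcov x), Nat.find_spec (hcov x), ?_⟩
    intro h1
    obtain ⟨m, hm, hxm⟩ := mem_iUnion₂.1 h1
    exact Nat.find_min (hcov x) (Finset.mem_range.1 hm) hxm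

/-- The measure with the density `dens φ` in the chart `φ`. -/
theorem exists_omega (dens : OpenPartialHomeomorph X₀ E → X₀ → ℝ≥0∞)
    (hch : ∀ φ ∈ Charts E X₀, ∀ ψ ∈ Charts E X₀, ∀ y, y ∈ φ.source → y ∈ ψ.source →
      dens ψ y = ‖jac φ ψ y‖ₑ ^ 2 * dens φ y) :
    ∃ μ : Measure X₀, ∀ ψ ∈ Charts E X₀, ∀ A, MeasurableSet A → A ⊆ ψ.source →
      μ A = ∫⁻ z in ψ '' A, dens ψ (ψ.symm z) := by
  rcases isEmpty_or_nonempty X₀ with hE | hE
  · refine ⟨0, fun ψ _ A _ _ => ?_⟩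
    have h1 : A = ∅ := Set.eq_empty_of_isEmpty A
    subst h1
    simp
  obtain ⟨φ, D, hφ, hDφ, hDm, hDd, hDu⟩ := exists_atlasB (E := E) (X₀ := X₀)
  have hTm : ∀ n, MeasurableSet (φ n '' D n) := fun n => measurableSet_image (hDm n) (hDφ n)
  have hTt : ∀ n, φ n '' D n ⊆ (φ n).target := by
    rintro n w ⟨x, hx, rfl⟩
    exact (φ n).map_source (hDφ n hx)
  set ν : ℕ → Measure E := fun n => (volume.restrict (φ n '' D n)).withDensity
    (fun z => dens (φ n) ((φ n).symm z)) with hν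
  have hae : ∀ n, AEMeasurable (φ n).symm (ν n) := by
    intro n
    have h1 : AEMeasurable (φ n).symm (volume.restrict (φ n '' D n)) :=
      ((φ n).continuousOn_symm.mono (hTt n)).aemeasurable (hTm n)
    exact h1.mono_ac (withDensity_absolutelyContinuous _ _)
  refine ⟨Measure.sum fun n => (ν n).map (φ n).symm, fun ψ hψ A hA hAψ => ?_⟩
  have hpiece : ∀ n, ((ν n).map (φ n).symm) A = ∫⁻ z in ψ '' (A ∩ D n), dens ψ (ψ.symm z) := by
    intro n
    have hAD : MeasurableSet (A ∩ D n) := hA.inter (hDm n)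
    have hAψ' : A ∩ D n ⊆ ψ.source := fun y hy => hAψ hy.1
    have hAφ : A ∩ D n ⊆ (φ n).source := fun y hy => hDφ n hy.2
    have hset : (φ n).symm ⁻¹' A ∩ φ n '' D n = φ n '' (A ∩ D n) := by
      ext z
      constructor
      · rintro ⟨h1, x, hx, rfl⟩
        have h2 : (φ n).symm (φ n x) ∈ A := h1
        rw [(φ n).left_inv (hDφ n hx)] at h2
        exact ⟨x, ⟨h2, hx⟩, rfl⟩
      · rintro ⟨x, hx, rfl⟩
        refine ⟨?_, x, hx.2, rfl⟩
        show (φ n).symm (φ n x) ∈ A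
        rw [(φ n).left_inv (hDφ n hx.2)]
        exact hx.1
    have h0 : (ν n) ((φ n).symm ⁻¹' A \ φ n '' D n) = 0 := by
      apply withDensity_absolutelyContinuous
      refine measure_mono_null (fun z hz => hz.2) ?_
      show (volume.restrict (φ n '' D n)) (φ n '' D n)ᶜ = 0
      rw [Measure.restrict_apply (hTm n).compl, Set.compl_inter_self, measure_empty]
    have him : MeasurableSet (φ n '' (A ∩ D n)) := measurableSet_image hAD hAφ
    rw [Measure.map_apply_of_aemeasurable (hae n) hA,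
      ← measure_inter_add_sdiff ((φ n).symm ⁻¹' A) (hTm n), h0, add_zero, hset, hν]
    simp only
    rw [withDensity_apply _ him, Measure.restrict_restrict him,
      Set.inter_eq_left.2 (Set.image_mono Set.inter_subset_right)]
    have hQm : MeasurableSet (ψ '' (A ∩ D n)) := measurableSet_image hAD hAψ'
    have hQt : ψ '' (A ∩ D n) ⊆ ψ.target := by
      rintro w ⟨x, hx, rfl⟩
      exact ψ.map_source (hAψ' hx)
    have hsy : ∀ z ∈ ψ '' (A ∩ D n), ψ.symm z ∈ A ∩ D n := by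
      rintro w ⟨x, hx, rfl⟩
      rw [ψ.left_inv (hAψ' hx)]
      exact hx
    have hcc := lintegral_chart_change hψ (hφ n) hQm hQt (fun z hz => hAφ (hsy z hz))
      (fun z => dens (φ n) ((φ n).symm z))
    have himg : (fun z => φ n (ψ.symm z)) '' (ψ '' (A ∩ D n)) = φ n '' (A ∩ D n) := by
      rw [Set.image_image]
      refine Set.image_congr fun x hx => ?_
      rw [ψ.left_inv (hAψ' hx)]
    rw [himg] at hcc
    rw [hcc]
    refine setLIntegral_congr_fun hQm ?_
    intro z hz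
    have h1 := hsy z hz
    show ‖jac (φ n) ψ (ψ.symm z)‖ₑ ^ 2 * dens (φ n) ((φ n).symm (φ n (ψ.symm z))) =
      dens ψ (ψ.symm z)
    rw [(φ n).left_inv (hAφ h1)]
    exact (hch _ (hφ n) ψ hψ _ (hAφ h1) (hAψ' h1)).symm
  rw [Measure.sum_apply _ hA]
  simp_rw [hpiece]
  have hun : ψ '' A = ⋃ n, ψ '' (A ∩ D n) := by
    rw [← Set.image_iUnion, ← Set.inter_iUnion, hDu, Set.inter_univ]
  rw [hun, lintegral_iUnion (fun n => measurableSet_image (hA.inter (hDm n))
    (fun y hy => hAψ hy.1))]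
  intro n n' hne
  refine Set.disjoint_left.2 ?_
  rintro w ⟨x, hx, rfl⟩ ⟨x', hx', he⟩
  have h1 : x' = x := ψ.injOn (hAψ hx'.1) (hAψ hx.1) he
  subst h1
  exact Set.disjoint_left.1 (hDd hne) hx.2 hx'.2

/-- Finiteness of the measure. -/
theorem omega_lt_top {X : Type} [TopologicalSpace X] [CompactSpace X] {inc : X₀ → X}
    (hinc : Continuous inc) {dens : OpenPartialHomeomorph X₀ E → X₀ → ℝ≥0∞} {μ : Measure X₀}
    (hμ : ∀ ψ ∈ Charts E X₀, ∀ A, MeasurableSet A → A ⊆ ψ.source →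
      μ A = ∫⁻ z in ψ '' A, dens ψ (ψ.symm z))
    (h : ∀ x : X, ∃ V ∈ 𝓝 x, ∃ (φ : ℕ → OpenPartialHomeomorph X₀ E) (B : ℕ → Set E),
        (∀ l, φ l ∈ Charts E X₀ ∧ MeasurableSet (B l) ∧ B l ⊆ (φ l).target) ∧
        (inc ⁻¹' V ⊆ ⋃ l, (φ l).symm '' B l) ∧
        ∑' l, ∫⁻ z in B l, (inc ⁻¹' V).indicator (fun y => dens (φ l) y) ((φ l).symm z) < ⊤) :
    μ univ < ⊤ := by
  choose V hV φ B h1 h2 h3 using h
  obtain ⟨t, ht⟩ := CompactSpace.elim_nhds_subcover (fun x => interior (V x))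
    (fun x => interior_mem_nhds.2 (hV x))
  have hcov : (univ : Set X₀) ⊆ ⋃ x ∈ t, inc ⁻¹' interior (V x) := by
    intro y _
    have h4 : inc y ∈ ⋃ x ∈ t, interior (V x) := by
      rw [ht]
      exact mem_univ _
    simpa only [mem_iUnion, mem_preimage] using h4
  have hone : ∀ x, μ (inc ⁻¹' interior (V x)) < ⊤ := by
    intro x
    have hmi : MeasurableSet (inc ⁻¹' interior (V x)) :=
      (isOpen_interior.preimage hinc).measurableSet
    have hsub : inc ⁻¹' interior (V x) ⊆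
        ⋃ l, ((φ x l).symm '' B x l ∩ inc ⁻¹' interior (V x)) := by
      intro y hy
      have h4 : inc y ∈ V x := interior_subset (show inc y ∈ interior (V x) from hy)
      obtain ⟨l, hl⟩ := mem_iUnion.1 (h2 x h4)
      exact mem_iUnion.2 ⟨l, hl, hy⟩
    refine lt_of_le_of_lt (measure_mono hsub) (lt_of_le_of_lt (measure_iUnion_le _)
      (lt_of_le_of_lt (ENNReal.tsum_le_tsum fun l => ?_) (h3 x)))
    obtain ⟨hc, hBm, hBt⟩ := h1 x l
    have hm1 : MeasurableSet ((φ x l).symm '' B x l ∩ inc ⁻¹' interior (V x)) :=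
      (measurableSet_chart_image hBm hBt).inter hmi
    have hs1 : (φ x l).symm '' B x l ∩ inc ⁻¹' interior (V x) ⊆ (φ x l).source := by
      rintro y ⟨⟨z, hz, rfl⟩, -⟩
      exact (φ x l).map_target (hBt hz)
    rw [hμ _ hc _ hm1 hs1]
    have hm2 : MeasurableSet (φ x l '' ((φ x l).symm '' B x l ∩ inc ⁻¹' interior (V x))) :=
      measurableSet_image hm1 hs1
    have hB2 : φ x l '' ((φ x l).symm '' B x l ∩ inc ⁻¹' interior (V x)) ⊆ B x l := by
      rintro w ⟨y, ⟨⟨z, hz, rfl⟩, -⟩, rfl⟩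
      rw [(φ x l).right_inv (hBt hz)]
      exact hz
    refine le_trans (le_of_eq ?_) (lintegral_mono_set hB2)
    refine setLIntegral_congr_fun hm2 ?_
    rintro w ⟨y, ⟨⟨z, hz, rfl⟩, hy⟩, rfl⟩
    show dens (φ x l) ((φ x l).symm (φ x l ((φ x l).symm z))) =
      (inc ⁻¹' V x).indicator (fun y => dens (φ x l) y) ((φ x l).symm (φ x l ((φ x l).symm z)))
    have h5 : inc ((φ x l).symm z) ∈ V x :=
      interior_subset (show inc ((φ x l).symm z) ∈ interior (V x) from hy)
    rw [(φ x l).right_inv (hBt hz)]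
    exact (Set.indicator_of_mem (show (φ x l).symm z ∈ inc ⁻¹' V x from h5) _).symm
  refine lt_of_le_of_lt (measure_mono hcov) (lt_of_le_of_lt (measure_biUnion_finset_le _ _) ?_)
  exact ENNReal.sum_lt_top.2 fun x _ => hone x

omit [FiniteDimensional ℂ E] [MeasureSpace E] [BorelSpace E]
  [(volume : Measure E).IsAddHaarMeasure] [IsManifold 𝓘(ℂ, E) ω X₀]
  [SecondCountableTopology X₀] [NormedSpace ℂ E] [NormedAddCommGroup E] [ChartedSpace E X₀] in
/-- Tonelli. -/
theorem tonelli_act {W : Type} [TopologicalSpace W] [SecondCountableTopology W]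
    [MeasurableSpace W] [BorelSpace W] (μ : Measure X₀) [SFinite μ] (ν : Measure W) [SFinite ν]
    {f : W → X₀ → X₀} (hf : Continuous fun v : W × X₀ => f v.1 v.2) {A : Set X₀}
    (hA : MeasurableSet A) {C : ℝ≥0∞} (h : ∀ y, ν {w | f w y ∈ A} ≤ C) :
    Measurable (fun w => μ {y | f w y ∈ A}) ∧ ∫⁻ w, μ {y | f w y ∈ A} ∂ν ≤ C * μ univ := by
  have hS : MeasurableSet {v : W × X₀ | f v.1 v.2 ∈ A} := hf.measurable hA
  have h1 : Measurable (fun w => μ {y | f w y ∈ A}) := measurable_measure_prodMk_left hS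
  refine ⟨h1, ?_⟩
  have h2 : ∫⁻ w, μ {y | f w y ∈ A} ∂ν = (ν.prod μ) {v : W × X₀ | f v.1 v.2 ∈ A} := by
    rw [Measure.prod_apply hS]
    rfl
  have h3 : (ν.prod μ) {v : W × X₀ | f v.1 v.2 ∈ A} = ∫⁻ y, ν {w | f w y ∈ A} ∂μ := by
    rw [Measure.prod_apply_symm hS]
    rfl
  rw [h2, h3]
  calc ∫⁻ y, ν {w | f w y ∈ A} ∂μ ≤ ∫⁻ _, C ∂μ := lintegral_mono h
    _ = C * μ univ := lintegral_const C

end Pool.Agent.SG
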