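import Pool.Agent.H.MP_e23cd6_ag.SG.Wt

/-!
# The unipotent upper triangular matrices and their measure

`un u` is the unipotent upper triangular matrix with the entries `u` above the diagonal. Left and
right multiplication by unipotent matrices preserve the Lebesgue measure of the entries.
-/

set_option autoImplicit false

open Matrix MeasureTheory

namespace Pool.Agent.SG

variable {n : ℕ}

/-- The positions above the diagonal. -/
abbrev Up (n : ℕ) : Type := {p : Fin n × Fin n // p.1 < p.2}

/-- The matrix with ones on the diagonal and the entries `u` above the diagonal. -/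
def unM (u : Up n → ℂ) : Matrix (Fin n) (Fin n) ℂ :=
  Matrix.of fun i j => if h : i < j then u ⟨(i, j), h⟩ else if i = j then 1 else 0

theorem det_unM (u : Up n → ℂ) : (unM u).det = 1 := by
  have h1 : (unM u).BlockTriangular id := by
    intro i j hij
    have h2 : ¬ i < j := not_lt.2 (le_of_lt hij)
    have h3 : i ≠ j := ne_of_gt hij
    simp [unM, h2, h3]
  rw [Matrix.det_of_upperTriangular h1]
  refine Finset.prod_eq_one fun i _ => ?_
  simp [unM]

/-- The unipotent upper triangular matrix with the entries `u` above the diagonal. -/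
def un (u : Up n → ℂ) : Gp n := ⟨unM u, det_unM u⟩

/-- The entries above the diagonal. -/
def co (g : Gp n) : Up n → ℂ := fun p => (g : Matrix (Fin n) (Fin n) ℂ) p.1.1 p.1.2

/-- Unipotent upper triangular matrices. -/
def IsU (g : Gp n) : Prop := IsB g ∧ ∀ i, (g : Matrix (Fin n) (Fin n) ℂ) i i = 1

theorem un_apply_lt (u : Up n → ℂ) {i j : Fin n} (h : i < j) :
    (un u : Matrix (Fin n) (Fin n) ℂ) i j = u ⟨(i, j), h⟩ := by
  show unM u i j = _
  simp [unM, h]

theorem un_apply_self (u : Up n → ℂ) (i : Fin n) :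
    (un u : Matrix (Fin n) (Fin n) ℂ) i i = 1 := by
  show unM u i i = _
  simp [unM]

theorem un_apply_gt (u : Up n → ℂ) {i j : Fin n} (h : j < i) :
    (un u : Matrix (Fin n) (Fin n) ℂ) i j = 0 := by
  have h2 : ¬ i < j := not_lt.2 (le_of_lt h)
  have h3 : i ≠ j := ne_of_gt h
  show unM u i j = _
  simp [unM, h2, h3]

theorem isU_un (u : Up n → ℂ) : IsU (un u) :=
  ⟨fun _ _ h => un_apply_gt u h, un_apply_self u⟩

theorem un_co {g : Gp n} (h : IsU g) : un (co g) = g := by
  apply gp_ext
  ext i j
  rcases lt_trichotomy i j with h1 | h1 | h1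
  · rw [un_apply_lt _ h1]; rfl
  · subst h1; rw [un_apply_self, h.2]
  · rw [un_apply_gt _ h1, h.1 i j h1]

theorem co_un (u : Up n → ℂ) : co (un u) = u := by
  funext p
  obtain ⟨⟨i, j⟩, h⟩ := p
  exact un_apply_lt u h

theorem kn_diag {g h : Gp n} (hg : IsB g) (hh : IsB h) (i : Fin n) :
    ((g * h : Gp n) : Matrix (Fin n) (Fin n) ℂ) i i =
      (g : Matrix (Fin n) (Fin n) ℂ) i i * (h : Matrix (Fin n) (Fin n) ℂ) i i := by
  rw [coe_gmul, Matrix.mul_apply, Finset.sum_eq_single i]
  · intro k _ hk
    rcases lt_or_gt_of_ne hk with h1 | h1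
    · rw [hg i k h1, zero_mul]
    · rw [hh k i h1, mul_zero]
  · intro h1
    exact absurd (Finset.mem_univ _) h1

theorem IsB.mul' {b c : Gp n} (hb : IsB b) (hc : IsB c) : IsB (b * c) := by
  have h1 : (b : Matrix (Fin n) (Fin n) ℂ).BlockTriangular id := fun i j h => hb i j h
  have h2 : (c : Matrix (Fin n) (Fin n) ℂ).BlockTriangular id := fun i j h => hc i j h
  intro i j h
  exact (h1.mul h2) h

theorem IsU.mul {g h : Gp n} (hg : IsU g) (hh : IsU h) : IsU (g * h) :=
  ⟨hg.1.mul' hh.1, fun i => by rw [kn_diag hg.1 hh.1, hg.2, hh.2, one_mul]⟩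

/-- The inverse of an upper triangular matrix is upper triangular. -/
theorem IsB.inv' {b : Gp n} (hb : IsB b) : IsB b⁻¹ := by
  have h1 : (b : Matrix (Fin n) (Fin n) ℂ).BlockTriangular id := fun i j h => hb i j h
  have h2 : (b : Matrix (Fin n) (Fin n) ℂ)⁻¹ = ((b⁻¹ : Gp n) : Matrix (Fin n) (Fin n) ℂ) := by
    rw [Matrix.inv_def, b.det_coe, Ring.inverse_one, one_smul, Matrix.SpecialLinearGroup.coe_inv]
  have h3 : Invertible (b : Matrix (Fin n) (Fin n) ℂ) := by
    refine Matrix.invertibleOfIsUnitDet _ ?_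
    rw [b.det_coe]
    exact isUnit_one
  have h4 := Matrix.blockTriangular_inv_of_blockTriangular h1
  rw [h2] at h4
  intro i j h
  exact h4 h

theorem IsU.inv {g : Gp n} (hg : IsU g) : IsU g⁻¹ := by
  refine ⟨hg.1.inv', fun i => ?_⟩
  have h1 := kn_diag hg.1 hg.1.inv' i
  rw [mul_inv_cancel, hg.2, one_mul, coe_gone, Matrix.one_apply_eq] at h1
  exact h1.symm

theorem continuous_un : Continuous (un : (Up n → ℂ) → Gp n) := by
  apply continuous_induced_rng.2
  refine continuous_matrix fun i j => ?_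
  show Continuous fun u : Up n → ℂ => unM u i j
  unfold unM
  simp only [Matrix.of_apply]
  split_ifs with h h'
  · exact continuous_apply _
  · exact continuous_const
  · exact continuous_const

theorem continuous_co : Continuous (co : Gp n → Up n → ℂ) := by
  refine continuous_pi fun p => ?_
  exact continuous_subtype_val.matrix_elem p.1.1 p.1.2

/-- A unimodular triangular affine map preserves the Lebesgue measure. -/
theorem kn_affine {α : Type} [LinearOrder α] (b : Up n → α) (L : Matrix (Up n) (Up n) ℂ)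
    (hL : L.BlockTriangular b) (h1 : ∀ p q, b p = b q → L p q = if p = q then 1 else 0)
    (w : Up n → ℂ) :
    MeasurePreserving (fun u : Up n → ℂ => w + L *ᵥ u) volume volume := by
  have hdet : L.det = 1 := by
    rw [hL.det]
    refine Finset.prod_eq_one fun a _ => ?_
    have h2 : L.toSquareBlock b a = 1 := by
      ext ⟨p, hp⟩ ⟨q, hq⟩
      show L p q = _
      rw [h1 p q (hp.trans hq.symm), Matrix.one_apply]
      congr 1
      exact propext Subtype.mk_eq_mk.symm
    rw [h2, Matrix.det_one]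
  set f : (Up n → ℂ) →ₗ[ℝ] (Up n → ℂ) := (Matrix.toLin' L).restrictScalars ℝ with hf
  have hfdet : LinearMap.det f = 1 := by
    rw [hf, LinearMap.det_restrictScalars, LinearMap.det_toLin', hdet, map_one]
  have h2 : MeasurePreserving f volume volume := by
    refine ⟨(f.continuous_of_finiteDimensional).measurable, ?_⟩
    rw [Measure.map_linearMap_addHaar_eq_smul_addHaar volume (by rw [hfdet]; exact one_ne_zero),
      hfdet, inv_one, abs_one, ENNReal.ofReal_one, one_smul]
  exact (measurePreserving_add_left volume w).comp h2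

/-- Left multiplication by a unipotent matrix preserves the Lebesgue measure. -/
theorem mp_left (w : Up n → ℂ) :
    MeasurePreserving (fun u : Up n → ℂ => co (un w * un u)) volume volume := by
  set L : Matrix (Up n) (Up n) ℂ := Matrix.of fun p q =>
    if q.1.2 = p.1.2 then (un w : Matrix (Fin n) (Fin n) ℂ) p.1.1 q.1.1 else 0 with hL
  have h1 : (fun u : Up n → ℂ => co (un w * un u)) = fun u => w + L *ᵥ u := by
    funext u p
    obtain ⟨⟨i, j⟩, hij⟩ := p
    have e1 : co (un w * un u) ⟨(i, j), hij⟩ =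
        ∑ k, (un w : Matrix (Fin n) (Fin n) ℂ) i k * (un u : Matrix (Fin n) (Fin n) ℂ) k j := by
      show ((un w * un u : Gp n) : Matrix (Fin n) (Fin n) ℂ) i j = _
      rw [coe_gmul, Matrix.mul_apply]
    have e2 : (w + L *ᵥ u) ⟨(i, j), hij⟩ = w ⟨(i, j), hij⟩ +
        ∑ q : Up n, (if q.1.2 = j then (un w : Matrix (Fin n) (Fin n) ℂ) i q.1.1 else 0) * u q := rfl
    rw [e1, e2, ← Finset.add_sum_erase Finset.univ _ (Finset.mem_univ j), un_apply_lt w hij,
      un_apply_self, mul_one]
    congr 1
    have e3 : ∀ q : Up n, (if q.1.2 = j then (un w : Matrix (Fin n) (Fin n) ℂ) i q.1.1 else 0) * u q =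
        if q.1.2 = j then (un w : Matrix (Fin n) (Fin n) ℂ) i q.1.1 * u q else 0 := by
      intro q
      split_ifs
      · rfl
      · rw [zero_mul]
    rw [Finset.sum_congr rfl fun q _ => e3 q, ← Finset.sum_filter]
    symm
    refine Finset.sum_bij_ne_zero (fun q _ _ => q.1.1) ?_ ?_ ?_ ?_
    · intro q hq _
      rw [Finset.mem_filter] at hq
      refine Finset.mem_erase.2 ⟨?_, Finset.mem_univ _⟩
      have := q.2
      rw [hq.2] at this
      exact ne_of_lt this
    · intro q hq _ q' hq' _ h
      rw [Finset.mem_filter] at hq hq'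
      exact Subtype.ext (Prod.ext h (hq.2.trans hq'.2.symm))
    · intro k _ hk
      have h3 : k < j := by
        by_contra h4
        rcases lt_or_eq_of_le (not_lt.1 h4) with h5 | h5
        · exact hk (by rw [un_apply_gt u h5, mul_zero])
        · subst h5
          rename_i h6
          exact (Finset.ne_of_mem_erase h6) rfl
      refine ⟨⟨(k, j), h3⟩, ?_, ?_, rfl⟩
      · rw [Finset.mem_filter]
        exact ⟨Finset.mem_univ _, rfl⟩
      · rw [un_apply_lt u h3] at hk
        exact hk
    · intro q hq _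
      rw [Finset.mem_filter] at hq
      obtain ⟨⟨a, c⟩, hac⟩ := q
      have h6 : c = j := hq.2
      subst h6
      rw [un_apply_lt u hac]
  rw [h1]
  refine kn_affine (fun p => p.1.1) L ?_ ?_ w
  · intro p q h
    show (if q.1.2 = p.1.2 then (un w : Matrix (Fin n) (Fin n) ℂ) p.1.1 q.1.1 else 0) = 0
    split_ifs
    · exact un_apply_gt w h
    · rfl
  · intro p q h
    show (if q.1.2 = p.1.2 then (un w : Matrix (Fin n) (Fin n) ℂ) p.1.1 q.1.1 else 0) = _
    rw [← h, un_apply_self]
    by_cases h3 : q.1.2 = p.1.2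
    · rw [if_pos h3, if_pos (Subtype.ext (Prod.ext h h3.symm))]
    · rw [if_neg h3, if_neg]
      rintro rfl
      exact h3 rfl

/-- Right multiplication by a unipotent matrix preserves the Lebesgue measure. -/
theorem mp_right (w : Up n → ℂ) :
    MeasurePreserving (fun u : Up n → ℂ => co (un u * un w)) volume volume := by
  set L : Matrix (Up n) (Up n) ℂ := Matrix.of fun p q =>
    if q.1.1 = p.1.1 then (un w : Matrix (Fin n) (Fin n) ℂ) q.1.2 p.1.2 else 0 with hL
  have h1 : (fun u : Up n → ℂ => co (un u * un w)) = fun u => w + L *ᵥ u := by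
    funext u p
    obtain ⟨⟨i, j⟩, hij⟩ := p
    have e1 : co (un u * un w) ⟨(i, j), hij⟩ =
        ∑ k, (un u : Matrix (Fin n) (Fin n) ℂ) i k * (un w : Matrix (Fin n) (Fin n) ℂ) k j := by
      show ((un u * un w : Gp n) : Matrix (Fin n) (Fin n) ℂ) i j = _
      rw [coe_gmul, Matrix.mul_apply]
    have e2 : (w + L *ᵥ u) ⟨(i, j), hij⟩ = w ⟨(i, j), hij⟩ +
        ∑ q : Up n, (if q.1.1 = i then (un w : Matrix (Fin n) (Fin n) ℂ) q.1.2 j else 0) * u q := rfl
    rw [e1, e2, ← Finset.add_sum_erase Finset.univ _ (Finset.mem_univ i), un_apply_lt w hij,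
      un_apply_self, one_mul]
    congr 1
    have e3 : ∀ q : Up n, (if q.1.1 = i then (un w : Matrix (Fin n) (Fin n) ℂ) q.1.2 j else 0) * u q =
        if q.1.1 = i then u q * (un w : Matrix (Fin n) (Fin n) ℂ) q.1.2 j else 0 := by
      intro q
      split_ifs
      · rw [mul_comm]
      · rw [zero_mul]
    rw [Finset.sum_congr rfl fun q _ => e3 q, ← Finset.sum_filter]
    symm
    refine Finset.sum_bij_ne_zero (fun q _ _ => q.1.2) ?_ ?_ ?_ ?_
    · intro q hq _
      rw [Finset.mem_filter] at hq
      refine Finset.mem_erase.2 ⟨?_, Finset.mem_univ _⟩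
      have := q.2
      rw [hq.2] at this
      exact ne_of_gt this
    · intro q hq _ q' hq' _ h
      rw [Finset.mem_filter] at hq hq'
      exact Subtype.ext (Prod.ext (hq.2.trans hq'.2.symm) h)
    · intro k h6 hk
      have h3 : i < k := by
        by_contra h4
        rcases lt_or_eq_of_le (not_lt.1 h4) with h5 | h5
        · exact hk (by rw [un_apply_gt u h5, zero_mul])
        · subst h5
          exact (Finset.ne_of_mem_erase h6) rfl
      refine ⟨⟨(i, k), h3⟩, ?_, ?_, rfl⟩
      · rw [Finset.mem_filter]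
        exact ⟨Finset.mem_univ _, rfl⟩
      · rw [un_apply_lt u h3] at hk
        exact hk
    · intro q hq _
      rw [Finset.mem_filter] at hq
      obtain ⟨⟨a, c⟩, hac⟩ := q
      have h6 : a = i := hq.2
      subst h6
      rw [un_apply_lt u hac]
  rw [h1]
  refine kn_affine (fun p => OrderDual.toDual p.1.2) L ?_ ?_ w
  · intro p q h
    show (if q.1.1 = p.1.1 then (un w : Matrix (Fin n) (Fin n) ℂ) q.1.2 p.1.2 else 0) = 0
    have h' : p.1.2 < q.1.2 := OrderDual.toDual_lt_toDual.1 h
    split_ifs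
    · exact un_apply_gt w h'
    · rfl
  · intro p q h
    show (if q.1.1 = p.1.1 then (un w : Matrix (Fin n) (Fin n) ℂ) q.1.2 p.1.2 else 0) = _
    have h' : p.1.2 = q.1.2 := OrderDual.toDual_inj.1 h
    rw [h', un_apply_self]
    by_cases h3 : q.1.1 = p.1.1
    · rw [if_pos h3, if_pos (Subtype.ext (Prod.ext h3.symm h'))]
    · rw [if_neg h3, if_neg]
      rintro rfl
      exact h3 rfl

/-- Conjugation with `dg H 1`. -/
noncomputable def dcj (H : aa n) (u : Up n → ℂ) : Up n → ℂ := fun p =>
  Real.exp (H.1 p.1.1 - H.1 p.1.2) * u p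

theorem dg_un (H : aa n) (u : Up n → ℂ) : dg H 1 * un u = un (dcj H u) * dg H 1 := by
  apply gp_ext
  rw [coe_gmul, coe_gmul, coe_dg]
  ext i j
  rw [Matrix.diagonal_mul, Matrix.mul_diagonal]
  rcases lt_trichotomy i j with h1 | h1 | h1
  · rw [un_apply_lt _ h1, un_apply_lt _ h1]
    unfold dcj
    simp only
    have e : Complex.exp (1 * (H.1 i : ℂ)) =
        (Real.exp (H.1 i - H.1 j) : ℂ) * Complex.exp (1 * (H.1 j : ℂ)) := by
      rw [Complex.ofReal_exp, ← Complex.exp_add]
      congr 1
      push_cast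
      ring
    rw [e]
    ring
  · subst h1
    rw [un_apply_self, un_apply_self, mul_one, one_mul, one_mul]
  · rw [un_apply_gt _ h1, un_apply_gt _ h1, mul_zero, zero_mul]

theorem continuous_dcj : Continuous fun v : aa n × (Up n → ℂ) => dcj v.1 v.2 := by
  refine continuous_pi fun p => ?_
  show Continuous fun v : aa n × (Up n → ℂ) =>
    ((Real.exp (v.1.1 p.1.1 - v.1.1 p.1.2) : ℝ) : ℂ) * v.2 p
  have h1 : ∀ i : Fin n, Continuous fun v : aa n × (Up n → ℂ) => v.1.1 i := fun i =>
    (continuous_apply i).comp (continuous_subtype_val.comp continuous_fst)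
  exact (Complex.continuous_ofReal.comp (Real.continuous_exp.comp ((h1 _).sub (h1 _)))).mul
    ((continuous_apply p).comp continuous_snd)

theorem kn_sum (f : Fin n → Fin n → ℝ) :
    ∑ p : Up n, f p.1.1 p.1.2 = ∑ i, ∑ j, if i < j then f i j else 0 := by
  rw [← Fintype.sum_prod_type' (fun i j : Fin n => if i < j then f i j else 0),
    ← Finset.sum_filter]
  exact (Finset.sum_subtype (Finset.univ.filter fun p : Fin n × Fin n => p.1 < p.2)
    (fun p => by simp) (fun p : Fin n × Fin n => f p.1 p.2)).symm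

theorem sum_rho2 (H : aa n) : ∑ p : Up n, (H.1 p.1.1 - H.1 p.1.2) = ∑ i, rho2 n i * H.1 i := by
  rw [Finset.sum_sub_distrib, kn_sum (fun i _ => H.1 i), kn_sum (fun _ j => H.1 j),
    Finset.sum_comm (f := fun i j : Fin n => if i < j then H.1 j else 0), ← Finset.sum_sub_distrib]
  refine Finset.sum_congr rfl fun i _ => ?_
  rw [← Finset.sum_filter, ← Finset.sum_filter, Finset.sum_const, Finset.sum_const]
  have h1 : (Finset.univ.filter fun j : Fin n => i < j).card = n - 1 - i := by
    rw [← Fin.card_Ioi i]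
    congr 1
    ext j
    simp
  have h2 : (Finset.univ.filter fun j : Fin n => j < i).card = i := by
    rw [← Fin.card_Iio i]
    congr 1
    ext j
    simp
  have h3 : (i : ℕ) ≤ n - 1 := by
    have := i.2
    omega
  have h4 : 1 ≤ n := by
    have := i.2
    omega
  rw [h1, h2, nsmul_eq_mul, nsmul_eq_mul, Nat.cast_sub h3, Nat.cast_sub h4]
  unfold rho2
  push_cast
  ring

theorem vol_dcj (H : aa n) : volume {u : Up n → ℂ | ∀ p, ‖dcj H u p‖ ≤ 1} =
    ENNReal.ofReal (Real.exp (-2 * ∑ i, rho2 n i * H.1 i)) *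
      volume {u : Up n → ℂ | ∀ p, ‖u p‖ ≤ 1} := by
  have h1 : {u : Up n → ℂ | ∀ p, ‖dcj H u p‖ ≤ 1} = Set.pi Set.univ fun p : Up n =>
      Metric.closedBall (0 : ℂ) (Real.exp (-(H.1 p.1.1 - H.1 p.1.2))) := by
    ext u
    simp only [Set.mem_ofPred_eq, Set.mem_pi, Set.mem_univ, forall_true_left,
      Metric.mem_closedBall, dist_zero_right]
    refine forall_congr' fun p => ?_
    unfold dcj
    rw [norm_mul, Complex.norm_real, Real.norm_eq_abs, abs_of_pos (Real.exp_pos _), Real.exp_neg,
      inv_eq_one_div, le_div_iff₀ (Real.exp_pos _), mul_comm]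
  have h2 : {u : Up n → ℂ | ∀ p, ‖u p‖ ≤ 1} = Set.pi Set.univ fun _ : Up n =>
      Metric.closedBall (0 : ℂ) 1 := by
    ext u
    simp only [Set.mem_ofPred_eq, Set.mem_pi, Set.mem_univ, forall_true_left,
      Metric.mem_closedBall, dist_zero_right]
  rw [h1, h2, volume_pi, Measure.pi_pi, Measure.pi_pi]
  have h3 : ∀ p : Up n, volume (Metric.closedBall (0 : ℂ) (Real.exp (-(H.1 p.1.1 - H.1 p.1.2)))) =
      ENNReal.ofReal (Real.exp (-2 * (H.1 p.1.1 - H.1 p.1.2))) *
        volume (Metric.closedBall (0 : ℂ) 1) := by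
    intro p
    rw [Complex.volume_closedBall, Complex.volume_closedBall, ENNReal.ofReal_one, one_pow, one_mul,
      ← ENNReal.ofReal_pow (Real.exp_pos _).le, ← Real.exp_nat_mul]
    congr 3
    push_cast
    ring
  rw [Finset.prod_congr rfl fun p _ => h3 p, Finset.prod_mul_distrib,
    ← ENNReal.ofReal_prod_of_nonneg fun p _ => (Real.exp_pos _).le, ← Real.exp_sum,
    ← Finset.mul_sum, sum_rho2]

end Pool.Agent.SG
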