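import Pool.Agent.H.MP_e23cd6_ag.SG.KD

/-!
# Integrability of the sum of the invariants near a point of `U`
-/

set_option autoImplicit false

open scoped Manifold ContDiff Topology ENNReal
open MeasureTheory Set Filter

namespace Pool.Agent.SG

open Pool.Agent.Abd Pool.Agent.Abn

variable {E : Type} [NormedAddCommGroup E] [NormedSpace ℂ E] [FiniteDimensional ℂ E]
  [MeasureSpace E] [BorelSpace E] [(volume : Measure E).IsAddHaarMeasure] {n : ℕ}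
  {X₀ X : Type} [TopologicalSpace X₀] [ChartedSpace E X₀] [IsManifold 𝓘(ℂ, E) ω X₀]
  [SecondCountableTopology X₀] [TopologicalSpace X] [T2Space X] [CompactSpace X]
  {N : NSp E X₀ X} {L P : NLine N} {A : GAct n N} {ΛL : GLin A L} {ΛP : GLin A P}

theorem KP_norm_le {κ : Type} [Fintype κ] (v : κ → ℂ) (α : κ) : ‖v α‖ ≤ nm v := by
  unfold nm ns
  refine Real.le_sqrt_of_sq_le ?_
  exact Finset.single_le_sum (f := fun i => ‖v i‖ ^ 2) (fun i _ => sq_nonneg _)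
    (Finset.mem_univ α)

theorem KP_sum_le {κ : Type} [Fintype κ] (c v : κ → ℂ) :
    ‖∑ α, c α * v α‖ ≤ (1 + ∑ α, ‖c α‖) * nm v := by
  have h0 : 0 ≤ nm v := KD_nm_nonneg v
  calc ‖∑ α, c α * v α‖ ≤ ∑ α, ‖c α * v α‖ := norm_sum_le _ _
    _ ≤ ∑ α, ‖c α‖ * nm v := Finset.sum_le_sum fun α _ => by
        rw [norm_mul]
        exact mul_le_mul_of_nonneg_left (KP_norm_le v α) (norm_nonneg _)
    _ = (∑ α, ‖c α‖) * nm v := by rw [Finset.sum_mul]
    _ ≤ (1 + ∑ α, ‖c α‖) * nm v := mul_le_mul_of_nonneg_right (by linarith) h0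

theorem KP_hw_bw (w : aa n × (Up n → ℂ)) (i : Fin n) : hw (bw w) i = w.1.1 i := by
  have h1 := hw_B (isB_bw w) 1 i
  rw [one_mul, hw_one, zero_add, bw_apply_self, Complex.norm_exp, Complex.ofReal_re,
    Real.log_exp] at h1
  exact h1

/-- A neighbourhood with a bounded set of return elements. -/
theorem exists_return {U : Set X} (hU : BGood A U) {x₀ : X} (hx : x₀ ∈ U) :
    ∃ W, IsOpen W ∧ x₀ ∈ W ∧ W ⊆ U ∧ ∃ R : ℝ, ∀ b, IsB b → ∀ x ∈ W, A.act b x ∈ W →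
      ∀ i j, ‖(b : Matrix (Fin n) (Fin n) ℂ) i j‖ ≤ R := by
  obtain ⟨C, hC, hxC, hCU⟩ := exists_compact_subset hU.isOpen hx
  obtain ⟨R, hR⟩ := hU.proper C hCU hC
  refine ⟨interior C, isOpen_interior, hxC, interior_subset.trans hCU, R, ?_⟩
  intro b hb x hx hbx
  exact hR b hb x (interior_subset hx) (interior_subset hbx)

namespace KDat

variable {fL fP : Gp n → X → ℝ} {κ : Type} [Fintype κ] [DecidableEq κ] {kk m a b : ℕ}
  (D : KDat ΛL ΛP fL fP κ kk m a b)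

omit [FiniteDimensional ℂ E] [MeasureSpace E] [BorelSpace E] [(volume : Measure E).IsAddHaarMeasure]
  [SecondCountableTopology X₀] [T2Space X] [CompactSpace X] in
/-- The tuple of sections is continuous in a chart. -/
theorem vec_cont {i : L.ι} {j : P.ι} {φ : OpenPartialHomeomorph X₀ E} (hφ : φ ∈ Charts E X₀)
    {z : E} (hz : z ∈ φ.target) (hi : N.inc (φ.symm z) ∈ L.U i) (hj : N.inc (φ.symm z) ∈ P.U j) :
    ContinuousAt (fun z => D.vec i j φ (φ.symm z)) z := by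
  refine continuousAt_pi.2 fun α => ?_
  have hsrc : φ.symm z ∈ φ.source := φ.map_target hz
  have h1 : HolAt E ((D.σ α).f i j φ) (φ.symm z) :=
    (D.σ α).hol i j φ hφ (φ.symm z) (mem_univ _) hi hj hsrc
  exact ContinuousAt.comp (g := (D.σ α).f i j φ) (f := φ.symm) (ContMDiffAt.continuousAt h1)
    (φ.continuousAt_symm hz)

/-- The measure with the density `dens` is finite. -/
theorem exists_finite [MeasurableSpace X₀] [BorelSpace X₀] (hm : 1 ≤ m)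
    {s : Sec2 L.reg P.reg kk 0 m (N.inc ⁻¹' (univ : Set X))} (hs : KltX s) {cc : κ → ℂ}
    (hsc : ∀ i j, ∀ φ ∈ Charts E X₀, ∀ y, N.inc y ∈ L.U i → N.inc y ∈ P.U j → y ∈ φ.source →
      s.f i j φ y = ∑ α, cc α * (D.σ α).f i j φ y) (ht : ∃ x, D.t.NZ x) :
    ∃ δ : ℝ, 0 < δ ∧ ∃ μ : Measure X₀, μ univ < ⊤ ∧ ∀ ψ ∈ Charts E X₀, ∀ B, MeasurableSet B →
      B ⊆ ψ.source → μ B = ∫⁻ z in ψ '' B, D.dens δ ψ (ψ.symm z) := by
  obtain ⟨δ, hδ, hloc⟩ := hs a b D.t ht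
  obtain ⟨μ, hμ⟩ := exists_omega (fun φ y => D.dens δ φ y)
    (fun φ hφ ψ hψ y hy hy' => D.dens_chart hm δ hφ hψ hy hy')
  refine ⟨δ, hδ, μ, omega_lt_top N.emb.continuous hμ ?_, hμ⟩
  intro x
  have hm' : (0 : ℝ) < m := by exact_mod_cast hm
  have hne1 : -(2 : ℝ) / m ≤ 0 := div_nonpos_of_nonpos_of_nonneg (by norm_num) hm'.le
  obtain ⟨i, hi⟩ := L.cover x
  obtain ⟨j, hj⟩ := P.cover x
  obtain ⟨V₀, hV₀, φ, B, hB, hcov, hint⟩ := hloc x i j hi hj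
  have hmL := D.posL i _ hi
  have hmP := D.posP j _ hj
  have hev : ∀ᶠ y in 𝓝 x, y ∈ V₀ ∧ y ∈ L.U i ∧ y ∈ P.U j ∧ D.mL i y < D.mL i x + 1 ∧
      D.mP j y < D.mP j x + 1 := by
    filter_upwards [hV₀, (L.isOpen i).mem_nhds hi, (P.isOpen j).mem_nhds hj,
      (D.contL i _ hi).eventually_lt (g := fun _ => D.mL i x + 1) continuousAt_const
        (lt_add_one (D.mL i x)),
      (D.contP j _ hj).eventually_lt (g := fun _ => D.mP j x + 1) continuousAt_const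
        (lt_add_one (D.mP j x))] with y h1 h2 h3 h4 h5
    exact ⟨h1, h2, h3, h4, h5⟩
  obtain ⟨V, hV, hVo, hxV⟩ := eventually_nhds_iff.1 hev
  refine ⟨V, hVo.mem_nhds hxV, φ, B, hB, fun y hy => hcov (hV _ hy).1, ?_⟩
  obtain ⟨S, hS⟩ : ∃ S : ℝ, S = 1 + ∑ α, ‖cc α‖ := ⟨_, rfl⟩
  have hSp : 0 < S := by
    have : 0 ≤ ∑ α, ‖cc α‖ := Finset.sum_nonneg fun α _ => norm_nonneg _
    rw [hS]
    linarith
  obtain ⟨M₁, hM₁⟩ : ∃ M₁ : ℝ, M₁ = D.mL i x + 1 := ⟨_, rfl⟩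
  obtain ⟨M₂, hM₂⟩ : ∃ M₂ : ℝ, M₂ = D.mP j x + 1 := ⟨_, rfl⟩
  have hM₁p : 0 < M₁ := by rw [hM₁]; linarith
  have hM₂p : 0 < M₂ := by rw [hM₂]; linarith
  have hc₁ : 0 < (S * M₁ ^ kk)⁻¹ := inv_pos.2 (mul_pos hSp (pow_pos hM₁p kk))
  have hc₂ : 0 < (M₁ ^ a * M₂ ^ b)⁻¹ := inv_pos.2 (mul_pos (pow_pos hM₁p a) (pow_pos hM₂p b))
  obtain ⟨C', hC'⟩ : ∃ C' : ℝ≥0∞, C' = ENNReal.ofReal ((S * M₁ ^ kk)⁻¹) ^ (-(2 : ℝ) / m) *
      ENNReal.ofReal ((M₁ ^ a * M₂ ^ b)⁻¹) ^ (-δ) := ⟨_, rfl⟩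
  have hC't : C' ≠ ⊤ := by
    rw [hC']
    exact ENNReal.mul_ne_top
      (ENNReal.rpow_ne_top_of_ne_zero (ENNReal.ofReal_pos.2 hc₁).ne' ENNReal.ofReal_ne_top)
      (ENNReal.rpow_ne_top_of_ne_zero (ENNReal.ofReal_pos.2 hc₂).ne' ENNReal.ofReal_ne_top)
  have key : ∀ l, ∫⁻ z in B l, (N.inc ⁻¹' V).indicator (fun y => D.dens δ (φ l) y)
      ((φ l).symm z) ≤ C' * ∫⁻ z in B l, ‖s.f i j (φ l) ((φ l).symm z)‖ₑ ^ (-(2 : ℝ) / m) *
        ‖D.t.f i j (N.inc ((φ l).symm z))‖ₑ ^ (-δ) := by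
    intro l
    refine (setLIntegral_mono' (hB l).2.1 fun z hz => ?_).trans_eq
      (lintegral_const_mul' C' _ hC't)
    by_cases h : (φ l).symm z ∈ N.inc ⁻¹' V
    · rw [indicator_of_mem h]
      obtain ⟨h1, h2, h3, h4, h5⟩ := hV _ h
      have hsrc : (φ l).symm z ∈ (φ l).source := (φ l).map_target ((hB l).2.2 hz)
      have hmLy := D.posL i _ h2
      have hmPy := D.posP j _ h3
      rw [D.dens_eq δ (hB l).1 hsrc h2 h3]
      unfold den
      have hX : ENNReal.ofReal (nm (D.vec i j (φ l) ((φ l).symm z)) /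
          D.mL i (N.inc ((φ l).symm z)) ^ kk) ^ (-(2 : ℝ) / m) ≤
          ENNReal.ofReal ((S * M₁ ^ kk)⁻¹) ^ (-(2 : ℝ) / m) *
            ‖s.f i j (φ l) ((φ l).symm z)‖ₑ ^ (-(2 : ℝ) / m) := by
        rw [← ENNReal.mul_rpow_of_ne_top ENNReal.ofReal_ne_top enorm_ne_top, ← ofReal_norm,
          ← ENNReal.ofReal_mul hc₁.le]
        refine KD_anti (ENNReal.ofReal_le_ofReal ?_) hne1
        have h6 : ‖s.f i j (φ l) ((φ l).symm z)‖ ≤
            S * nm (D.vec i j (φ l) ((φ l).symm z)) := by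
          rw [hsc i j (φ l) (hB l).1 _ h2 h3 hsrc, hS]
          exact KP_sum_le cc (D.vec i j (φ l) ((φ l).symm z))
        have h7 : D.mL i (N.inc ((φ l).symm z)) ^ kk ≤ M₁ ^ kk := by
          rw [hM₁]
          exact pow_le_pow_left₀ hmLy.le h4.le kk
        calc (S * M₁ ^ kk)⁻¹ * ‖s.f i j (φ l) ((φ l).symm z)‖ ≤
            (S * M₁ ^ kk)⁻¹ * (S * nm (D.vec i j (φ l) ((φ l).symm z))) :=
              mul_le_mul_of_nonneg_left h6 hc₁.le
          _ = nm (D.vec i j (φ l) ((φ l).symm z)) / M₁ ^ kk := by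
              field_simp
          _ ≤ nm (D.vec i j (φ l) ((φ l).symm z)) / D.mL i (N.inc ((φ l).symm z)) ^ kk :=
              div_le_div_of_nonneg_left (KD_nm_nonneg _) (pow_pos hmLy kk) h7
      have hT : ENNReal.ofReal (‖D.t.f i j (N.inc ((φ l).symm z))‖ /
          (D.mL i (N.inc ((φ l).symm z)) ^ a * D.mP j (N.inc ((φ l).symm z)) ^ b)) ^ (-δ) ≤
          ENNReal.ofReal ((M₁ ^ a * M₂ ^ b)⁻¹) ^ (-δ) *
            ‖D.t.f i j (N.inc ((φ l).symm z))‖ₑ ^ (-δ) := by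
        rw [← ENNReal.mul_rpow_of_ne_top ENNReal.ofReal_ne_top enorm_ne_top, ← ofReal_norm,
          ← ENNReal.ofReal_mul hc₂.le]
        refine KD_anti (ENNReal.ofReal_le_ofReal ?_) (by linarith)
        have h7 : D.mL i (N.inc ((φ l).symm z)) ^ a ≤ M₁ ^ a := by
          rw [hM₁]
          exact pow_le_pow_left₀ hmLy.le h4.le a
        have h8 : D.mP j (N.inc ((φ l).symm z)) ^ b ≤ M₂ ^ b := by
          rw [hM₂]
          exact pow_le_pow_left₀ hmPy.le h5.le b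
        rw [mul_comm, ← div_eq_mul_inv]
        refine div_le_div_of_nonneg_left (norm_nonneg _)
          (mul_pos (pow_pos hmLy a) (pow_pos hmPy b)) ?_
        exact mul_le_mul h7 h8 (pow_pos hmPy b).le (pow_pos hM₁p a).le
      refine (mul_le_mul' hX hT).trans_eq ?_
      rw [hC']
      ring
    · rw [indicator_of_notMem h]
      exact zero_le
  refine lt_of_le_of_lt (ENNReal.tsum_le_tsum key) ?_
  rw [ENNReal.tsum_mul_left]
  exact ENNReal.mul_lt_top hC't.lt_top hint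

/-- The translates. -/
theorem measure_translate [MeasurableSpace X₀] [BorelSpace X₀] {δ : ℝ} {μ : Measure X₀}
    (hμ : ∀ ψ ∈ Charts E X₀, ∀ B, MeasurableSet B →
      B ⊆ ψ.source → μ B = ∫⁻ z in ψ '' B, D.dens δ ψ (ψ.symm z)) (g : Gp n)
    {ψ : OpenPartialHomeomorph X₀ E} (hψ : ψ ∈ Charts E X₀) {B : Set X₀} (hB : MeasurableSet B)
    (hBψ : B ⊆ ψ.source) :
    μ {y | A.reg g⁻¹ y ∈ B} =
      ∫⁻ z in ψ '' B, D.dens δ (gpull A g⁻¹ ψ) (A.reg g (ψ.symm z)) := by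
  have hsub : {y | A.reg g⁻¹ y ∈ B} ⊆ (gpull A g⁻¹ ψ).source := by
    intro y hy
    rw [mem_gpull_source]
    exact hBψ hy
  have hmeas : MeasurableSet {y | A.reg g⁻¹ y ∈ B} := (reg_continuous A g⁻¹).measurable hB
  rw [hμ (gpull A g⁻¹ ψ) (gpull_mem A g⁻¹ hψ) _ hmeas hsub]
  have himg : gpull A g⁻¹ ψ '' {y | A.reg g⁻¹ y ∈ B} = ψ '' B := by
    ext z
    constructor
    · rintro ⟨y, hy, rfl⟩
      exact ⟨A.reg g⁻¹ y, hy, rfl⟩
    · rintro ⟨y, hy, rfl⟩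
      refine ⟨A.reg g y, ?_, ?_⟩
      · show A.reg g⁻¹ (A.reg g y) ∈ B
        rw [reg_inv_reg]
        exact hy
      · rw [gpull_apply, reg_inv_reg]
  rw [himg]
  simp only [gpull_symm_apply, inv_inv]

/-- Integrability near a point. -/
theorem klt_point {U : Set X} (hU : BGood A U) {K k : ℕ} (hk : 1 ≤ k) (hkk : kk = k * K)
    (hm : 1 ≤ m) {s : Sec2 L.reg P.reg kk 0 m (N.inc ⁻¹' (univ : Set X))} (hs : KltX s)
    {cc : κ → ℂ}
    (hsc : ∀ i j, ∀ φ ∈ Charts E X₀, ∀ y, N.inc y ∈ L.U i → N.inc y ∈ P.U j → y ∈ φ.source →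
      s.f i j φ y = ∑ α, cc α * (D.σ α).f i j φ y) (ht : ∃ x, D.t.NZ x)
    {χ : Fin n → ℤ} (hanti : Antitone fun i => k * χ i + m * rho2 n i)
    (hgr : ∀ δ : ℝ, 0 < δ → ∀ x₀ ∈ U, ∃ W ∈ 𝓝 x₀, ∃ C : ℝ, ∀ y ∈ W, ∀ g, IsB g →
      -C ≤ K * fL g y + ∑ c, χ c * hw g c +
        δ * (a * fL g y + b * fP g y + ∑ c, D.χt c * hw g c)) :
    ∃ q : ℕ, 2 ≤ q ∧ ∃ T : Finset (MvPolynomial κ ℂ),
      (∀ p ∈ T, p ∈ BPoly D.V q (fun i => q * (k * χ i + m * rho2 n i))) ∧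
      ∀ (φ : ℕ → OpenPartialHomeomorph X₀ E) (Dd : ℕ → Set X₀), (∀ l, φ l ∈ Charts E X₀) →
        (∀ l, Dd l ⊆ (φ l).source) → (∀ l, CM E (Dd l)) →
        (∀ l l' y, y ∈ Dd l → y ∈ Dd l' → l = l') →
        ∀ x₀ ∈ U, ∃ i j, ∃ W, IsOpen W ∧ x₀ ∈ W ∧ W ⊆ U ∧ W ⊆ L.U i ∧ W ⊆ P.U j ∧
          ∑' l, ∫⁻ z in φ l '' (N.inc ⁻¹' W ∩ Dd l),
            (∑ p ∈ T, ‖MvPolynomial.eval (D.vec i j (φ l) ((φ l).symm z)) p‖ₑ) ^
              (-(2 : ℝ) / (m * q : ℕ)) < ⊤ := by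
  classical
  have hm' : (0 : ℝ) < m := by exact_mod_cast hm
  have hk' : (0 : ℝ) < k := by exact_mod_cast hk
  obtain ⟨q, hq, T, C, hC, hT, hFF⟩ := exists_FF_inv D.V hm hanti
  refine ⟨q, hq, T, hT, ?_⟩
  intro φ Dd hφ hDφ hDm hDd x₀ hx₀
  letI : MeasurableSpace X₀ := borel X₀
  haveI : BorelSpace X₀ := ⟨rfl⟩
  obtain ⟨δ, hδ, μ, hμfin, hμ⟩ := D.exists_finite hm hs hsc ht
  haveI : IsFiniteMeasure μ := ⟨hμfin⟩
  obtain ⟨W₀, hW₀, C₀, hC₀⟩ := hgr (δ * m / (2 * k)) (by positivity) x₀ hx₀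
  obtain ⟨W₁, hW₁o, hxW₁, hW₁U, R, hR⟩ := exists_return hU hx₀
  obtain ⟨i, hi⟩ := L.cover x₀
  obtain ⟨j, hj⟩ := P.cover x₀
  obtain ⟨W, hWsub, hWo, hxW, hWL, hWP, c, hc0, hct, hge⟩ := D.dens_ge hk hkk hm hδ χ
    (Filter.inter_mem hW₀ (hW₁o.mem_nhds hxW₁)) (fun y hy g hg => hC₀ y hy.1 g hg) hi hj
  refine ⟨i, j, W, hWo, hxW, fun y hy => hW₁U (hWsub hy).2, hWL, hWP, ?_⟩
  -- the pieces
  have hAφ : ∀ l, N.inc ⁻¹' W ∩ Dd l ⊆ (φ l).source := fun l y hy => hDφ l hy.2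
  have hAm : ∀ l, MeasurableSet (φ l '' (N.inc ⁻¹' W ∩ Dd l)) := fun l =>
    CM.image (hφ l) ((CM.of_isOpen (hWo.preimage N.emb.continuous)).inter (hDm l)) (hAφ l)
  have hA0 : ∀ l, MeasurableSet (N.inc ⁻¹' W ∩ Dd l) := by
    intro l
    have h1 : φ l '' (N.inc ⁻¹' W ∩ Dd l) ⊆ (φ l).target := by
      rintro z ⟨y, hy, rfl⟩
      exact (φ l).map_source (hAφ l hy)
    have h2 := measurableSet_chart_image (hAm l) h1
    have h3 : (φ l).symm '' (φ l '' (N.inc ⁻¹' W ∩ Dd l)) = N.inc ⁻¹' W ∩ Dd l := by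
      ext y
      constructor
      · rintro ⟨z, ⟨y', hy', rfl⟩, rfl⟩
        rw [(φ l).left_inv (hAφ l hy')]
        exact hy'
      · intro hy
        exact ⟨φ l y, ⟨y, hy, rfl⟩, (φ l).left_inv (hAφ l hy)⟩
    rwa [h3] at h2
  -- the continuous family of maps
  have hf : Continuous fun v : (aa n × (Up n → ℂ)) × X₀ => A.reg (bw v.1)⁻¹ v.2 :=
    (reg_cont A).comp (((continuous_bw.comp continuous_fst).inv).prodMk continuous_snd)
  have hfw : ∀ w : aa n × (Up n → ℂ), Continuous fun y : X₀ => A.reg (bw w)⁻¹ y :=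
    fun w => reg_continuous A _
  obtain ⟨C₂, hC₂, hmu⟩ := muB_le (n := n) R
  have hret : ∀ y : X₀, muB n {w | A.reg (bw w)⁻¹ y ∈ N.inc ⁻¹' W} ≤ C₂ := by
    intro y
    rcases Set.eq_empty_or_nonempty {w | A.reg (bw w)⁻¹ y ∈ N.inc ⁻¹' W} with h1 | ⟨w₀, hw₀⟩
    · rw [h1, measure_empty]
      exact zero_le
    · refine (measure_mono ?_).trans (hmu w₀)
      intro w hww
      have hw₀' : N.inc (A.reg (bw w₀)⁻¹ y) ∈ W := hw₀
      have hww' : N.inc (A.reg (bw w)⁻¹ y) ∈ W := hww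
      refine hR ((bw w)⁻¹ * bw w₀) ((isB_bw w).inv'.mul' (isB_bw w₀))
        (N.inc (A.reg (bw w₀)⁻¹ y)) (hWsub hw₀').2 ?_
      rw [A.inc, reg_mul, reg_reg_inv]
      exact (hWsub hww').2
  obtain ⟨-, hton⟩ := tonelli_act μ (muB n) (f := fun w y => A.reg (bw w)⁻¹ y) hf
    (hWo.preimage N.emb.continuous).measurableSet hret
  -- each piece
  have key : ∀ l, ∫⁻ z in φ l '' (N.inc ⁻¹' W ∩ Dd l),
      (∑ p ∈ T, ‖MvPolynomial.eval (D.vec i j (φ l) ((φ l).symm z)) p‖ₑ) ^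
        (-(2 : ℝ) / (m * q : ℕ)) ≤
      C * (c⁻¹ * ∫⁻ w, μ {y | A.reg (bw w)⁻¹ y ∈ N.inc ⁻¹' W ∩ Dd l} ∂(muB n)) := by
    intro l
    refine (lintegral_mono fun z => hFF (D.vec i j (φ l) ((φ l).symm z))).trans ?_
    rw [lintegral_const_mul' C _ hC]
    refine mul_le_mul' le_rfl ?_
    unfold FF
    rw [lintegral_lintegral_swap]
    · rw [← lintegral_const_mul' c⁻¹ _ (ENNReal.inv_ne_top.2 hc0)]
      refine lintegral_mono fun w => ?_
      rw [D.measure_translate hμ (bw w) (hφ l) (hA0 l) (hAφ l),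
        ← lintegral_const_mul' c⁻¹ _ (ENNReal.inv_ne_top.2 hc0)]
      refine setLIntegral_mono' (hAm l) ?_
      rintro z ⟨y, hy, rfl⟩
      rw [(φ l).left_inv (hAφ l hy)]
      have h1 := hge y hy.1 (φ l) (hφ l) (hAφ l hy) (bw w) (isB_bw w)
      simp only [KP_hw_bw] at h1
      exact (ENNReal.mul_le_iff_le_inv hc0 hct).1 h1
    · have hcont : ContinuousOn (fun z => D.vec i j (φ l) ((φ l).symm z))
          (φ l '' (N.inc ⁻¹' W ∩ Dd l)) := by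
        rintro z ⟨y, hy, rfl⟩
        have h1 : (φ l).symm (φ l y) = y := (φ l).left_inv (hAφ l hy)
        refine (D.vec_cont (hφ l) ((φ l).map_source (hAφ l hy)) ?_ ?_).continuousWithinAt
        · rw [h1]
          exact hWL hy.1
        · rw [h1]
          exact hWP hy.1
      have h1 : AEMeasurable (fun z => D.vec i j (φ l) ((φ l).symm z))
          (volume.restrict (φ l '' (N.inc ⁻¹' W ∩ Dd l))) := hcont.aemeasurable (hAm l)
      have h2 : AEMeasurable (fun x : E × (aa n × (Up n → ℂ)) =>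
          (D.vec i j (φ l) ((φ l).symm x.1), x.2))
          ((volume.restrict (φ l '' (N.inc ⁻¹' W ∩ Dd l))).prod (muB n)) :=
        (h1.comp_fst).prodMk measurable_snd.aemeasurable
      have h3 := (measurable_gden D.V m (fun i => k * χ i + m * rho2 n i)).comp_aemeasurable h2
      have h4 : Continuous fun w : aa n × (Up n → ℂ) =>
          ENNReal.ofReal (Real.exp (2 * ∑ i, rho2 n i * w.1.1 i)) := by
        have h5 : ∀ i : Fin n, Continuous fun v : aa n × (Up n → ℂ) => v.1.1 i := fun i =>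
          (continuous_apply i).comp (continuous_subtype_val.comp continuous_fst)
        exact ENNReal.continuous_ofReal.comp (Real.continuous_exp.comp
          (continuous_const.mul (continuous_finsetSum _ fun i _ => continuous_const.mul (h5 i))))
      exact h3.mul ((h4.measurable.comp measurable_snd).aemeasurable)
  refine lt_of_le_of_lt (ENNReal.tsum_le_tsum key) ?_
  rw [ENNReal.tsum_mul_left, ENNReal.tsum_mul_left]
  refine ENNReal.mul_lt_top hC.lt_top (ENNReal.mul_lt_top (ENNReal.inv_ne_top.2 hc0).lt_top ?_)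
  rw [← lintegral_tsum fun l => ?_]
  · refine lt_of_le_of_lt (lintegral_mono fun w => ?_)
      (lt_of_le_of_lt hton (ENNReal.mul_lt_top hC₂.lt_top hμfin))
    rw [← measure_iUnion]
    · refine measure_mono ?_
      intro y hy
      obtain ⟨l, hl⟩ := mem_iUnion.1 hy
      exact hl.1
    · intro l l' hne
      rw [Function.onFun, Set.disjoint_left]
      intro y hy hy'
      exact hne (hDd l l' _ hy.2 hy'.2)
    · intro l
      exact (hfw w).measurable (hA0 l)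
  · exact (tonelli_act μ (muB n) (f := fun w y => A.reg (bw w)⁻¹ y) hf (hA0 l)
      (C := ⊤) fun y => le_top).1.aemeasurable

end KDat

end Pool.Agent.SG
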