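import Pool.Agent.H.MP_e23cd6_ag.SG.KP
import Pool.Agent.H.MP_e23cd6_ag.NT.KltFin

/-!
# The klt pair on the quotient `U / B`
-/

set_option autoImplicit false

open scoped Manifold ContDiff Topology ENNReal
open MeasureTheory Set Filter

namespace Pool.Agent.SG

open Pool.Agent.Abd Pool.Agent.Abn

theorem kz_eval_smul {κ : Type} [Fintype κ] {q : ℕ} {p : MvPolynomial κ ℂ}
    (hp : p.IsHomogeneous q) (c : ℂ) (v : κ → ℂ) :
    MvPolynomial.eval (fun α => c * v α) p = c ^ q * MvPolynomial.eval v p := by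
  rw [MvPolynomial.eval_eq', MvPolynomial.eval_eq', Finset.mul_sum]
  refine Finset.sum_congr rfl fun d hd => ?_
  have h1 : d.degree = q := by
    rw [Finsupp.degree_eq_weight_one]
    exact hp (MvPolynomial.mem_support_iff.1 hd)
  rw [Finsupp.degree_eq_sum] at h1
  have h2 : ∏ i, (c * v i) ^ d i = c ^ q * ∏ i, v i ^ d i := by
    simp only [mul_pow]
    rw [Finset.prod_mul_distrib, Finset.prod_pow_eq_pow_sum, h1]
  rw [h2]
  ring

section alg

variable {E : Type} [NormedAddCommGroup E] [NormedSpace ℂ E] {n : ℕ}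
  {X₀ X : Type} [TopologicalSpace X₀] [ChartedSpace E X₀] [TopologicalSpace X]
  {N : NSp E X₀ X} {L P : NLine N} {A : GAct n N} {ΛL : GLin A L} {ΛP : GLin A P}

/-- A homogeneous polynomial in sections is a section. -/
theorem exists_polySec {κ : Type} [Fintype κ] {kk m q : ℕ}
    (σ : κ → Sec2 L.reg P.reg kk 0 m (N.inc ⁻¹' (univ : Set X))) {p : MvPolynomial κ ℂ}
    (hp : p.IsHomogeneous q) : ∃ s : Sec2 L.reg P.reg (q * kk) 0 (q * m) (N.inc ⁻¹' (univ : Set X)),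
      ∀ i j, ∀ φ ∈ Charts E X₀, ∀ y, N.inc y ∈ L.U i → N.inc y ∈ P.U j → y ∈ φ.source →
        s.f i j φ y = MvPolynomial.eval (fun α => (σ α).f i j φ y) p := by
  refine ⟨⟨fun i j φ y => MvPolynomial.eval (fun α => (σ α).f i j φ y) p, ?_, ?_⟩,
    fun i j φ hφ y _ _ _ => rfl⟩
  · intro i j φ hφ x hx hi hj h
    have e : (fun y => MvPolynomial.eval (fun α => (σ α).f i j φ y) p) = fun y =>
        ∑ d ∈ p.support, MvPolynomial.coeff d p * ∏ α, (σ α).f i j φ y ^ d α := by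
      funext y
      rw [MvPolynomial.eval_eq']
    rw [e]
    refine contMDiffAt_finsetSum fun d _ => ?_
    have h1 : HolAt E (fun _ : X₀ => MvPolynomial.coeff d p) x := contMDiffAt_const
    exact h1.mul (contMDiffAt_finsetProd fun α _ => ((σ α).hol i j φ hφ x hx hi hj h).pow (d α))
  · intro i j i' j' φ hφ ψ hψ x hx h1 h2 h3 h4 h5 h6
    have e : (fun α => (σ α).f i j φ x) = fun α =>
        (L.reg.g i i' x ^ kk * P.reg.g j j' x ^ 0 * jac φ ψ x ^ m) * (σ α).f i' j' ψ x := by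
      funext α
      exact (σ α).trans i j i' j' φ hφ ψ hψ x hx h1 h2 h3 h4 h5 h6
    rw [e, kz_eval_smul hp]
    ring

end alg

variable {E : Type} [NormedAddCommGroup E] [NormedSpace ℂ E] [FiniteDimensional ℂ E]
  [MeasureSpace E] [BorelSpace E] [(volume : Measure E).IsAddHaarMeasure] {n : ℕ}
  {X₀ X : Type} [TopologicalSpace X₀] [ChartedSpace E X₀] [IsManifold 𝓘(ℂ, E) ω X₀]
  [SecondCountableTopology X₀] [TopologicalSpace X] [T2Space X] [CompactSpace X]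
  {N : NSp E X₀ X} {L P : NLine N} {A : GAct n N} {ΛL : GLin A L} {ΛP : GLin A P}

/-- The open set `U` is the union of countably many compact sets. -/
theorem BGood.sigmaCompact {U : Set X} (hU : BGood A U) :
    ∃ C : ℕ → Set X, (∀ l, IsCompact (C l)) ∧ (∀ l, C l ⊆ U) ∧ U ⊆ ⋃ l, C l := by
  obtain ⟨C, hCU, hC, hcov⟩ := hU.cocompact
  have hBcl : IsClosed {b : Gp n | IsB b} := by
    have e : {b : Gp n | IsB b} = ⋂ i : Fin n, ⋂ j : Fin n, ⋂ (_ : j < i),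
        {b : Gp n | (b : Matrix (Fin n) (Fin n) ℂ) i j = 0} := by
      ext b
      simp only [mem_iInter]
      exact Iff.rfl
    rw [e]
    refine isClosed_iInter fun i => isClosed_iInter fun j => isClosed_iInter fun _ => ?_
    exact isClosed_eq (continuous_subtype_val.matrix_elem i j) continuous_const
  have hBc : ∀ l : ℕ, IsCompact ({b : Gp n | sz b ≤ l} ∩ {b : Gp n | IsB b}) := fun l =>
    (sz_compact (l : ℝ)).inter_right hBcl
  refine ⟨fun l => (fun v : Gp n × X => A.act v.1 v.2) ''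
    (({b : Gp n | sz b ≤ l} ∩ {b : Gp n | IsB b}) ×ˢ C),
    fun l => ((hBc l).prod hC).image A.cont, ?_, ?_⟩
  · rintro l _ ⟨⟨b, x⟩, ⟨⟨-, hb⟩, hx⟩, rfl⟩
    exact hU.inv b hb x (hCU hx)
  · intro x hx
    obtain ⟨b, hb, hbx⟩ := hcov x hx
    obtain ⟨l, hl⟩ := exists_nat_ge (sz b⁻¹)
    refine mem_iUnion.2 ⟨l, ⟨b⁻¹, A.act b x⟩, ⟨⟨hl, IsB.inv' hb⟩, hbx⟩, ?_⟩
    show A.act b⁻¹ (A.act b x) = x
    rw [← A.mul, inv_mul_cancel, A.one]

theorem KDat.bkltQ {fL fP : Gp n → X → ℝ} {κ : Type} [Fintype κ] [DecidableEq κ] {kk m a b : ℕ}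
    (D : KDat ΛL ΛP fL fP κ kk m a b) {U : Set X} (hU : BGood A U) {K k : ℕ} (hk : 1 ≤ k)
    (hkk : kk = k * K) (hm : 1 ≤ m) {s : Sec2 L.reg P.reg kk 0 m (N.inc ⁻¹' (univ : Set X))}
    (hs : KltX s) {cc : κ → ℂ}
    (hsc : ∀ i j, ∀ φ ∈ Charts E X₀, ∀ y, N.inc y ∈ L.U i → N.inc y ∈ P.U j → y ∈ φ.source →
      s.f i j φ y = ∑ α, cc α * (D.σ α).f i j φ y) (ht : ∃ x, D.t.NZ x)
    {χ : Fin n → ℤ} (hanti : Antitone fun i => k * χ i + m * rho2 n i)
    (hgr : ∀ δ : ℝ, 0 < δ → ∀ x₀ ∈ U, ∃ W ∈ 𝓝 x₀, ∃ C : ℝ, ∀ y ∈ W, ∀ g, IsB g →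
      -C ≤ K * fL g y + ∑ c, χ c * hw g c +
        δ * (a * fL g y + b * fP g y + ∑ c, D.χt c * hw g c)) :
    BKltQ ΛL ΛP U K χ k m := by
  classical
  obtain ⟨q, hq, T, hT, hint⟩ := D.klt_point hU hk hkk hm hs hsc ht hanti hgr
  have hne : U.Nonempty := hU.conn.nonempty
  obtain ⟨y₀, -⟩ := exists_reg N hU.isOpen hne
  haveI : Nonempty X₀ := ⟨y₀⟩
  haveI : T2Space X₀ := N.emb.toIsEmbedding.t2Space
  obtain ⟨φ, Dd, hφ, hDφ, hDm, hDd, hDcov⟩ := exists_atlas (E := E) (X₀ := X₀)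
  have hpt := fun x0 : {x // x ∈ U} => hint φ Dd hφ hDφ hDm hDd x0.1 x0.2
  choose i j V hVo hxV hVU hVL hVP hint' using hpt
  obtain ⟨C, hC, hCU, hUC⟩ := hU.sigmaCompact
  obtain ⟨J, hJc, hJ⟩ : ∃ J : Set {x // x ∈ U}, J.Countable ∧ U ⊆ ⋃ t ∈ J, V t := by
    have h1 : ∀ l, ∃ J : Finset {x // x ∈ U}, C l ⊆ ⋃ t ∈ J, V t := by
      intro l
      refine (hC l).elim_finite_subcover V hVo ?_
      intro x hx
      exact mem_iUnion.2 ⟨⟨x, hCU l hx⟩, hxV _⟩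
    choose J hJ using h1
    refine ⟨⋃ l, (J l : Set {x // x ∈ U}), countable_iUnion fun l => (J l).countable_toSet, ?_⟩
    intro x hx
    obtain ⟨l, hl⟩ := mem_iUnion.1 (hUC hx)
    obtain ⟨t, ht, hxt⟩ := mem_iUnion₂.1 (hJ l hl)
    exact mem_iUnion₂.2 ⟨t, mem_iUnion.2 ⟨l, ht⟩, hxt⟩
  have hcount : Countable J := hJc.to_subtype
  have hsec : ∀ p : T, ∃ s : Sec2 L.reg P.reg (q * kk) 0 (q * m) (N.inc ⁻¹' (univ : Set X)),
      ∀ i j, ∀ φ ∈ Charts E X₀, ∀ y, N.inc y ∈ L.U i → N.inc y ∈ P.U j → y ∈ φ.source →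
        s.f i j φ y = MvPolynomial.eval (fun α => (D.σ α).f i j φ y) p.1 :=
    fun p => exists_polySec D.σ (hT p.1 p.2).1
  choose S hS using hsec
  have hmq : 2 ≤ m * q := by nlinarith
  have hmq' : (2 : ℝ) ≤ ((m * q : ℕ) : ℝ) := by exact_mod_cast hmq
  have hτ : (0 : ℝ) < 2 / ((m * q : ℕ) : ℝ) := by positivity
  have hτ2 : (2 : ℝ) / ((m * q : ℕ) : ℝ) < 2 := by
    rw [div_lt_iff₀ (by linarith)]
    linarith
  have hWm : ∀ (t : {x // x ∈ U}) (l : ℕ), MeasurableSet (φ l '' (N.inc ⁻¹' V t ∩ Dd l)) :=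
    fun t l => CM.image (hφ l)
      ((CM.of_isOpen ((hVo t).preimage N.emb.continuous)).inter (hDm l))
      (fun y hy => hDφ l hy.2)
  obtain ⟨c, hc⟩ := bertini_seq (J := J) (Λ := T)
    (fun t l => volume.restrict (φ l '' (N.inc ⁻¹' V t.1 ∩ Dd l)))
    (fun t l p w => (S p).f (i t.1) (j t.1) (φ l) ((φ l).symm w))
    (fun t l p => by
      refine ContinuousOn.aemeasurable ?_ (hWm t.1 l)
      rintro w ⟨y, hy, rfl⟩
      apply ContinuousAt.continuousWithinAt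
      have hs1 : y ∈ (φ l).source := hDφ l hy.2
      have h1 : ContinuousAt (φ l).symm (φ l y) :=
        (φ l).continuousAt_symm ((φ l).map_source hs1)
      have h2 := ((S p).hol' (x := y) (mem_univ _)
        ⟨hφ l, hVL t.1 hy.1, hVP t.1 hy.1, hs1⟩).continuousAt
      rw [← (φ l).left_inv hs1] at h2
      exact ContinuousAt.comp (f := (φ l).symm) h2 h1) hτ hτ2 (fun t => by
      have h1 := hint' t.1
      refine lt_of_le_of_lt (le_of_eq ?_) h1
      refine tsum_congr fun l => ?_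
      refine setLIntegral_congr_fun (hWm t.1 l) ?_
      rintro w ⟨y, hy, rfl⟩
      have hs1 : y ∈ (φ l).source := hDφ l hy.2
      have e1 : (φ l).symm (φ l y) = y := (φ l).left_inv hs1
      simp only [e1]
      rw [← neg_div]
      congr 1
      rw [← Finset.sum_coe_sort T]
      refine Finset.sum_congr rfl fun p _ => ?_
      rw [hS p _ _ _ (hφ l) y (hVL t.1 hy.1) (hVP t.1 hy.1) hs1]
      rfl)
  have hsub : N.inc ⁻¹' U ⊆ N.inc ⁻¹' (univ : Set X) := fun y _ => mem_univ _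
  refine ⟨q, by omega, ((Sec2.sum Finset.univ (fun p : T => Sec2.smul (c p) (S p))).res
    hsub).cast (by rw [hkk]; ring) rfl (mul_comm q m), ?_, ?_⟩
  · intro b hb i j i' j' φ hφ ψ hψ x hx hbx h1 h2 h3 h4 h5 h6
    have h1' : N.inc (A.reg b x) ∈ L.U i := by rw [← A.inc]; exact h1
    have h2' : N.inc (A.reg b x) ∈ P.U j := by rw [← A.inc]; exact h2
    show chrB _ b * ∑ p : T, c p * (S p).f i j φ (A.reg b x) = _ * ∑ p : T, c p *
      (S p).f i' j' ψ x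
    rw [Finset.mul_sum, Finset.mul_sum]
    refine Finset.sum_congr rfl fun p _ => ?_
    rw [hS p _ _ _ hφ _ h1' h2' h5, hS p _ _ _ hψ _ h3 h4 h6]
    have e1 : (fun α => (D.σ α).f i j φ (A.reg b x)) = fun α =>
        (ΛL.lam i i' b (N.inc x) ^ kk * A.jac φ ψ b x ^ m) *
          D.V.act b (fun β => (D.σ β).f i' j' ψ x) α := by
      funext α
      exact D.eqv b i j i' j' φ hφ ψ hψ x h1 h2 h3 h4 h5 h6 α
    rw [e1, kz_eval_smul (hT p.1 p.2).1]
    have e2 := (hT p.1 p.2).2 b hb (fun β => (D.σ β).f i' j' ψ x)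
    have e3 : (fun i => (q : ℤ) * (k * χ i + m * rho2 n i)) =
        fun c => (k : ℤ) * q * χ c + m * q * rho2 n c := by
      funext i
      ring
    rw [e3] at e2
    have e4 : ΛL.lam i i' b (N.inc x) ^ (k * q * K) =
        (ΛL.lam i i' b (N.inc x) ^ kk) ^ q := by
      rw [← pow_mul, hkk]
      congr 1
      ring
    rw [← e2, e4]
    ring
  · apply nklt_of_local hU.isOpen
    intro x hx
    have h1 := hJ hx
    simp only [mem_iUnion, exists_prop] at h1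
    obtain ⟨t, htT, hxt⟩ := h1
    refine ⟨i t, j t, hVL t hxt, hVP t hxt, V t, (hVo t).mem_nhds hxt, φ,
      fun l => φ l '' (N.inc ⁻¹' V t ∩ Dd l), fun l => ⟨hφ l, hWm t l, ?_⟩, ?_, ?_⟩
    · rintro w ⟨y, hy, rfl⟩
      exact (φ l).map_source (hDφ l hy.2)
    · intro y hy
      obtain ⟨l, hl⟩ := hDcov y
      exact mem_iUnion.2 ⟨l, φ l y, ⟨y, ⟨hy, hl⟩, rfl⟩, (φ l).left_inv (hDφ l hl)⟩
    · have h2 := hc ⟨t, htT⟩
      rw [neg_div]
      exact h2

/-- Section 10. -/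
theorem klt_main [ConnectedSpace X] {S : GSys n X} (r : SysOf ΛL ΛP S) {U : Set X} (hU : BGood A U)
    {K k m : ℕ} (hk : 1 ≤ k) (hm : 1 ≤ m)
    (s : Sec2 L.reg P.reg (k * K) 0 m (N.inc ⁻¹' (univ : Set X))) (hs : KltX s)
    {a b : ℕ} (t : NSec L P a b univ) (ht : ∃ x, t.NZ x) {χt : Fin n → ℤ} (hwt : BWt ΛL ΛP χt t)
    {χ : Fin n → ℤ} (hχ : Antitone χ)
    (hgr : ∀ δ : ℝ, 0 < δ → ∀ x₀ ∈ U, ∃ W ∈ 𝓝 x₀, ∃ C : ℝ, ∀ y ∈ W, ∀ g, IsB g →
      -C ≤ K * S.fL g y + ∑ c, χ c * hw g c +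
        δ * (a * S.fL g y + b * S.fP g y + ∑ c, χt c * hw g c)) :
    BKltQ ΛL ΛP U K χ k m := by
  obtain ⟨κ, i1, i2, V, σ, cc, h1, h2⟩ := exists_span r s
  obtain ⟨mL, mP, h3, h4, h5, h6, h7, h8⟩ := r.metric
  have hanti : Antitone fun i => (k : ℤ) * χ i + m * rho2 n i := by
    intro i j hij
    have e1 := hχ hij
    have e2 : ((i : ℕ) : ℤ) ≤ ((j : ℕ) : ℤ) := by exact_mod_cast hij
    have e3 : rho2 n j ≤ rho2 n i := by
      unfold rho2
      omega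
    have e4 : (0 : ℤ) ≤ k := Int.natCast_nonneg _
    have e5 : (0 : ℤ) ≤ m := Int.natCast_nonneg _
    show (k : ℤ) * χ j + m * rho2 n j ≤ k * χ i + m * rho2 n i
    nlinarith [mul_le_mul_of_nonneg_left e1 e4, mul_le_mul_of_nonneg_left e3 e5]
  let D : KDat ΛL ΛP S.fL S.fP κ (k * K) m a b :=
    { mL := mL, mP := mP, posL := fun i y hy => (h3 i y hy).1, posP := fun i y hy => (h4 i y hy).1,
      contL := fun i y hy => (h3 i y hy).2, contP := fun i y hy => (h4 i y hy).2,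
      trL := h5, trP := h6, grL := h7, grP := h8, V := V, σ := σ, eqv := h2, t := t, χt := χt,
      wt := hwt }
  exact D.bkltQ hU hk rfl hm hs h1 ht hanti hgr

end Pool.Agent.SG
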