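import Mathlib

/-! MP_e23cd6_ag, invariant theory block: the Laplace lemma. For a positive definite function `Φ` of
finite rank on a compact group, equal to `1` wherever its modulus is `1`, with small imaginary part near
the identity, the integrals of `h Φ ^ n` do not vanish for large `n`. -/

set_option autoImplicit false

open MeasureTheory Set Filter Topology
open scoped ENNReal NNReal InnerProductSpace

namespace Pool.Agent.SG

section lap

variable {K : Type*} [Group K] [TopologicalSpace K] [IsTopologicalGroup K] [CompactSpace K]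
  [MeasurableSpace K] [BorelSpace K]
variable {W : Type*} [NormedAddCommGroup W] [InnerProductSpace ℂ W] [FiniteDimensional ℂ W]
  [MeasurableSpace W] [BorelSpace W]

/-- Doubling of the Haar measure of the sets `‖F k - F 1‖ ≤ δ`. -/
theorem doubling (μ : Measure K) [μ.IsMulLeftInvariant] [IsFiniteMeasure μ] (F : K → W)
    (hF : Continuous F) (D : K → ℝ) (hD : ∀ a b, ‖F a - F b‖ = D (a⁻¹ * b)) {δ R : ℝ} (hδ : 0 < δ)
    (hR : 0 ≤ R) :
    μ {k | D k ≤ R * δ} ≤
      ENNReal.ofReal ((2 * R + 1) ^ Module.finrank ℝ W) * μ {k | D k ≤ δ} := by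
  have hfd : FiniteDimensional ℝ W := FiniteDimensional.complexToReal W
  have hDk : ∀ k, D k = ‖F 1 - F k‖ := fun k ↦ by rw [hD]; simp
  set p := Module.finrank ℝ W with hp
  set ν : Measure W := Measure.addHaar with hν
  set S : Set (K × W) := {q | ‖F q.1 - q.2‖ ≤ δ / 2 ∧ D q.1 ≤ R * δ} with hS
  have hDc : Continuous D := by
    have : D = fun k ↦ ‖F 1 - F k‖ := funext hDk
    rw [this]; fun_prop
  have hmF : Measurable F := hF.measurable
  have hSm : MeasurableSet S := by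
    apply MeasurableSet.inter
    · have h1 : Measurable fun q : K × W ↦ ‖F q.1 - q.2‖ :=
        ((hmF.comp measurable_fst).sub measurable_snd).norm
      exact measurableSet_le h1 measurable_const
    · exact measurableSet_le (hDc.measurable.comp measurable_fst) measurable_const
  have hA : (μ.prod ν) S = μ {k | D k ≤ R * δ} * (ENNReal.ofReal ((δ / 2) ^ p) * ν (Metric.ball 0 1)) := by
    rw [Measure.prod_apply hSm]
    have h2 : ∀ k : K, ν (Prod.mk k ⁻¹' S) =
        ({k | D k ≤ R * δ} : Set K).indicator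
          (fun _ ↦ ENNReal.ofReal ((δ / 2) ^ p) * ν (Metric.ball 0 1)) k := by
      intro k
      by_cases hk : D k ≤ R * δ
      · rw [Set.indicator_of_mem (by exact hk)]
        have h3 : Prod.mk k ⁻¹' S = Metric.closedBall (F k) (δ / 2) := by
          ext y
          simp only [hS, mem_preimage, mem_ofPred_eq, Metric.mem_closedBall, dist_eq_norm]
          rw [norm_sub_rev]
          exact ⟨fun h ↦ h.1, fun h ↦ ⟨h, hk⟩⟩
        rw [h3, Measure.addHaar_closedBall ν _ (by positivity)]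
      · rw [Set.indicator_of_notMem (by exact hk)]
        have h3 : Prod.mk k ⁻¹' S = ∅ := by
          ext y
          simp only [hS, mem_preimage, mem_ofPred_eq, mem_empty_iff_false, iff_false]
          exact fun h ↦ hk h.2
        rw [h3, measure_empty]
    simp_rw [h2]
    rw [lintegral_indicator (measurableSet_le hDc.measurable measurable_const), setLIntegral_const,
      mul_comm]
  have hB : (μ.prod ν) S ≤ μ {k | D k ≤ δ} *
      (ENNReal.ofReal ((R * δ + δ / 2) ^ p) * ν (Metric.ball 0 1)) := by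
    rw [Measure.prod_apply_symm hSm]
    have h2 : ∀ y : W, μ ((fun k ↦ (k, y)) ⁻¹' S) ≤
        (Metric.closedBall (F 1) (R * δ + δ / 2)).indicator (fun _ ↦ μ {k | D k ≤ δ}) y := by
      intro y
      rcases ((fun k ↦ (k, y)) ⁻¹' S).eq_empty_or_nonempty with h0 | ⟨k', hk'⟩
      · rw [h0, measure_empty]; exact bot_le
      have hk1 : ‖F k' - y‖ ≤ δ / 2 := hk'.1
      have hk2 : D k' ≤ R * δ := hk'.2
      have hy : y ∈ Metric.closedBall (F 1) (R * δ + δ / 2) := by
        rw [Metric.mem_closedBall, dist_eq_norm, norm_sub_rev]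
        calc ‖F 1 - y‖ = ‖(F 1 - F k') + (F k' - y)‖ := by congr 1; abel
          _ ≤ ‖F 1 - F k'‖ + ‖F k' - y‖ := norm_add_le _ _
          _ ≤ R * δ + δ / 2 := add_le_add ((hDk k').symm ▸ hk2) hk1
      rw [Set.indicator_of_mem hy]
      have h3 : ((fun k ↦ (k, y)) ⁻¹' S) ⊆ (fun k ↦ k'⁻¹ * k) ⁻¹' {k | D k ≤ δ} := by
        intro k hk
        have hk3 : ‖F k - y‖ ≤ δ / 2 := hk.1
        simp only [mem_preimage, mem_ofPred_eq]
        rw [← hD]
        calc ‖F k' - F k‖ = ‖(F k' - y) - (F k - y)‖ := by congr 1; abel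
          _ ≤ ‖F k' - y‖ + ‖F k - y‖ := norm_sub_le _ _
          _ ≤ δ := by linarith
      calc μ ((fun k ↦ (k, y)) ⁻¹' S) ≤ μ ((fun k ↦ k'⁻¹ * k) ⁻¹' {k | D k ≤ δ}) := measure_mono h3
        _ = μ {k | D k ≤ δ} := measure_preimage_mul μ _ _
    calc ∫⁻ y, μ ((fun k ↦ (k, y)) ⁻¹' S) ∂ν
        ≤ ∫⁻ y, (Metric.closedBall (F 1) (R * δ + δ / 2)).indicator (fun _ ↦ μ {k | D k ≤ δ}) y ∂ν :=
          lintegral_mono h2
      _ = μ {k | D k ≤ δ} * ν (Metric.closedBall (F 1) (R * δ + δ / 2)) := by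
          rw [lintegral_indicator Metric.isClosed_closedBall.measurableSet, setLIntegral_const]
      _ = _ := by rw [Measure.addHaar_closedBall ν _ (by positivity)]
  rw [hA] at hB
  have hν0 : ν (Metric.ball (0 : W) 1) ≠ 0 := (Metric.measure_ball_pos ν 0 one_pos).ne'
  have hνt : ν (Metric.ball (0 : W) 1) ≠ ∞ := measure_ball_lt_top.ne
  have hd0 : ENNReal.ofReal ((δ / 2) ^ p) ≠ 0 := by
    rw [Ne, ENNReal.ofReal_eq_zero, not_le]; positivity
  have hdt : ENNReal.ofReal ((δ / 2) ^ p) ≠ ∞ := ENNReal.ofReal_ne_top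
  have he : ENNReal.ofReal ((R * δ + δ / 2) ^ p) =
      ENNReal.ofReal ((2 * R + 1) ^ p) * ENNReal.ofReal ((δ / 2) ^ p) := by
    rw [← ENNReal.ofReal_mul (by positivity), ← mul_pow]
    congr 2; ring
  rw [he] at hB
  have hB2 : μ {k | D k ≤ R * δ} * (ENNReal.ofReal ((δ / 2) ^ p) * ν (Metric.ball 0 1)) ≤
      (ENNReal.ofReal ((2 * R + 1) ^ p) * μ {k | D k ≤ δ}) *
        (ENNReal.ofReal ((δ / 2) ^ p) * ν (Metric.ball 0 1)) := by
    refine hB.trans (le_of_eq ?_)
    ring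
  exact (ENNReal.mul_le_mul_iff_left (mul_ne_zero hd0 hν0) (ENNReal.mul_ne_top hdt hνt)).1 hB2

theorem summ (p : ℕ) : Summable fun s : ℕ ↦
    Real.exp (-((s : ℝ) / 8)) * (2 * Real.sqrt (s + 1) + 1) ^ p := by
  have h1 := Real.summable_pow_mul_exp_neg_nat_mul p (r := 1 / 8) (by norm_num)
  have h2 := (summable_nat_add_iff 1).2 h1
  have h3 := h2.mul_left ((3 : ℝ) ^ p * Real.exp (1 / 8))
  refine Summable.of_nonneg_of_le (fun s ↦ by positivity) (fun s ↦ ?_) h3
  have h4 : Real.sqrt (s + 1) ≤ s + 1 := by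
    rw [Real.sqrt_le_left (by positivity)]
    have : (0 : ℝ) ≤ s := Nat.cast_nonneg s
    nlinarith
  have h5 : (2 * Real.sqrt (s + 1) + 1) ^ p ≤ (3 * ((s : ℝ) + 1)) ^ p := by
    have : (0 : ℝ) ≤ s := Nat.cast_nonneg s
    exact pow_le_pow_left₀ (by positivity) (by linarith) p
  calc Real.exp (-((s : ℝ) / 8)) * (2 * Real.sqrt (s + 1) + 1) ^ p
      ≤ Real.exp (-((s : ℝ) / 8)) * (3 * ((s : ℝ) + 1)) ^ p := by gcongr
    _ = 3 ^ p * Real.exp (1 / 8) * (((s + 1 : ℕ) : ℝ) ^ p * Real.exp (-(1 / 8) * (s + 1 : ℕ))) := by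
        have h6 : Real.exp (-((s : ℝ) / 8)) = Real.exp (1 / 8) * Real.exp (-(1 / 8) * (s + 1 : ℕ)) := by
          rw [← Real.exp_add]; congr 1; push_cast; ring
        rw [h6, mul_pow]; push_cast; ring

/-- the integral of `exp (- n d / 8)`, `d = ‖F k - F 1‖ ^ 2 / 2`, is at most a constant times the
measure of `d ≤ 1 / n` -/
theorem expInt (μ : Measure K) [μ.IsMulLeftInvariant] [IsFiniteMeasure μ] (F : K → W)
    (hF : Continuous F) (D : K → ℝ) (hD : ∀ a b, ‖F a - F b‖ = D (a⁻¹ * b)) :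
    ∃ C : ℝ, 0 ≤ C ∧ ∀ n : ℕ, 1 ≤ n →
      ∫ k, Real.exp (-(n * (D k ^ 2 / 2) / 8)) ∂μ ≤ C * μ.real {k | D k ^ 2 / 2 ≤ 1 / n} := by
  set p := Module.finrank ℝ W with hp
  have hDk : ∀ k, D k = ‖F 1 - F k‖ := fun k ↦ by rw [hD]; simp
  have hD0 : ∀ k, 0 ≤ D k := fun k ↦ by rw [hDk]; exact norm_nonneg _
  have hDc : Continuous D := by
    have : D = fun k ↦ ‖F 1 - F k‖ := funext hDk
    rw [this]; fun_prop
  refine ⟨∑' s : ℕ, Real.exp (-((s : ℝ) / 8)) * (2 * Real.sqrt (s + 1) + 1) ^ p,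
    tsum_nonneg fun s ↦ by positivity, fun n hn ↦ ?_⟩
  have hn0 : (0 : ℝ) < n := by exact_mod_cast hn
  set δ : ℝ := Real.sqrt (2 / n) with hδ
  have hδ0 : 0 < δ := Real.sqrt_pos.2 (by positivity)
  have hset : ∀ s : ℝ, 0 ≤ s → {k | D k ^ 2 / 2 ≤ s / n} = {k | D k ≤ Real.sqrt s * δ} := by
    intro s hs
    ext k
    simp only [mem_ofPred_eq]
    rw [hδ, ← Real.sqrt_mul hs, Real.le_sqrt (hD0 k) (by positivity)]
    constructor
    · intro h
      have : s * (2 / n) = 2 * (s / n) := by ring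
      rw [this]; linarith
    · intro h
      have : s * (2 / n) = 2 * (s / n) := by ring
      rw [this] at h; linarith
  have hB1 : {k | D k ^ 2 / 2 ≤ 1 / n} = {k | D k ≤ δ} := by
    rw [hset 1 zero_le_one]; simp
  have hmeas : ∀ s : ℝ, MeasurableSet {k | D k ≤ s} := fun s ↦
    measurableSet_le hDc.measurable measurable_const
  have hpt : ∀ k, ENNReal.ofReal (Real.exp (-(n * (D k ^ 2 / 2) / 8))) ≤
      ∑' s : ℕ, ENNReal.ofReal (Real.exp (-((s : ℝ) / 8))) *
        ({k | D k ≤ Real.sqrt (s + 1) * δ} : Set K).indicator 1 k := by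
    intro k
    set x : ℝ := n * (D k ^ 2 / 2) with hx
    have hx0 : 0 ≤ x := by positivity
    refine le_trans ?_ (ENNReal.le_tsum ⌊x⌋₊)
    have h1 : k ∈ ({k | D k ≤ Real.sqrt (⌊x⌋₊ + 1) * δ} : Set K) := by
      rw [← hset _ (by positivity)]
      simp only [mem_ofPred_eq]
      rw [le_div_iff₀ hn0, mul_comm]
      exact (Nat.lt_floor_add_one x).le
    rw [Set.indicator_of_mem h1]
    simp only [Pi.one_apply, mul_one]
    apply ENNReal.ofReal_le_ofReal
    apply Real.exp_le_exp.2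
    have := Nat.floor_le hx0
    linarith
  have hle : ∫⁻ k, ENNReal.ofReal (Real.exp (-(n * (D k ^ 2 / 2) / 8))) ∂μ ≤
      ENNReal.ofReal (∑' s : ℕ, Real.exp (-((s : ℝ) / 8)) * (2 * Real.sqrt (s + 1) + 1) ^ p) *
        μ {k | D k ≤ δ} := by
    calc ∫⁻ k, ENNReal.ofReal (Real.exp (-(n * (D k ^ 2 / 2) / 8))) ∂μ
        ≤ ∫⁻ k, ∑' s : ℕ, ENNReal.ofReal (Real.exp (-((s : ℝ) / 8))) *
          ({k | D k ≤ Real.sqrt (s + 1) * δ} : Set K).indicator 1 k ∂μ := lintegral_mono hpt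
      _ = ∑' s : ℕ, ENNReal.ofReal (Real.exp (-((s : ℝ) / 8))) *
          μ {k | D k ≤ Real.sqrt (s + 1) * δ} := by
          rw [lintegral_tsum]
          · congr 1
            funext s
            rw [lintegral_const_mul _ (measurable_one.indicator (hmeas _)),
              lintegral_indicator_one (hmeas _)]
          · intro s
            exact ((measurable_one.indicator (hmeas _)).const_mul _).aemeasurable
      _ ≤ ∑' s : ℕ, ENNReal.ofReal (Real.exp (-((s : ℝ) / 8)) *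
          (2 * Real.sqrt (s + 1) + 1) ^ p) * μ {k | D k ≤ δ} := by
          refine ENNReal.tsum_le_tsum fun s ↦ ?_
          rw [ENNReal.ofReal_mul (by positivity), mul_assoc]
          gcongr
          exact doubling μ F hF D hD hδ0 (Real.sqrt_nonneg _)
      _ = _ := by
          rw [ENNReal.tsum_mul_right, ENNReal.ofReal_tsum_of_nonneg (fun s ↦ by positivity) (summ p)]
  rw [integral_eq_lintegral_of_nonneg_ae (Eventually.of_forall fun k ↦ by positivity)
    (by fun_prop)]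
  have h2 := ENNReal.toReal_mono (ENNReal.mul_ne_top ENNReal.ofReal_ne_top (measure_ne_top μ _)) hle
  rw [ENNReal.toReal_mul, ENNReal.toReal_ofReal (tsum_nonneg fun s ↦ by positivity)] at h2
  rw [hB1]
  exact h2

/-- lower bound of the measure of `d ≤ 1 / n` -/
theorem ballLower (μ : Measure K) [μ.IsMulLeftInvariant] [IsFiniteMeasure μ] (F : K → W)
    (hF : Continuous F) (D : K → ℝ) (hD : ∀ a b, ‖F a - F b‖ = D (a⁻¹ * b)) (h2 : ∀ k, D k ≤ 2)
    (n : ℕ) (hn : 1 ≤ n) :
    μ.real univ ≤ (7 * n) ^ Module.finrank ℝ W * μ.real {k | D k ^ 2 / 2 ≤ 1 / n} := by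
  set p := Module.finrank ℝ W with hp
  have hDk : ∀ k, D k = ‖F 1 - F k‖ := fun k ↦ by rw [hD]; simp
  have hD0 : ∀ k, 0 ≤ D k := fun k ↦ by rw [hDk]; exact norm_nonneg _
  have hn0 : (0 : ℝ) < n := by exact_mod_cast hn
  have hn1 : (1 : ℝ) ≤ n := by exact_mod_cast hn
  set δ : ℝ := 1 / n with hδ
  have hδ0 : 0 < δ := by positivity
  have hd := doubling μ F hF D hD hδ0 (R := 2 * n) (by positivity)
  have e1 : {k | D k ≤ 2 * n * δ} = univ := by
    ext k
    simp only [mem_ofPred_eq, mem_univ, iff_true]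
    have : 2 * n * δ = 2 := by rw [hδ]; field_simp
    rw [this]; exact h2 k
  rw [e1] at hd
  have e2 : μ {k | D k ≤ δ} ≤ μ {k | D k ^ 2 / 2 ≤ 1 / n} := by
    apply measure_mono
    intro k hk
    simp only [mem_ofPred_eq] at hk ⊢
    have h3 := hD0 k
    have h4 : δ ≤ 1 := by rw [hδ, div_le_one hn0]; exact hn1
    have h5 : D k ^ 2 ≤ δ * 1 := by nlinarith
    rw [hδ] at h5
    have : (0 : ℝ) < 1 / n := by positivity
    linarith
  have e3 : μ univ ≤ ENNReal.ofReal ((7 * n) ^ p) * μ {k | D k ^ 2 / 2 ≤ 1 / n} := by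
    refine hd.trans ?_
    gcongr
    linarith
  have h3 := ENNReal.toReal_mono (ENNReal.mul_ne_top ENNReal.ofReal_ne_top (measure_ne_top μ _)) e3
  rw [ENNReal.toReal_mul, ENNReal.toReal_ofReal (by positivity)] at h3
  exact h3

/-- powers of a complex number with small imaginary part -/
theorem powEst (z : ℂ) (n : ℕ) (hx : 0 ≤ z.re) :
    ‖z ^ n - (z.re : ℂ) ^ n‖ ≤ (z.re + |z.im|) ^ n - z.re ^ n := by
  have hz : ‖z‖ ≤ z.re + |z.im| := by
    have := Complex.norm_le_abs_re_add_abs_im z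
    rwa [abs_of_nonneg hx] at this
  have hd : ‖z - (z.re : ℂ)‖ ≤ |z.im| := by
    have : z - (z.re : ℂ) = (z.im : ℂ) * Complex.I := by
      apply Complex.ext <;> simp
    rw [this]; simp
  induction n with
  | zero => simp
  | succ n ih =>
    have e : z ^ (n + 1) - (z.re : ℂ) ^ (n + 1) =
        z * (z ^ n - (z.re : ℂ) ^ n) + (z - (z.re : ℂ)) * (z.re : ℂ) ^ n := by ring
    have hn : ‖((z.re : ℂ)) ^ n‖ = z.re ^ n := by
      rw [norm_pow, Complex.norm_real, Real.norm_eq_abs, abs_of_nonneg hx]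
    have h0 : 0 ≤ (z.re + |z.im|) ^ n - z.re ^ n := (norm_nonneg _).trans ih
    calc ‖z ^ (n + 1) - (z.re : ℂ) ^ (n + 1)‖
        ≤ ‖z‖ * ‖z ^ n - (z.re : ℂ) ^ n‖ + ‖z - (z.re : ℂ)‖ * ‖(z.re : ℂ) ^ n‖ := by
          rw [e]
          refine (norm_add_le _ _).trans ?_
          rw [norm_mul, norm_mul]
      _ ≤ (z.re + |z.im|) * ((z.re + |z.im|) ^ n - z.re ^ n) + |z.im| * z.re ^ n := by
          rw [hn]
          gcongr
      _ = _ := by ring

end lap

end Pool.Agent.SG
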