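import Pool.Agent.H.MP_e23cd6_ag.SG.Lap

/-! MP_e23cd6_ag, invariant theory block: the Laplace lemma, second part. -/

set_option autoImplicit false

open MeasureTheory Set Filter Topology
open scoped ENNReal NNReal InnerProductSpace

namespace Pool.Agent.SG

theorem exp_eighth : Real.exp (1 / 8) ≤ 5 / 4 := by
  have h1 := Real.one_sub_le_exp_neg (1 / 8)
  rw [Real.exp_neg] at h1
  have h2 := Real.exp_pos (1 / 8)
  have h3 : (7 / 8 : ℝ) * Real.exp (1 / 8) ≤ 1 := by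
    calc (7 / 8 : ℝ) * Real.exp (1 / 8) ≤ (Real.exp (1 / 8))⁻¹ * Real.exp (1 / 8) := by
          gcongr; linarith
      _ = 1 := inv_mul_cancel₀ h2.ne'
  linarith

theorem exp_two : (1 / 9 : ℝ) ≤ Real.exp (-2) := by
  rw [Real.exp_neg, one_div]
  apply inv_anti₀ (Real.exp_pos _)
  have h1 := Real.exp_one_lt_d9
  have h2 : Real.exp 2 = Real.exp 1 * Real.exp 1 := by rw [← Real.exp_add]; norm_num
  have h3 := Real.exp_pos 1
  rw [h2]; nlinarith

/-- the estimate in the main region -/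
theorem mainEst (z g : ℂ) (n : ℕ) (ε R : ℝ) (hR : 1 ≤ R) (hε : ε = 1 / (16 * R))
    (hd : 1 - z.re ≤ 1 / 2) (hd0 : 0 ≤ 1 - z.re) (hy : |z.im| ≤ ε * (1 - z.re))
    (hg : ‖g - 1‖ ≤ 1 / 4) (hn : n * (1 - z.re) ≤ R) :
    7 / 16 * z.re ^ n ≤ (g * z ^ n).re := by
  set x := z.re with hx
  set d := 1 - x with hdd
  have hx0 : 1 / 2 ≤ x := by linarith
  have hR0 : 0 < R := by linarith
  have hε0 : 0 < ε := by rw [hε]; positivity
  have h1 : x + |z.im| ≤ x * (1 + 2 * ε * d) := by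
    have : ε * d ≤ x * (2 * ε * d) := by
      have := mul_nonneg hε0.le hd0
      nlinarith
    nlinarith
  have h2 : (1 + 2 * ε * d) ^ n ≤ 5 / 4 := by
    calc (1 + 2 * ε * d) ^ n ≤ (Real.exp (2 * ε * d)) ^ n := by
          apply pow_le_pow_left₀ (by have := mul_nonneg hε0.le hd0; linarith)
          have := Real.add_one_le_exp (2 * ε * d)
          linarith
      _ = Real.exp (n * (2 * ε * d)) := by rw [← Real.exp_nat_mul]
      _ ≤ Real.exp (1 / 8) := by
          apply Real.exp_le_exp.2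
          have : n * (2 * ε * d) = 2 * ε * (n * d) := by ring
          rw [this]
          calc 2 * ε * (n * d) ≤ 2 * ε * R := by gcongr
            _ = 1 / 8 := by rw [hε]; field_simp; norm_num
      _ ≤ 5 / 4 := exp_eighth
  have h3 : (x + |z.im|) ^ n ≤ x ^ n * (5 / 4) := by
    calc (x + |z.im|) ^ n ≤ (x * (1 + 2 * ε * d)) ^ n :=
          pow_le_pow_left₀ (by positivity) h1 n
      _ = x ^ n * (1 + 2 * ε * d) ^ n := mul_pow _ _ _
      _ ≤ x ^ n * (5 / 4) := by gcongr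
  have h4 := powEst z n (by linarith)
  rw [← hx] at h4
  have h5 : ‖z ^ n - (x : ℂ) ^ n‖ ≤ x ^ n / 4 := by linarith
  have hxn : ‖((x : ℂ)) ^ n‖ = x ^ n := by
    rw [norm_pow, Complex.norm_real, Real.norm_eq_abs, abs_of_nonneg (by linarith)]
  have hxp : 0 < x ^ n := by positivity
  have h6 : ‖z ^ n‖ ≤ 5 / 4 * x ^ n := by
    calc ‖z ^ n‖ = ‖(z ^ n - (x : ℂ) ^ n) + (x : ℂ) ^ n‖ := by congr 1; ring
      _ ≤ ‖z ^ n - (x : ℂ) ^ n‖ + ‖(x : ℂ) ^ n‖ := norm_add_le _ _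
      _ ≤ 5 / 4 * x ^ n := by rw [hxn]; linarith
  have h7 : ‖g * z ^ n - (x : ℂ) ^ n‖ ≤ 9 / 16 * x ^ n := by
    calc ‖g * z ^ n - (x : ℂ) ^ n‖ = ‖(g - 1) * z ^ n + (z ^ n - (x : ℂ) ^ n)‖ := by congr 1; ring
      _ ≤ ‖g - 1‖ * ‖z ^ n‖ + ‖z ^ n - (x : ℂ) ^ n‖ := by
          refine (norm_add_le _ _).trans ?_
          rw [norm_mul]
      _ ≤ 1 / 4 * (5 / 4 * x ^ n) + x ^ n / 4 := by gcongr
      _ = 9 / 16 * x ^ n := by ring
  have h8 := Complex.abs_re_le_norm (g * z ^ n - (x : ℂ) ^ n)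
  have h9 : (g * z ^ n - (x : ℂ) ^ n).re = (g * z ^ n).re - x ^ n := by
    rw [Complex.sub_re, ← Complex.ofReal_pow, Complex.ofReal_re]
  rw [h9] at h8
  have h10 := (abs_le.1 (h8.trans h7)).1
  linarith

theorem powLower {x : ℝ} (n : ℕ) (hx : 1 - x ≤ 1 / 2) (hx0 : 0 ≤ 1 - x) (hn : n * (1 - x) ≤ 1) :
    1 / 9 ≤ x ^ n := by
  have h1 : Real.exp (-(2 * (1 - x))) ≤ x := by
    rw [Real.exp_neg]
    have h2 := Real.add_one_le_exp (2 * (1 - x))
    have h3 : 1 ≤ x * (2 * (1 - x) + 1) := by nlinarith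
    have h4 : 0 < x := by linarith
    rw [inv_le_comm₀ (Real.exp_pos _) h4, ← one_div, div_le_iff₀ h4]
    nlinarith
  calc (1 / 9 : ℝ) ≤ Real.exp (-2) := exp_two
    _ ≤ Real.exp (n * (-(2 * (1 - x)))) := by
        apply Real.exp_le_exp.2
        nlinarith
    _ = Real.exp (-(2 * (1 - x))) ^ n := by rw [← Real.exp_nat_mul]
    _ ≤ x ^ n := pow_le_pow_left₀ (Real.exp_pos _).le h1 n

theorem tailEst (z : ℂ) (n : ℕ) (hd : 1 - z.re ≤ 1 / 2) (hd0 : 0 ≤ 1 - z.re)
    (hy : |z.im| ≤ 1 - z.re) : ‖z ^ n‖ ≤ Real.exp (-(n * (1 - z.re) / 2)) := by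
  have h1 : ‖z‖ ^ 2 ≤ Real.exp (-((1 - z.re) / 2)) ^ 2 := by
    rw [← Real.exp_nat_mul, ← Complex.normSq_eq_norm_sq, Complex.normSq_apply]
    have h2 := Real.one_sub_le_exp_neg (1 - z.re)
    have h3 : z.im * z.im ≤ (1 - z.re) * (1 - z.re) := by
      have := abs_mul_abs_self z.im
      nlinarith [abs_nonneg z.im]
    have h4 : ((2 : ℕ) : ℝ) * -((1 - z.re) / 2) = -(1 - z.re) := by push_cast; ring
    rw [h4]
    nlinarith
  have h5 : ‖z‖ ≤ Real.exp (-((1 - z.re) / 2)) :=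
    le_of_sq_le_sq h1 (Real.exp_pos _).le
  rw [norm_pow]
  calc ‖z‖ ^ n ≤ Real.exp (-((1 - z.re) / 2)) ^ n := pow_le_pow_left₀ (norm_nonneg _) h5 n
    _ = _ := by rw [← Real.exp_nat_mul]; congr 1; ring

section lap

variable {K : Type*} [Group K] [TopologicalSpace K] [IsTopologicalGroup K] [CompactSpace K]
  [MeasurableSpace K] [BorelSpace K]
variable {W : Type*} [NormedAddCommGroup W] [InnerProductSpace ℂ W] [FiniteDimensional ℂ W]
  [MeasurableSpace W] [BorelSpace W]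

/-- The Laplace lemma, with a lower bound. -/
theorem lap_bound (μ : Measure K) [μ.IsMulLeftInvariant] [IsFiniteMeasure μ] [NeZero μ] (F : K → W)
    (hF : Continuous F) (Φ : K → ℂ) (hΦ : ∀ a b, ⟪F a, F b⟫_ℂ = Φ (a⁻¹ * b)) (h1 : Φ 1 = 1)
    (H1 : ∀ k, ‖Φ k‖ = 1 → Φ k = 1)
    (H2 : ∀ ε > 0, ∀ᶠ k in 𝓝 (1 : K), |(Φ k).im| ≤ ε * (1 - (Φ k).re))
    (h : K → ℂ) (hc : Continuous h) (hh : ∀ k, Φ k = 1 → h k = h 1) (hne : h 1 ≠ 0) :
    ∃ c > 0, ∃ p : ℕ, ∀ᶠ n : ℕ in atTop, c / (n : ℝ) ^ p ≤ ‖∫ k, h k * Φ k ^ n ∂μ‖ := by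
  have hnF : ∀ k, ‖F k‖ = 1 := by
    intro k
    have h2 := hΦ k k
    rw [inv_mul_cancel, h1, inner_self_eq_norm_sq_to_K] at h2
    have h3 : (‖F k‖ : ℝ) ^ 2 = 1 := by
      have := congrArg norm h2
      simpa using this
    have h4 := norm_nonneg (F k)
    nlinarith
  have hΦk : ∀ k, Φ k = ⟪F 1, F k⟫_ℂ := fun k ↦ by rw [hΦ]; simp
  have hΦc : Continuous Φ := by
    have : Φ = fun k ↦ ⟪F 1, F k⟫_ℂ := funext hΦk
    rw [this]; fun_prop
  have hΦle : ∀ k, ‖Φ k‖ ≤ 1 := by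
    intro k
    rw [hΦk]
    have := norm_inner_le_norm (𝕜 := ℂ) (F 1) (F k)
    rwa [hnF, hnF, one_mul] at this
  have hsq : ∀ a b, ‖F a - F b‖ ^ 2 = 2 * (1 - (Φ (a⁻¹ * b)).re) := by
    intro a b
    rw [norm_sub_sq (𝕜 := ℂ), hnF, hnF, hΦ]
    simp only [RCLike.re_to_complex]
    ring
  set D : K → ℝ := fun k ↦ ‖F 1 - F k‖ with hDdef
  have hD : ∀ a b, ‖F a - F b‖ = D (a⁻¹ * b) := by
    intro a b
    have e : ‖F a - F b‖ ^ 2 = D (a⁻¹ * b) ^ 2 := by
      rw [hsq, hDdef]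
      simp only
      rw [hsq, inv_one, one_mul]
    exact (pow_left_inj₀ (norm_nonneg _) (norm_nonneg _) two_ne_zero).1 e
  have hd : ∀ k, D k ^ 2 / 2 = 1 - (Φ k).re := by
    intro k
    simp only [hDdef]
    rw [hsq, inv_one, one_mul]; ring
  have hd0 : ∀ k, 0 ≤ 1 - (Φ k).re := fun k ↦ by rw [← hd]; positivity
  have hD2 : ∀ k, D k ≤ 2 := by
    intro k
    calc ‖F 1 - F k‖ ≤ ‖F 1‖ + ‖F k‖ := norm_sub_le _ _
      _ = 2 := by rw [hnF, hnF]; norm_num
  obtain ⟨C, hC0, hC⟩ := expInt μ F hF D hD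
  -- the constants
  set R : ℝ := 1 + 640 * C with hRdef
  have hR1 : 1 ≤ R := by rw [hRdef]; linarith
  set ε : ℝ := 1 / (16 * R) with hεdef
  have hε0 : 0 < ε := by rw [hεdef]; positivity
  have hε1 : ε ≤ 1 := by
    rw [hεdef, div_le_one (by positivity)]; linarith
  have hCR : C * Real.exp (-(R / 8)) ≤ 1 / 80 := by
    have h2 := Real.add_one_le_exp (R / 8)
    have h3 : 80 * C ≤ Real.exp (R / 8) := by rw [hRdef] at h2 ⊢; linarith
    rw [Real.exp_neg, ← div_eq_mul_inv, div_le_iff₀ (Real.exp_pos _)]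
    linarith
  -- the good region
  set g : K → ℂ := fun k ↦ h k / h 1 with hgdef
  have hgc : Continuous g := hc.div_const _
  obtain ⟨M, hM⟩ : ∃ M, ∀ k, ‖g k‖ ≤ M := by
    obtain ⟨M, hM⟩ := (isCompact_univ (X := K)).exists_bound_of_continuousOn hgc.continuousOn
    exact ⟨M, fun k ↦ hM k (mem_univ k)⟩
  have hM0 : 0 ≤ M := (norm_nonneg _).trans (hM 1)
  set good : Set K := {k | |(Φ k).im| ≤ ε * (1 - (Φ k).re) ∧ ‖g k - 1‖ ≤ 1 / 4 ∧
    1 - (Φ k).re ≤ 1 / 2} with hgood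
  have hnear : ∀ k0, ‖Φ k0‖ = 1 → ∀ᶠ k in 𝓝 k0, k ∈ good := by
    intro k0 hk0
    have e1 := H1 k0 hk0
    have e2 : F k0 = F 1 := by
      have h2 := hsq 1 k0
      rw [inv_one, one_mul, e1] at h2
      simp only [Complex.one_re, sub_self, mul_zero] at h2
      have h3 : ‖F 1 - F k0‖ = 0 := by
        exact pow_eq_zero_iff two_ne_zero |>.1 h2
      exact (sub_eq_zero.1 (norm_eq_zero.1 h3)).symm
    have e3 : ∀ k, Φ k = Φ (k * k0⁻¹) := by
      intro k
      have h2 := hΦ (k * k0⁻¹)⁻¹ k0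
      rw [e2, hΦ] at h2
      simpa using h2.symm
    have ht : Tendsto (fun k ↦ k * k0⁻¹) (𝓝 k0) (𝓝 1) := by
      have : ContinuousAt (fun k ↦ k * k0⁻¹) k0 := by fun_prop
      simpa [ContinuousAt] using this
    have f1 := ht.eventually (H2 ε hε0)
    have f2 : ∀ᶠ k in 𝓝 k0, ‖g k - 1‖ < 1 / 4 := by
      have : ContinuousAt (fun k ↦ ‖g k - 1‖) k0 := by fun_prop
      apply this.eventually_lt_const
      have : g k0 = 1 := by
        simp only [hgdef]
        rw [hh k0 e1, div_self hne]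
      simp only [this]; norm_num
    have f3 : ∀ᶠ k in 𝓝 k0, 1 - (Φ k).re < 1 / 2 := by
      have : ContinuousAt (fun k ↦ 1 - (Φ k).re) k0 := by fun_prop
      apply this.eventually_lt_const
      simp only [e1]; norm_num
    filter_upwards [f1, f2, f3] with k g1 g2 g3
    refine ⟨?_, g2.le, g3.le⟩
    rw [e3 k]; exact g1
  obtain ⟨c, hc0, hc1, hcd⟩ : ∃ c : ℝ, 0 < c ∧ c < 1 ∧ ∀ k, k ∈ good ∨ ‖Φ k‖ ≤ 1 - c := by
    have hcomp : IsCompact (interior good)ᶜ := isOpen_interior.isClosed_compl.isCompact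
    rcases ((interior good)ᶜ).eq_empty_or_nonempty with he | hne'
    · refine ⟨1 / 2, by norm_num, by norm_num, fun k ↦ Or.inl ?_⟩
      have : k ∉ (interior good)ᶜ := by rw [he]; exact notMem_empty k
      exact interior_subset (not_not.1 this)
    · obtain ⟨k1, hk1, hmax⟩ := hcomp.exists_isMaxOn hne' (hΦc.norm.continuousOn)
      have hlt : ‖Φ k1‖ < 1 := by
        refine lt_of_le_of_ne (hΦle k1) fun he ↦ hk1 ?_
        exact mem_interior_iff_mem_nhds.2 (hnear k1 he)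
      have hn := norm_nonneg (Φ k1)
      refine ⟨(1 - ‖Φ k1‖) / 2, by linarith, by linarith, fun k ↦ ?_⟩
      by_cases hk : k ∈ (interior good)ᶜ
      · right
        have := hmax hk
        simp only [mem_ofPred_eq] at this
        linarith
      · left
        exact interior_subset (not_not.1 hk)
  set p := Module.finrank ℝ W with hp
  -- the tail of the constants
  have htend : ∀ᶠ n : ℕ in atTop, (7 * (n : ℝ)) ^ p * (M * (1 - c) ^ n) < 1 / 128 := by
    have h2 := tendsto_pow_const_mul_const_pow_of_abs_lt_one p (r := 1 - c)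
      (by rw [abs_of_nonneg (by linarith)]; linarith)
    have h3 := (h2.const_mul ((7 : ℝ) ^ p * M))
    rw [mul_zero] at h3
    have h4 := h3.eventually (gt_mem_nhds (show (0 : ℝ) < 1 / 128 by norm_num))
    filter_upwards [h4] with n hn
    calc (7 * (n : ℝ)) ^ p * (M * (1 - c) ^ n) = 7 ^ p * M * ((n : ℝ) ^ p * (1 - c) ^ n) := by
          rw [mul_pow]; ring
      _ < 1 / 128 := hn
  have hnc : ∀ᶠ n : ℕ in atTop, (1 : ℝ) / n < c := by
    have := tendsto_one_div_atTop_nhds_zero_nat (𝕜 := ℝ)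
    exact this.eventually (gt_mem_nhds hc0)
  have hu : 0 < μ.real univ := by
    rw [Measure.real, ENNReal.toReal_pos_iff]
    exact ⟨Measure.measure_univ_pos.2 (NeZero.ne μ), measure_lt_top μ _⟩
  refine ⟨‖h 1‖ * (1 / 128 * (μ.real univ / 7 ^ p)), ?_, p, ?_⟩
  · have := norm_pos_iff.2 hne
    positivity
  filter_upwards [htend, hnc, eventually_ge_atTop 1] with n hn1 hn2 hn3
  have hn0 : (0 : ℝ) < n := by exact_mod_cast hn3
  set B : Set K := {k | D k ^ 2 / 2 ≤ 1 / n} with hB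
  have hBm : MeasurableSet B := by
    apply measurableSet_le _ measurable_const
    have : Continuous D := by simp only [hDdef]; fun_prop
    exact (by fun_prop : Continuous fun k ↦ D k ^ 2 / 2).measurable
  have hpt : ∀ k, B.indicator (fun _ ↦ (1 / 32 : ℝ)) k ≤ (g k * Φ k ^ n).re +
      5 / 4 * Real.exp (-(R / 8)) * Real.exp (-(n * (D k ^ 2 / 2) / 8)) + M * (1 - c) ^ n := by
    intro k
    have hdk := hd k
    have hdk0 := hd0 k
    have hpos1 : 0 ≤ 5 / 4 * Real.exp (-(R / 8)) * Real.exp (-(n * (D k ^ 2 / 2) / 8)) := by positivity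
    have hpos2 : 0 ≤ M * (1 - c) ^ n := by
      have : 0 ≤ 1 - c := by linarith
      positivity
    by_cases hk : k ∈ good
    · obtain ⟨g1, g2, g3⟩ := hk
      by_cases hnR : n * (1 - (Φ k).re) ≤ R
      · have h2 := mainEst (Φ k) (g k) n ε R hR1 hεdef g3 hdk0 g1 g2 hnR
        have hxn : 0 ≤ (Φ k).re ^ n := pow_nonneg (by linarith) n
        by_cases hkB : k ∈ B
        · rw [Set.indicator_of_mem hkB]
          have h3 : n * (1 - (Φ k).re) ≤ 1 := by
            have h4 : D k ^ 2 / 2 ≤ 1 / n := hkB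
            rw [hdk, le_div_iff₀ hn0] at h4
            linarith
          have h5 := powLower (x := (Φ k).re) n g3 hdk0 h3
          linarith
        · rw [Set.indicator_of_notMem hkB]
          linarith
      · push Not at hnR
        have hkB : k ∉ B := by
          intro hkB
          have h4 : D k ^ 2 / 2 ≤ 1 / n := hkB
          rw [hdk, le_div_iff₀ hn0] at h4
          linarith
        rw [Set.indicator_of_notMem hkB]
        have h2 : |(Φ k).im| ≤ 1 - (Φ k).re := by nlinarith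
        have h3 := tailEst (Φ k) n g3 hdk0 h2
        have h4 : ‖g k‖ ≤ 5 / 4 := by
          calc ‖g k‖ = ‖(g k - 1) + 1‖ := by congr 1; ring
            _ ≤ ‖g k - 1‖ + ‖(1 : ℂ)‖ := norm_add_le _ _
            _ ≤ 5 / 4 := by rw [norm_one]; linarith
        have h5 : ‖g k * Φ k ^ n‖ ≤
            5 / 4 * Real.exp (-(R / 8)) * Real.exp (-(n * (D k ^ 2 / 2) / 8)) := by
          rw [norm_mul, mul_assoc]
          gcongr
          refine h3.trans ?_
          rw [← Real.exp_add]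
          apply Real.exp_le_exp.2
          rw [hdk]
          linarith
        have h6 := (abs_le.1 ((Complex.abs_re_le_norm (g k * Φ k ^ n)).trans h5)).1
        linarith
    · have h2 : ‖Φ k‖ ≤ 1 - c := (hcd k).resolve_left hk
      have hkB : k ∉ B := by
        intro hkB
        have h4 : D k ^ 2 / 2 ≤ 1 / n := hkB
        rw [hdk] at h4
        have h5 := Complex.re_le_norm (Φ k)
        linarith
      rw [Set.indicator_of_notMem hkB]
      have h5 : ‖g k * Φ k ^ n‖ ≤ M * (1 - c) ^ n := by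
        rw [norm_mul, norm_pow]
        exact mul_le_mul (hM k) (pow_le_pow_left₀ (norm_nonneg _) h2 n) (by positivity) hM0
      have h6 := (abs_le.1 ((Complex.abs_re_le_norm (g k * Φ k ^ n)).trans h5)).1
      linarith
  -- integrate
  have hint : ∀ {E : Type} [NormedAddCommGroup E] (f : K → E), Continuous f → Integrable f μ := by
    intro E _ f hf
    exact hf.integrable_of_hasCompactSupport (HasCompactSupport.of_compactSpace f)
  have hDc : Continuous D := by simp only [hDdef]; fun_prop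
  have hgn : Continuous fun k ↦ g k * Φ k ^ n := by fun_prop
  have hI := integral_mono_ae (μ := μ) (f := B.indicator (fun _ ↦ (1 / 32 : ℝ)))
    (g := fun k ↦ (g k * Φ k ^ n).re +
      5 / 4 * Real.exp (-(R / 8)) * Real.exp (-(n * (D k ^ 2 / 2) / 8)) + M * (1 - c) ^ n)
    ((integrable_const _).indicator hBm) (hint _ (by fun_prop))
    (Eventually.of_forall hpt)
  rw [integral_indicator_const _ hBm, integral_add (hint _ (by fun_prop)) (integrable_const _),
    integral_add (hint _ (by fun_prop)) (hint _ (by fun_prop)), integral_const_mul,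
    integral_const] at hI
  have hre : ∫ k, (g k * Φ k ^ n).re ∂μ = (∫ k, g k * Φ k ^ n ∂μ).re := by
    have := integral_re (𝕜 := ℂ) (μ := μ) (f := fun k ↦ g k * Φ k ^ n) (hint _ hgn)
    simpa using this
  rw [hre] at hI
  have hE := hC n hn3
  rw [← hB] at hE
  have hL := ballLower μ F hF D hD hD2 n hn3
  rw [← hp, ← hB] at hL
  have hm0 : 0 < μ.real B := by
    by_contra hcon
    have h2 : μ.real B = 0 := le_antisymm (not_lt.1 hcon) measureReal_nonneg
    rw [h2, mul_zero] at hL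
    linarith
  have hT : μ.real univ * (M * (1 - c) ^ n) < 1 / 128 * μ.real B := by
    have hq : 0 ≤ M * (1 - c) ^ n := by
      have : 0 ≤ 1 - c := by linarith
      positivity
    calc μ.real univ * (M * (1 - c) ^ n) ≤ ((7 * n) ^ p * μ.real B) * (M * (1 - c) ^ n) := by
          gcongr
      _ = ((7 * n) ^ p * (M * (1 - c) ^ n)) * μ.real B := by ring
      _ < 1 / 128 * μ.real B := by gcongr
  have hE2 : 5 / 4 * Real.exp (-(R / 8)) * ∫ k, Real.exp (-(n * (D k ^ 2 / 2) / 8)) ∂μ ≤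
      1 / 64 * μ.real B := by
    calc 5 / 4 * Real.exp (-(R / 8)) * ∫ k, Real.exp (-(n * (D k ^ 2 / 2) / 8)) ∂μ
        ≤ 5 / 4 * Real.exp (-(R / 8)) * (C * μ.real B) := by gcongr
      _ = 5 / 4 * (C * Real.exp (-(R / 8))) * μ.real B := by ring
      _ ≤ 5 / 4 * (1 / 80) * μ.real B := by gcongr
      _ = 1 / 64 * μ.real B := by ring
  have hpos : 1 / 128 * μ.real B ≤ (∫ k, g k * Φ k ^ n ∂μ).re := by
    simp only [smul_eq_mul] at hI
    linarith
  have h3 : ∫ k, h k * Φ k ^ n ∂μ = h 1 * ∫ k, g k * Φ k ^ n ∂μ := by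
    rw [← integral_const_mul]
    congr 1
    funext k
    simp only [hgdef]
    field_simp
  rw [h3, norm_mul]
  have h4 : μ.real univ / 7 ^ p / (n : ℝ) ^ p ≤ μ.real B := by
    rw [div_div, ← mul_pow, div_le_iff₀ (by positivity)]
    linarith
  calc ‖h 1‖ * (1 / 128 * (μ.real univ / 7 ^ p)) / (n : ℝ) ^ p
      = ‖h 1‖ * (1 / 128 * (μ.real univ / 7 ^ p / (n : ℝ) ^ p)) := by ring
    _ ≤ ‖h 1‖ * (1 / 128 * μ.real B) := by gcongr
    _ ≤ ‖h 1‖ * (∫ k, g k * Φ k ^ n ∂μ).re := by gcongr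
    _ ≤ ‖h 1‖ * ‖∫ k, g k * Φ k ^ n ∂μ‖ := by
        gcongr
        exact Complex.re_le_norm _

end lap

end Pool.Agent.SG
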