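import Pool.Agent.H.MP_e23cd6_ag.SG.Rep

/-!
# Logarithmic stretches, the fundamental representations, levels (definitions)
-/

set_option autoImplicit false

namespace Pool.Agent.SG

open Matrix Topology

/-- The logarithmic stretch of `w` under `g`: `log (‖g w‖ / ‖w‖)`. -/
noncomputable def ls {n : ℕ} {ι : Type} [Fintype ι] [DecidableEq ι] (R : Rep n ι) (w : ι → ℂ)
    (g : Gp n) : ℝ := Real.log (nm (R.act g w)) - Real.log (nm w)

/-- The `i`-th tensor power of the standard representation of `SL_n(ℂ)`. -/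
noncomputable def Er (n i : ℕ) : Rep n (Fin i → Fin n) where
  ρ :=
    { toFun := fun g => Matrix.of fun f f' => ∏ a, (g : Matrix (Fin n) (Fin n) ℂ) (f a) (f' a)
      map_one' := by
        ext f f'
        rw [Matrix.of_apply, coe_gone, Matrix.one_apply]
        simp only [Matrix.one_apply]
        by_cases h : f = f'
        · rw [if_pos h]
          exact Finset.prod_eq_one fun a _ => by rw [if_pos (congrFun h a)]
        · rw [if_neg h]
          obtain ⟨a, ha⟩ := Function.ne_iff.1 h
          exact Finset.prod_eq_zero (Finset.mem_univ a) (if_neg ha)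
      map_mul' := by
        intro g h
        ext f f'
        rw [Matrix.of_apply, Matrix.mul_apply, coe_gmul]
        simp only [Matrix.of_apply, Matrix.mul_apply]
        rw [Finset.prod_univ_sum, Fintype.piFinset_univ]
        exact Finset.sum_congr rfl fun c _ => Finset.prod_mul_distrib }
  cont := by
    refine continuous_matrix fun f f' => ?_
    show Continuous fun g : Gp n => ∏ a, (g : Matrix (Fin n) (Fin n) ℂ) (f a) (f' a)
    refine continuous_finsetProd _ fun a _ => ?_
    exact continuous_subtype_val.matrix_elem _ _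
  star := by
    intro g
    ext f f'
    show ∏ a, (ct g : Matrix (Fin n) (Fin n) ℂ) (f a) (f' a) =
      star (∏ a, (g : Matrix (Fin n) (Fin n) ℂ) (f' a) (f a))
    rw [star_prod]
    rfl
  wt := fun f j => ((Finset.univ.filter fun a => f a = j).card : ℤ)
  diag := by
    intro τ h
    ext f f'
    show ∏ a, (Matrix.diagonal τ) (f a) (f' a) = _
    rw [Matrix.diagonal_apply]
    by_cases hf : f = f'
    · subst hf
      rw [if_pos rfl]
      simp only [Matrix.diagonal_apply_eq, zpow_natCast]
      rw [← Finset.prod_fiberwise_of_maps_to (s := Finset.univ) (t := Finset.univ) (g := f)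
        (fun _ _ => Finset.mem_univ _)]
      refine Finset.prod_congr rfl fun j _ => ?_
      rw [Finset.prod_congr rfl (g := fun _ => τ j)
        (fun a ha => by rw [(Finset.mem_filter.1 ha).2]), Finset.prod_const]
    · rw [if_neg hf]
      obtain ⟨a, ha⟩ := Function.ne_iff.1 hf
      exact Finset.prod_eq_zero (Finset.mem_univ a) (Matrix.diagonal_apply_ne _ ha)

/-- The minor of `g` with the rows `f` and the first `i` columns. -/
noncomputable def mn {n i : ℕ} (hi : i ≤ n) (g : Matrix (Fin n) (Fin n) ℂ) (f : Fin i → Fin n) :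
    ℂ := (Matrix.of fun a b : Fin i => g (f a) (Fin.castLE hi b)).det

/-- The antisymmetrisation of `e_1 ⊗ ... ⊗ e_i`: a highest weight vector. -/
noncomputable def ev {n i : ℕ} (hi : i ≤ n) : (Fin i → Fin n) → ℂ := mn hi 1

theorem suc_le {n : ℕ} (i : Fin (n - 1)) : (i : ℕ) + 1 ≤ n := by
  have := i.2
  omega

/-- The logarithmic stretch of the `(i+1)`-st highest weight vector: `log Θ_{i+1}(g)`. -/
noncomputable def th {n : ℕ} (i : Fin (n - 1)) (g : Gp n) : ℝ :=
  ls (Er n ((i : ℕ) + 1)) (ev (suc_le i)) g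

/-- `log Θ^θ(g)`. -/
noncomputable def psi {n : ℕ} (θ : Fin (n - 1) → ℝ) (g : Gp n) : ℝ := ∑ i, θ i * th i g

/-- The upper triangular matrices of determinant one. -/
def Bor (n : ℕ) : Subgroup (Gp n) where
  carrier := {g | ∀ i j, j < i → (g : Matrix (Fin n) (Fin n) ℂ) i j = 0}
  mul_mem' := by
    intro a b ha hb
    rw [Set.mem_ofPred_eq] at ha hb ⊢
    have h1 : (a : Matrix (Fin n) (Fin n) ℂ).BlockTriangular id := fun i j h => ha i j h
    have h2 : (b : Matrix (Fin n) (Fin n) ℂ).BlockTriangular id := fun i j h => hb i j h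
    intro i j h
    rw [coe_gmul]
    exact (h1.mul h2) h
  one_mem' := by
    rw [Set.mem_ofPred_eq]
    intro i j h
    rw [coe_gone, Matrix.one_apply_ne h.ne']
  inv_mem' := by
    intro a ha
    rw [Set.mem_ofPred_eq] at ha ⊢
    have h1 : (a : Matrix (Fin n) (Fin n) ℂ).BlockTriangular id := fun i j h => ha i j h
    have e : ((a⁻¹ : Gp n) : Matrix (Fin n) (Fin n) ℂ) = (a : Matrix (Fin n) (Fin n) ℂ)⁻¹ := by
      symm
      apply Matrix.inv_eq_left_inv
      rw [← coe_gmul, inv_mul_cancel, coe_gone]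
    have : Invertible (a : Matrix (Fin n) (Fin n) ℂ) :=
      Matrix.invertibleOfIsUnitDet _ (by rw [a.det_coe]; exact isUnit_one)
    intro i j h
    rw [e]
    exact (Matrix.blockTriangular_inv_of_blockTriangular h1) h

theorem mem_Bor {n : ℕ} {g : Gp n} :
    g ∈ Bor n ↔ ∀ i j, j < i → (g : Matrix (Fin n) (Fin n) ℂ) i j = 0 := Iff.rfl

/-- The character `ω_{i+1}`: the product of the first `i + 1` diagonal entries. -/
noncomputable def om {n : ℕ} (i : Fin (n - 1)) (b : Gp n) : ℂ :=
  ∏ j : Fin ((i : ℕ) + 1), (b : Matrix (Fin n) (Fin n) ℂ) (Fin.castLE (suc_le i) j)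
    (Fin.castLE (suc_le i) j)

/-- A continuous action of `SL_n(ℂ)` on the space `X`. -/
structure TAct (n : ℕ) (X : Type) [TopologicalSpace X] where
  act : Gp n → X → X
  one : ∀ x, act 1 x = x
  mul : ∀ a b x, act (a * b) x = act a (act b x)
  cont : Continuous fun p : Gp n × X => act p.1 p.2

/-- A level: an equivariant map `y ↦ [v_y]` to a projective space, and a scaling factor. -/
structure Level {n : ℕ} {X : Type} [TopologicalSpace X] (A : TAct n X) where
  ι : Type
  [ft : Fintype ι]
  [de : DecidableEq ι]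
  R : Rep n ι
  l : ℕ
  hl : 1 ≤ l
  v : X → ι → ℂ
  ne : ∀ y, v y ≠ 0
  eqv : ∀ g y, ∃ c : ℂ, c ≠ 0 ∧ R.act g (v y) = c • v (A.act g y)
  cont : Continuous fun p : Gp n × X => ls R (v p.2) p.1

attribute [instance] Level.ft Level.de

section level

variable {n : ℕ} {X : Type} [TopologicalSpace X] {A : TAct n X}

/-- `log F^{(k)}(g, y)`. -/
noncomputable def Level.lv (L : Level A) (y : X) (g : Gp n) : ℝ := 1 / L.l * ls L.R (L.v y) g

/-- `log F_y^{k,θ}(g)`. -/
noncomputable def PH (L : Level A) (θ : Fin (n - 1) → ℝ) (y : X) (g : Gp n) : ℝ :=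
  L.lv y g + psi θ g

/-- `y` is semistable: `F_y^{k,θ}` is bounded below by a positive constant. -/
def Semi (L : Level A) (θ : Fin (n - 1) → ℝ) (y : X) : Prop := ∃ C : ℝ, ∀ g, -C ≤ PH L θ y g

/-- `y` is stable: `F_y^{k,θ}` grows exponentially. -/
def Stab (L : Level A) (θ : Fin (n - 1) → ℝ) (y : X) : Prop :=
  ∃ δ > 0, ∃ C : ℝ, ∀ u ∈ SU n, ∀ H : aa n, δ * ‖H‖ - C ≤ PH L θ y (dg H 1 * u)

/-- The points at which `F_y^{k,θ}` takes its minimum at `1`. -/
def Kc (L : Level A) (θ : Fin (n - 1) → ℝ) : Set X := {y | ∀ g, 0 ≤ PH L θ y g}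

/-- Levels `L k` for rational `k ≥ 0`, with `log F^{(k)} = (1 - k) log F^{(0)} + k log F^{(1)}` up to
bounded functions. -/
structure LFam (A : TAct n X) where
  L : ℚ → Level A
  app : ∀ k : ℚ, 0 ≤ k → ∃ C : ℝ, ∀ y g,
    |(L k).lv y g - ((1 - k) * (L 0).lv y g + k * (L 1).lv y g)| ≤ C

end level

end Pool.Agent.SG
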