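import Pool.Agent.H.MP_e23cd6_ag.SG.Lev
import Pool.Agent.H.MP_e23cd6_ag.SG.Var

/-!
# The logarithmic stretch: cocycle, convexity, slopes, Lipschitz bound, continuity
-/

set_option autoImplicit false

namespace Pool.Agent.SG

open Matrix Topology Set

/-! ## A sum of exponentials -/

/-- Supporting lines of the logarithm of a sum of exponentials. -/
theorem lse_support {ι : Type*} (S : Finset ι) (a c : ι → ℝ) (ha : ∀ i ∈ S, 0 ≤ a i) (z : ℝ)
    (hpos : 0 < ∑ i ∈ S, Real.exp (z * c i) * a i) :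
    ∃ m : ℝ, ∀ s : ℝ, Real.log (∑ i ∈ S, Real.exp (z * c i) * a i) + m * (s - z) ≤
      Real.log (∑ i ∈ S, Real.exp (s * c i) * a i) := by
  obtain ⟨T, hT⟩ : ∃ T, T = ∑ i ∈ S, Real.exp (z * c i) * a i := ⟨_, rfl⟩
  rw [← hT] at hpos
  obtain ⟨m, hm⟩ : ∃ m, m = (∑ i ∈ S, Real.exp (z * c i) * a i * c i) / T := ⟨_, rfl⟩
  refine ⟨m, fun s => ?_⟩
  rw [← hT]
  have h1 : T * Real.exp (m * (s - z)) ≤ ∑ i ∈ S, Real.exp (s * c i) * a i := by
    have h2 : ∀ i ∈ S, Real.exp (m * (s - z)) * (Real.exp (z * c i) * a i *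
        (1 + (c i - m) * (s - z))) ≤ Real.exp (s * c i) * a i := by
      intro i hi
      have h3 := Real.add_one_le_exp ((c i - m) * (s - z))
      have h4 : Real.exp (s * c i) = Real.exp (m * (s - z)) * Real.exp (z * c i) *
          Real.exp ((c i - m) * (s - z)) := by
        rw [← Real.exp_add, ← Real.exp_add]
        congr 1
        ring
      rw [h4]
      have h5 : 0 ≤ Real.exp (m * (s - z)) * Real.exp (z * c i) * a i := by
        have := ha i hi
        positivity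
      nlinarith [mul_le_mul_of_nonneg_left h3 h5]
    have h6 := Finset.sum_le_sum h2
    rw [← Finset.mul_sum] at h6
    have h7 : ∑ i ∈ S, Real.exp (z * c i) * a i * (1 + (c i - m) * (s - z)) = T := by
      have h8 : ∑ i ∈ S, Real.exp (z * c i) * a i * (1 + (c i - m) * (s - z)) =
          ∑ i ∈ S, Real.exp (z * c i) * a i +
            (s - z) * (∑ i ∈ S, Real.exp (z * c i) * a i * c i -
              m * ∑ i ∈ S, Real.exp (z * c i) * a i) := by
        rw [Finset.mul_sum, ← Finset.sum_sub_distrib, Finset.mul_sum, ← Finset.sum_add_distrib]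
        exact Finset.sum_congr rfl fun i _ => by ring
      rw [h8, ← hT, hm, div_mul_cancel₀ _ hpos.ne', sub_self, mul_zero, add_zero]
    rw [h7] at h6
    linarith
  have h9 := Real.log_le_log (by positivity) h1
  rw [Real.log_mul hpos.ne' (Real.exp_pos _).ne', Real.log_exp] at h9
  exact h9

/-- The logarithm of a sum of exponentials is convex. -/
theorem lse_convex {ι : Type*} (S : Finset ι) (a c : ι → ℝ) (ha : ∀ i ∈ S, 0 ≤ a i)
    (hpos : ∀ z : ℝ, 0 < ∑ i ∈ S, Real.exp (z * c i) * a i) :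
    ConvexOn ℝ univ fun s : ℝ => Real.log (∑ i ∈ S, Real.exp (s * c i) * a i) := by
  refine ⟨convex_univ, fun x _ y _ p q hp hq hpq => ?_⟩
  obtain ⟨m, hm⟩ := lse_support S a c ha (p • x + q • y) (hpos _)
  have h1 := mul_le_mul_of_nonneg_left (hm x) hp
  have h2 := mul_le_mul_of_nonneg_left (hm y) hq
  simp only [smul_eq_mul] at h1 h2 ⊢
  have h3 : p * m * (x - (p * x + q * y)) + q * m * (y - (p * x + q * y)) = 0 := by
    have : q = 1 - p := by linarith
    rw [this]
    ring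
  have h4 : ∀ L : ℝ, L = p * L + q * L := by
    intro L
    rw [← add_mul, hpq, one_mul]
  rw [h4 (Real.log (∑ i ∈ S, Real.exp ((p * x + q * y) * c i) * a i))]
  nlinarith

/-! ## Norms -/

section vec

variable {ι : Type} [Fintype ι]

theorem ns_pos {v : ι → ℂ} (hv : v ≠ 0) : 0 < ns v := by
  obtain ⟨i, hi⟩ := Function.ne_iff.1 hv
  have h1 : 0 < ‖v i‖ ^ 2 := by
    have : 0 < ‖v i‖ := norm_pos_iff.2 hi
    positivity
  exact lt_of_lt_of_le h1 (Finset.single_le_sum (f := fun i => ‖v i‖ ^ 2)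
    (fun i _ => sq_nonneg _) (Finset.mem_univ i))

theorem nm_zero : nm (0 : ι → ℂ) = 0 := by
  unfold nm
  rw [ns_zero, Real.sqrt_zero]

theorem nm_pos {v : ι → ℂ} (hv : v ≠ 0) : 0 < nm v := Real.sqrt_pos.2 (ns_pos hv)

theorem log_nm (v : ι → ℂ) : Real.log (nm v) = Real.log (ns v) / 2 :=
  Real.log_sqrt (Finset.sum_nonneg fun _ _ => sq_nonneg _)

end vec

section ls

variable {n : ℕ} {ι : Type} [Fintype ι] [DecidableEq ι] (R : Rep n ι)

theorem act_ne_zero {w : ι → ℂ} (hw : w ≠ 0) (g : Gp n) : R.act g w ≠ 0 := by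
  intro h
  apply hw
  have h1 : R.act g⁻¹ (R.act g w) = w := by
    rw [← R.act_mul, inv_mul_cancel, R.act_one]
  rw [← h1, h, R.act_zero]

theorem ls_eq (w : ι → ℂ) (g : Gp n) :
    ls R w g = (Real.log (ns (R.act g w)) - Real.log (ns w)) / 2 := by
  unfold ls
  rw [log_nm, log_nm]
  ring

theorem ls_SU (w : ι → ℂ) {k : Gp n} (hk : k ∈ SU n) (g : Gp n) : ls R w (k * g) = ls R w g := by
  unfold ls
  rw [R.act_mul, R.nm_act_SU hk]

theorem ls_mul (w : ι → ℂ) (g h : Gp n) : ls R w (g * h) = ls R (R.act h w) g + ls R w h := by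
  unfold ls
  rw [R.act_mul]
  ring

theorem ls_one (w : ι → ℂ) : ls R w 1 = 0 := by
  unfold ls
  rw [R.act_one, sub_self]

theorem ls_zero (g : Gp n) : ls R 0 g = 0 := by
  unfold ls
  rw [R.act_zero, sub_self]

theorem ls_smul {c : ℂ} (hc : c ≠ 0) (w : ι → ℂ) (g : Gp n) : ls R (c • w) g = ls R w g := by
  by_cases hw : w = 0
  · rw [hw, smul_zero]
  · have h1 : 0 < ‖c‖ := norm_pos_iff.2 hc
    unfold ls
    rw [R.act_smul, nm_smul, nm_smul, Real.log_mul h1.ne' (nm_pos (act_ne_zero R hw g)).ne',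
      Real.log_mul h1.ne' (nm_pos hw).ne']
    ring

theorem ls_inv (w : ι → ℂ) (g : Gp n) : ls R (R.act g w) g⁻¹ = -ls R w g := by
  have h := ls_mul R w g⁻¹ g
  rw [inv_mul_cancel, ls_one] at h
  linarith

/-- The stretch under the diagonal matrices. -/
theorem ls_dg (w : ι → ℂ) (H : aa n) (s : ℝ) : ls R w (dg H s) =
    (Real.log (∑ i, Real.exp (2 * s * R.lam i H) * ‖w i‖ ^ 2) - Real.log (ns w)) / 2 := by
  rw [ls_eq, R.ns_act_dg]

theorem ls_convex (w : ι → ℂ) (H : aa n) (g : Gp n) :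
    ConvexOn ℝ univ fun s : ℝ => ls R w (dg H s * g) := by
  by_cases hw : w = 0
  · rw [hw]
    simp only [ls_zero]
    exact convexOn_const 0 convex_univ
  · have hw' := act_ne_zero R hw g
    have e : (fun s : ℝ => ls R w (dg H s * g)) = fun s : ℝ =>
        (1 / 2 : ℝ) • Real.log (∑ i, Real.exp (s * (2 * R.lam i H)) * ‖R.act g w i‖ ^ 2) +
          (ls R w g - Real.log (ns (R.act g w)) / 2) := by
      funext s
      rw [ls_mul, ls_dg, smul_eq_mul]
      have : ∀ i, 2 * s * R.lam i H = s * (2 * R.lam i H) := fun i => by ring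
      simp only [this]
      ring
    rw [e]
    refine ((lse_convex Finset.univ _ _ (fun i _ => sq_nonneg _) fun z => ?_).smul
      (by norm_num)).add (convexOn_const _ convex_univ)
    have h1 := R.ns_act_dg H (z : ℝ) (R.act g w)
    have h2 : ∀ i, 2 * z * R.lam i H = z * (2 * R.lam i H) := fun i => by ring
    simp only [h2] at h1
    rw [← h1]
    exact ns_pos (act_ne_zero R hw' _)

/-! ## Slopes -/

/-- The slope of `s ↦ ls R w (dg H s)` at infinity: the maximal weight of `w` at `H`. -/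
noncomputable def sl (w : ι → ℂ) (H : aa n) : ℝ := sSup ((fun i => R.lam i H) '' {i | w i ≠ 0})

theorem lam_le_sl {w : ι → ℂ} {i : ι} (hi : w i ≠ 0) (H : aa n) : R.lam i H ≤ sl R w H :=
  le_csSup (Set.toFinite _).bddAbove ⟨i, hi, rfl⟩

theorem exists_sl {w : ι → ℂ} (hw : w ≠ 0) (H : aa n) : ∃ i, w i ≠ 0 ∧ sl R w H = R.lam i H := by
  obtain ⟨i, hi⟩ := Function.ne_iff.1 hw
  have h := Set.Nonempty.csSup_mem (s := (fun i => R.lam i H) '' {i | w i ≠ 0})
    ⟨_, i, hi, rfl⟩ (Set.toFinite _)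
  obtain ⟨j, hj, hj'⟩ := h
  exact ⟨j, hj, hj'.symm⟩

theorem sl_le {w : ι → ℂ} (hw : w ≠ 0) {H : aa n} {c : ℝ}
    (h : ∀ i, w i ≠ 0 → R.lam i H ≤ c) : sl R w H ≤ c := by
  obtain ⟨i, hi, he⟩ := exists_sl R hw H
  rw [he]
  exact h i hi

theorem lam_smul (i : ι) (s : ℝ) (H : aa n) : R.lam i (s • H) = s * R.lam i H := by
  unfold Rep.lam
  rw [Finset.mul_sum]
  refine Finset.sum_congr rfl fun j _ => ?_
  show (R.wt i j : ℝ) * (s * H.1 j) = s * ((R.wt i j : ℝ) * H.1 j)
  ring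

theorem lam_add (i : ι) (H H' : aa n) : R.lam i (H + H') = R.lam i H + R.lam i H' := by
  unfold Rep.lam
  rw [← Finset.sum_add_distrib]
  refine Finset.sum_congr rfl fun j _ => ?_
  show (R.wt i j : ℝ) * (H.1 j + H'.1 j) = (R.wt i j : ℝ) * H.1 j + (R.wt i j : ℝ) * H'.1 j
  ring

theorem sl_smul {w : ι → ℂ} (hw : w ≠ 0) {s : ℝ} (hs : 0 ≤ s) (H : aa n) :
    sl R w (s • H) = s * sl R w H := by
  obtain ⟨i, hi, he⟩ := exists_sl R hw H
  apply le_antisymm
  · refine sl_le R hw fun j hj => ?_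
    rw [lam_smul]
    exact mul_le_mul_of_nonneg_left (lam_le_sl R hj H) hs
  · rw [he, ← lam_smul]
    exact lam_le_sl R hi _

theorem dg_smul (H : aa n) (s : ℝ) : dg (s • H) 1 = dg H s := by
  apply gp_ext
  rw [coe_dg, coe_dg]
  congr 1
  funext j
  show Complex.exp (1 * ((s * H.1 j : ℝ) : ℂ)) = Complex.exp (s * H.1 j)
  rw [one_mul, Complex.ofReal_mul]

theorem ls_dg_le {w : ι → ℂ} (hw : w ≠ 0) (H : aa n) {s : ℝ} (hs : 0 ≤ s) :
    ls R w (dg H s) ≤ s * sl R w H := by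
  rw [ls_dg]
  have h0 := ns_pos hw
  have h1 : ∑ i, Real.exp (2 * s * R.lam i H) * ‖w i‖ ^ 2 ≤
      Real.exp (2 * (s * sl R w H)) * ns w := by
    unfold ns
    rw [Finset.mul_sum]
    refine Finset.sum_le_sum fun i _ => ?_
    by_cases hi : w i = 0
    · rw [hi]
      simp
    · have h2 := lam_le_sl R hi H
      have h3 : 2 * s * R.lam i H ≤ 2 * (s * sl R w H) := by nlinarith
      exact mul_le_mul_of_nonneg_right (Real.exp_le_exp.2 h3) (sq_nonneg _)
  have h4 : 0 < ∑ i, Real.exp (2 * s * R.lam i H) * ‖w i‖ ^ 2 := by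
    rw [← R.ns_act_dg]
    exact ns_pos (act_ne_zero R hw _)
  have h5 := Real.log_le_log h4 h1
  rw [Real.log_mul (Real.exp_pos _).ne' h0.ne', Real.log_exp] at h5
  linarith

/-- Lower bound of the stretch by the slope, uniform in `H` and `s`. -/
theorem le_ls_dg {w : ι → ℂ} (hw : w ≠ 0) : ∃ C : ℝ, 0 ≤ C ∧ ∀ (H : aa n) (s : ℝ), 0 ≤ s →
    s * sl R w H - C ≤ ls R w (dg H s) := by
  have h0 := ns_pos hw
  refine ⟨∑ i, |Real.log (‖w i‖ ^ 2) - Real.log (ns w)| / 2,
    Finset.sum_nonneg fun i _ => by positivity, fun H s hs => ?_⟩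
  obtain ⟨i, hi, he⟩ := exists_sl R hw H
  have hi0 : 0 < ‖w i‖ ^ 2 := by
    have := norm_pos_iff.2 hi
    positivity
  have h1 : Real.exp (2 * s * R.lam i H) * ‖w i‖ ^ 2 ≤
      ∑ i, Real.exp (2 * s * R.lam i H) * ‖w i‖ ^ 2 :=
    Finset.single_le_sum (f := fun i => Real.exp (2 * s * R.lam i H) * ‖w i‖ ^ 2)
      (fun i _ => by positivity) (Finset.mem_univ i)
  have h2 := Real.log_le_log (by positivity) h1
  rw [Real.log_mul (Real.exp_pos _).ne' hi0.ne', Real.log_exp] at h2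
  have h3 : |Real.log (‖w i‖ ^ 2) - Real.log (ns w)| / 2 ≤
      ∑ i, |Real.log (‖w i‖ ^ 2) - Real.log (ns w)| / 2 :=
    Finset.single_le_sum (f := fun i => |Real.log (‖w i‖ ^ 2) - Real.log (ns w)| / 2)
      (fun i _ => by positivity) (Finset.mem_univ i)
  have h4 := neg_abs_le (Real.log (‖w i‖ ^ 2) - Real.log (ns w))
  rw [ls_dg, he]
  linarith

/-- The form at `s = 1`. -/
theorem le_ls_one {w : ι → ℂ} (hw : w ≠ 0) : ∃ C : ℝ, 0 ≤ C ∧ ∀ H : aa n,
    sl R w H - C ≤ ls R w (dg H 1) := by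
  obtain ⟨C, hC, h⟩ := le_ls_dg R hw
  refine ⟨C, hC, fun H => ?_⟩
  have := h H 1 zero_le_one
  rw [one_mul] at this
  simpa using this

theorem ls_one_le {w : ι → ℂ} (hw : w ≠ 0) (H : aa n) : ls R w (dg H 1) ≤ sl R w H := by
  have := ls_dg_le R hw H (s := 1) zero_le_one
  rw [one_mul] at this
  simpa using this

/-! ## Lipschitz bound -/

theorem entry_le_norm (H : aa n) (j : Fin n) : |H.1 j| ≤ ‖H‖ := norm_le_pi_norm (f := H.1) j

theorem abs_lam_le (i : ι) (H : aa n) : |R.lam i H| ≤ R.Wt * ‖H‖ :=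
  R.lam_le i H (entry_le_norm H) (norm_nonneg _)

theorem abs_sl_le {w : ι → ℂ} (hw : w ≠ 0) (H : aa n) : |sl R w H| ≤ R.Wt * ‖H‖ := by
  obtain ⟨i, _, he⟩ := exists_sl R hw H
  rw [he]
  exact abs_lam_le R i H

theorem abs_ls_dg_le (w : ι → ℂ) (H : aa n) : |ls R w (dg H 1)| ≤ R.Wt * ‖H‖ := by
  by_cases hw : w = 0
  · rw [hw, ls_zero, abs_zero]
    exact mul_nonneg R.Wt_nonneg (norm_nonneg _)
  · have h1 := (ls_one_le R hw H).trans ((le_abs_self _).trans (abs_sl_le R hw H))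
    have h2 : -(R.Wt * ‖H‖) ≤ ls R w (dg H 1) := by
      have hw' := act_ne_zero R hw (dg H 1)
      have h3 := ls_inv R w (dg H 1)
      rw [dg_inv] at h3
      have e : dg H (-1) = dg (-H) 1 := by
        apply gp_ext
        rw [coe_dg, coe_dg]
        congr 1
        funext j
        show Complex.exp (-1 * (H.1 j : ℂ)) = Complex.exp (1 * ((-(H.1 j) : ℝ) : ℂ))
        push_cast
        congr 1
        ring
      rw [e] at h3
      have h4 := (ls_one_le R hw' (-H)).trans ((le_abs_self _).trans (abs_sl_le R hw' (-H)))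
      rw [norm_neg] at h4
      linarith
    exact abs_le.2 ⟨h2, h1⟩

/-- The Lipschitz bound, uniform in `w`. -/
theorem abs_ls_le (w : ι → ℂ) {k u : Gp n} (hk : k ∈ SU n) (hu : u ∈ SU n) (H : aa n) :
    |ls R w (k * dg H 1 * u)| ≤ R.Wt * ‖H‖ := by
  rw [mul_assoc, ls_SU R w hk, ls_mul]
  have h1 : ls R w u = 0 := by
    have := ls_SU R w hu 1
    rwa [mul_one, ls_one] at this
  rw [h1, add_zero]
  exact abs_ls_dg_le R _ H

/-! ## Continuity -/

theorem continuousOn_ls : ContinuousOn (fun p : (ι → ℂ) × Gp n => ls R p.1 p.2)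
    {p | p.1 ≠ 0} := by
  unfold ls
  have h1 : Continuous fun p : (ι → ℂ) × Gp n => nm (R.act p.2 p.1) :=
    continuous_nm.comp (R.continuous_act.comp (continuous_snd.prodMk continuous_fst))
  have h2 : Continuous fun p : (ι → ℂ) × Gp n => nm p.1 := continuous_nm.comp continuous_fst
  refine ContinuousOn.sub ?_ ?_
  · exact h1.continuousOn.log fun p hp => (nm_pos (act_ne_zero R hp _)).ne'
  · exact h2.continuousOn.log fun p hp => (nm_pos hp).ne'

theorem continuous_ls (w : ι → ℂ) : Continuous fun g : Gp n => ls R w g := by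
  by_cases hw : w = 0
  · rw [hw]
    simp only [ls_zero]
    exact continuous_const
  · have h1 : Continuous fun g : Gp n => nm (R.act g w) :=
      continuous_nm.comp (R.continuous_act.comp (continuous_id.prodMk continuous_const))
    exact (h1.log fun g => (nm_pos (act_ne_zero R hw g)).ne').sub continuous_const

end ls

end Pool.Agent.SG
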