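import Pool.Agent.H.MP_e23cd6_ag.SG.AE
import Pool.Agent.H.MP_e23cd6_ag.SG.KZ
import Pool.Agent.H.MP_e23cd6_ag.SG.X.ModA
import Pool.Agent.H.MP_e23cd6_ag.NT.Thin

/-!
# The theorem
-/

set_option autoImplicit false

open scoped Manifold ContDiff Topology ENNReal
open MeasureTheory Set Filter

namespace Pool.Agent.SG

open Pool.Agent.Abd Pool.Agent.Abn

section zero

variable {E : Type} [NormedAddCommGroup E] [NormedSpace ℂ E] [FiniteDimensional ℂ E] {n : ℕ}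
  {X₀ X : Type} [TopologicalSpace X₀] [ChartedSpace E X₀] [IsManifold 𝓘(ℂ, E) ω X₀]
  [TopologicalSpace X] [T2Space X] [CompactSpace X] [ConnectedSpace X]
  {N : NSp E X₀ X} {L P : NLine N} {A : GAct n N}

/-- If some section does not vanish at `g y`, then its translate does not vanish at `y`. -/
theorem exists_nz_translate (ΛL : GLin A L) (ΛP : GLin A P) {K J : ℕ} (g : Gp n) (y : X)
    (s : NSec L P K J univ) (hs : s.NZ (A.act g y)) : ∃ t : NSec L P K J univ, t.NZ y := by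
  obtain ⟨i', j', hat'⟩ := exists_nat L P (A.act g y)
  obtain ⟨i, j, hat⟩ := exists_nat L P y
  have hat2 : NAt L P i j (A.act g⁻¹ (A.act g y)) := by rw [gact_inv_act]; exact hat
  refine ⟨nMod.sec (tr ΛL ΛP K J g⁻¹ (toMod s)), i, j, hat.memL, hat.memP, ?_⟩
  have e := tr_val ΛL ΛP g⁻¹ (toMod s) hat2 hat'
  rw [gact_inv_act, toMod_f s hat'] at e
  show (tr ΛL ΛP K J g⁻¹ (toMod s)).1 i j y ≠ 0
  rw [e]
  exact mul_ne_zero (gl_ne ΛL ΛP hat2 hat') ((s.nz_iff (mem_univ _) hat').1 hs)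

/-- The common zeros of the sections of `L ^ l`. -/
def zeroLoc (L P : NLine N) (l : ℕ) : Set X :=
  {y | ∀ s : NSec L P (l * 1) (l * 0) univ, ¬ s.NZ y}

omit [IsManifold 𝓘(ℂ, E) ω X₀] [FiniteDimensional ℂ E] [T2Space X] [CompactSpace X]
  [ConnectedSpace X] in
theorem zeroLoc_isClosed (L P : NLine N) (l : ℕ) : IsClosed (zeroLoc L P l) := by
  have h1 : zeroLoc L P l = ⋂ s : NSec L P (l * 1) (l * 0) univ, {x | x ∈ univ ∧ s.NZ x}ᶜ := by
    ext y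
    simp only [zeroLoc, mem_setOf_eq, mem_univ, true_and, mem_iInter, mem_compl_iff]
  rw [h1]
  exact isClosed_iInter fun s => (nnz_isOpen isOpen_univ s).isClosed_compl

omit [IsManifold 𝓘(ℂ, E) ω X₀] [FiniteDimensional ℂ E] [T2Space X] [CompactSpace X]
  [ConnectedSpace X] in
theorem zeroLoc_mul (L P : NLine N) {l l' : ℕ} (h' : 1 ≤ l') :
    zeroLoc L P (l' * l) ⊆ zeroLoc L P l := by
  intro y hy s hs
  refine hy ((s.pow l').cast (Nat.mul_assoc l' l 1).symm (Nat.mul_assoc l' l 0).symm) ?_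
  rw [NSec.nz_cast]
  exact (s.nz_pow (by omega) (mem_univ y)).2 hs

/-- The common zeros of all sections of all powers of `L`. -/
theorem exists_base_locus (ΛL : GLin A L) (ΛP : GLin A P) (h : ¬ SemiX L P 1 0) :
    ∃ Z : Set X, IsClosed Z ∧ Z.Nonempty ∧ (∀ g, ∀ y ∈ Z, A.act g y ∈ Z) ∧
      ∀ y ∈ Z, ∀ l : ℕ, 1 ≤ l → ∀ s : NSec L P (l * 1) (l * 0) univ, ¬ s.NZ y := by
  refine ⟨⋂ l : {l : ℕ // 1 ≤ l}, zeroLoc L P l.1,
    isClosed_iInter fun l => zeroLoc_isClosed L P l.1, ?_, ?_, ?_⟩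
  · haveI : Nonempty {l : ℕ // 1 ≤ l} := ⟨⟨1, le_rfl⟩⟩
    refine IsCompact.nonempty_iInter_of_directed_nonempty_isCompact_isClosed _ ?_ ?_ ?_ ?_
    · intro a b
      refine ⟨⟨a.1 * b.1, Nat.mul_pos a.2 b.2⟩, ?_, ?_⟩
      · have h1 := zeroLoc_mul L P (l := a.1) (l' := b.1) b.2
        rw [Nat.mul_comm] at h1
        exact h1
      · exact zeroLoc_mul L P a.2
    · intro l
      by_contra hne
      rw [Set.not_nonempty_iff_eq_empty] at hne
      apply h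
      refine ⟨l.1, l.2, fun x => ?_⟩
      by_contra hx
      have : x ∈ zeroLoc L P l.1 := fun s hs => hx ⟨s, hs⟩
      rw [hne] at this
      exact this
    · exact fun l => (zeroLoc_isClosed L P l.1).isCompact
    · exact fun l => zeroLoc_isClosed L P l.1
  · intro g y hy
    rw [mem_iInter] at hy ⊢
    intro l s hs
    obtain ⟨t, ht⟩ := exists_nz_translate ΛL ΛP g y s hs
    exact hy l t ht
  · intro y hy l hl s
    rw [mem_iInter] at hy
    exact hy ⟨l, hl⟩ s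

end zero

variable {E : Type} [NormedAddCommGroup E] [NormedSpace ℂ E] [FiniteDimensional ℂ E]
  [MeasureSpace E] [BorelSpace E] [(volume : Measure E).IsAddHaarMeasure] {n : ℕ}
  {X₀ X : Type} [TopologicalSpace X₀] [ChartedSpace E X₀] [IsManifold 𝓘(ℂ, E) ω X₀]
  [SecondCountableTopology X₀] [TopologicalSpace X] [T2Space X] [CompactSpace X]
  [ConnectedSpace X] {N : NSp E X₀ X} {L P : NLine N} {A : GAct n N}

theorem KltX.pow {K J m : ℕ} {s : Sec2 L.reg P.reg K J m (N.inc ⁻¹' (univ : Set X))}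
    (hs : KltX s) {l : ℕ} (hl : 1 ≤ l) : KltX (s.pow l) := by
  intro a b t ht
  obtain ⟨δ, hδ, h1⟩ := hs a b t ht
  refine ⟨δ, hδ, fun x i j hi hj => ?_⟩
  obtain ⟨V, hV, φ, B, h2, h3, h4⟩ := h1 x i j hi hj
  refine ⟨V, hV, φ, B, h2, h3, ?_⟩
  have hl0 : (l : ℝ) ≠ 0 := by
    have : 0 < l := hl
    positivity
  have e : ∀ c, ∀ z, ‖(s.pow l).f i j (φ c) ((φ c).symm z)‖ₑ ^ (-(2 : ℝ) / ((l * m : ℕ) : ℝ)) =
      ‖s.f i j (φ c) ((φ c).symm z)‖ₑ ^ (-(2 : ℝ) / (m : ℝ)) := by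
    intro c z
    have e1 : (s.pow l).f i j (φ c) ((φ c).symm z) = s.f i j (φ c) ((φ c).symm z) ^ l := rfl
    rw [e1, enorm_pow, ← ENNReal.rpow_natCast, ← ENNReal.rpow_mul]
    congr 1
    push_cast
    field_simp
  simp only [e]
  exact h4

theorem KltX.cast {K J m K' J' m' : ℕ} {s : Sec2 L.reg P.reg K J m (N.inc ⁻¹' (univ : Set X))}
    (hs : KltX s) (hK : K = K') (hJ : J = J') (hm : m = m') : KltX (s.cast hK hJ hm) := by
  subst hK hJ hm
  exact hs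

/-- The main theorem. -/
theorem sg_main (hn : 2 ≤ n) (hA : ∃ y : X₀, {b : Gp n | IsB b ∧ A.reg b y = y}.Finite)
    (ΛL : GLin A L) (ΛP : GLin A P) (hP : Ample1 L P) (hL : NefX L P) {k m : ℕ} (hk : 1 ≤ k)
    (hm : 1 ≤ m) (s : Sec2 L.reg P.reg k 0 m (N.inc ⁻¹' (univ : Set X))) (hs : KltX s)
    (hQ : ∀ (U : Set X) (K : ℕ) (χ : Fin n → ℤ) (k' m' : ℕ), BGood A U → 1 ≤ K → 1 ≤ k' →
      1 ≤ m' → BNefG ΛL ΛP U K χ → BKltQ ΛL ΛP U K χ k' m' → BSemiQ ΛL ΛP U K 0 χ) :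
    SemiX L P 1 0 := by
  by_contra hcon
  obtain ⟨Z, hZc, hZn, hZi, hZ⟩ := exists_base_locus ΛL ΛP hcon
  obtain ⟨S, ⟨r⟩⟩ := exists_sys ΛL ΛP hP hL
  obtain ⟨M, hM, x, hx, lam, mu, hl, hmu, hb⟩ := S.exists_base Z hZc hZn (by
    intro g y hy
    rw [r.act]
    exact hZi g y hy)
  have hden := dense_noFix r hA
  obtain ⟨U, k₀, l₀, T, h8⟩ := exists_sec8 r M hM hn hden hl hmu hb
  have hU := h8.good
  -- an eigensection of a power of the ample line bundle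
  obtain ⟨l₁, hl₁, hgen⟩ := (h8.ample r).1
  obtain ⟨y₀, hy₀⟩ := hU.conn.nonempty
  obtain ⟨t, ht, htn⟩ := hgen y₀ hy₀
  -- the klt pair on the quotient
  have hK : BKltQ ΛL ΛP U M lam k (M * m) := by
    have hs' : KltX ((s.pow M).cast (K' := k * M) (J' := 0) (m' := M * m) (Nat.mul_comm M k)
        (Nat.mul_zero M) rfl) := (hs.pow hM).cast _ _ _
    refine klt_main r hU hk (Nat.mul_pos hM hm) _ hs' t ⟨y₀, htn⟩ ht hl ?_
    intro δ hδ x₀ hx₀
    obtain ⟨b, rfl⟩ : ∃ b, l₁ = b + 1 := ⟨l₁ - 1, by omega⟩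
    obtain ⟨W, hW, C, hC⟩ := h8.grow b δ hδ x₀ hx₀
    refine ⟨W, hW, C, fun y hy g _ => ?_⟩
    have h1 := hC y hy g
    unfold GSys.lev at h1
    have e1 : (((b + 1) * (M * (l₀ * k₀)) : ℕ) : ℝ) = ((M * (l₀ * (b + 1) * k₀) : ℕ) : ℝ) := by
      push_cast
      ring
    have e2 : (((b + 1) * (M * l₀) : ℕ) : ℝ) = ((M * (l₀ * (b + 1)) : ℕ) : ℝ) := by
      push_cast
      ring
    rw [e1, e2]
    have e3 : ∀ c, ((((b + 1 : ℕ) : ℤ) * (l₀ * (k₀ * lam c + mu c) + T c) : ℤ) : ℝ) =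
        (((b + 1) * (l₀ * (k₀ * lam c + mu c) + T c) : ℤ) : ℝ) := by
      intro c
      push_cast
      ring
    simp only [e3]
    linarith
  have hS := hQ U M lam k (M * m) hU hM hk (Nat.mul_pos hM hm) (h8.nef r) hK
  obtain ⟨l, hl, t', ht'⟩ := h8.nz r hb hS
  refine hZ x hx (l * M) (Nat.mul_pos hl hM) (t'.cast (Nat.mul_one _).symm
    (by rw [Nat.mul_zero, Nat.mul_zero])) ?_
  rw [NSec.nz_cast]
  exact ht'

end Pool.Agent.SG
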