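import Mathlib

/-!
# The group `SL_n(ℂ)`, its compact subgroup `SU(n)`, and its representations with a weight basis

Vectors are plain functions `ι → ℂ`; `ns v = Σ |v i|²`, `nm v` its square root.
-/

set_option autoImplicit false

namespace Pool.Agent.SG

open Matrix MeasureTheory Topology

/-- The group `SL_n(ℂ)`. -/
abbrev Gp (n : ℕ) := Matrix.SpecialLinearGroup (Fin n) ℂ

section group

variable {n : ℕ}

/-- The conjugate transpose. -/
def ct (g : Gp n) : Gp n :=
  ⟨(g : Matrix (Fin n) (Fin n) ℂ)ᴴ, by rw [det_conjTranspose, g.det_coe, star_one]⟩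

@[simp] theorem coe_ct (g : Gp n) : (ct g : Matrix (Fin n) (Fin n) ℂ) = (g : Matrix _ _ ℂ)ᴴ := rfl

theorem gp_ext {g h : Gp n} (e : (g : Matrix (Fin n) (Fin n) ℂ) = h) : g = h := Subtype.ext e

@[simp] theorem coe_gmul (g h : Gp n) :
    ((g * h : Gp n) : Matrix (Fin n) (Fin n) ℂ) =
      (g : Matrix (Fin n) (Fin n) ℂ) * (h : Matrix (Fin n) (Fin n) ℂ) := rfl

@[simp] theorem coe_gone : ((1 : Gp n) : Matrix (Fin n) (Fin n) ℂ) = 1 := rfl

theorem ct_mul (g h : Gp n) : ct (g * h) = ct h * ct g :=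
  gp_ext (by rw [coe_ct, coe_gmul, conjTranspose_mul, coe_gmul, coe_ct, coe_ct])

@[simp] theorem ct_ct (g : Gp n) : ct (ct g) = g :=
  gp_ext (by rw [coe_ct, coe_ct, conjTranspose_conjTranspose])

@[simp] theorem ct_one : ct (1 : Gp n) = 1 :=
  gp_ext (by rw [coe_ct, coe_gone, conjTranspose_one])

theorem ct_inv (g : Gp n) : ct g⁻¹ = (ct g)⁻¹ := by
  apply eq_inv_of_mul_eq_one_left
  rw [← ct_mul, mul_inv_cancel, ct_one]

theorem continuous_ct : Continuous (ct : Gp n → Gp n) := by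
  apply continuous_induced_rng.2
  exact continuous_subtype_val.matrix_conjTranspose

/-- The group `SU(n)`. -/
def SU (n : ℕ) : Subgroup (Gp n) where
  carrier := {g | ct g = g⁻¹}
  mul_mem' := by
    intro a b ha hb
    rw [Set.mem_ofPred_eq] at ha hb ⊢
    rw [ct_mul, ha, hb, _root_.mul_inv_rev]
  one_mem' := by
    rw [Set.mem_ofPred_eq, ct_one, inv_one]
  inv_mem' := by
    intro a ha
    rw [Set.mem_ofPred_eq] at ha ⊢
    rw [ct_inv, ha]

theorem mem_SU {g : Gp n} : g ∈ SU n ↔ ct g = g⁻¹ := Iff.rfl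

theorem mem_SU' {g : Gp n} : g ∈ SU n ↔ (g : Matrix (Fin n) (Fin n) ℂ)ᴴ * g = 1 := by
  rw [mem_SU]
  constructor
  · intro h
    have h1 : ct g * g = 1 := by rw [h, inv_mul_cancel]
    exact congrArg (fun x : Gp n => (x : Matrix (Fin n) (Fin n) ℂ)) h1
  · intro h
    apply eq_inv_of_mul_eq_one_left
    exact gp_ext h

/-- Real traceless diagonal matrices. -/
def aa (n : ℕ) : Submodule ℝ (Fin n → ℝ) where
  carrier := {H | ∑ i, H i = 0}
  add_mem' := by
    intro a b ha hb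
    rw [Set.mem_ofPred_eq] at ha hb ⊢
    simp only [Pi.add_apply, Finset.sum_add_distrib, ha, hb, add_zero]
  zero_mem' := by simp
  smul_mem' := by
    intro c a ha
    rw [Set.mem_ofPred_eq] at ha ⊢
    simp only [Pi.smul_apply, smul_eq_mul, ← Finset.mul_sum, ha, mul_zero]

theorem aa_sum (H : aa n) : ∑ i, H.1 i = 0 := H.2

/-- Diagonal matrices of determinant one. -/
def dgT (τ : Fin n → ℂ) (h : ∏ i, τ i = 1) : Gp n :=
  ⟨Matrix.diagonal τ, by rw [Matrix.det_diagonal, h]⟩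

/-- The diagonal matrix with entries `exp (z H_j)`. -/
noncomputable def dg (H : aa n) (z : ℂ) : Gp n :=
  dgT (fun j => Complex.exp (z * H.1 j)) (by
    rw [← Complex.exp_sum, ← Finset.mul_sum, ← Complex.ofReal_sum, aa_sum, Complex.ofReal_zero,
      mul_zero, Complex.exp_zero])

theorem coe_dg (H : aa n) (z : ℂ) : (dg H z : Matrix (Fin n) (Fin n) ℂ) =
    Matrix.diagonal fun j => Complex.exp (z * H.1 j) := rfl

theorem dg_add (H : aa n) (z w : ℂ) : dg H (z + w) = dg H z * dg H w := by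
  apply gp_ext
  rw [coe_gmul, coe_dg, coe_dg, coe_dg, Matrix.diagonal_mul_diagonal]
  congr 1
  funext j
  rw [add_mul, Complex.exp_add]

@[simp] theorem dg_zero (H : aa n) : dg H 0 = 1 := by
  apply gp_ext
  rw [coe_dg, coe_gone]
  simp

theorem dg_inv (H : aa n) (z : ℂ) : (dg H z)⁻¹ = dg H (-z) := by
  symm
  apply eq_inv_of_mul_eq_one_left
  rw [← dg_add, neg_add_cancel, dg_zero]

theorem ct_dg (H : aa n) (z : ℂ) : ct (dg H z) = dg H (star z) := by
  apply gp_ext
  rw [coe_ct, coe_dg, coe_dg, Matrix.diagonal_conjTranspose]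
  congr 1
  funext j
  simp [← Complex.exp_conj]

theorem dg_mem_SU (H : aa n) (t : ℝ) : dg H (t * Complex.I) ∈ SU n := by
  rw [mem_SU, ct_dg, dg_inv]
  congr 1
  simp

end group

/-! ## Vectors -/

section vec

variable {ι : Type} [Fintype ι]

/-- The square of the norm. -/
noncomputable def ns (v : ι → ℂ) : ℝ := ∑ i, ‖v i‖ ^ 2

/-- The Euclidean norm. -/
noncomputable def nm (v : ι → ℂ) : ℝ := Real.sqrt (ns v)

/-- The Hermitian product, linear in the first vector. -/
noncomputable def ip (v w : ι → ℂ) : ℂ := ∑ i, v i * star (w i)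

end vec

/-- A representation `ρ` of `SL_n(ℂ)` with `ρ(g^*) = ρ(g)^*`, in an orthonormal basis of vectors of
weights `wt i` for the diagonal matrices. -/
structure Rep (n : ℕ) (ι : Type) [Fintype ι] [DecidableEq ι] where
  ρ : Gp n →* Matrix ι ι ℂ
  cont : Continuous ρ
  star : ∀ g, ρ (ct g) = (ρ g)ᴴ
  wt : ι → Fin n → ℤ
  diag : ∀ (τ : Fin n → ℂ) (h : ∏ i, τ i = 1),
    ρ (dgT τ h) = Matrix.diagonal fun i => ∏ j, τ j ^ wt i j

namespace Rep

variable {n : ℕ} {ι : Type} [Fintype ι] [DecidableEq ι] (R : Rep n ι)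

/-- The action on vectors. -/
def act (g : Gp n) (v : ι → ℂ) : ι → ℂ := (R.ρ g) *ᵥ v

/-- The value of the weight `wt i` at `H`. -/
def lam (i : ι) (H : aa n) : ℝ := ∑ j, R.wt i j * H.1 j

end Rep

end Pool.Agent.SG
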