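import Pool.Agent.H.MP_e23cd6_ag.SG.Var
import Pool.Agent.H.MP_e23cd6_ag.SG.Wt

/-!
# Root subgroups: a representation is polynomial on them, and weights of semi-invariants are
decreasing
-/

set_option autoImplicit false

namespace Pool.Agent.SG

open Matrix Topology Filter

variable {n : ℕ}

/-- The matrix `1 + z E_ij`. -/
noncomputable def uu (i j : Fin n) (h : i ≠ j) (z : ℂ) : Gp n :=
  ⟨transvection i j z, det_transvection_of_ne i j h z⟩

theorem coe_uu (i j : Fin n) (h : i ≠ j) (z : ℂ) :
    (uu i j h z : Matrix (Fin n) (Fin n) ℂ) = 1 + single i j z := rfl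

theorem uu_zero (i j : Fin n) (h : i ≠ j) : uu i j h 0 = 1 := by
  apply gp_ext
  rw [coe_uu, single_zero, add_zero, coe_gone]

theorem uu_add (i j : Fin n) (h : i ≠ j) (z w : ℂ) : uu i j h (z + w) = uu i j h z * uu i j h w := by
  apply gp_ext
  rw [coe_gmul]
  exact (transvection_mul_transvection_same i j h z w).symm

theorem continuous_uu (i j : Fin n) (h : i ≠ j) : Continuous (uu i j h) := by
  apply continuous_induced_rng.2
  refine continuous_matrix fun a b => ?_
  show Continuous fun z : ℂ => (1 + single i j z : Matrix (Fin n) (Fin n) ℂ) a b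
  simp only [Matrix.add_apply, single_apply]
  by_cases hab : i = a ∧ j = b
  · simp only [hab, and_self, if_true]
    fun_prop
  · simp only [if_neg hab]
    fun_prop

theorem dgT_uu {τ : Fin n → ℂ} (hτ : ∏ i, τ i = 1) (i j : Fin n) (h : i ≠ j) (z : ℂ) :
    dgT τ hτ * uu i j h z = uu i j h (τ i / τ j * z) * dgT τ hτ := by
  have hτ0 : ∀ j, τ j ≠ 0 := fun j h0 => by
    rw [Finset.prod_eq_zero (Finset.mem_univ j) h0] at hτ
    exact zero_ne_one hτ
  apply gp_ext
  rw [coe_gmul, coe_gmul, coe_uu, coe_uu]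
  show diagonal τ * (1 + single i j z) = (1 + single i j (τ i / τ j * z)) * diagonal τ
  ext a b
  rw [diagonal_mul, mul_diagonal, Matrix.add_apply, Matrix.add_apply, single_apply, single_apply]
  by_cases hab : i = a ∧ j = b
  · obtain ⟨rfl, rfl⟩ := hab
    rw [Matrix.one_apply_ne h]
    simp only [and_self, if_true, zero_add]
    field_simp [hτ0 j]
  · rw [if_neg hab, if_neg hab, add_zero]
    by_cases he : a = b
    · subst he
      ring
    · rw [Matrix.one_apply_ne he]
      ring

/-- The diagonal matrix with `a` at the place `i`, `a⁻¹` at the place `j`. -/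
noncomputable def t2 (i j : Fin n) (a : ℂ) (l : Fin n) : ℂ := if l = i then a else if l = j then a⁻¹ else 1

theorem t2_prod {i j : Fin n} (h : i ≠ j) {a : ℂ} (ha : a ≠ 0) : ∏ l, t2 i j a l = 1 := by
  rw [Fintype.prod_eq_mul i j h]
  · simp [t2, h.symm, ha]
  · rintro l ⟨h1, h2⟩
    simp [t2, h1, h2]

theorem t2_zpow {i j : Fin n} (h : i ≠ j) {a : ℂ} (ha : a ≠ 0) (χ : Fin n → ℤ) :
    ∏ l, t2 i j a l ^ χ l = a ^ (χ i - χ j) := by
  rw [Fintype.prod_eq_mul i j h]
  · simp only [t2, if_true, if_neg h.symm]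
    rw [_root_.inv_zpow, zpow_sub₀ ha, div_eq_mul_inv]
  · rintro l ⟨h1, h2⟩
    simp [t2, h1, h2]

namespace Rep

variable {ι : Type} [Fintype ι] [DecidableEq ι] (R : Rep n ι)

/-- The entries of `ρ(1 + z E_ij)` are monomials in `z`. -/
theorem uu_monomial (i j : Fin n) (h : i ≠ j) (a b : ι) : ∃ (c : ℂ) (m : ℕ), ∀ z : ℂ,
    R.ρ (uu i j h z) a b = c * z ^ m := by
  obtain ⟨F, hF⟩ : ∃ F : ℂ → ℂ, ∀ z, F z = R.ρ (uu i j h z) a b := ⟨_, fun _ => rfl⟩
  have hFc : Continuous F := by
    have e : F = fun z => R.ρ (uu i j h z) a b := funext hF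
    rw [e]
    exact (R.cont.comp (continuous_uu i j h)).matrix_elem a b
  obtain ⟨m, hm⟩ : ∃ m : ℤ, m = (R.wt a i - R.wt a j) - (R.wt b i - R.wt b j) := ⟨_, rfl⟩
  have key : ∀ c z : ℂ, c ≠ 0 → F (c ^ 2 * z) = c ^ m * F z := by
    intro c z hc
    have h1 := congrArg (fun g => R.ρ g a b) (dgT_uu (t2_prod h hc) i j h z)
    simp only [map_mul] at h1
    rw [R.diag, diagonal_mul, mul_diagonal, t2_zpow h hc, t2_zpow h hc] at h1
    have e1 : t2 i j c i / t2 i j c j * z = c ^ 2 * z := by
      simp only [t2, if_true, if_neg h.symm, div_inv_eq_mul]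
      ring
    rw [e1, ← hF, ← hF] at h1
    have hcb : c ^ (R.wt b i - R.wt b j) ≠ 0 := zpow_ne_zero _ hc
    have e2 : c ^ m = c ^ (R.wt a i - R.wt a j) / c ^ (R.wt b i - R.wt b j) := by
      rw [hm, zpow_sub₀ hc]
    rw [e2, div_mul_eq_mul_div, eq_div_iff hcb, ← h1]
  by_cases hF1 : F 1 = 0
  · refine ⟨0, 1, fun z => ?_⟩
    rw [← hF, zero_mul]
    have hne : ∀ z : ℂ, z ≠ 0 → F z = 0 := by
      intro z hz
      obtain ⟨c, hc⟩ := IsAlgClosed.exists_pow_nat_eq z (n := 2) (by norm_num)
      have hc0 : c ≠ 0 := by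
        rintro rfl
        apply hz
        rw [← hc]
        ring
      have h1 := key c 1 hc0
      rw [mul_one, hc, hF1, mul_zero] at h1
      exact h1
    have hd : Dense {z : ℂ | z ≠ 0} := dense_compl_singleton 0
    have h2 := Continuous.ext_on hd hFc continuous_const (fun z hz => hne z hz)
    exact congrFun h2 z
  · -- `m` is even
    have heven : Even m := by
      have h1 := key (-1) 1 (by norm_num)
      have e : ((-1 : ℂ)) ^ 2 * 1 = 1 := by norm_num
      rw [e] at h1
      have h2 : ((-1 : ℂ)) ^ m = 1 := by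
        have h3 : (1 - (-1 : ℂ) ^ m) * F 1 = 0 := by
          rw [sub_mul, one_mul, ← h1, sub_self]
        rcases mul_eq_zero.1 h3 with h4 | h4
        · exact (sub_eq_zero.1 h4).symm
        · exact absurd h4 hF1
      rcases Int.even_or_odd m with h3 | h3
      · exact h3
      · rw [h3.neg_one_zpow] at h2
        norm_num at h2
    obtain ⟨m', hm'⟩ := heven
    have hne : ∀ z : ℂ, z ≠ 0 → F z = F 1 * z ^ m' := by
      intro z hz
      obtain ⟨c, hc⟩ := IsAlgClosed.exists_pow_nat_eq z (n := 2) (by norm_num)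
      have hc0 : c ≠ 0 := by
        rintro rfl
        apply hz
        rw [← hc]
        ring
      have h1 := key c 1 hc0
      rw [mul_one, hc] at h1
      rw [h1, ← hc, mul_comm, hm', ← two_mul, _root_.zpow_mul]
      norm_cast
    -- `m'` is nonnegative
    have hm0 : 0 ≤ m' := by
      by_contra hneg
      push Not at hneg
      have h1 : Tendsto F (𝓝[≠] 0) (𝓝 (F 0)) := (hFc.tendsto 0).mono_left nhdsWithin_le_nhds
      have h2 : Tendsto (fun z : ℂ => z ^ (-m').toNat * F z) (𝓝[≠] 0) (𝓝 (0 * F 0)) := by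
        refine Tendsto.mul ?_ h1
        have h3 : Tendsto (fun z : ℂ => z ^ (-m').toNat) (𝓝 0) (𝓝 ((0 : ℂ) ^ (-m').toNat)) :=
          (continuous_pow _).tendsto 0
        rw [zero_pow (by omega)] at h3
        exact h3.mono_left nhdsWithin_le_nhds
      have h4 : Tendsto (fun z : ℂ => z ^ (-m').toNat * F z) (𝓝[≠] 0) (𝓝 (F 1)) := by
        refine tendsto_const_nhds.congr' ?_
        filter_upwards [self_mem_nhdsWithin] with z hz
        have hz0 : z ≠ 0 := hz
        have e : z ^ (-m').toNat = z ^ (-m') := by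
          rw [← zpow_natCast, Int.toNat_of_nonneg (by omega)]
        rw [hne z hz0, e, mul_left_comm, ← zpow_add₀ hz0, neg_add_cancel, zpow_zero, mul_one]
      have h5 := tendsto_nhds_unique h2 h4
      rw [zero_mul] at h5
      exact hF1 h5.symm
    refine ⟨F 1, m'.toNat, fun z => ?_⟩
    rw [← hF]
    have hd : Dense {z : ℂ | z ≠ 0} := dense_compl_singleton 0
    have h2 := Continuous.ext_on hd hFc
      (g := fun z => F 1 * z ^ m'.toNat) (by fun_prop) (fun z hz => by
        have e : z ^ m'.toNat = z ^ m' := by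
          rw [← zpow_natCast, Int.toNat_of_nonneg hm0]
        show F z = F 1 * z ^ m'.toNat
        rw [e]
        exact hne z hz)
    exact congrFun h2 z

theorem differentiable_uu (i j : Fin n) (h : i ≠ j) (a b : ι) :
    Differentiable ℂ fun z => R.ρ (uu i j h z) a b := by
  obtain ⟨c, m, hm⟩ := R.uu_monomial i j h a b
  have e : (fun z => R.ρ (uu i j h z) a b) = fun z => c * z ^ m := funext hm
  rw [e]
  fun_prop

theorem differentiable_act_uu (i j : Fin n) (h : i ≠ j) (v : ι → ℂ) (a : ι) :
    Differentiable ℂ fun z => R.act (uu i j h z) v a := by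
  unfold act
  simp only [mulVec, dotProduct]
  exact Differentiable.fun_sum fun b _ => (R.differentiable_uu i j h a b).mul_const _

end Rep

theorem differentiable_eval {ι : Type} (p : MvPolynomial ι ℂ) {f : ℂ → ι → ℂ}
    (hf : ∀ a, Differentiable ℂ fun z => f z a) :
    Differentiable ℂ fun z => MvPolynomial.eval (f z) p := by
  have e : (fun z => MvPolynomial.eval (f z) p) = fun z =>
      ∑ s ∈ p.support, p.coeff s * ∏ i ∈ s.support, f z i ^ s i := by
    funext z
    rw [MvPolynomial.eval_eq]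
  rw [e]
  refine Differentiable.fun_sum fun s _ => Differentiable.const_mul ?_ _
  exact Differentiable.fun_finsetProd fun i _ => (hf i).pow _

end Pool.Agent.SG
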