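import Pool.Agent.H.MP_e23cd6_ag.SG.Rep

/-!
# Singular value decomposition, and the elements of `SU(n)` near the identity
-/

set_option autoImplicit false

namespace Pool.Agent.SG

open Matrix Topology
open scoped ComplexOrder

variable {n : ℕ}

theorem coe_inv_SU {u : Gp n} (hu : u ∈ SU n) :
    ((u⁻¹ : Gp n) : Matrix (Fin n) (Fin n) ℂ) = (u : Matrix (Fin n) (Fin n) ℂ)ᴴ := by
  rw [← mem_SU.1 hu, coe_ct]

theorem SU_mem_unitary {u : Gp n} (hu : u ∈ SU n) :
    (u : Matrix (Fin n) (Fin n) ℂ) ∈ Matrix.unitaryGroup (Fin n) ℂ := by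
  rw [Matrix.mem_unitaryGroup_iff']
  exact mem_SU'.1 hu

theorem SU_entry_le {u : Gp n} (hu : u ∈ SU n) (i j : Fin n) :
    ‖(u : Matrix (Fin n) (Fin n) ℂ) i j‖ ≤ 1 :=
  entry_norm_bound_of_unitary (SU_mem_unitary hu) i j

/-- A unitary matrix times a phase has determinant one. -/
theorem exists_phase {U : Matrix (Fin n) (Fin n) ℂ} (hU : U ∈ Matrix.unitaryGroup (Fin n) ℂ) :
    ∃ d : ℂ, d * star d = 1 ∧ (d • U).det = 1 := by
  have hdet : U.det * star U.det = 1 := by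
    have h := congrArg Matrix.det ((Matrix.mem_unitaryGroup_iff).1 hU)
    rw [Matrix.det_mul, Matrix.det_one, star_eq_conjTranspose, Matrix.det_conjTranspose] at h
    exact h
  have hd0 : U.det ≠ 0 := fun h => by simp [h] at hdet
  rcases Nat.eq_zero_or_pos n with rfl | hn
  · exact ⟨1, by simp, by simp⟩
  · obtain ⟨d, hd⟩ := IsAlgClosed.exists_pow_nat_eq (U.det)⁻¹ hn
    refine ⟨d, ?_, ?_⟩
    · have h1 : ‖U.det‖ = 1 := by
        have h2 : ‖U.det * star U.det‖ = 1 := by rw [hdet, norm_one]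
        rw [norm_mul, norm_star] at h2
        have h3 : 0 ≤ ‖U.det‖ := norm_nonneg _
        nlinarith
      have h2 : ‖d‖ ^ n = 1 := by
        rw [← norm_pow, hd, norm_inv, h1, inv_one]
      have h3 : ‖d‖ = 1 := (pow_eq_one_iff_of_nonneg (norm_nonneg _) hn.ne').1 h2
      have h4 : d * star d = ((‖d‖ ^ 2 : ℝ) : ℂ) := by
        have := Complex.mul_conj d
        rw [Complex.normSq_eq_norm_sq] at this
        exact this
      rw [h4, h3]
      norm_num
    · rw [Matrix.det_smul, Fintype.card_fin, hd, inv_mul_cancel₀ hd0]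

/-- Diagonalization of Hermitian matrices by elements of `SU(n)`. -/
theorem diag_herm {A : Matrix (Fin n) (Fin n) ℂ} (hA : A.IsHermitian) :
    ∃ u ∈ SU n, A = (u : Matrix (Fin n) (Fin n) ℂ)ᴴ *
      Matrix.diagonal (fun i => (hA.eigenvalues i : ℂ)) * (u : Matrix (Fin n) (Fin n) ℂ) := by
  have hU := (hA.eigenvectorUnitary).2
  obtain ⟨d, hd1, hd2⟩ := exists_phase hU
  have hs := hA.spectral_theorem
  rw [Unitary.conjStarAlgAut_apply] at hs
  have hUU := (Matrix.mem_unitaryGroup_iff').1 hU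
  have hUU' := (Matrix.mem_unitaryGroup_iff).1 hU
  obtain ⟨U, hUeq⟩ : ∃ U : Matrix (Fin n) (Fin n) ℂ, U = (hA.eigenvectorUnitary).1 := ⟨_, rfl⟩
  rw [← hUeq] at hd2 hUU hUU'
  have hs' : A = U * Matrix.diagonal (fun i => (hA.eigenvalues i : ℂ)) * Uᴴ := by
    rw [hUeq]
    exact hs
  have hdet : ((d • U)ᴴ).det = 1 := by rw [det_conjTranspose, hd2, star_one]
  have hmul : (d • U) * (d • U)ᴴ = 1 := by
    rw [conjTranspose_smul, Matrix.smul_mul, Matrix.mul_smul, smul_smul, hd1, one_smul]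
    exact hUU'
  refine ⟨⟨(d • U)ᴴ, hdet⟩, ?_, ?_⟩
  · rw [mem_SU']
    show ((d • U)ᴴ)ᴴ * (d • U)ᴴ = 1
    rw [conjTranspose_conjTranspose, hmul]
  · show A = ((d • U)ᴴ)ᴴ * Matrix.diagonal (fun i => (hA.eigenvalues i : ℂ)) * (d • U)ᴴ
    rw [conjTranspose_conjTranspose, conjTranspose_smul, Matrix.mul_smul, Matrix.smul_mul,
      Matrix.smul_mul, smul_smul, mul_comm (star d), hd1, one_smul]
    exact hs'

/-- **Singular value decomposition** (`G = K A K`). -/
theorem svd (g : Gp n) : ∃ k₁ ∈ SU n, ∃ k₂ ∈ SU n, ∃ H : aa n, g = k₁ * dg H 1 * k₂ := by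
  obtain ⟨A, hAe⟩ : ∃ A : Matrix (Fin n) (Fin n) ℂ,
      A = (g : Matrix (Fin n) (Fin n) ℂ)ᴴ * (g : Matrix (Fin n) (Fin n) ℂ) := ⟨_, rfl⟩
  have hA : A.IsHermitian := by
    rw [hAe]
    exact Matrix.isHermitian_conjTranspose_mul_self _
  have hdetg : (g : Matrix (Fin n) (Fin n) ℂ).det = 1 := g.det_coe
  have hpd : A.PosDef := by
    rw [hAe]
    apply Matrix.PosDef.conjTranspose_mul_self
    rw [Matrix.mulVec_injective_iff_isUnit, Matrix.isUnit_iff_isUnit_det, hdetg]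
    exact isUnit_one
  obtain ⟨u, hu, hAu⟩ := diag_herm hA
  have hx : ∀ i, 0 < hA.eigenvalues i := fun i => hpd.eigenvalues_pos i
  have hprod : ∏ i, hA.eigenvalues i = 1 := by
    have h1 : A.det = 1 := by
      rw [hAe, det_mul, det_conjTranspose, hdetg, star_one, one_mul]
    have h2 := hA.det_eq_prod_eigenvalues
    rw [h1] at h2
    have h3 : ((∏ i, hA.eigenvalues i : ℝ) : ℂ) = 1 := by
      rw [Complex.ofReal_prod]
      exact h2.symm
    exact_mod_cast h3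
  have hsum : ∑ i, (1 / 2 * Real.log (hA.eigenvalues i)) = 0 := by
    rw [← Finset.mul_sum, ← Real.log_prod (fun i _ => (hx i).ne'), hprod, Real.log_one, mul_zero]
  obtain ⟨H, hH⟩ : ∃ H : aa n, ∀ i, H.1 i = 1 / 2 * Real.log (hA.eigenvalues i) :=
    ⟨⟨fun i => 1 / 2 * Real.log (hA.eigenvalues i), hsum⟩, fun _ => rfl⟩
  refine ⟨g * u⁻¹ * dg H (-1), ?_, u, hu, H, ?_⟩
  · rw [mem_SU']
    have huu : (u : Matrix (Fin n) (Fin n) ℂ) * (u : Matrix (Fin n) (Fin n) ℂ)ᴴ = 1 := by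
      rw [← coe_inv_SU hu, ← coe_gmul, mul_inv_cancel, coe_gone]
    rw [coe_gmul, coe_gmul, coe_inv_SU hu, conjTranspose_mul, conjTranspose_mul,
      conjTranspose_conjTranspose]
    have e1 : (dg H (-1) : Matrix (Fin n) (Fin n) ℂ)ᴴ * ((u : Matrix (Fin n) (Fin n) ℂ) *
        (g : Matrix (Fin n) (Fin n) ℂ)ᴴ) *
        ((g : Matrix (Fin n) (Fin n) ℂ) * (u : Matrix (Fin n) (Fin n) ℂ)ᴴ *
          (dg H (-1) : Matrix (Fin n) (Fin n) ℂ)) =
        (dg H (-1) : Matrix (Fin n) (Fin n) ℂ)ᴴ * ((u : Matrix (Fin n) (Fin n) ℂ) *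
        A * (u : Matrix (Fin n) (Fin n) ℂ)ᴴ) * (dg H (-1) : Matrix (Fin n) (Fin n) ℂ) := by
      rw [hAe]
      simp only [Matrix.mul_assoc]
    rw [e1, hAu]
    have e2 : (u : Matrix (Fin n) (Fin n) ℂ) * ((u : Matrix (Fin n) (Fin n) ℂ)ᴴ *
        Matrix.diagonal (fun i => (hA.eigenvalues i : ℂ)) * (u : Matrix (Fin n) (Fin n) ℂ)) *
        (u : Matrix (Fin n) (Fin n) ℂ)ᴴ =
        Matrix.diagonal (fun i => (hA.eigenvalues i : ℂ)) := by
      have e3 : (u : Matrix (Fin n) (Fin n) ℂ) * ((u : Matrix (Fin n) (Fin n) ℂ)ᴴ *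
        Matrix.diagonal (fun i => (hA.eigenvalues i : ℂ)) * (u : Matrix (Fin n) (Fin n) ℂ)) *
        (u : Matrix (Fin n) (Fin n) ℂ)ᴴ =
        ((u : Matrix (Fin n) (Fin n) ℂ) * (u : Matrix (Fin n) (Fin n) ℂ)ᴴ) *
        Matrix.diagonal (fun i => (hA.eigenvalues i : ℂ)) *
        ((u : Matrix (Fin n) (Fin n) ℂ) * (u : Matrix (Fin n) (Fin n) ℂ)ᴴ) := by
        simp only [Matrix.mul_assoc]
      rw [e3, huu, Matrix.one_mul, Matrix.mul_one]
    rw [e2, coe_dg, Matrix.diagonal_conjTranspose, Matrix.diagonal_mul_diagonal,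
      Matrix.diagonal_mul_diagonal, ← Matrix.diagonal_one]
    congr 1
    funext i
    have e4 : Complex.exp (-1 * (H.1 i : ℂ)) = ((Real.exp (-(H.1 i)) : ℝ) : ℂ) := by
      rw [Complex.ofReal_exp]
      congr 1
      push_cast
      ring
    rw [e4, Pi.star_apply, e4]
    have e5 : star ((Real.exp (-(H.1 i)) : ℝ) : ℂ) = ((Real.exp (-(H.1 i)) : ℝ) : ℂ) :=
      Complex.conj_ofReal _
    rw [e5, ← Complex.ofReal_mul, ← Complex.ofReal_mul]
    have e6 : Real.exp (-(H.1 i)) * hA.eigenvalues i * Real.exp (-(H.1 i)) = 1 := by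
      have e7 : hA.eigenvalues i = Real.exp (Real.log (hA.eigenvalues i)) :=
        (Real.exp_log (hx i)).symm
      rw [hH i]
      nth_rewrite 2 [e7]
      rw [← Real.exp_add, ← Real.exp_add]
      have : -(1 / 2 * Real.log (hA.eigenvalues i)) + Real.log (hA.eigenvalues i) +
        -(1 / 2 * Real.log (hA.eigenvalues i)) = 0 := by ring
      rw [this, Real.exp_zero]
    rw [e6, Complex.ofReal_one]
  · have e1 : dg H (-1) * dg H 1 = 1 := by
      rw [← dg_add, neg_add_cancel, dg_zero]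
    calc g = g * u⁻¹ * (dg H (-1) * dg H 1) * u := by
          rw [e1, mul_one, inv_mul_cancel_right]
      _ = g * u⁻¹ * dg H (-1) * dg H 1 * u := by group

end Pool.Agent.SG
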