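import Pool.Agent.H.MP_e23cd6_ag.SG.Wt

/-!
# Systems of line bundles with an action of `SL_n(ℂ)`, given by the evaluation vectors

`X` is a space with an action of `SL_n(ℂ)`. A `PDat` describes a linearised globally generated line
bundle on `X`: `v y` is the vector of the values at `y` of the elements of a basis of a space of
sections (in some frame). A `GSys` describes the line bundles `L ^ a ⊗ P ^ (b + 1)`.
-/

set_option autoImplicit false

open Matrix

namespace Pool.Agent.SG

/-- A linearised line bundle on `X` (with the action `act`) which is generated by a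
finite dimensional space of sections. -/
structure PDat (n : ℕ) (X : Type) [TopologicalSpace X] (act : Gp n → X → X) where
  ι : Type
  ft : Fintype ι
  de : DecidableEq ι
  R : Rep n ι
  v : X → ι → ℂ
  ne : ∀ y, v y ≠ 0
  eqv : ∀ g y, ∃ z : ℂ, z ≠ 0 ∧ R.act g (v y) = z • v (act g y)
  contP : ∀ a b, Continuous fun y => v y a * star (v y b) / (ns (v y) : ℂ)

attribute [instance] PDat.ft PDat.de

variable {n : ℕ} {X : Type} [TopologicalSpace X]

/-- The logarithm of the quotient of the norms at `y` and at `g y`. -/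
noncomputable def PDat.lg {act : Gp n → X → X} (D : PDat n X act) (g : Gp n) (y : X) : ℝ :=
  (Real.log (ns (D.R.act g (D.v y))) - Real.log (ns (D.v y))) / 2

/-- The line bundles `L ^ a ⊗ P ^ (b + 1)`, `a, b ≥ 0`: the `c a b`-th power of this line bundle is
given by `D a b`, and the metrics are comparable. -/
structure GSys (n : ℕ) (X : Type) [TopologicalSpace X] where
  act : Gp n → X → X
  one : ∀ y, act 1 y = y
  mul : ∀ g h y, act (g * h) y = act g (act h y)
  cont : Continuous fun w : Gp n × X => act w.1 w.2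
  c : ℕ → ℕ → ℕ
  c_pos : ∀ a b, 1 ≤ c a b
  D : ℕ → ℕ → PDat n X act
  cmp : ∀ a b, ∃ C : ℝ, ∀ g y, |(D a b).lg g y / c a b -
    (a * ((D 1 0).lg g y / c 1 0 - (D 0 0).lg g y / c 0 0) +
      (b + 1) * ((D 0 0).lg g y / c 0 0))| ≤ C
  sep : ∀ a b y y', (∃ z : ℂ, (D a b).v y' = z • (D a b).v y) → y = y'

namespace GSys

variable (S : GSys n X)

/-- The logarithm of the quotient of the norms for `P`. -/
noncomputable def fP (g : Gp n) (y : X) : ℝ := (S.D 0 0).lg g y / S.c 0 0

/-- The logarithm of the quotient of the norms for `L`. -/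
noncomputable def fL (g : Gp n) (y : X) : ℝ := (S.D 1 0).lg g y / S.c 1 0 - S.fP g y

/-- The level function of `L ^ a ⊗ P ^ b` with the exponents `θ`. -/
noncomputable def lev (a b : ℝ) (θ : Fin n → ℝ) (y : X) (g : Gp n) : ℝ :=
  a * S.fL g y + b * S.fP g y + ∑ i, θ i * hw g i

/-- Semistable points. -/
def Sst (a b : ℝ) (θ : Fin n → ℝ) (y : X) : Prop := ∃ C : ℝ, ∀ g, C ≤ S.lev a b θ y g

/-- Stable points. -/
def Stb (a b : ℝ) (θ : Fin n → ℝ) (y : X) : Prop :=
  ∀ M : ℝ, ∃ R : ℝ, ∀ g, S.lev a b θ y g ≤ M → sz g ≤ R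

end GSys

end Pool.Agent.SG
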