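import Pool.Agent.H.MP_e23cd6_ag.SG.Sys
import Pool.Agent.H.MP_e23cd6_ag.SG.Defs

/-! The system `S` is given by sections of the line bundles `L ^ a ⊗ P ^ (b + 1)`. -/

set_option autoImplicit false

open Matrix MeasureTheory Topology Set Filter
open scoped Manifold ContDiff ENNReal

namespace Pool.Agent.SG

variable {n : ℕ}

open Pool.Agent.Abd Pool.Agent.Abn

section geo

variable {E : Type} [NormedAddCommGroup E] [NormedSpace ℂ E]
  {X₀ X : Type} [TopologicalSpace X₀] [ChartedSpace E X₀] [TopologicalSpace X]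
  {N : NSp E X₀ X} {L P : NLine N} {A : GAct n N} (ΛL : GLin A L) (ΛP : GLin A P)

/-- The system `S` is given by sections of the line bundles `L ^ a ⊗ P ^ (b + 1)`. -/
structure SysOf (S : GSys n X) where
  act : S.act = A.act
  sec : ∀ a b, (S.D a b).ι → NSec L P (S.c a b * a) (S.c a b * (b + 1)) univ
  val : ∀ a b y i j, y ∈ L.U i → y ∈ P.U j →
    ∃ z : ℂ, z ≠ 0 ∧ ∀ α, (sec a b α).f i j y = z * (S.D a b).v y α
  eqv : ∀ a b g y i j i' j', A.act g y ∈ L.U i → A.act g y ∈ P.U j → y ∈ L.U i' → y ∈ P.U j' →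
    ∀ α, (sec a b α).f i j (A.act g y) = ΛL.lam i i' g y ^ (S.c a b * a) *
      ΛP.lam j j' g y ^ (S.c a b * (b + 1)) * (S.D a b).R.act g (fun β => (sec a b β).f i' j' y) α

end geo

end Pool.Agent.SG
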