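import Pool.Agent.H.MP_e23cd6_ag.SG.Iw

/-!
# The size of the elements of the group
-/

set_option autoImplicit false

open Matrix MeasureTheory Topology Set Filter

namespace Pool.Agent.SG

variable {n : ℕ}

/-- The square of the Frobenius norm. -/
noncomputable def fr (A : Matrix (Fin n) (Fin n) ℂ) : ℝ := ∑ i, ∑ j, ‖A i j‖ ^ 2

theorem sz_eq (g : Gp n) : sz g = Real.log (fr (g : Matrix (Fin n) (Fin n) ℂ)) := rfl

theorem fr_nonneg (A : Matrix (Fin n) (Fin n) ℂ) : 0 ≤ fr A :=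
  Finset.sum_nonneg fun _ _ => Finset.sum_nonneg fun _ _ => sq_nonneg _

theorem fr_trace (A : Matrix (Fin n) (Fin n) ℂ) : ((fr A : ℝ) : ℂ) = (Aᴴ * A).trace := by
  unfold fr Matrix.trace
  rw [Finset.sum_comm, Complex.ofReal_sum]
  refine Finset.sum_congr rfl fun j _ => ?_
  rw [Complex.ofReal_sum, Matrix.diag_apply, Matrix.mul_apply]
  refine Finset.sum_congr rfl fun i _ => ?_
  have h1 := Complex.mul_conj (A i j)
  rw [Complex.normSq_eq_norm_sq] at h1
  rw [Matrix.conjTranspose_apply, mul_comm]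
  exact h1.symm

theorem fr_SU_left {k : Gp n} (hk : k ∈ SU n) (A : Matrix (Fin n) (Fin n) ℂ) :
    fr ((k : Matrix (Fin n) (Fin n) ℂ) * A) = fr A := by
  have h : ((fr ((k : Matrix (Fin n) (Fin n) ℂ) * A) : ℝ) : ℂ) = ((fr A : ℝ) : ℂ) := by
    rw [fr_trace, fr_trace, Matrix.conjTranspose_mul, Matrix.mul_assoc, ← Matrix.mul_assoc _ _ A,
      mem_SU'.1 hk, Matrix.one_mul]
  exact_mod_cast h

theorem fr_SU_right {k : Gp n} (hk : k ∈ SU n) (A : Matrix (Fin n) (Fin n) ℂ) :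
    fr (A * (k : Matrix (Fin n) (Fin n) ℂ)) = fr A := by
  have hk' : (k : Matrix (Fin n) (Fin n) ℂ) * (k : Matrix (Fin n) (Fin n) ℂ)ᴴ = 1 := by
    rw [← coe_inv_SU hk, ← coe_gmul, mul_inv_cancel, coe_gone]
  have h : ((fr (A * (k : Matrix (Fin n) (Fin n) ℂ)) : ℝ) : ℂ) = ((fr A : ℝ) : ℂ) := by
    rw [fr_trace, fr_trace, Matrix.conjTranspose_mul, Matrix.mul_assoc, Matrix.trace_mul_comm,
      Matrix.mul_assoc, Matrix.mul_assoc, hk', Matrix.mul_one]
  exact_mod_cast h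

theorem sz_SU {k : Gp n} (hk : k ∈ SU n) (g : Gp n) : sz (k * g) = sz g ∧ sz (g * k) = sz g := by
  rw [sz_eq, sz_eq, sz_eq, coe_gmul, coe_gmul, fr_SU_left hk, fr_SU_right hk]
  exact ⟨rfl, rfl⟩

theorem fr_dg (H : aa n) : fr (dg H 1 : Matrix (Fin n) (Fin n) ℂ) = ∑ i, Real.exp (2 * H.1 i) := by
  unfold fr
  refine Finset.sum_congr rfl fun i _ => ?_
  rw [Finset.sum_eq_single i]
  · rw [coe_dg, Matrix.diagonal_apply_eq, Complex.norm_exp, ← Real.exp_nat_mul]
    congr 1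
    rw [one_mul, Complex.ofReal_re]
    push_cast
    rfl
  · intro j _ hj
    rw [coe_dg, Matrix.diagonal_apply_ne _ (Ne.symm hj)]
    simp
  · intro h
    exact absurd (Finset.mem_univ _) h

/-- For every `g` there is `H` with the same size and the same size of the inverse. -/
theorem exists_H (g : Gp n) : ∃ H : aa n,
    fr (g : Matrix (Fin n) (Fin n) ℂ) = ∑ i, Real.exp (2 * H.1 i) ∧
    fr ((g⁻¹ : Gp n) : Matrix (Fin n) (Fin n) ℂ) = ∑ i, Real.exp (2 * (-(H.1 i))) ∧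
    ∃ k₁ ∈ SU n, ∃ k₂ ∈ SU n, g = k₁ * dg H 1 * k₂ := by
  obtain ⟨k₁, hk₁, k₂, hk₂, H, hg⟩ := svd g
  refine ⟨H, ?_, ?_, k₁, hk₁, k₂, hk₂, hg⟩
  · rw [hg, coe_gmul, coe_gmul, fr_SU_right hk₂, fr_SU_left hk₁, fr_dg]
  · have e : g⁻¹ = k₂⁻¹ * (dg (-H) 1 * k₁⁻¹) := by
      rw [hg, _root_.mul_inv_rev, _root_.mul_inv_rev, dg_inv]
      congr 2
      apply gp_ext
      rw [coe_dg, coe_dg]
      congr 1
      funext j
      show Complex.exp (-1 * (H.1 j : ℂ)) = Complex.exp (1 * ((-(H.1 j) : ℝ) : ℂ))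
      push_cast
      congr 1
      ring
    rw [e, coe_gmul, coe_gmul, fr_SU_left ((SU n).inv_mem hk₂), fr_SU_right ((SU n).inv_mem hk₁),
      fr_dg]
    rfl

theorem one_le_fr (hn : 0 < n) (H : aa n) : 1 ≤ ∑ i, Real.exp (2 * H.1 i) := by
  have h1 : ∃ i, 0 ≤ H.1 i := by
    by_contra hcon
    push Not at hcon
    have h2 : ∑ i, H.1 i < 0 := by
      apply Finset.sum_neg (fun i _ => hcon i)
      exact ⟨⟨0, hn⟩, Finset.mem_univ _⟩
    rw [aa_sum] at h2
    exact lt_irrefl _ h2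
  obtain ⟨i, hi⟩ := h1
  calc (1 : ℝ) ≤ Real.exp (2 * H.1 i) := Real.one_le_exp (by linarith)
    _ ≤ ∑ i, Real.exp (2 * H.1 i) :=
        Finset.single_le_sum (f := fun i => Real.exp (2 * H.1 i)) (fun i _ => (Real.exp_pos _).le)
          (Finset.mem_univ i)

theorem one_le_frg (hn : 0 < n) (g : Gp n) : 1 ≤ fr (g : Matrix (Fin n) (Fin n) ℂ) := by
  obtain ⟨H, hH, -⟩ := exists_H g
  rw [hH]
  exact one_le_fr hn H

theorem sz_zero_n (hn : n = 0) (g : Gp n) : sz g = 0 := by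
  subst hn
  unfold sz
  simp

theorem sz_nonneg (g : Gp n) : 0 ≤ sz g := by
  rcases Nat.eq_zero_or_pos n with hn | hn
  · rw [sz_zero_n hn]
  · exact Real.log_nonneg (one_le_frg hn g)

theorem fr_mul (A B : Matrix (Fin n) (Fin n) ℂ) : fr (A * B) ≤ fr A * fr B := by
  have h1 : ∀ i j, ‖(A * B) i j‖ ^ 2 ≤ (∑ c, ‖A i c‖ ^ 2) * ∑ c, ‖B c j‖ ^ 2 := by
    intro i j
    rw [Matrix.mul_apply]
    have h2 : ‖∑ c, A i c * B c j‖ ≤ ∑ c, ‖A i c‖ * ‖B c j‖ := by
      refine (norm_sum_le _ _).trans (le_of_eq ?_)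
      exact Finset.sum_congr rfl fun c _ => norm_mul _ _
    calc ‖∑ c, A i c * B c j‖ ^ 2 ≤ (∑ c, ‖A i c‖ * ‖B c j‖) ^ 2 :=
          pow_le_pow_left₀ (norm_nonneg _) h2 2
      _ ≤ (∑ c, ‖A i c‖ ^ 2) * ∑ c, ‖B c j‖ ^ 2 := Finset.sum_mul_sq_le_sq_mul_sq _ _ _
  calc fr (A * B) ≤ ∑ i, ∑ j, (∑ c, ‖A i c‖ ^ 2) * ∑ c, ‖B c j‖ ^ 2 :=
        Finset.sum_le_sum fun i _ => Finset.sum_le_sum fun j _ => h1 i j
    _ = (∑ i, ∑ c, ‖A i c‖ ^ 2) * ∑ j, ∑ c, ‖B c j‖ ^ 2 := by
        rw [Finset.sum_mul_sum]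
    _ = fr A * fr B := by
        unfold fr
        rw [Finset.sum_comm (f := fun j c => ‖B c j‖ ^ 2)]

theorem sz_mul (g h : Gp n) : sz (g * h) ≤ sz g + sz h := by
  rcases Nat.eq_zero_or_pos n with hn | hn
  · rw [sz_zero_n hn, sz_zero_n hn, sz_zero_n hn, add_zero]
  · have h1 := one_le_frg hn g
    have h2 := one_le_frg hn h
    have h3 := one_le_frg hn (g * h)
    rw [sz_eq, sz_eq, sz_eq, ← Real.log_mul (by linarith) (by linarith)]
    refine Real.log_le_log (by linarith) ?_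
    rw [coe_gmul]
    exact fr_mul _ _

theorem norm_le_sz (g : Gp n) (i j : Fin n) :
    ‖(g : Matrix (Fin n) (Fin n) ℂ) i j‖ ≤ Real.exp (sz g / 2) := by
  have hn : 0 < n := i.pos
  have h1 : ‖(g : Matrix (Fin n) (Fin n) ℂ) i j‖ ^ 2 ≤ fr (g : Matrix (Fin n) (Fin n) ℂ) := by
    unfold fr
    refine le_trans ?_ (Finset.single_le_sum
      (f := fun i => ∑ j, ‖(g : Matrix (Fin n) (Fin n) ℂ) i j‖ ^ 2)
      (fun i _ => Finset.sum_nonneg fun _ _ => sq_nonneg _) (Finset.mem_univ i))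
    exact Finset.single_le_sum (f := fun j => ‖(g : Matrix (Fin n) (Fin n) ℂ) i j‖ ^ 2)
      (fun _ _ => sq_nonneg _) (Finset.mem_univ j)
  have h2 := one_le_frg hn g
  have h3 : Real.exp (sz g / 2) ^ 2 = fr (g : Matrix (Fin n) (Fin n) ℂ) := by
    rw [← Real.exp_nat_mul]
    have : ((2 : ℕ) : ℝ) * (sz g / 2) = sz g := by push_cast; ring
    rw [this, sz_eq, Real.exp_log (by linarith)]
  rw [← h3] at h1
  exact le_of_sq_le_sq h1 (Real.exp_pos _).le

theorem fr_cont : Continuous fun g : Gp n => fr (g : Matrix (Fin n) (Fin n) ℂ) := by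
  unfold fr
  refine continuous_finsetSum _ fun i _ => continuous_finsetSum _ fun j _ => ?_
  exact (continuous_subtype_val.matrix_elem i j).norm.pow 2

theorem sz_cont : Continuous fun g : Gp n => sz g := by
  rcases Nat.eq_zero_or_pos n with hn | hn
  · simp only [sz_zero_n hn]
    exact continuous_const
  · exact fr_cont.log fun g => (lt_of_lt_of_le one_pos (one_le_frg hn g)).ne'

theorem sz_compact (R : ℝ) : IsCompact {g : Gp n | sz g ≤ R} := by
  have hK : IsCompact (Set.pi univ fun _ : Fin n => Set.pi univ fun _ : Fin n =>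
      Metric.closedBall (0 : ℂ) (Real.exp (R / 2))) :=
    isCompact_univ_pi fun i => isCompact_univ_pi fun j => isCompact_closedBall 0 _
  have hc : IsClosedEmbedding (fun g : Gp n => (g : Matrix (Fin n) (Fin n) ℂ)) :=
    Matrix.SpecialLinearGroup.isClosedEmbedding_val
  have h := hc.isCompact_preimage hK
  refine h.of_isClosed_subset (isClosed_le sz_cont continuous_const) ?_
  intro g hg i _ j _
  rw [mem_closedBall_zero_iff]
  refine (norm_le_sz g i j).trans (Real.exp_le_exp.2 ?_)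
  have : sz g ≤ R := hg
  linarith

/-- Bounds for the entries of `H` by the size. -/
theorem abs_H_le (H : aa n) {s : ℝ} (hs0 : 0 ≤ s)
    (hs : ∑ i, Real.exp (2 * H.1 i) ≤ Real.exp s) (i : Fin n) :
    |H.1 i| ≤ n * s := by
  have hn : (1 : ℝ) ≤ n := by
    have : 0 < n := i.pos
    exact_mod_cast this
  have h1 : ∀ j, H.1 j ≤ s / 2 := by
    intro j
    have h2 : Real.exp (2 * H.1 j) ≤ Real.exp s :=
      (Finset.single_le_sum (f := fun i => Real.exp (2 * H.1 i)) (fun i _ => (Real.exp_pos _).le)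
        (Finset.mem_univ j)).trans hs
    have h3 := Real.exp_le_exp.1 h2
    linarith
  rw [abs_le]
  constructor
  · have h2 := aa_sum H
    rw [← Finset.add_sum_erase _ _ (Finset.mem_univ i)] at h2
    have h3 : ∑ j ∈ Finset.univ.erase i, H.1 j ≤ ∑ j ∈ Finset.univ.erase i, s / 2 :=
      Finset.sum_le_sum fun j _ => h1 j
    rw [Finset.sum_const, nsmul_eq_mul] at h3
    have h4 : ((Finset.univ.erase i).card : ℝ) ≤ n := by
      have := Finset.card_le_univ (Finset.univ.erase i)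
      rw [Fintype.card_fin] at this
      exact_mod_cast this
    have h5 : ((Finset.univ.erase i).card : ℝ) * (s / 2) ≤ n * (s / 2) :=
      mul_le_mul_of_nonneg_right h4 (by linarith)
    have h6 : (n : ℝ) * (s / 2) ≤ n * s := by nlinarith
    linarith
  · have h2 := h1 i
    nlinarith

theorem exp_sz (hn : 0 < n) (g : Gp n) :
    Real.exp (sz g) = fr (g : Matrix (Fin n) (Fin n) ℂ) := by
  rw [sz_eq, Real.exp_log (lt_of_lt_of_le one_pos (one_le_frg hn g))]

theorem sz_inv : ∃ C : ℝ, ∀ g : Gp n, sz g⁻¹ ≤ C * (sz g + 1) := by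
  rcases Nat.eq_zero_or_pos n with hn | hn
  · exact ⟨0, fun g => by rw [sz_zero_n hn, zero_mul]⟩
  refine ⟨2 * n, fun g => ?_⟩
  have hn1 : (1 : ℝ) ≤ n := by exact_mod_cast hn
  obtain ⟨H, h1, h2, -⟩ := exists_H g
  have hs0 := sz_nonneg g
  have h3 := abs_H_le H hs0 (by rw [exp_sz hn, h1])
  have h4 : fr ((g⁻¹ : Gp n) : Matrix (Fin n) (Fin n) ℂ) ≤ n * Real.exp (2 * (n * sz g)) := by
    rw [h2]
    calc ∑ i, Real.exp (2 * (-(H.1 i))) ≤ ∑ i : Fin n, Real.exp (2 * (n * sz g)) := by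
          refine Finset.sum_le_sum fun i _ => Real.exp_le_exp.2 ?_
          have := neg_abs_le (H.1 i)
          have := h3 i
          linarith
      _ = n * Real.exp (2 * (n * sz g)) := by
          rw [Finset.sum_const, Finset.card_univ, Fintype.card_fin, nsmul_eq_mul]
  have h5 := one_le_frg hn g⁻¹
  have h6 := Real.log_le_log (by linarith) h4
  rw [Real.log_mul (by linarith) (Real.exp_pos _).ne', Real.log_exp] at h6
  have h7 : Real.log n ≤ n := (Real.log_le_sub_one_of_pos (by linarith)).trans (by linarith)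
  rw [sz_eq]
  nlinarith

/-- `sz (dg H 1)` is comparable to the norm of `H`. -/
theorem sz_dg (H : aa n) (i : Fin n) : |H.1 i| ≤ n * sz (dg H 1) ∧
    sz (dg H 1) ≤ 2 * ∑ j, |H.1 j| + Real.log n := by
  have hn : 0 < n := i.pos
  constructor
  · exact abs_H_le H (sz_nonneg _) (by rw [exp_sz hn, fr_dg]) i
  · have hn1 : (1 : ℝ) ≤ n := by exact_mod_cast hn
    have h4 : fr (dg H 1 : Matrix (Fin n) (Fin n) ℂ) ≤ n * Real.exp (2 * ∑ j, |H.1 j|) := by
      rw [fr_dg]
      calc ∑ i, Real.exp (2 * H.1 i) ≤ ∑ i : Fin n, Real.exp (2 * ∑ j, |H.1 j|) := by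
            refine Finset.sum_le_sum fun i _ => Real.exp_le_exp.2 ?_
            have h1 := le_abs_self (H.1 i)
            have h2 : |H.1 i| ≤ ∑ j, |H.1 j| :=
              Finset.single_le_sum (f := fun j => |H.1 j|) (fun _ _ => abs_nonneg _)
                (Finset.mem_univ i)
            linarith
        _ = n * Real.exp (2 * ∑ j, |H.1 j|) := by
            rw [Finset.sum_const, Finset.card_univ, Fintype.card_fin, nsmul_eq_mul]
    have h5 := one_le_frg hn (dg H 1)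
    have h6 := Real.log_le_log (by linarith) h4
    rw [Real.log_mul (by linarith) (Real.exp_pos _).ne', Real.log_exp] at h6
    rw [sz_eq]
    linarith

theorem hw_le_sz : ∃ C : ℝ, ∀ (g : Gp n) (i : Fin n), |hw g i| ≤ C * (sz g + 1) := by
  refine ⟨2 * n ^ 2, fun g i => ?_⟩
  have hn : 0 < n := i.pos
  have hs0 := sz_nonneg g
  obtain ⟨H, h1, -, k₁, hk₁, k₂, hk₂, hg⟩ := exists_H g
  have h3 := abs_H_le H hs0 (by rw [exp_sz hn, h1])
  have key : ∀ m, m ≤ n → |Real.log (TT m g)| ≤ 2 * n ^ 2 * sz g := by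
    intro m hm
    have e1 : TT m g = (∑ a : Fin m → Fin n, ‖mnr m k₂ a‖ ^ 2 *
        Real.exp (2 * (1 : ℝ) * ∑ q, H.1 (a q))) / (m.factorial : ℝ) := by
      rw [hg, mul_assoc, TT_SU hk₁, ← TT_dg H 1 m k₂, Complex.ofReal_one]
    have e2 : (∑ a : Fin m → Fin n, ‖mnr m k₂ a‖ ^ 2) / (m.factorial : ℝ) = 1 := by
      have h4 := TT_SU hk₂ m 1
      rw [mul_one, TT_one m hm] at h4
      exact h4
    have hf : (0 : ℝ) < m.factorial := by exact_mod_cast m.factorial_pos
    have hb : ∀ a : Fin m → Fin n, |2 * (1 : ℝ) * ∑ q, H.1 (a q)| ≤ 2 * n ^ 2 * sz g := by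
      intro a
      have h5 : |∑ q, H.1 (a q)| ≤ m * (n * sz g) := by
        calc |∑ q, H.1 (a q)| ≤ ∑ q, |H.1 (a q)| := Finset.abs_sum_le_sum_abs _ _
          _ ≤ ∑ q : Fin m, n * sz g := Finset.sum_le_sum fun q _ => h3 _
          _ = m * (n * sz g) := by
              rw [Finset.sum_const, Finset.card_univ, Fintype.card_fin, nsmul_eq_mul]
      have h6 : (m : ℝ) * (n * sz g) ≤ n * (n * sz g) := by
        have : (m : ℝ) ≤ n := by exact_mod_cast hm
        exact mul_le_mul_of_nonneg_right this (by positivity)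
      rw [abs_mul, mul_one, abs_two]
      nlinarith
    have hup : TT m g ≤ Real.exp (2 * n ^ 2 * sz g) := by
      rw [e1]
      calc (∑ a : Fin m → Fin n, ‖mnr m k₂ a‖ ^ 2 *
          Real.exp (2 * (1 : ℝ) * ∑ q, H.1 (a q))) / (m.factorial : ℝ)
          ≤ (∑ a : Fin m → Fin n, ‖mnr m k₂ a‖ ^ 2 * Real.exp (2 * n ^ 2 * sz g)) /
            (m.factorial : ℝ) := by
            refine div_le_div_of_nonneg_right (Finset.sum_le_sum fun a _ => ?_) hf.le
            exact mul_le_mul_of_nonneg_left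
              (Real.exp_le_exp.2 ((le_abs_self _).trans (hb a))) (sq_nonneg _)
        _ = Real.exp (2 * n ^ 2 * sz g) := by
            rw [← Finset.sum_mul, mul_div_right_comm, e2, one_mul]
    have hlow : Real.exp (-(2 * n ^ 2 * sz g)) ≤ TT m g := by
      rw [e1]
      calc Real.exp (-(2 * n ^ 2 * sz g)) =
          (∑ a : Fin m → Fin n, ‖mnr m k₂ a‖ ^ 2 * Real.exp (-(2 * n ^ 2 * sz g))) /
            (m.factorial : ℝ) := by
            rw [← Finset.sum_mul, mul_div_right_comm, e2, one_mul]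
        _ ≤ _ := by
            refine div_le_div_of_nonneg_right (Finset.sum_le_sum fun a _ => ?_) hf.le
            exact mul_le_mul_of_nonneg_left
              (Real.exp_le_exp.2 ((abs_le.1 (hb a)).1)) (sq_nonneg _)
    have hT := TT_pos m hm g
    rw [abs_le]
    constructor
    · rw [Real.le_log_iff_exp_le hT]
      exact hlow
    · rw [Real.log_le_iff_le_exp hT]
      exact hup
  have k1 := key _ i.2
  have k2 := key _ i.2.le
  unfold hw
  rw [abs_div, abs_two, div_le_iff₀ two_pos]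
  have h7 := abs_sub (Real.log (TT ((i : ℕ) + 1) g)) (Real.log (TT (i : ℕ) g))
  have h8 : (0 : ℝ) ≤ n ^ 2 := by positivity
  nlinarith

end Pool.Agent.SG
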