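import Pool.Agent.H.MP_e23cd6_ag.SG.LsA
import Pool.Agent.H.MP_e23cd6_ag.SG.Wt

/-!
# Minors of the first columns
-/

set_option autoImplicit false

open Matrix MeasureTheory Topology Set Filter

namespace Pool.Agent.SG

variable {n : ℕ}

theorem colE_mul (k g : Gp n) (r : Fin n) (q : ℕ) :
    colE (k * g) r q = ∑ c, (k : Matrix (Fin n) (Fin n) ℂ) r c * colE g c q := by
  unfold colE
  by_cases h : q < n
  · simp only [dif_pos h]
    rw [coe_gmul, Matrix.mul_apply]
  · simp only [dif_neg h, mul_zero, Finset.sum_const_zero]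

/-- The minors of `k g` are obtained from the minors of `g` by the action of `k` on the tensor
power. -/
theorem mnr_mul (i : ℕ) (k g : Gp n) : mnr i (k * g) = (Er n i).act k (mnr i g) := by
  funext f
  have h1 : mnr i (k * g) f = (Matrix.detRowAlternating (R := ℂ) (n := Fin i)).toMultilinearMap
      (fun p => ∑ c, (k : Matrix (Fin n) (Fin n) ℂ) (f p) c • fun q : Fin i => colE g c q) := by
    unfold mnr
    show Matrix.det _ = Matrix.det _
    congr 1
    funext p q
    rw [Matrix.of_apply, colE_mul, Finset.sum_apply]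
    rfl
  rw [h1, MultilinearMap.map_sum]
  show _ = ∑ f', (∏ a, (k : Matrix (Fin n) (Fin n) ℂ) (f a) (f' a)) * mnr i g f'
  refine Finset.sum_congr rfl fun f' _ => ?_
  rw [MultilinearMap.map_smul_univ, smul_eq_mul]
  rfl

theorem TT_eq (i : ℕ) (g : Gp n) : TT i g = ns (mnr i g) / (i.factorial : ℝ) := rfl

theorem TT_zero (g : Gp n) : TT 0 g = 1 := by
  unfold TT mnr
  simp

theorem TT_SU {k : Gp n} (hk : k ∈ SU n) (i : ℕ) (g : Gp n) : TT i (k * g) = TT i g := by
  rw [TT_eq, TT_eq, mnr_mul, (Er n i).ns_act_SU hk]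

theorem mnr_one_perm (i : ℕ) (hi : i ≤ n) (σ : Equiv.Perm (Fin i)) :
    ‖mnr i (1 : Gp n) (fun p => Fin.castLE hi (σ p))‖ ^ 2 = 1 := by
  have h1 : mnr i (1 : Gp n) (fun p => Fin.castLE hi (σ p)) =
      ((1 : Matrix (Fin i) (Fin i) ℂ).submatrix σ id).det := by
    unfold mnr
    congr 1
    ext p q
    rw [Matrix.of_apply, Matrix.submatrix_apply]
    unfold colE
    have hq : (q : ℕ) < n := q.2.trans_le hi
    rw [dif_pos hq, coe_gone, Matrix.one_apply, Matrix.one_apply]
    have e : (Fin.castLE hi (σ p) = (⟨q, hq⟩ : Fin n)) ↔ σ p = id q := by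
      constructor
      · intro h
        have h' := congrArg Fin.val h
        exact Fin.ext h'
      · intro h
        rw [h]
        rfl
    by_cases h : σ p = id q
    · rw [if_pos h, if_pos (e.2 h)]
    · rw [if_neg h, if_neg fun h' => h (e.1 h')]
  rw [h1, Matrix.det_permute, Matrix.det_one, mul_one]
  rcases Int.units_eq_one_or (Equiv.Perm.sign σ) with h | h
  · rw [h]
    simp
  · rw [h]
    simp

theorem ns_mnr_one (i : ℕ) (hi : i ≤ n) : ns (mnr i (1 : Gp n)) = (i.factorial : ℝ) := by
  unfold ns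
  have h1 : ∑ σ : Equiv.Perm (Fin i), (1 : ℝ) = ∑ f : Fin i → Fin n, ‖mnr i (1 : Gp n) f‖ ^ 2 := by
    refine Fintype.sum_of_injective (fun (σ : Equiv.Perm (Fin i)) (p : Fin i) =>
      Fin.castLE hi (σ p)) ?_ _ _ ?_ ?_
    · intro σ τ h
      ext p
      have h' := congrArg Fin.val (congrFun h p)
      exact h'
    · intro f hf
      have h0 : mnr i (1 : Gp n) f = 0 := by
        by_cases h1 : ∀ p, (f p : ℕ) < i
        · by_cases h2 : Function.Injective fun p => (⟨f p, h1 p⟩ : Fin i)
          · exfalso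
            apply hf
            refine ⟨Equiv.ofBijective _ ⟨h2, Finite.surjective_of_injective h2⟩, ?_⟩
            funext p
            apply Fin.ext
            rfl
          · unfold Function.Injective at h2
            push Not at h2
            obtain ⟨p, q, hpq, hne⟩ := h2
            unfold mnr
            refine Matrix.det_zero_of_row_eq hne ?_
            funext r
            rw [Matrix.of_apply, Matrix.of_apply]
            have h' := congrArg Fin.val hpq
            have : f p = f q := Fin.ext h'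
            rw [this]
        · push Not at h1
          obtain ⟨p, hp⟩ := h1
          unfold mnr
          refine Matrix.det_eq_zero_of_row_eq_zero p fun q => ?_
          rw [Matrix.of_apply]
          unfold colE
          have hq : (q : ℕ) < n := q.2.trans_le hi
          rw [dif_pos hq, coe_gone, Matrix.one_apply_ne]
          intro h
          have : (f p : ℕ) = q := congrArg Fin.val h
          have := q.2
          omega
      rw [h0]
      simp
    · intro σ
      exact (mnr_one_perm i hi σ).symm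
  rw [← h1, Finset.sum_const, Finset.card_univ, Fintype.card_perm, Fintype.card_fin,
    nsmul_eq_mul, mul_one]

theorem mnr_one_ne (i : ℕ) (hi : i ≤ n) : mnr i (1 : Gp n) ≠ 0 := by
  intro h
  have h1 := ns_mnr_one (n := n) i hi
  rw [h, ns_zero] at h1
  have h2 : (0 : ℝ) < i.factorial := by exact_mod_cast i.factorial_pos
  linarith

theorem TT_one (i : ℕ) (hi : i ≤ n) : TT i (1 : Gp n) = 1 := by
  rw [TT_eq, ns_mnr_one i hi]
  have h2 : (0 : ℝ) < i.factorial := by exact_mod_cast i.factorial_pos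
  exact div_self h2.ne'

theorem mnr_ne (i : ℕ) (hi : i ≤ n) (g : Gp n) : mnr i g ≠ 0 := by
  have h := mnr_mul i g (1 : Gp n)
  rw [mul_one] at h
  rw [h]
  exact act_ne_zero _ (mnr_one_ne i hi) g

theorem TT_pos (i : ℕ) (hi : i ≤ n) (g : Gp n) : 0 < TT i g := by
  rw [TT_eq]
  have h2 : (0 : ℝ) < i.factorial := by exact_mod_cast i.factorial_pos
  exact div_pos (ns_pos (mnr_ne i hi g)) h2

theorem TT_top (g : Gp n) : TT n g = 1 := by
  rw [← TT_one (n := n) n le_rfl]
  unfold TT
  congr 1
  refine Finset.sum_congr rfl fun a _ => ?_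
  have h1 : ∀ g : Gp n, mnr n g a = ((1 : Matrix (Fin n) (Fin n) ℂ).submatrix a id).det := by
    intro g
    have h2 : mnr n g a = ((1 : Matrix (Fin n) (Fin n) ℂ).submatrix a id *
        (g : Matrix (Fin n) (Fin n) ℂ)).det := by
      unfold mnr
      congr 1
      ext p q
      rw [Matrix.of_apply, Matrix.mul_apply]
      unfold colE
      rw [dif_pos q.2, Finset.sum_eq_single (a p)]
      · rw [Matrix.submatrix_apply, id, Matrix.one_apply_eq, one_mul]
      · intro c _ hc
        rw [Matrix.submatrix_apply, id, Matrix.one_apply_ne (Ne.symm hc), zero_mul]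
      · intro h
        exact absurd (Finset.mem_univ _) h
    rw [h2, Matrix.det_mul, g.det_coe, mul_one]
  rw [h1 g, h1 1]

/-- Column operations by an upper triangular matrix. -/
theorem mnr_B {b : Gp n} (hb : IsB b) (i : ℕ) (hi : i ≤ n) (g : Gp n) (a : Fin i → Fin n) :
    mnr i (g * b) a = mnr i g a * ∏ j : Fin i,
      (b : Matrix (Fin n) (Fin n) ℂ) (Fin.castLE hi j) (Fin.castLE hi j) := by
  obtain ⟨Bi, hBi⟩ : ∃ Bi : Matrix (Fin i) (Fin i) ℂ, ∀ p q, Bi p q =
      (b : Matrix (Fin n) (Fin n) ℂ) (Fin.castLE hi p) (Fin.castLE hi q) :=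
    ⟨Matrix.of fun p q => _, fun _ _ => rfl⟩
  have h1 : Bi.det = ∏ j : Fin i,
      (b : Matrix (Fin n) (Fin n) ℂ) (Fin.castLE hi j) (Fin.castLE hi j) := by
    rw [Matrix.det_of_isUpperTriangular]
    · exact Finset.prod_congr rfl fun j _ => hBi j j
    · intro p q hpq
      rw [hBi]
      exact hb _ _ hpq
  rw [← h1]
  unfold mnr
  rw [← Matrix.det_mul]
  congr 1
  ext p q
  have hq : (q : ℕ) < n := q.2.trans_le hi
  rw [Matrix.of_apply, Matrix.mul_apply]
  have h2 : colE (g * b) (a p) q = ∑ c : Fin n, (g : Matrix (Fin n) (Fin n) ℂ) (a p) c *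
      (b : Matrix (Fin n) (Fin n) ℂ) c ⟨q, hq⟩ := by
    unfold colE
    rw [dif_pos hq, coe_gmul, Matrix.mul_apply]
  rw [h2]
  symm
  refine Fintype.sum_of_injective (Fin.castLE hi) (Fin.castLE_injective hi) _ _ ?_ ?_
  · intro c hc
    have h3 : (q : ℕ) < (c : ℕ) := by
      by_contra hcon
      apply hc
      have h4 := q.2
      exact ⟨⟨c, by omega⟩, Fin.ext rfl⟩
    rw [hb c ⟨q, hq⟩ h3, mul_zero]
  · intro c
    rw [Matrix.of_apply, hBi]
    unfold colE
    rw [dif_pos (c.2.trans_le hi)]
    rfl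

theorem TT_B {b : Gp n} (hb : IsB b) (i : ℕ) (hi : i ≤ n) (g : Gp n) :
    TT i (g * b) = TT i g * ∏ j : Fin n, if (j : ℕ) < i then
      ‖(b : Matrix (Fin n) (Fin n) ℂ) j j‖ ^ 2 else 1 := by
  have h1 : ∏ j : Fin i,
      ‖(b : Matrix (Fin n) (Fin n) ℂ) (Fin.castLE hi j) (Fin.castLE hi j)‖ ^ 2 =
      ∏ j : Fin n, if (j : ℕ) < i then ‖(b : Matrix (Fin n) (Fin n) ℂ) j j‖ ^ 2 else 1 := by
    refine Fintype.prod_of_injective (Fin.castLE hi) (Fin.castLE_injective hi) _ _ ?_ ?_
    · intro c hc
      rw [if_neg]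
      intro h
      exact hc ⟨⟨c, h⟩, Fin.ext rfl⟩
    · intro c
      have hc : ((Fin.castLE hi c : Fin n) : ℕ) < i := c.2
      rw [if_pos hc]
  rw [← h1]
  unfold TT
  rw [div_mul_eq_mul_div, Finset.sum_mul]
  congr 1
  refine Finset.sum_congr rfl fun a _ => ?_
  rw [mnr_B hb i hi, norm_mul, mul_pow, norm_prod, Finset.prod_pow]

/-- Explicit exponential sum along a real diagonal one-parameter group. -/
theorem TT_dg (H : aa n) (s : ℝ) (i : ℕ) (g : Gp n) : TT i (dg H s * g) =
    (∑ a : Fin i → Fin n, ‖mnr i g a‖ ^ 2 * Real.exp (2 * s * ∑ q, H.1 (a q))) /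
      (i.factorial : ℝ) := by
  unfold TT
  congr 1
  refine Finset.sum_congr rfl fun a _ => ?_
  have h1 : mnr i (dg H s * g) a = (∏ p, Complex.exp (s * H.1 (a p))) * mnr i g a := by
    unfold mnr
    rw [← Matrix.det_mul_column]
    congr 1
    ext p q
    rw [Matrix.of_apply, Matrix.of_apply, Matrix.of_apply, colE_mul, Finset.sum_eq_single (a p)]
    · rw [coe_dg, Matrix.diagonal_apply_eq]
    · intro c _ hc
      rw [coe_dg, Matrix.diagonal_apply_ne _ (Ne.symm hc), zero_mul]
    · intro h
      exact absurd (Finset.mem_univ _) h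
  rw [h1, norm_mul, mul_pow, mul_comm]
  congr 1
  rw [← Complex.exp_sum, Complex.norm_exp, ← Real.exp_nat_mul]
  congr 1
  have h2 : (∑ p, (s : ℂ) * (H.1 (a p) : ℂ)) = ((s * ∑ p, H.1 (a p) : ℝ) : ℂ) := by
    push_cast
    rw [Finset.mul_sum]
  rw [h2, Complex.ofReal_re]
  push_cast
  ring

theorem colE_cont (r : Fin n) (q : ℕ) : Continuous fun g : Gp n => colE g r q := by
  unfold colE
  by_cases h : q < n
  · simp only [dif_pos h]
    exact continuous_subtype_val.matrix_elem _ _
  · simp only [dif_neg h]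
    exact continuous_const

theorem mnr_cont (i : ℕ) (a : Fin i → Fin n) : Continuous fun g : Gp n => mnr i g a := by
  unfold mnr
  refine Continuous.matrix_det ?_
  exact continuous_matrix fun p q => colE_cont _ _

theorem TT_cont (i : ℕ) : Continuous fun g : Gp n => TT i g := by
  unfold TT
  exact (continuous_finsetSum _ fun a _ => (mnr_cont i a).norm.pow 2).div_const _

end Pool.Agent.SG
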