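import Pool.Agent.H.MP_e23cd6_ag.SG.X7R

/-! One-parameter subgroups of `B`. -/

set_option autoImplicit false

open Matrix Topology Filter

namespace Pool.Agent.SG

variable {n : ℕ}

/-- Upper triangular matrices of trace zero. -/
def bb (n : ℕ) : Submodule ℂ (Fin n → Fin n → ℂ) where
  carrier := {ξ | (∀ i j, j < i → ξ i j = 0) ∧ ∑ i, ξ i i = 0}
  add_mem' := by
    rintro a b ⟨ha, ha'⟩ ⟨hb, hb'⟩
    refine ⟨fun i j h => ?_, ?_⟩
    · simp [ha i j h, hb i j h]
    · simp [Finset.sum_add_distrib, ha', hb']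
  zero_mem' := by simp
  smul_mem' := by
    rintro c a ⟨ha, ha'⟩
    refine ⟨fun i j h => ?_, ?_⟩
    · simp [ha i j h]
    · simp [← Finset.mul_sum, ha']

theorem diag_mul_ut {M M' : Matrix (Fin n) (Fin n) ℂ} (hM : M.BlockTriangular id)
    (hM' : M'.BlockTriangular id) (i : Fin n) : (M * M') i i = M i i * M' i i := by
  rw [Matrix.mul_apply, Finset.sum_eq_single i]
  · intro c _ hc
    rcases lt_or_gt_of_ne hc with h | h
    · rw [hM h, zero_mul]
    · rw [hM' h, mul_zero]
  · simp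

theorem diag_pow_ut {M : Matrix (Fin n) (Fin n) ℂ} (hM : M.BlockTriangular id) (k : ℕ) :
    (M ^ k).BlockTriangular id ∧ ∀ i, (M ^ k) i i = M i i ^ k := by
  induction k with
  | zero => exact ⟨by rw [pow_zero]; exact blockTriangular_one, by simp⟩
  | succ k ih =>
    refine ⟨by rw [pow_succ]; exact ih.1.mul hM, fun i => ?_⟩
    rw [pow_succ, pow_succ, diag_mul_ut ih.1 hM, ih.2]

open scoped Matrix.Norms.Operator in
theorem exp_diag_ut {M : Matrix (Fin n) (Fin n) ℂ} (hM : M.BlockTriangular id) (i : Fin n) :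
    (NormedSpace.exp M) i i = Complex.exp (M i i) := by
  have h1 := NormedSpace.exp_series_hasSum_exp' (𝕂 := ℂ) M
  have h2 := h1.map (Matrix.entryAddMonoidHom ℂ i i) (by
    show Continuous fun M : Matrix (Fin n) (Fin n) ℂ => M i i
    exact continuous_id.matrix_elem i i)
  have h3 := NormedSpace.exp_series_hasSum_exp' (𝕂 := ℂ) (M i i)
  have h4 : (⇑(Matrix.entryAddMonoidHom ℂ i i) ∘ fun k : ℕ => ((k.factorial : ℂ)⁻¹) • M ^ k) =
      fun k : ℕ => ((k.factorial : ℂ)⁻¹) • (M i i) ^ k := by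
    funext k
    simp [(diag_pow_ut hM k).2 i]
  rw [h4] at h2
  rw [Complex.exp_eq_exp_ℂ]
  exact h2.unique h3

open scoped Matrix.Norms.Operator in
/-- The one-parameter subgroup with the tangent vector `ξ`. -/
theorem exists_exp {ξ : Fin n → Fin n → ℂ} (hξ : ξ ∈ bb n) : ∃ φ : ℂ → Gp n,
    (∀ z w, φ (z + w) = φ z * φ w) ∧ HolCurve φ ∧ (∀ z, IsB (φ z)) ∧ φ 0 = 1 ∧
      ∀ i j, deriv (fun z => en (φ z) i j) 0 = ξ i j := by
  obtain ⟨M, hMξ⟩ : ∃ M : Matrix (Fin n) (Fin n) ℂ, M = Matrix.of ξ := ⟨_, rfl⟩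
  have hM : M.BlockTriangular id := by
    intro i j h
    rw [hMξ]
    exact hξ.1 i j h
  have htr : ∑ i, M i i = 0 := by
    rw [hMξ]
    exact hξ.2
  have hzM : ∀ z : ℂ, (z • M).BlockTriangular id := by
    intro z i j h
    rw [Matrix.smul_apply, hM h, smul_zero]
  have hdet : ∀ z : ℂ, (NormedSpace.exp (z • M)).det = 1 := by
    intro z
    rw [Matrix.det_of_isUpperTriangular (hzM z).exp]
    rw [Finset.prod_congr rfl fun i _ => exp_diag_ut (hzM z) i, ← Complex.exp_sum]
    simp only [Matrix.smul_apply, smul_eq_mul]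
    rw [← Finset.mul_sum, htr, mul_zero, Complex.exp_zero]
  have hder : ∀ (z : ℂ) (i j : Fin n), HasDerivAt (fun z : ℂ => NormedSpace.exp (z • M) i j)
      ((NormedSpace.exp (z • M) * M) i j) z := by
    intro z i j
    have h1 := hasDerivAt_exp_smul_const (𝕂 := ℂ) M z
    have h2 := (LinearMap.toContinuousLinearMap (Matrix.entryLinearMap ℂ ℂ i j)).hasFDerivAt
      (x := NormedSpace.exp (z • M))
    exact h2.comp_hasDerivAt z h1
  refine ⟨fun z => ⟨NormedSpace.exp (z • M), hdet z⟩, ?_, ?_, ?_, ?_, ?_⟩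
  · intro z w
    apply gp_ext
    rw [coe_gmul]
    show NormedSpace.exp ((z + w) • M) = NormedSpace.exp (z • M) * NormedSpace.exp (w • M)
    rw [add_smul]
    exact Matrix.exp_add_of_commute _ _ (((Commute.refl M).smul_left z).smul_right w)
  · intro i j z
    exact (hder z i j).differentiableAt
  · intro z
    exact fun i j h => (hzM z).exp h
  · apply gp_ext
    show NormedSpace.exp ((0 : ℂ) • M) = 1
    rw [zero_smul, NormedSpace.exp_zero]
  · intro i j
    have h1 := (hder 0 i j).deriv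
    rw [zero_smul, NormedSpace.exp_zero, one_mul] at h1
    show deriv (fun z : ℂ => NormedSpace.exp (z • M) i j) 0 = ξ i j
    rw [h1, hMξ]
    rfl

end Pool.Agent.SG
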