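import Pool.Agent.H.MP_e23cd6_ag.SG.X7E
import Mathlib.LinearAlgebra.Matrix.ToLin

/-! Points fixed by one-parameter subgroups of `B`, in a representation. -/

set_option autoImplicit false

open Matrix Topology Filter Set

namespace Pool.Agent.SG

variable {n : ℕ}

/-- The tangent vector of a curve in `B`. -/
theorem deriv_mem_bb {φ : ℂ → Gp n} (hφ : HolCurve φ) (hB : ∀ z, IsB (φ z)) (h0 : φ 0 = 1) :
    (fun i j => deriv (fun z => en (φ z) i j) 0) ∈ bb n := by
  refine ⟨?_, ?_⟩
  · intro i j h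
    have h1 : (fun z => en (φ z) i j) = fun _ => 0 := funext fun z => hB z i j h
    show deriv (fun z => en (φ z) i j) 0 = 0
    rw [h1, deriv_const]
  · have h1 : HasDerivAt (fun z => ∏ i, en (φ z) i i)
        (∑ i, (∏ j ∈ Finset.univ.erase i, en (φ 0) j j) • deriv (fun z => en (φ z) i i) 0) 0 :=
      HasDerivAt.fun_finsetProd fun i _ => (hφ i i 0).hasDerivAt
    have h2 : (fun z => ∏ i, en (φ z) i i) = fun _ => 1 := by
      funext z
      have h3 : (φ z : Matrix (Fin n) (Fin n) ℂ).det = 1 := (φ z).det_coe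
      rwa [Matrix.det_of_isUpperTriangular (isB_bt (hB z))] at h3
    rw [h2] at h1
    have h4 := h1.unique (hasDerivAt_const (0 : ℂ) (1 : ℂ))
    refine (Finset.sum_congr rfl fun i _ => ?_).trans h4
    have h5 : ∏ j ∈ Finset.univ.erase i, en (φ 0) j j = 1 := by
      refine Finset.prod_eq_one fun j _ => ?_
      rw [h0, en_one]
      exact Matrix.one_apply_eq j
    rw [h5, one_smul]

/-- A one-parameter subgroup with zero derivative at `0` is trivial. -/
theorem curve_const {φ : ℂ → Gp n} (hadd : ∀ z w, φ (z + w) = φ z * φ w) (hφ : HolCurve φ)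
    (h0 : φ 0 = 1) (hd : ∀ i j, deriv (fun z => en (φ z) i j) 0 = 0) (z : ℂ) : φ z = 1 := by
  have h1 : ∀ (i j : Fin n) (z : ℂ), deriv (fun z => en (φ z) i j) z = 0 := by
    intro i j z
    have h2 : (fun w => en (φ w) i j) = fun w => ∑ k, en (φ z) i k * en (φ (w - z)) k j := by
      funext w
      have h3 : φ w = φ z * φ (w - z) := by rw [← hadd, add_sub_cancel]
      show (φ w : Matrix (Fin n) (Fin n) ℂ) i j = _
      rw [h3, coe_gmul, Matrix.mul_apply]
      rfl
    have h4 : HasDerivAt (fun w => ∑ k, en (φ z) i k * en (φ (w - z)) k j)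
        (∑ k, en (φ z) i k * 0) z := by
      refine HasDerivAt.fun_sum fun k _ => HasDerivAt.const_mul _ ?_
      have h5 : HasDerivAt (fun z => en (φ z) k j) 0 (z - z) := by
        have h6 : HasDerivAt (fun z => en (φ z) k j) (deriv (fun z => en (φ z) k j) 0) 0 :=
          (hφ k j 0).hasDerivAt
        rw [hd k j] at h6
        rw [sub_self]
        exact h6
      exact h5.comp_sub_const z z
    rw [h2, h4.deriv]
    simp
  apply gp_ext
  ext i j
  have h2 := is_const_of_deriv_eq_zero (hφ i j) (h1 i j) z 0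
  have h3 : (φ z : Matrix (Fin n) (Fin n) ℂ) i j = (φ 0 : Matrix (Fin n) (Fin n) ℂ) i j := h2
  rw [h3, h0]

namespace Rep

variable {ι : Type} [Fintype ι] [DecidableEq ι] (R : Rep n ι)

/-- Eigenvectors of the derivative are eigenvectors of the one-parameter subgroup. -/
theorem act_of_eigen {φ : ℂ → Gp n} (hadd : ∀ z w, φ (z + w) = φ z * φ w)
    (h0 : φ 0 = 1) {D : ι → ι → ℂ} (hD : ∀ α β, HasDerivAt (fun z => R.ρ (φ z) α β) (D α β) 0)
    {v : ι → ℂ} {c : ℂ} (hv : ∀ α, ∑ β, D α β * v β = c * v α) (z : ℂ) :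
    R.act (φ z) v = Complex.exp (c * z) • v := by
  -- the derivative of `z ↦ φ z v`
  have h1 : ∀ (z : ℂ) (α : ι), HasDerivAt (fun z => R.act (φ z) v α) (c * R.act (φ z) v α) z := by
    intro z α
    have hb : ∀ β, HasDerivAt (fun h => R.act (φ h) v β) (c * v β) 0 := by
      intro β
      rw [← hv β]
      show HasDerivAt (fun h => ∑ γ, R.ρ (φ h) β γ * v γ) _ 0
      exact HasDerivAt.fun_sum fun γ _ => (hD β γ).mul_const _
    have h2 : (fun w => R.act (φ w) v α) = fun w => ∑ β, R.ρ (φ z) α β * R.act (φ (w - z)) v β := by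
      funext w
      have h3 : φ w = φ z * φ (w - z) := by rw [← hadd, add_sub_cancel]
      conv_lhs => rw [h3, R.act_mul]
      rfl
    rw [h2]
    have h4 : c * R.act (φ z) v α = ∑ β, R.ρ (φ z) α β * (c * v β) := by
      show c * ∑ β, R.ρ (φ z) α β * v β = _
      rw [Finset.mul_sum]
      exact Finset.sum_congr rfl fun β _ => by ring
    rw [h4]
    refine HasDerivAt.fun_sum fun β _ => HasDerivAt.const_mul _ ?_
    have h5 : HasDerivAt (fun h => R.act (φ h) v β) (c * v β) (z - z) := by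
      rw [sub_self]
      exact hb β
    exact h5.comp_sub_const z z
  funext α
  have h2 : ∀ z : ℂ, HasDerivAt (fun z => Complex.exp (-(c * z)) * R.act (φ z) v α) 0 z := by
    intro z
    have h3 : HasDerivAt (fun z : ℂ => Complex.exp (-(c * z))) (Complex.exp (-(c * z)) * (-(c * 1))) z :=
      (((hasDerivAt_id z).const_mul c).fun_neg).cexp
    have h4 := h3.fun_mul (h1 z α)
    have h5 : Complex.exp (-(c * z)) * -(c * 1) * R.act (φ z) v α +
        Complex.exp (-(c * z)) * (c * R.act (φ z) v α) = 0 := by ring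
    rwa [h5] at h4
  have h3 := is_const_of_deriv_eq_zero (fun z => (h2 z).differentiableAt) (fun z => (h2 z).deriv)
    z 0
  simp only [mul_zero, neg_zero, Complex.exp_zero, one_mul, h0] at h3
  have h4 : R.act 1 v α = v α := by
    rw [Rep.act, map_one, Matrix.one_mulVec]
  rw [h4] at h3
  rw [Pi.smul_apply, smul_eq_mul, ← h3, ← mul_assoc, ← Complex.exp_add, add_neg_cancel,
    Complex.exp_zero, one_mul]

/-- If the one-parameter subgroup fixes the line of `v` then `v` is an eigenvector of the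
derivative. -/
theorem eigen_of_act {φ : ℂ → Gp n} {D : ι → ι → ℂ}
    (hD : ∀ α β, HasDerivAt (fun z => R.ρ (φ z) α β) (D α β) 0)
    {v : ι → ℂ} (hv : v ≠ 0) (h : ∀ z, ∃ c : ℂ, R.act (φ z) v = c • v) :
    ∃ c : ℂ, ∀ α, ∑ β, D α β * v β = c * v α := by
  obtain ⟨α₀, hα₀⟩ := Function.ne_iff.1 hv
  have hα₀' : v α₀ ≠ 0 := hα₀
  have hb : ∀ β, HasDerivAt (fun h => R.act (φ h) v β) (∑ γ, D β γ * v γ) 0 := by
    intro β
    show HasDerivAt (fun h => ∑ γ, R.ρ (φ h) β γ * v γ) _ 0
    exact HasDerivAt.fun_sum fun γ _ => (hD β γ).mul_const _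
  refine ⟨(∑ γ, D α₀ γ * v γ) / v α₀, fun α => ?_⟩
  have h1 : (fun z => R.act (φ z) v α) = fun z => R.act (φ z) v α₀ / v α₀ * v α := by
    funext z
    obtain ⟨c, hc⟩ := h z
    rw [hc]
    simp only [Pi.smul_apply, smul_eq_mul]
    field_simp
  have h2 := hb α
  rw [h1] at h2
  exact h2.unique (((hb α₀).div_const (v α₀)).mul_const (v α))

/-- `v` is not an eigenvector of any nonzero element of the Lie algebra of `B`. -/
def Gen (D : (Fin n → Fin n → ℂ) →L[ℂ] (ι → ι → ℂ)) (v : ι → ℂ) : Prop :=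
  ∀ ξ ∈ bb n, ∀ c : ℂ, (∀ α, ∑ β, D ξ α β * v β = c * v α) → ξ = 0

end Rep

end Pool.Agent.SG
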