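import Pool.Agent.H.MP_e23cd6_ag.SG.X7F

/-! The vectors which are not eigenvectors of any element of the Lie algebra of `B`: this is the
nonvanishing of a homogeneous polynomial. -/

set_option autoImplicit false

open Matrix Topology Filter Set

namespace Pool.Agent.SG

variable {n : ℕ} {ι : Type} [Fintype ι] [DecidableEq ι]

/-- The determinant of a matrix of linear forms. -/
noncomputable def detP {d : ℕ} (q : Fin d → Fin d → (ι → ℂ) →ₗ[ℂ] ℂ) : MvPolynomial ι ℂ :=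
  Matrix.det (Matrix.of fun k l => ∑ γ, MvPolynomial.C (q k l (Pi.single γ 1)) * MvPolynomial.X γ)

theorem detP_hom {d : ℕ} (q : Fin d → Fin d → (ι → ℂ) →ₗ[ℂ] ℂ) : (detP q).IsHomogeneous d := by
  unfold detP
  rw [Matrix.det_apply']
  refine MvPolynomial.IsHomogeneous.sum _ _ _ fun σ _ => ?_
  have h1 : (((Equiv.Perm.sign σ : ℤˣ) : ℤ) : MvPolynomial ι ℂ) =
      MvPolynomial.C (((Equiv.Perm.sign σ : ℤˣ) : ℤ) : ℂ) :=
    (map_intCast (MvPolynomial.C : ℂ →+* MvPolynomial ι ℂ) _).symm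
  rw [h1]
  refine MvPolynomial.IsHomogeneous.C_mul ?_ _
  have h2 := MvPolynomial.IsHomogeneous.prod Finset.univ
    (fun i => (Matrix.of fun k l => ∑ γ, MvPolynomial.C (q k l (Pi.single γ 1)) *
      (MvPolynomial.X γ : MvPolynomial ι ℂ)) (σ i) i) (fun _ => 1) fun i _ =>
    MvPolynomial.IsHomogeneous.sum _ _ _ fun γ _ => MvPolynomial.isHomogeneous_C_mul_X _ _
  simpa using h2

theorem detP_eval {d : ℕ} (q : Fin d → Fin d → (ι → ℂ) →ₗ[ℂ] ℂ) (v : ι → ℂ) :
    MvPolynomial.eval v (detP q) = Matrix.det (Matrix.of fun k l => q k l v) := by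
  unfold detP
  rw [RingHom.map_det]
  congr 1
  ext k l
  simp only [RingHom.mapMatrix_apply, Matrix.map_apply, Matrix.of_apply, map_sum, map_mul,
    MvPolynomial.eval_C, MvPolynomial.eval_X]
  conv_rhs => rw [← Finset.univ_sum_single v, map_sum]
  refine Finset.sum_congr rfl fun γ _ => ?_
  have h1 : (Pi.single γ (v γ) : ι → ℂ) = v γ • Pi.single γ 1 := by
    rw [← Pi.single_smul, smul_eq_mul, mul_one]
  rw [h1, map_smul, smul_eq_mul, mul_comm]

/-- The equations of an eigenvector. -/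
noncomputable def x7T (D : (Fin n → Fin n → ℂ) →L[ℂ] (ι → ι → ℂ)) :
    (ι → ℂ) →ₗ[ℂ] (bb n × ℂ) →ₗ[ℂ] (ι → ℂ) :=
  LinearMap.mk₂ ℂ (fun v w α => ∑ β, D w.1 α β * v β - w.2 * v α)
    (fun v v' w => by
      funext α
      simp only [Pi.add_apply, mul_add, Finset.sum_add_distrib]
      ring)
    (fun c v w => by
      funext α
      simp only [Pi.smul_apply, smul_eq_mul, mul_sub, Finset.mul_sum]
      congr 1
      · exact Finset.sum_congr rfl fun β _ => by ring
      · ring)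
    (fun v w w' => by
      funext α
      simp only [Prod.fst_add, Prod.snd_add, Submodule.coe_add, map_add, Pi.add_apply, add_mul,
        Finset.sum_add_distrib]
      ring)
    (fun c v w => by
      funext α
      simp only [Prod.smul_fst, Prod.smul_snd, Submodule.coe_smul, map_smul, Pi.smul_apply,
        smul_eq_mul, mul_sub, Finset.mul_sum]
      congr 1
      · exact Finset.sum_congr rfl fun β _ => by ring
      · ring)

omit [DecidableEq ι] in
theorem x7T_apply (D : (Fin n → Fin n → ℂ) →L[ℂ] (ι → ι → ℂ)) (v : ι → ℂ) (w : bb n × ℂ) (α : ι) :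
    x7T D v w α = ∑ β, D w.1 α β * v β - w.2 * v α := rfl

theorem gen_of_inj {D : (Fin n → Fin n → ℂ) →L[ℂ] (ι → ι → ℂ)} {v : ι → ℂ}
    (h : Function.Injective (x7T D v)) : Rep.Gen D v := by
  intro ξ hξ c hc
  have h1 : x7T D v (⟨ξ, hξ⟩, c) = x7T D v 0 := by
    rw [map_zero]
    funext α
    rw [x7T_apply, Pi.zero_apply, hc α, sub_self]
  have h2 := h h1
  exact congrArg Subtype.val (congrArg Prod.fst h2)

theorem inj_of_gen {D : (Fin n → Fin n → ℂ) →L[ℂ] (ι → ι → ℂ)} {v : ι → ℂ} (hv : v ≠ 0)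
    (h : Rep.Gen D v) : LinearMap.ker (x7T D v) = ⊥ := by
  rw [LinearMap.ker_eq_bot']
  rintro ⟨ξ, c⟩ h1
  have h2 : ∀ α, ∑ β, D ξ.1 α β * v β = c * v α := fun α => by
    have h3 := congrFun h1 α
    rw [x7T_apply, Pi.zero_apply] at h3
    exact sub_eq_zero.1 h3
  have h3 : (ξ : Fin n → Fin n → ℂ) = 0 := h ξ.1 ξ.2 c h2
  have h4 : ξ = 0 := Subtype.ext h3
  have h5 : c = 0 := by
    obtain ⟨α, hα⟩ := Function.ne_iff.1 hv
    have h6 := h2 α
    rw [h3, map_zero] at h6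
    simp only [Pi.zero_apply, zero_mul, Finset.sum_const_zero] at h6
    exact (mul_eq_zero.1 h6.symm).resolve_right hα
  rw [h4, h5]
  rfl

/-- The condition `Gen` is open, given by a homogeneous polynomial. -/
theorem exists_genPoly (D : (Fin n → Fin n → ℂ) →L[ℂ] (ι → ι → ℂ)) {v₀ : ι → ℂ} (hv₀ : v₀ ≠ 0)
    (h : Rep.Gen D v₀) : ∃ (d : ℕ) (p : MvPolynomial ι ℂ), p.IsHomogeneous d ∧
      MvPolynomial.eval v₀ p ≠ 0 ∧ ∀ v, MvPolynomial.eval v p ≠ 0 → Rep.Gen D v := by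
  obtain ⟨Λ, hΛ⟩ := LinearMap.exists_leftInverse_of_injective _ (inj_of_gen hv₀ h)
  obtain ⟨b, -⟩ : ∃ b : Module.Basis (Fin (Module.finrank ℂ (bb n × ℂ))) ℂ (bb n × ℂ), True :=
    ⟨Module.finBasis ℂ (bb n × ℂ), trivial⟩
  obtain ⟨q, hq⟩ : ∃ q : Fin (Module.finrank ℂ (bb n × ℂ)) → Fin (Module.finrank ℂ (bb n × ℂ)) →
      (ι → ℂ) →ₗ[ℂ] ℂ, q = fun k l => b.coord k ∘ₗ Λ ∘ₗ (x7T D).flip (b l) := ⟨_, rfl⟩
  have key : ∀ v, MvPolynomial.eval v (detP q) = LinearMap.det (Λ ∘ₗ x7T D v) := by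
    intro v
    rw [detP_eval, ← LinearMap.det_toMatrix b]
    congr 1
    ext k l
    rw [LinearMap.toMatrix_apply, hq]
    rfl
  refine ⟨_, detP q, detP_hom q, ?_, ?_⟩
  · rw [key, hΛ, LinearMap.det_id]
    exact one_ne_zero
  · intro v hv
    rw [key] at hv
    have h1 : Function.Injective (Λ ∘ₗ x7T D v) :=
      (LinearMap.equivOfDetNeZero _ hv).injective
    exact gen_of_inj fun x y hxy => h1 (by
      show Λ (x7T D v x) = Λ (x7T D v y)
      rw [hxy])

end Pool.Agent.SG
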