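import Pool.Agent.H.MP_e23cd6_ag.SG.Root
import Pool.Agent.H.MP_e23cd6_ag.SG.Iw

/-! A representation is the restriction of a function which is complex differentiable at `1` to the
group `B`. -/

set_option autoImplicit false

open Matrix Topology Filter

namespace Pool.Agent.SG

variable {n : ℕ}

/-- The unit matrix as a function. -/
def one0 (n : ℕ) : Fin n → Fin n → ℂ := fun i j => (1 : Matrix (Fin n) (Fin n) ℂ) i j

/-- The entries of a matrix. -/
def en (g : Gp n) : Fin n → Fin n → ℂ := fun i j => (g : Matrix (Fin n) (Fin n) ℂ) i j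

theorem en_one : en (1 : Gp n) = one0 n := rfl

theorem isB_uu {i j : Fin n} (h : i < j) (z : ℂ) : IsB (uu i j h.ne z) := by
  intro k l hkl
  rw [coe_uu, Matrix.add_apply, Matrix.one_apply_ne hkl.ne', single_apply]
  rw [if_neg, add_zero]
  rintro ⟨rfl, rfl⟩
  exact lt_asymm h hkl

theorem uu_mul_apply {i j : Fin n} (h : i ≠ j) (z : ℂ) (b : Gp n) (k l : Fin n) :
    ((uu i j h z * b : Gp n) : Matrix (Fin n) (Fin n) ℂ) k l =
      if k = i then (b : Matrix (Fin n) (Fin n) ℂ) k l + z * (b : Matrix (Fin n) (Fin n) ℂ) j l
        else (b : Matrix (Fin n) (Fin n) ℂ) k l := by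
  rw [coe_gmul, coe_uu, Matrix.add_mul, one_mul, Matrix.add_apply]
  by_cases hk : k = i
  · subst hk
    rw [if_pos rfl, single_mul_apply_same]
  · rw [if_neg hk, single_mul_apply_of_ne _ _ _ _ _ hk, add_zero]

namespace Rep

variable {ι : Type} [Fintype ι] [DecidableEq ι] (R : Rep n ι)

/-- Induction: the statement for the matrices in `B` whose first entries vanish. -/
theorem x7_step (k : ℕ) : ∀ m : ℕ, m + k = n * n →
    ∃ F : (Fin n → Fin n → ℂ) → ι → ι → ℂ, DifferentiableAt ℂ F (one0 n) ∧
      ∀ b : Gp n, IsB b → (∀ i j, i < j → (finProdFinEquiv (i, j) : Fin (n * n)).1 < m →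
        (b : Matrix (Fin n) (Fin n) ℂ) i j = 0) → ∀ α β, F (en b) α β = R.ρ b α β := by
  have hpr : ∀ i j, Differentiable ℂ fun c : Fin n → Fin n → ℂ => c i j := fun i j => by fun_prop
  induction k with
  | zero =>
    intro m hm
    refine ⟨fun c α β => if α = β then ∏ j, c j j ^ R.wt α j else 0, ?_, ?_⟩
    · refine differentiableAt_pi.2 fun α => differentiableAt_pi.2 fun β => ?_
      by_cases h : α = β
      · simp only [if_pos h]
        refine (HasFDerivAt.finsetProd (u := Finset.univ)
          (g := fun j (c : Fin n → Fin n → ℂ) => c j j ^ R.wt α j) fun j _ =>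
          DifferentiableAt.hasFDerivAt ?_).differentiableAt
        refine (hpr j j (one0 n)).zpow (Or.inl ?_)
        simp [one0]
      · simp only [if_neg h]
        exact differentiableAt_const _
    · intro b hb hz α β
      have hd : (b : Matrix (Fin n) (Fin n) ℂ) =
          Matrix.diagonal fun j => (b : Matrix (Fin n) (Fin n) ℂ) j j := by
        ext i j
        rcases lt_trichotomy i j with h | h | h
        · rw [Matrix.diagonal_apply_ne _ h.ne]
          exact hz i j h (by have := (finProdFinEquiv (i, j) : Fin (n * n)).2; omega)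
        · subst h
          rw [Matrix.diagonal_apply_eq]
        · rw [Matrix.diagonal_apply_ne _ h.ne']
          exact hb i j h
      have hdet : ∏ j, (b : Matrix (Fin n) (Fin n) ℂ) j j = 1 := by
        have h1 : (b : Matrix (Fin n) (Fin n) ℂ).det = 1 := b.det_coe
        rwa [Matrix.det_of_isUpperTriangular (isB_bt hb)] at h1
      have hbd : b = dgT (fun j => (b : Matrix (Fin n) (Fin n) ℂ) j j) hdet := gp_ext hd
      have h2 : R.ρ b = Matrix.diagonal fun α => ∏ j, (b : Matrix (Fin n) (Fin n) ℂ) j j ^ R.wt α j := by
        conv_lhs => rw [hbd]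
        exact R.diag _ hdet
      rw [h2, Matrix.diagonal_apply]
      rfl
  | succ k ih =>
    intro m hm
    obtain ⟨F, hF, hFb⟩ := ih (m + 1) (by omega)
    have hmn : m < n * n := by omega
    obtain ⟨⟨i, j⟩, hij⟩ := finProdFinEquiv.surjective (⟨m, hmn⟩ : Fin (n * n))
    have hijm : (finProdFinEquiv (i, j) : Fin (n * n)).1 = m := by rw [hij]
    by_cases hlt : i < j
    · obtain ⟨T, hT⟩ : ∃ T : (Fin n → Fin n → ℂ) → Fin n → Fin n → ℂ, T = fun c k l =>
          if k = i then c k l + -(c i j / c j j) * c j l else c k l := ⟨_, rfl⟩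
      have hT1 : T (one0 n) = one0 n := by
        rw [hT]
        funext k l
        by_cases hk : k = i
        · have h0 : one0 n i j = 0 := Matrix.one_apply_ne hlt.ne
          simp [hk, h0]
        · simp [hk]
      have hq : DifferentiableAt ℂ (fun c : Fin n → Fin n → ℂ => c i j / c j j) (one0 n) := by
        simp only [div_eq_mul_inv]
        refine (hpr i j (one0 n)).fun_mul ((hpr j j (one0 n)).fun_inv ?_)
        simp [one0]
      have hTd : DifferentiableAt ℂ T (one0 n) := by
        rw [hT]
        refine differentiableAt_pi.2 fun k => differentiableAt_pi.2 fun l => ?_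
        by_cases hk : k = i
        · simp only [if_pos hk]
          exact DifferentiableAt.fun_add (by fun_prop) (DifferentiableAt.fun_mul hq.fun_neg (by fun_prop))
        · simp only [if_neg hk]
          fun_prop
      refine ⟨fun c α β => ∑ γ, R.ρ (uu i j hlt.ne (c i j / c j j)) α γ * F (T c) γ β, ?_, ?_⟩
      · refine differentiableAt_pi.2 fun α => differentiableAt_pi.2 fun β => ?_
        refine DifferentiableAt.fun_sum fun γ _ => DifferentiableAt.fun_mul ?_ ?_
        · exact DifferentiableAt.comp (g := fun z => R.ρ (uu i j hlt.ne z) α γ) (one0 n)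
            (R.differentiable_uu i j hlt.ne α γ _) hq
        · have h1 : DifferentiableAt ℂ (fun c => F (T c)) (one0 n) :=
            DifferentiableAt.comp (g := F) (one0 n) (by rw [hT1]; exact hF) hTd
          exact differentiableAt_pi.1 (differentiableAt_pi.1 h1 γ) β
      · intro b hb hz α β
        obtain ⟨q, hq⟩ : ∃ q : ℂ, q = en b i j / en b j j := ⟨_, rfl⟩
        have hjj : en b j j ≠ 0 := isB_diag_ne hb j
        have hTb : T (en b) = en (uu i j hlt.ne (-q) * b) := by
          rw [hT]
          funext k l
          show _ = ((uu i j hlt.ne (-q) * b : Gp n) : Matrix (Fin n) (Fin n) ℂ) k l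
          rw [uu_mul_apply, hq]
          rfl
        have hb' : IsB (uu i j hlt.ne (-q) * b) := isB_mul (isB_uu hlt _) hb
        have h1 := hFb _ hb' (by
          intro i' j' hlt' hm'
          rw [uu_mul_apply]
          by_cases hi' : i' = i
          · subst hi'
            rw [if_pos rfl]
            have hle : j' ≤ j := by
              have e1 : (finProdFinEquiv (i', j') : Fin (n * n)).1 = j'.1 + n * i'.1 := rfl
              have e2 : (finProdFinEquiv (i', j) : Fin (n * n)).1 = j.1 + n * i'.1 := rfl
              rw [Fin.le_def]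
              omega
            rcases hle.lt_or_eq with h | h
            · have h2 : (b : Matrix (Fin n) (Fin n) ℂ) j j' = 0 := hb j j' h
              rw [h2, mul_zero, add_zero]
              refine hz i' j' hlt' ?_
              have e1 : (finProdFinEquiv (i', j') : Fin (n * n)).1 = j'.1 + n * i'.1 := rfl
              have e2 : (finProdFinEquiv (i', j) : Fin (n * n)).1 = j.1 + n * i'.1 := rfl
              rw [Fin.lt_def] at h
              omega
            · subst h
              have h2 : -q * (b : Matrix (Fin n) (Fin n) ℂ) j' j' =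
                  -(b : Matrix (Fin n) (Fin n) ℂ) i' j' := by
                rw [hq]
                have h3 : (b : Matrix (Fin n) (Fin n) ℂ) j' j' = en b j' j' := rfl
                have h4 : (b : Matrix (Fin n) (Fin n) ℂ) i' j' = en b i' j' := rfl
                rw [h3, h4]
                field_simp
              rw [h2, add_neg_cancel]
          · rw [if_neg hi']
            refine hz i' j' hlt' ?_
            have hne : (finProdFinEquiv (i', j') : Fin (n * n)).1 ≠ m := by
              intro h2
              have h3 : finProdFinEquiv (i', j') = finProdFinEquiv (i, j) := by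
                apply Fin.ext
                rw [h2, hijm]
              have h4 := finProdFinEquiv.injective h3
              exact hi' (congrArg Prod.fst h4)
            omega)
        show ∑ γ, R.ρ (uu i j hlt.ne (en b i j / en b j j)) α γ * F (T (en b)) γ β = R.ρ b α β
        rw [hTb, ← hq]
        have h5 : b = uu i j hlt.ne q * (uu i j hlt.ne (-q) * b) := by
          rw [← mul_assoc, ← uu_add, add_neg_cancel, uu_zero, one_mul]
        conv_rhs => rw [h5, map_mul, Matrix.mul_apply]
        exact Finset.sum_congr rfl fun γ _ => by rw [h1]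
    · refine ⟨F, hF, fun b hb hz => hFb b hb ?_⟩
      intro i' j' hlt' hm'
      refine hz i' j' hlt' ?_
      have hne : (finProdFinEquiv (i', j') : Fin (n * n)).1 ≠ m := by
        intro h2
        have h3 : finProdFinEquiv (i', j') = finProdFinEquiv (i, j) := by
          apply Fin.ext
          rw [h2, hijm]
        have h4 := finProdFinEquiv.injective h3
        apply hlt
        have h5 : i' = i := congrArg Prod.fst h4
        have h6 : j' = j := congrArg Prod.snd h4
        rwa [← h5, ← h6]
      omega

/-- A representation is the restriction to `B` of a function which is differentiable at `1`. -/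
theorem exists_F : ∃ F : (Fin n → Fin n → ℂ) → ι → ι → ℂ, DifferentiableAt ℂ F (one0 n) ∧
    ∀ b : Gp n, IsB b → ∀ α β, F (en b) α β = R.ρ b α β := by
  obtain ⟨F, hF, hFb⟩ := R.x7_step (n * n) 0 (by omega)
  exact ⟨F, hF, fun b hb => hFb b hb fun i j _ h => absurd h (by omega)⟩

/-- The derivative of a representation along curves in `B`. -/
theorem exists_D : ∃ D : (Fin n → Fin n → ℂ) →L[ℂ] (ι → ι → ℂ), ∀ φ : ℂ → Gp n, HolCurve φ →
    (∀ z, IsB (φ z)) → φ 0 = 1 → ∀ α β,
      HasDerivAt (fun z => R.ρ (φ z) α β) (D (fun i j => deriv (fun z => en (φ z) i j) 0) α β) 0 := by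
  obtain ⟨F, hF, hFb⟩ := R.exists_F
  refine ⟨fderiv ℂ F (one0 n), ?_⟩
  intro φ hφ hB h0 α β
  have h1 : HasDerivAt (fun z => en (φ z)) (fun i j => deriv (fun z => en (φ z) i j) 0) 0 := by
    refine hasDerivAt_pi.2 fun i => hasDerivAt_pi.2 fun j => ?_
    exact (hφ i j 0).hasDerivAt
  have h2 : HasFDerivAt F (fderiv ℂ F (one0 n)) (en (φ 0)) := by
    rw [h0, en_one]
    exact hF.hasFDerivAt
  have h3 := h2.comp_hasDerivAt (0 : ℂ) h1
  have h4 := hasDerivAt_pi.1 (hasDerivAt_pi.1 h3 α) β
  have h5 : (fun z => (F ∘ fun z => en (φ z)) z α β) = fun z => R.ρ (φ z) α β :=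
    funext fun z => hFb _ (hB z) α β
  rw [h5] at h4
  exact h4

end Rep

end Pool.Agent.SG
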