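import Mathlib

/-!
# Simultaneous diagonalisation of a commuting family of matrices which is closed under the adjoint
-/

set_option autoImplicit false

namespace Pool.Agent.SG

open Matrix Module Module.End

variable {ι κ : Type} [Fintype ι] [DecidableEq ι]

theorem xdiag_basis (T : κ → EuclideanSpace ℂ ι →ₗ[ℂ] EuclideanSpace ℂ ι)
    (hT : ∀ a, (T a).IsSymmetric) (hc : ∀ a b, Commute (T a) (T b)) :
    ∃ b : OrthonormalBasis ι ℂ (EuclideanSpace ℂ ι), ∀ a j, ∃ d : ℂ, T a (b j) = d • b j := by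
  classical
  set F : (κ → ℂ) → Submodule ℂ (EuclideanSpace ℂ ι) := fun χ => ⨅ i, eigenspace (T i) (χ i)
    with hF
  have hsup : ⨆ χ, F χ = ⊤ := LinearMap.IsSymmetric.iSup_iInf_eq_top_of_commute hT
    fun a b _ => hc a b
  have horth : OrthogonalFamily ℂ (fun χ => F χ) fun χ => (F χ).subtypeₗᵢ :=
    LinearMap.IsSymmetric.orthogonalFamily_iInf_eigenspaces hT
  have hfin : {χ | F χ ≠ ⊥}.Finite := Submodule.finite_ne_bot_of_iSupIndep horth.independent
  have hft : Fintype {χ // F χ ≠ ⊥} := hfin.fintype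
  have horth' : OrthogonalFamily ℂ (fun χ : {χ // F χ ≠ ⊥} => F χ)
      fun χ => (F χ).subtypeₗᵢ := horth.comp Subtype.val_injective
  have hsup' : ⨆ χ : {χ // F χ ≠ ⊥}, F χ = ⊤ := by
    rw [iSup_ne_bot_subtype, hsup]
  have hint : DirectSum.IsInternal (fun χ : {χ // F χ ≠ ⊥} => F χ) := by
    rw [horth'.isInternal_iff, hsup', Submodule.top_orthogonal_eq_bot]
  have hn : finrank ℂ (EuclideanSpace ℂ ι) = Fintype.card ι := finrank_euclideanSpace
  refine ⟨(hint.subordinateOrthonormalBasis hn horth').reindex (Fintype.equivFin ι).symm, ?_⟩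
  intro a j
  have h1 := hint.subordinateOrthonormalBasis_subordinate hn (Fintype.equivFin ι j) horth'
  have h2 := mem_eigenspace_iff.1 ((Submodule.mem_iInf _).1 h1 a)
  rw [OrthonormalBasis.reindex_apply, Equiv.symm_symm]
  exact ⟨_, h2⟩

/-- a commuting family of matrices, closed under the adjoint, can be diagonalised by a unitary
matrix -/
theorem xdiag (M : κ → Matrix ι ι ℂ) (hc : ∀ a b, M a * M b = M b * M a)
    (hs : ∀ a, ∃ b, (M a)ᴴ = M b) :
    ∃ U : Matrix ι ι ℂ, Uᴴ * U = 1 ∧ U * Uᴴ = 1 ∧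
      ∀ a, ∃ d : ι → ℂ, Uᴴ * M a * U = Matrix.diagonal d := by
  classical
  let N : κ × Bool → Matrix ι ι ℂ := fun x =>
    if x.2 then M x.1 + (M x.1)ᴴ else Complex.I • (M x.1 - (M x.1)ᴴ)
  have hNh : ∀ x, (N x).IsHermitian := by
    rintro ⟨a, b⟩
    cases b
    · show (Complex.I • (M a - (M a)ᴴ))ᴴ = Complex.I • (M a - (M a)ᴴ)
      rw [conjTranspose_smul, conjTranspose_sub, conjTranspose_conjTranspose]
      simp only [RCLike.star_def, Complex.conj_I, neg_smul, ← smul_neg, neg_sub]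
    · show (M a + (M a)ᴴ)ᴴ = M a + (M a)ᴴ
      rw [conjTranspose_add, conjTranspose_conjTranspose, add_comm]
  have hall : ∀ a b, Commute (M a) (M b) := hc
  have hst : ∀ a b, Commute (M a) (M b)ᴴ := fun a b => by
    obtain ⟨c, hc'⟩ := hs b
    rw [hc']
    exact hall a c
  have hst' : ∀ a b, Commute (M a)ᴴ (M b) := fun a b => (hst b a).symm
  have hss : ∀ a b, Commute (M a)ᴴ (M b)ᴴ := fun a b => by
    obtain ⟨c, hc'⟩ := hs b
    rw [hc']
    exact hst' a c
  have hNc : ∀ x y, Commute (N x) (N y) := by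
    rintro ⟨a, b⟩ ⟨a', b'⟩
    have e1 : ∀ X : Matrix ι ι ℂ, Commute (M a) X → Commute (M a)ᴴ X → Commute (N (a, b)) X := by
      intro X h1 h2
      cases b
      · exact (h1.sub_left h2).smul_left _
      · exact h1.add_left h2
    refine e1 _ ?_ ?_
    · cases b'
      · exact ((hall a a').sub_right (hst a a')).smul_right _
      · exact (hall a a').add_right (hst a a')
    · cases b'
      · exact ((hst' a a').sub_right (hss a a')).smul_right _
      · exact (hst' a a').add_right (hss a a')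
  obtain ⟨b, hb⟩ := xdiag_basis (fun x => Matrix.toEuclideanLin (N x))
    (fun x => Matrix.isHermitian_iff_isSymmetric.1 (hNh x)) (fun x y => by
      refine LinearMap.ext fun v => ?_
      have h1 := hNc x y
      show Matrix.toEuclideanLin (N x) (Matrix.toEuclideanLin (N y) v) =
        Matrix.toEuclideanLin (N y) (Matrix.toEuclideanLin (N x) v)
      apply (WithLp.linearEquiv 2 ℂ (ι → ℂ)).injective
      show (N x) *ᵥ ((N y) *ᵥ (WithLp.ofLp v)) = (N y) *ᵥ ((N x) *ᵥ (WithLp.ofLp v))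
      rw [Matrix.mulVec_mulVec, Matrix.mulVec_mulVec, h1.eq])
  have hb' : ∀ a j, ∃ d : ℂ, (M a) *ᵥ (WithLp.ofLp (b j)) = d • WithLp.ofLp (b j) := by
    intro a j
    obtain ⟨x, hx⟩ := hb (a, true) j
    obtain ⟨y, hy⟩ := hb (a, false) j
    have hx' : (M a + (M a)ᴴ) *ᵥ (WithLp.ofLp (b j)) = x • WithLp.ofLp (b j) :=
      congrArg WithLp.ofLp hx
    have hy' : (Complex.I • (M a - (M a)ᴴ)) *ᵥ (WithLp.ofLp (b j)) = y • WithLp.ofLp (b j) :=
      congrArg WithLp.ofLp hy
    refine ⟨(1 / 2) * (x - Complex.I * y), ?_⟩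
    have h1 : M a = (1 / 2 : ℂ) • ((M a + (M a)ᴴ) - Complex.I • (Complex.I • (M a - (M a)ᴴ))) := by
      rw [smul_smul, Complex.I_mul_I, neg_smul, one_smul, sub_neg_eq_add, add_add_sub_cancel,
        ← two_smul ℂ (M a), smul_smul]
      norm_num
    rw [h1, Matrix.smul_mulVec, Matrix.sub_mulVec, hx', Matrix.smul_mulVec, hy', smul_smul,
      ← sub_smul, smul_smul]
  let U : Matrix ι ι ℂ := Matrix.of fun i j => b j i
  have hU : Uᴴ * U = 1 := by
    ext i j
    rw [Matrix.mul_apply, Matrix.one_apply]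
    have h1 := orthonormal_iff_ite.1 b.orthonormal i j
    rw [← h1, PiLp.inner_apply]
    refine Finset.sum_congr rfl fun k _ => ?_
    simp only [U, conjTranspose_apply, Matrix.of_apply, RCLike.inner_apply, RCLike.star_def]
    ring
  refine ⟨U, hU, mul_eq_one_comm.1 hU, fun a => ?_⟩
  choose d hd using hb' a
  refine ⟨d, ?_⟩
  have h2 : M a * U = U * Matrix.diagonal d := by
    ext i j
    rw [Matrix.mul_diagonal]
    have h3 := congrFun (hd j) i
    rw [Pi.smul_apply, smul_eq_mul, mul_comm] at h3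
    exact h3
  rw [mul_assoc, h2, ← mul_assoc, hU, one_mul]

end Pool.Agent.SG
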