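import Pool.Agent.H.MP_e23cd6_ag.SG.XDiag
import Pool.Agent.H.MP_e23cd6_ag.SG.Haar
import Pool.Agent.H.MP_e23cd6_ag.SG.Inv0
import Pool.Agent.H.MP_e23cd6_ag.SG.Wt

/-!
# Every continuous homomorphism from `SL_n(ℂ)` to matrices which is holomorphic along holomorphic
curves is conjugate to a `Rep`
-/

set_option autoImplicit false

namespace Pool.Agent.SG

open Matrix MeasureTheory Topology Filter Set
open scoped ComplexOrder

variable {n : ℕ} {ι : Type} [Fintype ι] [DecidableEq ι]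

/-! ## Part A: unitarity -/

section A
variable (ρ : Gp n →* Matrix ι ι ℂ) (hc : Continuous ρ)

/-- the averaged Hermitian form -/
noncomputable def xav (ρ : Gp n →* Matrix ι ι ℂ) : Matrix ι ι ℂ :=
  Matrix.of fun i j => ∫ k : SU n, ((ρ (k : Gp n)⁻¹)ᴴ * ρ (k : Gp n)⁻¹) i j ∂(hμ n)

include hc in
theorem xav_cont : Continuous fun k : SU n => (ρ (k : Gp n)⁻¹)ᴴ * ρ (k : Gp n)⁻¹ := by
  have h1 : Continuous fun k : SU n => ρ (k : Gp n)⁻¹ :=
    hc.comp (continuous_subtype_val.inv)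
  exact h1.matrix_conjTranspose.matrix_mul h1

include hc in
theorem xav_entry (i j : ι) :
    Integrable (fun k : SU n => ((ρ (k : Gp n)⁻¹)ᴴ * ρ (k : Gp n)⁻¹) i j) (hμ n) :=
  integrable_SU ((xav_cont ρ hc).matrix_elem i j)

include hc in
/-- linear maps commute with the average -/
theorem xav_mul (A B : Matrix ι ι ℂ) : A * xav ρ * B =
    Matrix.of fun i j => ∫ k : SU n, (A * ((ρ (k : Gp n)⁻¹)ᴴ * ρ (k : Gp n)⁻¹) * B) i j ∂(hμ n) := by
  ext i j
  rw [Matrix.of_apply]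
  have h1 : ∀ k : SU n, (A * ((ρ (k : Gp n)⁻¹)ᴴ * ρ (k : Gp n)⁻¹) * B) i j =
      ∑ l, ∑ m, A i m * ((ρ (k : Gp n)⁻¹)ᴴ * ρ (k : Gp n)⁻¹) m l * B l j := fun k => by
    rw [Matrix.mul_apply]
    refine Finset.sum_congr rfl fun l _ => ?_
    rw [Matrix.mul_apply, Finset.sum_mul]
  simp only [h1]
  rw [integral_finsetSum _ fun l _ => integrable_finsetSum _ fun m _ =>
    ((xav_entry ρ hc m l).const_mul _).mul_const _, Matrix.mul_apply]
  refine Finset.sum_congr rfl fun l _ => ?_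
  rw [integral_finsetSum _ fun m _ => ((xav_entry ρ hc m l).const_mul _).mul_const _,
    Matrix.mul_apply, Finset.sum_mul]
  refine Finset.sum_congr rfl fun m _ => ?_
  rw [integral_mul_const, integral_const_mul]
  rfl

include hc in
theorem xav_inv {h : Gp n} (hh : h ∈ SU n) : (ρ h)ᴴ * xav ρ * ρ h = xav ρ := by
  rw [xav_mul ρ hc]
  ext i j
  rw [Matrix.of_apply]
  have h1 : ∀ k : SU n, ((ρ h)ᴴ * ((ρ (k : Gp n)⁻¹)ᴴ * ρ (k : Gp n)⁻¹) * ρ h) i j =
      (fun k : SU n => ((ρ (k : Gp n)⁻¹)ᴴ * ρ (k : Gp n)⁻¹) i j) ((⟨h, hh⟩ : SU n)⁻¹ * k) := by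
    intro k
    show _ = ((ρ (((⟨h, hh⟩ : SU n)⁻¹ * k : SU n) : Gp n)⁻¹)ᴴ *
      ρ (((⟨h, hh⟩ : SU n)⁻¹ * k : SU n) : Gp n)⁻¹) i j
    have h2 : (((⟨h, hh⟩ : SU n)⁻¹ * k : SU n) : Gp n)⁻¹ = (k : Gp n)⁻¹ * h := by
      rw [Subgroup.coe_mul, Subgroup.coe_inv, _root_.mul_inv_rev, inv_inv]
    rw [h2, map_mul, conjTranspose_mul]
    simp only [mul_assoc]
  exact (integral_congr_ae (Eventually.of_forall h1)).trans (integral_mul_left_eq_self
    (μ := hμ n) (fun k : SU n => ((ρ (k : Gp n)⁻¹)ᴴ * ρ (k : Gp n)⁻¹) i j)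
    ((⟨h, hh⟩ : SU n)⁻¹))

include hc in
theorem xav_herm : (xav ρ).IsHermitian := by
  ext i j
  rw [conjTranspose_apply]
  show star (∫ k : SU n, ((ρ (k : Gp n)⁻¹)ᴴ * ρ (k : Gp n)⁻¹) j i ∂(hμ n)) =
    ∫ k : SU n, ((ρ (k : Gp n)⁻¹)ᴴ * ρ (k : Gp n)⁻¹) i j ∂(hμ n)
  rw [RCLike.star_def, ← integral_conj]
  refine integral_congr_ae (Eventually.of_forall fun k => ?_)
  show star (((ρ (k : Gp n)⁻¹)ᴴ * ρ (k : Gp n)⁻¹) j i) = _
  rw [← conjTranspose_apply, (isHermitian_conjTranspose_mul_self _).eq]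

include hc in
theorem xav_posDef : (xav ρ).PosDef := by
  refine Matrix.PosDef.of_dotProduct_mulVec_pos (xav_herm ρ hc) fun v hv => ?_
  obtain ⟨i₀, hi₀⟩ := Function.ne_iff.1 hv
  have key : ∀ X : Matrix ι ι ℂ, star v ⬝ᵥ (X *ᵥ v) =
      ((Matrix.of fun _ m => star (v m)) * X * (Matrix.of fun l _ => v l)) i₀ i₀ := by
    intro X
    rw [mul_assoc, Matrix.mul_apply]
    rfl
  have key2 : ∀ M : Matrix ι ι ℂ, star v ⬝ᵥ ((Mᴴ * M) *ᵥ v) = ((ns (M *ᵥ v) : ℝ) : ℂ) := by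
    intro M
    rw [← Matrix.mulVec_mulVec, Matrix.dotProduct_mulVec, ← Matrix.star_mulVec]
    unfold dotProduct ns
    rw [Complex.ofReal_sum]
    refine Finset.sum_congr rfl fun k _ => ?_
    rw [Pi.star_apply, RCLike.star_def, ← Complex.normSq_eq_conj_mul_self,
      Complex.normSq_eq_norm_sq]
  rw [key, xav_mul ρ hc, Matrix.of_apply]
  have h1 : ∀ k : SU n, ((Matrix.of fun _ m => star (v m)) *
      ((ρ (k : Gp n)⁻¹)ᴴ * ρ (k : Gp n)⁻¹) * (Matrix.of fun l _ => v l)) i₀ i₀ =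
      ((ns (ρ (k : Gp n)⁻¹ *ᵥ v) : ℝ) : ℂ) := fun k => by
    rw [← key, key2]
  simp only [h1]
  rw [integral_complex_ofReal]
  have hcont : Continuous fun k : SU n => ns (ρ (k : Gp n)⁻¹ *ᵥ v) := by
    have h2 : Continuous fun k : SU n => ρ (k : Gp n)⁻¹ := hc.comp (continuous_subtype_val.inv)
    have h3 : Continuous fun k : SU n => ρ (k : Gp n)⁻¹ *ᵥ v :=
      h2.matrix_mulVec continuous_const
    unfold ns
    exact continuous_finsetSum _ fun i _ => ((continuous_apply i).comp h3).norm.pow 2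
  have hpos : ∀ k : SU n, 0 < ns (ρ (k : Gp n)⁻¹ *ᵥ v) := by
    intro k
    have h2 : 0 ≤ ns (ρ (k : Gp n)⁻¹ *ᵥ v) := Finset.sum_nonneg fun _ _ => sq_nonneg _
    refine lt_of_le_of_ne h2 fun h3 => hv ?_
    have h4 : ρ (k : Gp n)⁻¹ *ᵥ v = 0 := by
      funext i
      have h5 := (Finset.sum_eq_zero_iff_of_nonneg fun i _ => sq_nonneg _).1 h3.symm i
        (Finset.mem_univ i)
      simpa using h5
    have h5 : ρ (k : Gp n) *ᵥ (ρ (k : Gp n)⁻¹ *ᵥ v) = v := by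
      rw [Matrix.mulVec_mulVec, ← map_mul, mul_inv_cancel, map_one, Matrix.one_mulVec]
    rw [← h5, h4, Matrix.mulVec_zero]
  have hint : Integrable (fun k : SU n => ns (ρ (k : Gp n)⁻¹ *ᵥ v)) (hμ n) :=
    hcont.integrable_of_hasCompactSupport (HasCompactSupport.of_compactSpace _)
  have h6 : 0 < ∫ k : SU n, ns (ρ (k : Gp n)⁻¹ *ᵥ v) ∂(hμ n) := by
    rw [integral_pos_iff_support_of_nonneg (fun k => (hpos k).le) hint]
    have h7 : Function.support (fun k : SU n => ns (ρ (k : Gp n)⁻¹ *ᵥ v)) = Set.univ :=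
      Set.eq_univ_of_forall fun k => (hpos k).ne'
    rw [h7, measure_univ]
    exact one_pos
  exact_mod_cast h6

end A

/-! ## Part B: the adjoint -/

theorem xsq {A : Matrix ι ι ℂ} (hA : A.PosDef) : ∃ B Bi : Matrix ι ι ℂ, A = Bᴴ * B ∧
    B * Bi = 1 ∧ Bi * B = 1 := by
  obtain ⟨B, hB⟩ : ∃ B : Matrix ι ι ℂ, A = Bᴴ * B := by
    have hH : A.IsHermitian := hA.isHermitian
    have hs := hH.spectral_theorem
    rw [Unitary.conjStarAlgAut_apply] at hs
    refine ⟨Matrix.diagonal (fun i => ((Real.sqrt (hH.eigenvalues i) : ℝ) : ℂ)) *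
      (hH.eigenvectorUnitary : Matrix ι ι ℂ)ᴴ, ?_⟩
    rw [conjTranspose_mul, conjTranspose_conjTranspose, Matrix.diagonal_conjTranspose]
    have h1 : Matrix.diagonal (star fun i => ((Real.sqrt (hH.eigenvalues i) : ℝ) : ℂ)) *
        Matrix.diagonal (fun i => ((Real.sqrt (hH.eigenvalues i) : ℝ) : ℂ)) =
        Matrix.diagonal (fun i => ((hH.eigenvalues i : ℝ) : ℂ)) := by
      rw [Matrix.diagonal_mul_diagonal]
      congr 1
      funext i
      have h2 : (0 : ℝ) ≤ hH.eigenvalues i := (hA.eigenvalues_pos i).le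
      show (starRingEnd ℂ) ((Real.sqrt (hH.eigenvalues i) : ℝ) : ℂ) *
        ((Real.sqrt (hH.eigenvalues i) : ℝ) : ℂ) = _
      rw [Complex.conj_ofReal, ← Complex.ofReal_mul, Real.mul_self_sqrt h2]
    rw [mul_assoc, ← mul_assoc (Matrix.diagonal (star _)), h1, ← mul_assoc]
    exact hs
  have hu : IsUnit A.det := (Matrix.isUnit_iff_isUnit_det _).1 hA.isUnit
  have hu' : IsUnit B.det := by
    rw [hB, Matrix.det_mul] at hu
    exact isUnit_of_mul_isUnit_right hu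
  exact ⟨B, B⁻¹, hB, Matrix.mul_nonsing_inv _ hu', Matrix.nonsing_inv_mul _ hu'⟩

/-- conjugation of a homomorphism -/
noncomputable def xconj (ρ : Gp n →* Matrix ι ι ℂ) (B Bi : Matrix ι ι ℂ) (h : Bi * B = 1)
    (h' : B * Bi = 1) : Gp n →* Matrix ι ι ℂ where
  toFun g := B * ρ g * Bi
  map_one' := by rw [map_one, mul_one, h']
  map_mul' g g' := by
    rw [map_mul]
    calc B * (ρ g * ρ g') * Bi = B * ρ g * 1 * ρ g' * Bi := by simp only [mul_assoc, one_mul]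
      _ = B * ρ g * (Bi * B) * ρ g' * Bi := by rw [h]
      _ = B * ρ g * Bi * (B * ρ g' * Bi) := by simp only [mul_assoc]

/-- a homomorphism is holomorphic along holomorphic curves -/
def XHol (ρ : Gp n →* Matrix ι ι ℂ) : Prop :=
  ∀ φ : ℂ → Gp n, HolCurve φ → ∀ i j, Differentiable ℂ fun z => ρ (φ z) i j

theorem xhol_conj {ρ : Gp n →* Matrix ι ι ℂ} (hρ : XHol ρ) (B Bi : Matrix ι ι ℂ)
    (h : Bi * B = 1) (h' : B * Bi = 1) : XHol (xconj ρ B Bi h h') := by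
  intro φ hφ i j
  have h1 : (fun z => xconj ρ B Bi h h' (φ z) i j) = fun z =>
      ∑ l, (∑ m, B i m * ρ (φ z) m l) * Bi l j := by
    funext z
    show (B * ρ (φ z) * Bi) i j = _
    rw [Matrix.mul_apply]
    refine Finset.sum_congr rfl fun l _ => ?_
    rw [Matrix.mul_apply]
  rw [h1]
  exact Differentiable.fun_sum fun l _ => (Differentiable.fun_sum fun m _ =>
    (hρ φ hφ m l).const_mul _).mul_const _

theorem xcont_conj {ρ : Gp n →* Matrix ι ι ℂ} (hρ : Continuous ρ) (B Bi : Matrix ι ι ℂ)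
    (h : Bi * B = 1) (h' : B * Bi = 1) : Continuous (xconj ρ B Bi h h') := by
  show Continuous fun g => B * ρ g * Bi
  exact (continuous_const.matrix_mul hρ).matrix_mul continuous_const

theorem xhol_dg (H : aa n) : HolCurve fun z : ℂ => dg H z := by
  intro i j
  have h1 : (fun z : ℂ => (dg H z : Matrix (Fin n) (Fin n) ℂ) i j) = fun z =>
      if i = j then Complex.exp (z * H.1 i) else 0 := by
    funext z
    rw [coe_dg, Matrix.diagonal_apply]
  rw [h1]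
  split_ifs
  · fun_prop
  · exact differentiable_const _

/-- the adjoint property, from unitarity on `SU(n)` -/
theorem xstar {ρ : Gp n →* Matrix ι ι ℂ} (hρ : XHol ρ)
    (hu : ∀ k ∈ SU n, (ρ k)ᴴ = ρ k⁻¹) (g : Gp n) : ρ (ct g) = (ρ g)ᴴ := by
  have hdg : ∀ H : aa n, (ρ (dg H 1))ᴴ = ρ (dg H 1) := by
    intro H
    ext i j
    rw [conjTranspose_apply]
    have hf : Differentiable ℂ fun z : ℂ =>
        ρ (dg H z) i j - (starRingEnd ℂ) (ρ (dg H ((starRingEnd ℂ) z)) j i) := by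
      refine (hρ _ (xhol_dg H) i j).sub fun z => ?_
      have h1 := (hρ _ (xhol_dg H) j i) ((starRingEnd ℂ) z)
      have h2 := h1.conj_conj
      rw [Complex.conj_conj] at h2
      exact h2
    have h3 := entire_const hf (c := 0) (fun t => ?_) 1
    · rw [map_one, sub_eq_zero] at h3
      exact h3.symm
    · have h4 : (starRingEnd ℂ) ((t : ℂ) * Complex.I) = -((t : ℂ) * Complex.I) := by
        rw [map_mul, Complex.conj_ofReal, Complex.conj_I, mul_neg]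
      have h5 := hu _ (dg_mem_SU H t)
      rw [dg_inv] at h5
      rw [h4, ← h5]
      show _ - star (star (ρ (dg H (t * Complex.I)) i j)) = 0
      rw [star_star, sub_self]
  obtain ⟨k₁, hk₁, k₂, hk₂, H, rfl⟩ := svd g
  rw [ct_mul, ct_mul, map_mul, map_mul, map_mul, map_mul, conjTranspose_mul, conjTranspose_mul,
    hdg, hu _ hk₁, hu _ hk₂, ← mem_SU.1 hk₁, ← mem_SU.1 hk₂, ct_dg]
  simp only [star_one]

theorem exists_star {ρ : Gp n →* Matrix ι ι ℂ} (hc : Continuous ρ) (hρ : XHol ρ) :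
    ∃ (B Bi : Matrix ι ι ℂ) (h : Bi * B = 1) (h' : B * Bi = 1),
      ∀ g, xconj ρ B Bi h h' (ct g) = (xconj ρ B Bi h h' g)ᴴ := by
  obtain ⟨B, Bi, hA, h', h⟩ := xsq (xav_posDef ρ hc)
  refine ⟨B, Bi, h, h', xstar (xhol_conj hρ B Bi h h') fun k hk => ?_⟩
  have h1 := xav_inv ρ hc hk
  rw [hA] at h1
  have h2 : (xconj ρ B Bi h h' k)ᴴ * xconj ρ B Bi h h' k = 1 := by
    show (B * ρ k * Bi)ᴴ * (B * ρ k * Bi) = 1
    rw [conjTranspose_mul, conjTranspose_mul]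
    calc Biᴴ * ((ρ k)ᴴ * Bᴴ) * (B * ρ k * Bi) = Biᴴ * ((ρ k)ᴴ * (Bᴴ * B) * ρ k) * Bi := by
          simp only [mul_assoc]
      _ = (B * Bi)ᴴ * (B * Bi) := by
          rw [h1, conjTranspose_mul]
          simp only [mul_assoc]
      _ = 1 := by rw [h', conjTranspose_one, mul_one]
  calc (xconj ρ B Bi h h' k)ᴴ = (xconj ρ B Bi h h' k)ᴴ * (xconj ρ B Bi h h' k *
        xconj ρ B Bi h h' k⁻¹) := by rw [← map_mul, mul_inv_cancel, map_one, mul_one]
    _ = xconj ρ B Bi h h' k⁻¹ := by rw [← mul_assoc, h2, one_mul]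

end Pool.Agent.SG
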