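import Pool.Agent.H.MP_e23cd6_ag.SG.XRep

/-!
# Integral weights; the representation theorem
-/

set_option autoImplicit false

namespace Pool.Agent.SG

open Matrix Topology Filter Set

/-- entire multiplicative functions -/
theorem xexp {f : ℂ → ℂ} (hf : Differentiable ℂ f) (h0 : f 0 = 1)
    (hm : ∀ z w, f (z + w) = f z * f w) (hp : f (2 * Real.pi * Complex.I) = 1) :
    ∃ m : ℤ, ∀ z, f z = Complex.exp (m * z) := by
  set c := deriv f 0 with hc
  have hd : ∀ z, HasDerivAt f (f z * c) z := by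
    intro z
    have h1 : HasDerivAt (fun w => f (z + w)) (f z * c) 0 := by
      have h2 : (fun w => f (z + w)) = fun w => f z * f w := by
        funext w
        exact hm z w
      rw [h2]
      exact (hf 0).hasDerivAt.const_mul (f z)
    have h3 : HasDerivAt (fun w => f (z + w)) (deriv f z) 0 := by
      have h4 : HasDerivAt f (deriv f z) (z + 0) := by
        rw [add_zero]
        exact (hf z).hasDerivAt
      exact h4.comp_const_add z 0
    rw [h1.unique h3]
    exact (hf z).hasDerivAt
  have hg : ∀ z, f z * Complex.exp (-(c * z)) = 1 := by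
    have h1 : ∀ z, HasDerivAt (fun z => f z * Complex.exp (-(c * z))) 0 z := by
      intro z
      have h2 : HasDerivAt (fun z : ℂ => -(c * z)) (-c) z := by
        have h3 := ((hasDerivAt_id z).const_mul c).neg
        rw [mul_one] at h3
        exact h3
      have h4 := (hd z).mul h2.cexp
      have h5 : f z * c * Complex.exp (-(c * z)) + f z * (Complex.exp (-(c * z)) * -c) = 0 := by
        ring
      rw [h5] at h4
      exact h4
    intro z
    have h6 := is_const_of_deriv_eq_zero (fun z => (h1 z).differentiableAt)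
      (fun z => (h1 z).deriv) z 0
    rw [h6, h0, mul_zero, neg_zero, Complex.exp_zero, mul_one]
  have hfz : ∀ z, f z = Complex.exp (c * z) := by
    intro z
    have h1 := hg z
    calc f z = f z * Complex.exp (-(c * z)) * Complex.exp (c * z) := by
          rw [mul_assoc, ← Complex.exp_add, neg_add_cancel, Complex.exp_zero, mul_one]
      _ = Complex.exp (c * z) := by rw [h1, one_mul]
  rw [hfz, Complex.exp_eq_one_iff] at hp
  obtain ⟨m, hm'⟩ := hp
  refine ⟨m, fun z => ?_⟩
  have hpi : (2 * (Real.pi : ℂ) * Complex.I) ≠ 0 := by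
    simp [Real.pi_ne_zero, Complex.I_ne_zero]
  rw [hfz, mul_right_cancel₀ hpi hm']

variable {n : ℕ} {ι : Type} [Fintype ι] [DecidableEq ι]

/-- the diagonal matrix with the entries `exp (x i)`, except that the entry at `l` is changed such
that the determinant is one -/
noncomputable def xPhi (l : Fin n) (x : Fin n → ℂ) : Gp n :=
  dgT (fun i => Complex.exp (x i - if i = l then ∑ j, x j else 0)) (by
    rw [← Complex.exp_sum, Finset.sum_sub_distrib, Finset.sum_ite_eq' Finset.univ l]
    simp)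

theorem coe_xPhi (l : Fin n) (x : Fin n → ℂ) : (xPhi l x : Matrix (Fin n) (Fin n) ℂ) =
    Matrix.diagonal fun i => Complex.exp (x i - if i = l then ∑ j, x j else 0) := rfl

theorem xPhi_add (l : Fin n) (x y : Fin n → ℂ) : xPhi l (x + y) = xPhi l x * xPhi l y := by
  apply gp_ext
  rw [coe_gmul, coe_xPhi, coe_xPhi, coe_xPhi, Matrix.diagonal_mul_diagonal]
  congr 1
  funext i
  rw [← Complex.exp_add]
  congr 1
  split_ifs
  · simp only [Pi.add_apply, Finset.sum_add_distrib]
    ring
  · simp only [Pi.add_apply]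
    ring

theorem xPhi_zero (l : Fin n) : xPhi l 0 = 1 := by
  apply gp_ext
  rw [coe_gone, coe_xPhi]
  simp

theorem xPhi_period (l j : Fin n) : xPhi l (Pi.single j (2 * Real.pi * Complex.I)) = 1 := by
  apply gp_ext
  rw [coe_gone, coe_xPhi, ← Matrix.diagonal_one]
  congr 1
  funext i
  rw [Finset.sum_pi_single' j, if_pos (Finset.mem_univ _), Complex.exp_eq_one_iff]
  by_cases h1 : i = j
  · subst h1
    rw [Pi.single_eq_same]
    split_ifs
    · exact ⟨0, by simp⟩
    · exact ⟨1, by simp⟩
  · rw [Pi.single_eq_of_ne h1]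
    split_ifs
    · exact ⟨-1, by simp⟩
    · exact ⟨0, by simp⟩

theorem xPhi_hol (l j : Fin n) : HolCurve fun z => xPhi l (Pi.single j z) := by
  intro i k
  have h1 : (fun z : ℂ => (xPhi l (Pi.single j z) : Matrix (Fin n) (Fin n) ℂ) i k) = fun z =>
      if i = k then Complex.exp ((if i = j then z else 0) - if i = l then z else 0) else 0 := by
    funext z
    rw [coe_xPhi, Matrix.diagonal_apply, Finset.sum_pi_single' j, if_pos (Finset.mem_univ _)]
    congr 3
    exact Pi.single_apply _ _ _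
  rw [h1]
  split_ifs <;> fun_prop

theorem xPhi_prod (l : Fin n) (x : Fin n → ℂ) :
    ∏ i, Complex.exp (x i - if i = l then ∑ j, x j else 0) = 1 := by
  rw [← Complex.exp_sum, Finset.sum_sub_distrib, Finset.sum_ite_eq' Finset.univ l]
  simp

/-- integrality of the weights -/
theorem xwt {ρ : Gp n →* Matrix ι ι ℂ} (hρ : XHol ρ)
    (hd : ∀ (τ : Fin n → ℂ) (h : ∏ i, τ i = 1), ∃ d, ρ (dgT τ h) = Matrix.diagonal d) :
    ∃ wt : ι → Fin n → ℤ, ∀ (τ : Fin n → ℂ) (h : ∏ i, τ i = 1),
      ρ (dgT τ h) = Matrix.diagonal fun i => ∏ j, τ j ^ wt i j := by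
  rcases Nat.eq_zero_or_pos n with rfl | hn
  · refine ⟨fun _ _ => 0, fun τ h => ?_⟩
    have h1 : dgT τ h = 1 := gp_ext (Subsingleton.elim _ _)
    rw [h1, map_one, ← Matrix.diagonal_one]
    congr 1
  · let l : Fin n := ⟨0, hn⟩
    have hdx : ∀ x : Fin n → ℂ, ∃ d, ρ (xPhi l x) = Matrix.diagonal d := fun x =>
      hd _ (xPhi_prod l x)
    have hmul : ∀ (x y : Fin n → ℂ) (α : ι), ρ (xPhi l (x + y)) α α =
        ρ (xPhi l x) α α * ρ (xPhi l y) α α := by
      intro x y α
      obtain ⟨d, h1⟩ := hdx x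
      obtain ⟨e, h2⟩ := hdx y
      rw [xPhi_add, map_mul, h1, h2, Matrix.diagonal_mul_diagonal, Matrix.diagonal_apply_eq,
        Matrix.diagonal_apply_eq, Matrix.diagonal_apply_eq]
    have hzero : ∀ α : ι, ρ (xPhi l 0) α α = 1 := fun α => by
      rw [xPhi_zero, map_one, Matrix.one_apply_eq]
    have hj : ∀ (α : ι) (j : Fin n), ∃ m : ℤ, ∀ z : ℂ,
        ρ (xPhi l (Pi.single j z)) α α = Complex.exp (m * z) := by
      intro α j
      refine xexp (hρ _ (xPhi_hol l j) α α) ?_ (fun z w => ?_) ?_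
      · rw [Pi.single_zero, hzero]
      · rw [Pi.single_add, hmul]
      · rw [xPhi_period, map_one, Matrix.one_apply_eq]
    choose wt hwt using hj
    refine ⟨wt, fun τ h => ?_⟩
    have hτ : ∀ j, τ j ≠ 0 := fun j h0 => by
      rw [Finset.prod_eq_zero (Finset.mem_univ j) h0] at h
      exact zero_ne_one h
    have h1 : dgT τ h = xPhi l fun j => Complex.log (τ j) := by
      apply gp_ext
      rw [coe_xPhi]
      show Matrix.diagonal τ = _
      congr 1
      funext i
      have h2 : Complex.exp (∑ j, Complex.log (τ j)) = 1 := by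
        rw [Complex.exp_sum, ← h]
        exact Finset.prod_congr rfl fun j _ => Complex.exp_log (hτ j)
      split_ifs
      · rw [Complex.exp_sub, h2, div_one, Complex.exp_log (hτ i)]
      · rw [sub_zero, Complex.exp_log (hτ i)]
    have hsum : ∀ (α : ι) (x : Fin n → ℂ) (s : Finset (Fin n)),
        ρ (xPhi l (∑ j ∈ s, Pi.single j (x j))) α α =
          ∏ j ∈ s, ρ (xPhi l (Pi.single j (x j))) α α := by
      intro α x s
      induction s using Finset.induction_on with
      | empty => rw [Finset.sum_empty, Finset.prod_empty, hzero]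
      | insert a s ha ih => rw [Finset.sum_insert ha, Finset.prod_insert ha, hmul, ih]
    obtain ⟨d, h3⟩ := hd τ h
    rw [h3]
    congr 1
    funext α
    have h4 : d α = ρ (dgT τ h) α α := by rw [h3, Matrix.diagonal_apply_eq]
    rw [h4, h1]
    have h5 : (fun j => Complex.log (τ j)) = ∑ j, Pi.single j (Complex.log (τ j)) :=
      (Finset.univ_sum_single _).symm
    rw [h5, hsum α (fun j => Complex.log (τ j))]
    refine Finset.prod_congr rfl fun j _ => ?_
    rw [hwt, Complex.exp_int_mul, Complex.exp_log (hτ j)]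

theorem xconj_conj (ρ : Gp n →* Matrix ι ι ℂ) (B Bi U V : Matrix ι ι ℂ) (h : Bi * B = 1)
    (h' : B * Bi = 1) (hU : U * V = 1) (hV : V * U = 1) (g : Gp n) :
    xconj (xconj ρ B Bi h h') V U hU hV g = (V * B) * ρ g * (Bi * U) := by
  show V * (B * ρ g * Bi) * U = _
  simp only [mul_assoc]

/-- **The representation theorem**: a continuous homomorphism from `SL_n(ℂ)` to matrices, which is
holomorphic along holomorphic curves, is conjugate to a `Rep`. -/
theorem exists_rep (ρ : Gp n →* Matrix ι ι ℂ) (hc : Continuous ρ)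
    (hh : ∀ φ : ℂ → Gp n, HolCurve φ → ∀ i j, Differentiable ℂ fun z => ρ (φ z) i j) :
    ∃ (R : Rep n ι) (P Pi : Matrix ι ι ℂ), P * Pi = 1 ∧ Pi * P = 1 ∧
      ∀ g, R.ρ g = P * ρ g * Pi := by
  obtain ⟨B, Bi, h, h', hstar⟩ := exists_star hc hh
  have hc1 : Continuous (xconj ρ B Bi h h') := xcont_conj hc B Bi h h'
  have hh1 : XHol (xconj ρ B Bi h h') := xhol_conj hh B Bi h h'
  obtain ⟨U, hU, hU', hdiag⟩ := xdiag
    (fun x : {τ : Fin n → ℂ // ∏ i, τ i = 1} => xconj ρ B Bi h h' (dgT x.1 x.2))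
    (fun x y => by
      rw [← map_mul, ← map_mul]
      congr 1
      apply gp_ext
      rw [coe_gmul, coe_gmul]
      show Matrix.diagonal x.1 * Matrix.diagonal y.1 = Matrix.diagonal y.1 * Matrix.diagonal x.1
      rw [Matrix.diagonal_mul_diagonal, Matrix.diagonal_mul_diagonal]
      congr 1
      funext i
      exact mul_comm _ _)
    (fun x => by
      refine ⟨⟨star x.1, ?_⟩, ?_⟩
      · show ∏ i, star (x.1 i) = 1
        rw [← star_prod, x.2, star_one]
      · rw [← hstar]
        congr 1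
        apply gp_ext
        rw [coe_ct]
        exact Matrix.diagonal_conjTranspose x.1)
  have hc2 : Continuous (xconj (xconj ρ B Bi h h') Uᴴ U hU' hU) := xcont_conj hc1 _ _ _ _
  have hh2 : XHol (xconj (xconj ρ B Bi h h') Uᴴ U hU' hU) := xhol_conj hh1 _ _ _ _
  obtain ⟨wt, hwt⟩ := xwt hh2 fun τ hτ => hdiag ⟨τ, hτ⟩
  refine ⟨⟨xconj (xconj ρ B Bi h h') Uᴴ U hU' hU, hc2, fun g => ?_, wt, hwt⟩, Uᴴ * B, Bi * U,
    ?_, ?_, fun g => xconj_conj ρ B Bi U Uᴴ h h' hU' hU g⟩
  · show Uᴴ * xconj ρ B Bi h h' (ct g) * U = (Uᴴ * xconj ρ B Bi h h' g * U)ᴴ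
    rw [hstar, conjTranspose_mul, conjTranspose_mul, conjTranspose_conjTranspose, mul_assoc]
  · calc Uᴴ * B * (Bi * U) = Uᴴ * (B * Bi) * U := by simp only [mul_assoc]
      _ = 1 := by rw [h', mul_one, hU]
  · calc Bi * U * (Uᴴ * B) = Bi * (U * Uᴴ) * B := by simp only [mul_assoc]
      _ = 1 := by rw [hU', mul_one, h]

end Pool.Agent.SG
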