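import Pool.Agent.H.MP_e23cd6_ag.SG.XRepT

/-!
# Finite dimensional spaces with a linear action of `SL_n(ℂ)` and a separating family of functionals
-/

set_option autoImplicit false

namespace Pool.Agent.SG

open Matrix Topology Filter Set Module

variable {n : ℕ}

/-- the inverse of a holomorphic curve -/
theorem HolCurve.inv {φ : ℂ → Gp n} (h : HolCurve φ) : HolCurve fun z => (φ z)⁻¹ := by
  intro i j
  have h1 : (fun z => (((φ z)⁻¹ : Gp n) : Matrix (Fin n) (Fin n) ℂ) i j) = fun z =>
      ∑ σ : Equiv.Perm (Fin n), ((Equiv.Perm.sign σ : ℤ) : ℂ) *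
        ∏ k, if σ k = j then (Pi.single i (1 : ℂ) : Fin n → ℂ) k else
          (φ z : Matrix (Fin n) (Fin n) ℂ) (σ k) k := by
    funext z
    rw [Matrix.SpecialLinearGroup.coe_inv, Matrix.adjugate_apply, Matrix.det_apply']
    refine Finset.sum_congr rfl fun σ _ => ?_
    congr 1
    refine Finset.prod_congr rfl fun k _ => ?_
    rw [Matrix.updateRow_apply]
  rw [h1]
  refine Differentiable.fun_sum fun σ _ => Differentiable.const_mul ?_ _
  refine Differentiable.fun_finset_prod fun k _ => ?_
  split_ifs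
  · exact differentiable_const _
  · exact h _ _

/-- The functions `g ↦ F (τ g v)` for all functionals `F`. -/
theorem xvec_all {V P : Type} [AddCommGroup V] [Module ℂ V] [FiniteDimensional ℂ V]
    (ev : P → V →ₗ[ℂ] ℂ) (hsep : ∀ v, (∀ p, ev p v = 0) → v = 0) :
    Submodule.span ℂ (Set.range ev) = (⊤ : Submodule ℂ (Module.Dual ℂ V)) := by
  have h1 : (Submodule.span ℂ (Set.range ev)).dualCoannihilator = ⊥ := by
    rw [eq_bot_iff]
    intro v hv
    rw [Submodule.mem_dualCoannihilator] at hv
    rw [Submodule.mem_bot]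
    exact hsep v fun p => hv _ (Submodule.subset_span ⟨p, rfl⟩)
  have h2 := Subspace.dualCoannihilator_dualAnnihilator_eq
    (W := (Submodule.span ℂ (Set.range ev) : Subspace ℂ (Module.Dual ℂ V)))
  rw [h1, Submodule.dualAnnihilator_bot] at h2
  exact h2.symm

/-- A finite dimensional space with a linear action of `SL_n(ℂ)`, such that the functions
`g ↦ ev p (g v)` are continuous, and holomorphic along holomorphic curves, for a separating family
of functionals `ev p`, has a spanning family which transforms by a `Rep`. -/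
theorem exists_rep_of {V P : Type} [AddCommGroup V] [Module ℂ V] [FiniteDimensional ℂ V]
    (τ : Gp n → V →ₗ[ℂ] V) (h1 : ∀ v, τ 1 v = v) (hm : ∀ g h v, τ (g * h) v = τ g (τ h v))
    (ev : P → V →ₗ[ℂ] ℂ) (hsep : ∀ v, (∀ p, ev p v = 0) → v = 0)
    (hcont : ∀ p v, Continuous fun g => ev p (τ g v))
    (hhol : ∀ p v (φ : ℂ → Gp n), HolCurve φ → Differentiable ℂ fun z => ev p (τ (φ z) v)) :
    ∃ (d : ℕ) (R : Rep n (Fin d)) (σ : Fin d → V),
      (∀ v, ∃ c : Fin d → ℂ, v = ∑ α, c α • σ α) ∧
      (∀ g α, τ g⁻¹ (σ α) = ∑ β, R.ρ g α β • σ β) ∧ d = finrank ℂ V := by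
  have hF : ∀ F : Module.Dual ℂ V, (∀ v, Continuous fun g => F (τ g v)) ∧
      ∀ v (φ : ℂ → Gp n), HolCurve φ → Differentiable ℂ fun z => F (τ (φ z) v) := by
    intro F
    have hF : F ∈ Submodule.span ℂ (Set.range ev) := by
      rw [xvec_all ev hsep]
      trivial
    induction hF using Submodule.span_induction with
    | mem x hx =>
      obtain ⟨p, rfl⟩ := hx
      exact ⟨hcont p, hhol p⟩
    | zero =>
      refine ⟨fun v => ?_, fun v φ hφ => ?_⟩
      · simp only [LinearMap.zero_apply]
        exact continuous_const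
      · simp only [LinearMap.zero_apply]
        exact differentiable_const _
    | add x y _ _ hx hy =>
      refine ⟨fun v => ?_, fun v φ hφ => ?_⟩
      · simp only [LinearMap.add_apply]
        exact (hx.1 v).add (hy.1 v)
      · simp only [LinearMap.add_apply]
        exact (hx.2 v φ hφ).fun_add (hy.2 v φ hφ)
    | smul c x _ hx =>
      refine ⟨fun v => ?_, fun v φ hφ => ?_⟩
      · simp only [LinearMap.smul_apply]
        exact continuous_const.mul (hx.1 v)
      · simp only [LinearMap.smul_apply]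
        exact (hx.2 v φ hφ).const_mul c
  let b := finBasis ℂ V
  have hcomp : ∀ g h, τ (g * h) = (τ g).comp (τ h) := fun g h => LinearMap.ext (hm g h)
  let ρ : Gp n →* Matrix (Fin (finrank ℂ V)) (Fin (finrank ℂ V)) ℂ :=
    { toFun := fun g => (LinearMap.toMatrix b b (τ g⁻¹))ᵀ
      map_one' := by
        have h2 : τ 1⁻¹ = LinearMap.id := by
          rw [inv_one]
          exact LinearMap.ext h1
        rw [h2, LinearMap.toMatrix_id, Matrix.transpose_one]
      map_mul' := fun g h => by
        rw [_root_.mul_inv_rev, hcomp, LinearMap.toMatrix_comp b b b, Matrix.transpose_mul] }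
  have hρ : ∀ g i j, ρ g i j = b.coord j (τ g⁻¹ (b i)) := by
    intro g i j
    show (LinearMap.toMatrix b b (τ g⁻¹))ᵀ i j = _
    rw [Matrix.transpose_apply, LinearMap.toMatrix_apply]
    rfl
  obtain ⟨R, Q, Qi, hQ, hQ', hR⟩ := exists_rep ρ (by
    refine continuous_matrix fun i j => ?_
    simp only [hρ]
    exact ((hF (b.coord j)).1 (b i)).comp continuous_inv) (by
    intro φ hφ i j
    simp only [hρ]
    exact (hF (b.coord j)).2 (b i) (fun z => (φ z)⁻¹) hφ.inv)
  have hτ : ∀ g i, τ g⁻¹ (b i) = ∑ j, ρ g i j • b j := by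
    intro g i
    rw [← b.sum_repr (τ g⁻¹ (b i))]
    refine Finset.sum_congr rfl fun j _ => ?_
    rw [hρ]
    rfl
  have hsm : ∀ (A B : Matrix (Fin (finrank ℂ V)) (Fin (finrank ℂ V)) ℂ) (i : Fin (finrank ℂ V)),
      ∑ α, A i α • ∑ β, B α β • b β = ∑ β, (A * B) i β • b β := by
    intro A B i
    simp only [Finset.smul_sum, smul_smul]
    rw [Finset.sum_comm]
    refine Finset.sum_congr rfl fun β _ => ?_
    rw [Matrix.mul_apply, Finset.sum_smul]
  refine ⟨finrank ℂ V, R, fun α => ∑ β, Q α β • b β, fun v => ?_, fun g α => ?_, rfl⟩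
  · refine ⟨fun α => ∑ i, b.repr v i * Qi i α, ?_⟩
    have h2 : ∀ i, b i = ∑ α, Qi i α • ∑ β, Q α β • b β := by
      intro i
      rw [hsm, hQ']
      simp [Matrix.one_apply]
    calc v = ∑ i, b.repr v i • b i := (b.sum_repr v).symm
      _ = ∑ i, b.repr v i • ∑ α, Qi i α • ∑ β, Q α β • b β :=
          Finset.sum_congr rfl fun i _ => by rw [← h2 i]
      _ = ∑ α, (∑ i, b.repr v i * Qi i α) • ∑ β, Q α β • b β := by
          simp only [Finset.smul_sum (r := b.repr v _), smul_smul, Finset.sum_smul]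
          rw [Finset.sum_comm]
  · simp only [map_sum, map_smul, hτ]
    rw [hsm, hsm, hR, mul_assoc, mul_assoc, hQ', mul_one]

end Pool.Agent.SG
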